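import Pool.Agent.Lib.H46K.Defs

/-!
# H97G: from 3-connected graphs to all intrinsically knotted graphs (MP_5f89c9_gt), definitions

See `PROOF.md` in this folder.
-/

namespace H97G

open H46K

variable {V : Type*}

/-! ## Embeddings in which every cycle is unknotted -/

/-- every cycle is unknotted -/
def KL {G : SimpleGraph V} (f : SpatialGraph G) : Prop :=
  ∀ (v : V) (c : G.Walk v v), c.IsCycle → Unknot (f.poly c)

theorem not_isIK {G : SimpleGraph V} : ¬ IsIK G ↔ ∃ f : SpatialGraph G, KL f := by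
  unfold IsIK KL
  push Not
  rfl

/-! ## Odd links -/

/-- a pair of disjoint cycles with odd linking number -/
def OddPair {G : SimpleGraph V} (f : SpatialGraph G) (d : P3) {a b : V} (c₁ : G.Walk a a)
    (c₂ : G.Walk b b) : Prop :=
  c₁.IsCycle ∧ c₂.IsCycle ∧ List.Disjoint c₁.support c₂.support ∧
    lk2 d (f.poly c₁) (f.poly c₂) = 1

/-- there is an odd link -/
def HasOdd {G : SimpleGraph V} (f : SpatialGraph G) (d : P3) : Prop :=
  ∃ (a : V) (c₁ : G.Walk a a) (b : V) (c₂ : G.Walk b b), OddPair f d c₁ c₂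

/-- two unordered pairs of cycles are equal -/
def SamePair {G : SimpleGraph V} {a b a' b' : V} (c₁ : G.Walk a a) (c₂ : G.Walk b b)
    (c₁' : G.Walk a' a') (c₂' : G.Walk b' b') : Prop :=
  (c₁'.toSubgraph = c₁.toSubgraph ∧ c₂'.toSubgraph = c₂.toSubgraph) ∨
    (c₁'.toSubgraph = c₂.toSubgraph ∧ c₂'.toSubgraph = c₁.toSubgraph)

/-- there is at most one odd link -/
def AtMostOne {G : SimpleGraph V} (f : SpatialGraph G) (d : P3) : Prop :=
  ∀ (a : V) (c₁ : G.Walk a a) (b : V) (c₂ : G.Walk b b) (a' : V) (c₁' : G.Walk a' a') (b' : V)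
    (c₂' : G.Walk b' b'), OddPair f d c₁ c₂ → OddPair f d c₁' c₂' → SamePair c₁ c₂ c₁' c₂'

theorem exactlyOne_iff {G : SimpleGraph V} (f : SpatialGraph G) (d : P3) :
    ExactlyOneOddLink f d ↔ HasOdd f d ∧ AtMostOne f d := by
  constructor
  · rintro ⟨a, c₁, b, c₂, h1, h2, h3, h4, h5⟩
    refine ⟨⟨a, c₁, b, c₂, h1, h2, h3, h4⟩, ?_⟩
    rintro x p y q x' p' y' q' ⟨g1, g2, g3, g4⟩ ⟨k1, k2, k3, k4⟩
    have e1 := h5 x p y q g1 g2 g3 g4
    have e2 := h5 x' p' y' q' k1 k2 k3 k4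
    unfold SamePair
    rcases e1 with ⟨e1, e1'⟩ | ⟨e1, e1'⟩ <;> rcases e2 with ⟨e2, e2'⟩ | ⟨e2, e2'⟩ <;>
      simp only [e1, e1', e2, e2', true_and, and_true, true_or, or_true]
  · rintro ⟨⟨a, c₁, b, c₂, h⟩, h2⟩
    exact ⟨a, c₁, b, c₂, h.1, h.2.1, h.2.2.1, h.2.2.2, fun a' c₁' b' c₂' k1 k2 k3 k4 =>
      h2 a c₁ b c₂ a' c₁' b' c₂' h ⟨k1, k2, k3, k4⟩⟩

/-- An intrinsically knotted graph with less than `N` vertices with an embedding without odd
links. Such a graph does not exist by the theorem of Robertson, Seymour and Thomas. -/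
def NoOddEmb (N : ℕ) : Prop :=
  ∃ (n : ℕ) (H : SimpleGraph (Fin n)) (g : SpatialGraph H) (d : P3), n < N ∧ IsIK H ∧
    Generic g d ∧ ¬ HasOdd g d

/-! ## Graphs -/

/-- the edges inside `A` (the other vertices become isolated) -/
def restr (G : SimpleGraph V) (A : Set V) : SimpleGraph V where
  Adj a b := G.Adj a b ∧ a ∈ A ∧ b ∈ A
  symm := ⟨fun _ _ h => ⟨h.1.symm, h.2.2, h.2.1⟩⟩
  loopless := ⟨fun _ h => G.irrefl h.1⟩

/-- add the edge `u v` (if `u ≠ v`) -/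
def addE (G : SimpleGraph V) (u v : V) : SimpleGraph V where
  Adj a b := G.Adj a b ∨ (a ≠ b ∧ ((a = u ∧ b = v) ∨ (a = v ∧ b = u)))
  symm := ⟨fun a b h => by
    rcases h with h | ⟨h1, h2 | h2⟩
    · exact Or.inl h.symm
    · exact Or.inr ⟨h1.symm, Or.inr ⟨h2.2, h2.1⟩⟩
    · exact Or.inr ⟨h1.symm, Or.inl ⟨h2.2, h2.1⟩⟩⟩
  loopless := ⟨fun a h => by
    rcases h with h | ⟨h1, _⟩
    · exact G.irrefl h
    · exact h1 rfl⟩

/-! ## Geometry -/

/-- the origin -/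
def pO : P3 := (0, 0, 0)

/-- the point `(0, 0, 1)` -/
def pE : P3 := (0, 0, 1)

/-- the region `x > 0`, `0 < z < 1` -/
def Reg (X : P3) : Prop := 0 < X.1 ∧ 0 < X.2.2 ∧ X.2.2 < 1

/-- the region `x < 0`, `0 < z < 1` -/
def RegN (X : P3) : Prop := X.1 < 0 ∧ 0 < X.2.2 ∧ X.2.2 < 1

/-- contraction towards the `z`-axis -/
def thin (r : ℝ) (X : P3) : P3 := (r * X.1, r * X.2.1, X.2.2)

/-- reflection in the plane `x = 0` -/
def mir (X : P3) : P3 := (-X.1, X.2.1, X.2.2)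

/-- simple closed polygons (list of the successive vertices, the last one is joined to the first
one) -/
def SimpleC (l : List P3) : Prop :=
  ∃ (a : P3) (m : List P3) (z : P3), l = a :: (m ++ [z]) ∧ IsSimple l ∧ z ≠ a ∧
    segment ℝ z a ∩ arcSet l ⊆ {z, a}

end H97G
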