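import Pool.Agent.Lib.H97G.C3

/-!
# H97G: the final theorem

For every embedding of an intrinsically knotted graph: there are two different odd links, or there is
no odd link at all, or the graph is not 3-connected and an intrinsically knotted graph with fewer
vertices has an embedding without odd link. The last two cases are impossible by the theorem of
Robertson, Seymour and Thomas.
-/

namespace H97G

open H46K

/-- There are two different unordered pairs of disjoint cycles with odd linking number. -/
def TwoOdd {V : Type*} {G : SimpleGraph V} (f : SpatialGraph G) (d : P3) : Prop :=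
  ∃ (a : V) (c₁ : G.Walk a a) (b : V) (c₂ : G.Walk b b) (a' : V) (c₁' : G.Walk a' a') (b' : V)
    (c₂' : G.Walk b' b'), OddPair f d c₁ c₂ ∧ OddPair f d c₁' c₂' ∧ ¬ SamePair c₁ c₂ c₁' c₂'

theorem final {V : Type} [Fintype V] [DecidableEq V] (G : SimpleGraph V) (hIK : IsIK G)
    (f : SpatialGraph G) (d : P3) (hd : Generic f d) :
    TwoOdd f d ∨ ¬ HasOdd f d ∨ (¬ ThreeConn G ∧ NoOddEmb (Fintype.card V)) := by
  by_contra hc
  rw [not_or, not_or, not_not] at hc
  obtain ⟨h1, h2, h3⟩ := hc
  have h4 : AtMostOne f d := by
    intro a c₁ b c₂ a' c₁' b' c₂' k1 k2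
    by_contra hs
    exact h1 ⟨a, c₁, b, c₂, a', c₁', b', c₂', k1, k2, hs⟩
  have h5 : ExactlyOneOddLink f d := (exactlyOne_iff f d).2 ⟨h2, h4⟩
  by_cases h6 : ThreeConn G
  · exact H46K.main G h6 hIK f d hd h5
  · rcases finalC G hIK f d hd with h | h
    · exact h h5
    · exact h3 ⟨h6, h⟩

end H97G
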