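import Pool.Agent.Lib.H97G.D0
import Pool.Agent.Lib.H46K.TU3

/-!
# H97G module C, file C1: graphs with at most three vertices

Straight embedding in the vertices of a triangle. A cycle has length three.
-/

namespace H97G

open H46K

variable {V : Type*}

/-- The vertices of a triangle. -/
def C1e : Fin 3 → P3 := ![(0, 0, 0), (1, 0, 0), (0, 1, 0)]

/-- Barycentric coordinates. -/
def C1l (i : Fin 3) (x : P3) : ℝ := (![1 - x.1 - x.2.1, x.1, x.2.1] : Fin 3 → ℝ) i

theorem C1_le (i j : Fin 3) : C1l i (C1e j) = if i = j then 1 else 0 := by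
  fin_cases i <;> fin_cases j <;> simp [C1l, C1e]

theorem C1_z (i : Fin 3) : (C1e i).2.2 = 0 := by
  fin_cases i <;> simp [C1e]

theorem C1_seg {i j : Fin 3} {x : P3} (hx : x ∈ segment ℝ (C1e i) (C1e j)) :
    (∀ k, k ≠ i → k ≠ j → C1l k x = 0) ∧ x.2.2 = 0 := by
  obtain ⟨a, b, ha, hb, hab, rfl⟩ := hx
  constructor
  · intro k hi hj
    have h : C1l k (a • C1e i + b • C1e j) = a * C1l k (C1e i) + b * C1l k (C1e j) := by
      fin_cases k
      · simp only [C1l, Prod.fst_add, Prod.snd_add, Prod.smul_fst, Prod.smul_snd, smul_eq_mul]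
        show 1 - (a * (C1e i).1 + b * (C1e j).1) - (a * (C1e i).2.1 + b * (C1e j).2.1) =
          a * (1 - (C1e i).1 - (C1e i).2.1) + b * (1 - (C1e j).1 - (C1e j).2.1)
        linear_combination -hab
      · rfl
      · rfl
    rw [h, C1_le, C1_le, if_neg hi, if_neg hj, mul_zero, mul_zero, add_zero]
  · simp only [Prod.snd_add, Prod.smul_snd, smul_eq_mul, C1_z, mul_zero, add_zero]

theorem C1_inj : Function.Injective C1e := by
  intro i j h
  by_contra hne
  have h1 := C1_le i j
  rw [← h, C1_le, if_pos rfl, if_neg hne] at h1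
  exact one_ne_zero h1

theorem C1_eq (w : Fin 3) (x : P3) (h : ∀ k, k ≠ w → C1l k x = 0) (hz : x.2.2 = 0) :
    x = C1e w := by
  obtain ⟨x1, x2, x3⟩ := x
  have hz' : x3 = 0 := hz
  subst hz'
  fin_cases w
  · have h1 := h 1 (by decide)
    have h2 := h 2 (by decide)
    simp [C1l] at h1 h2
    simp [C1e, h1, h2]
  · have h1 := h 0 (by decide)
    have h2 := h 2 (by decide)
    simp [C1l] at h1 h2
    subst h2
    simp [C1e]
    linarith
  · have h1 := h 0 (by decide)
    have h2 := h 1 (by decide)
    simp [C1l] at h1 h2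
    subst h2
    simp [C1e]
    linarith

theorem C1_common (i j k l : Fin 3) (hij : i ≠ j) (hkl : k ≠ l)
    (h1 : ¬ (i = k ∧ j = l)) (h2 : ¬ (i = l ∧ j = k)) :
    ∃ w, (w = i ∨ w = j) ∧ (w = k ∨ w = l) ∧
      ∀ m, m ≠ w → (m ≠ i ∧ m ≠ j) ∨ (m ≠ k ∧ m ≠ l) := by
  revert i j k l
  decide

theorem C1_arc {a b x : P3} (hx : x ∈ arcSet [a, b]) : x ∈ segment ℝ a b := by
  rcases hx with hx | hx
  · exact hx
  · rw [Set.mem_singleton_iff.1 hx]
    exact right_mem_segment ℝ a b

theorem C1_aff (i j k : Fin 3) (hij : i ≠ j) (hjk : j ≠ k) (hik : i ≠ k) :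
    AffineIndependent ℝ ![C1e i, C1e j, C1e k] := by
  apply affInd_of
  left
  revert hij hjk hik
  fin_cases i <;> fin_cases j <;> fin_cases k <;> simp [C1e]

/-- The straight embedding. -/
noncomputable def C1f (G : SimpleGraph V) (ι : V ↪ Fin 3) : SpatialGraph G where
  pt v := C1e (ι v)
  mid _ _ := []
  pt_inj := C1_inj.comp ι.injective
  mid_symm := fun _ _ _ => rfl
  simple := by
    intro u v h
    refine ⟨?_, ?_, trivial⟩
    · intro he
      exact h.ne (ι.injective (C1_inj he))
    · rintro x ⟨_, hx⟩
      exact hx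
  disj := by
    intro u v u' v' h h' hne x ⟨hx, hx'⟩
    have hs := C1_seg (C1_arc hx)
    have hs' := C1_seg (C1_arc hx')
    have h1 : ¬ (ι u = ι u' ∧ ι v = ι v') := by
      rintro ⟨h1, h2⟩
      apply hne
      rw [ι.injective h1, ι.injective h2]
    have h2 : ¬ (ι u = ι v' ∧ ι v = ι u') := by
      rintro ⟨h1, h2⟩
      apply hne
      rw [ι.injective h1, ι.injective h2, Sym2.eq_swap]
    obtain ⟨w, hw1, hw2, hw3⟩ := C1_common (ι u) (ι v) (ι u') (ι v')
      (fun he => h.ne (ι.injective he)) (fun he => h'.ne (ι.injective he)) h1 h2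
    have hx2 : x = C1e w := by
      apply C1_eq w x _ hs.2
      intro k hk
      rcases hw3 k hk with h3 | h3
      · exact hs.1 k h3.1 h3.2
      · exact hs'.1 k h3.1 h3.2
    rcases hw1 with rfl | rfl
    · refine ⟨u, Or.inl rfl, ?_, hx2⟩
      rcases hw2 with h3 | h3
      · exact Or.inl (ι.injective h3)
      · exact Or.inr (ι.injective h3)
    · refine ⟨v, Or.inr rfl, ?_, hx2⟩
      rcases hw2 with h3 | h3
      · exact Or.inl (ι.injective h3)
      · exact Or.inr (ι.injective h3)
  vert := by
    intro u v w _ hw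
    have hs := C1_seg (C1_arc hw)
    by_contra hc
    rw [not_or] at hc
    have h1 := hs.1 (ι w) (fun he => hc.1 (ι.injective he)) (fun he => hc.2 (ι.injective he))
    rw [C1_le, if_pos rfl] at h1
    exact one_ne_zero h1

/-- A graph with at most three vertices has an embedding in which every cycle is unknotted. -/
theorem small [Fintype V] (hV : Fintype.card V ≤ 3) (G : SimpleGraph V) :
    ∃ f : SpatialGraph G, KL f := by
  obtain ⟨ι⟩ := Function.Embedding.nonempty_of_card_le
    (show Fintype.card V ≤ Fintype.card (Fin 3) by rw [Fintype.card_fin]; exact hV)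
  refine ⟨C1f G ι, ?_⟩
  intro v c hc
  classical
  have h3 := hc.three_le_length
  have hlen : c.length ≤ 3 := by
    have h4 := hc.support_nodup
    have h5 := h4.length_le_card
    have h6 : c.support.tail.length = c.length := by
      rw [List.length_tail, SimpleGraph.Walk.length_support]
      rfl
    omega
  cases c with
  | nil => simp at h3
  | cons h1 p =>
    cases p with
    | nil => simp at h3
    | cons h2 q =>
      cases q with
      | nil => simp at h3
      | cons h4 r =>
        cases r with
        | nil =>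
          rename_i a b
          have hab := h2.ne
          have hvb := h4.ne.symm
          have hva := h1.ne
          exact Unknot.tri _ _ _ (C1_aff (ι v) (ι a) (ι b) (fun he => hva (ι.injective he))
            (fun he => hab (ι.injective he)) (fun he => hvb (ι.injective he)))
        | cons h5 s =>
          exfalso
          simp only [SimpleGraph.Walk.length_cons] at hlen
          omega

end H97G
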