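import Pool.Agent.Lib.H97G.IA

/-!
# H97G, module P: isolated vertices

The vertices outside of `A` are put on the `x`-axis far away.
-/

namespace H97G

open H46K

variable {V : Type*}

/-- everything of the embedding is bounded -/
theorem P1_bdd {W : Type*} [Finite W] {H : SimpleGraph W} (f : SpatialGraph H) :
    ∃ N : ℝ, (∀ w, (f.pt w).1 < N) ∧ ∀ a b, ∀ z ∈ arcSet (f.arc a b), z.1 < N := by
  have hc : IsCompact ((⋃ a, ⋃ b, arcSet (f.arc a b)) ∪ Set.range f.pt) := by
    refine IsCompact.union ?_ (Set.finite_range _).isCompact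
    exact isCompact_iUnion fun a => isCompact_iUnion fun b => arcSet_compact _
  obtain ⟨N, hN⟩ := (hc.image continuous_fst).bddAbove
  refine ⟨N + 1, fun w => ?_, fun a b z hz => ?_⟩
  · have := hN ⟨f.pt w, Or.inr ⟨w, rfl⟩, rfl⟩
    linarith
  · have := hN ⟨z, Or.inl (Set.mem_iUnion.mpr ⟨a, Set.mem_iUnion.mpr ⟨b, hz⟩⟩), rfl⟩
    linarith

open Classical in
/-- the new positions -/
noncomputable def P1_pt {A : Set V} {G : SimpleGraph V} (f : SpatialGraph (G.induce A)) (N : ℝ)
    (e : V → ℕ) (w : V) : P3 :=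
  if h : w ∈ A then f.pt ⟨w, h⟩ else (N + e w, 0, 0)

open Classical in
/-- the new bend points -/
noncomputable def P1_mid {A : Set V} {G : SimpleGraph V} (f : SpatialGraph (G.induce A))
    (x y : V) : List P3 :=
  if h : x ∈ A ∧ y ∈ A then f.mid ⟨x, h.1⟩ ⟨y, h.2⟩ else []

theorem P1_pt_in {A : Set V} {G : SimpleGraph V} (f : SpatialGraph (G.induce A)) (N : ℝ)
    (e : V → ℕ) {w : V} (h : w ∈ A) : P1_pt f N e w = f.pt ⟨w, h⟩ := by
  unfold P1_pt
  rw [dif_pos h]

theorem P1_pt_out {A : Set V} {G : SimpleGraph V} (f : SpatialGraph (G.induce A)) (N : ℝ)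
    (e : V → ℕ) {w : V} (h : w ∉ A) : P1_pt f N e w = (N + e w, 0, 0) := by
  unfold P1_pt
  rw [dif_neg h]

theorem P1_mid_in {A : Set V} {G : SimpleGraph V} (f : SpatialGraph (G.induce A)) {x y : V}
    (hx : x ∈ A) (hy : y ∈ A) : P1_mid f x y = f.mid ⟨x, hx⟩ ⟨y, hy⟩ := by
  unfold P1_mid
  rw [dif_pos ⟨hx, hy⟩]

/-- the new embedding -/
noncomputable def P1_emb {A : Set V} {G : SimpleGraph V} (hA : ∀ a b, G.Adj a b → a ∈ A ∧ b ∈ A)
    (f : SpatialGraph (G.induce A)) (N : ℝ)
    (e : V → ℕ) (he : Function.Injective e) (hN : ∀ w, (f.pt w).1 < N)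
    (hN' : ∀ a b, ∀ z ∈ arcSet (f.arc a b), z.1 < N) : SpatialGraph G where
  pt := P1_pt f N e
  mid := P1_mid f
  pt_inj := by
    intro x y hxy
    by_cases hx : x ∈ A
    · by_cases hy : y ∈ A
      · rw [P1_pt_in f N e hx, P1_pt_in f N e hy] at hxy
        exact congrArg Subtype.val (f.pt_inj hxy)
      · exfalso
        rw [P1_pt_in f N e hx, P1_pt_out f N e hy] at hxy
        have h1 := hN ⟨x, hx⟩
        rw [hxy] at h1
        have h2 : (0 : ℝ) ≤ e y := by positivity
        simp only at h1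
        linarith
    · by_cases hy : y ∈ A
      · exfalso
        rw [P1_pt_in f N e hy, P1_pt_out f N e hx] at hxy
        have h1 := hN ⟨y, hy⟩
        rw [← hxy] at h1
        have h2 : (0 : ℝ) ≤ e x := by positivity
        simp only at h1
        linarith
      · rw [P1_pt_out f N e hy, P1_pt_out f N e hx] at hxy
        have h1 := congrArg Prod.fst hxy
        simp only at h1
        apply he
        have : (e x : ℝ) = e y := by linarith
        exact_mod_cast this
  mid_symm := by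
    intro u v h
    obtain ⟨hu, hv⟩ := hA u v h
    rw [P1_mid_in f hu hv, P1_mid_in f hv hu]
    exact f.mid_symm ⟨u, hu⟩ ⟨v, hv⟩ h
  simple := by
    intro u v h
    obtain ⟨hu, hv⟩ := hA u v h
    rw [P1_mid_in f hu hv, P1_pt_in f N e hu, P1_pt_in f N e hv]
    exact f.simple ⟨u, hu⟩ ⟨v, hv⟩ h
  disj := by
    intro u v u' v' h h' hne x hx
    obtain ⟨hu, hv⟩ := hA u v h
    obtain ⟨hu', hv'⟩ := hA u' v' h'
    rw [P1_mid_in f hu hv, P1_pt_in f N e hu, P1_pt_in f N e hv, P1_mid_in f hu' hv',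
      P1_pt_in f N e hu', P1_pt_in f N e hv'] at hx
    obtain ⟨w, h1, h2, h3⟩ := f.disj ⟨u, hu⟩ ⟨v, hv⟩ ⟨u', hu'⟩ ⟨v', hv'⟩ h h' (by
      intro h4
      apply hne
      rcases Sym2.eq_iff.mp h4 with ⟨h5, h6⟩ | ⟨h5, h6⟩
      · have h7 : u = u' := congrArg Subtype.val h5
        have h8 : v = v' := congrArg Subtype.val h6
        rw [h7, h8]
      · have h7 : u = v' := congrArg Subtype.val h5
        have h8 : v = u' := congrArg Subtype.val h6
        rw [h7, h8, Sym2.eq_swap]) x hx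
    refine ⟨w.1, ?_, ?_, ?_⟩
    · rcases h1 with rfl | rfl
      · exact Or.inl rfl
      · exact Or.inr rfl
    · rcases h2 with rfl | rfl
      · exact Or.inl rfl
      · exact Or.inr rfl
    · rw [P1_pt_in f N e w.2]
      exact h3
  vert := by
    intro u v w h hw
    obtain ⟨hu, hv⟩ := hA u v h
    rw [P1_mid_in f hu hv, P1_pt_in f N e hu, P1_pt_in f N e hv] at hw
    by_cases hwA : w ∈ A
    · rw [P1_pt_in f N e hwA] at hw
      rcases f.vert ⟨u, hu⟩ ⟨v, hv⟩ ⟨w, hwA⟩ h hw with h1 | h1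
      · exact Or.inl (congrArg Subtype.val h1)
      · exact Or.inr (congrArg Subtype.val h1)
    · exfalso
      have h1 := hN' ⟨u, hu⟩ ⟨v, hv⟩ _ hw
      rw [P1_pt_out f N e hwA] at h1
      have h2 : (0 : ℝ) ≤ e w := by positivity
      simp only at h1
      linarith

theorem P1_poly {A : Set V} {G : SimpleGraph V} (hA : ∀ a b, G.Adj a b → a ∈ A ∧ b ∈ A)
    (f : SpatialGraph (G.induce A)) (N : ℝ)
    (e : V → ℕ) (he : Function.Injective e) (hN : ∀ w, (f.pt w).1 < N)
    (hN' : ∀ a b, ∀ z ∈ arcSet (f.arc a b), z.1 < N) {a b : A} (w : (G.induce A).Walk a b) :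
    (P1_emb hA f N e he hN hN').poly (w.map (SimpleGraph.Embedding.induce A).toHom) =
      f.poly w := by
  induction w with
  | nil => rfl
  | @cons a b c h p ih =>
    show P1_pt f N e a.1 :: (P1_mid f a.1 b.1 ++ _) = f.pt a :: (f.mid a b ++ f.poly p)
    rw [P1_pt_in f N e a.2, P1_mid_in f a.2 b.2]
    congr 2

theorem isol [Finite V] (G : SimpleGraph V) (A : Set V) (hA : ∀ a b, G.Adj a b → a ∈ A ∧ b ∈ A)
    (h : ∃ f : SpatialGraph (G.induce A), KL f) : ∃ f : SpatialGraph G, KL f := by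
  obtain ⟨f, hf⟩ := h
  obtain ⟨N, hN, hN'⟩ := P1_bdd f
  obtain ⟨n, ⟨eq⟩⟩ := Finite.exists_equiv_fin V
  have he : Function.Injective fun w : V => ((eq w : Fin n) : ℕ) :=
    Fin.val_injective.comp eq.injective
  refine ⟨P1_emb hA f N _ he hN hN', ?_⟩
  intro v c hc
  have hsup : ∀ x ∈ c.support, x ∈ A := by
    intro x hx
    classical
    by_contra hxA
    have : ∃ y, G.Adj x y := by
      have h2 : ¬ (c.rotate x hx).Nil := (hc.rotate hx).not_nil
      exact ⟨_, (c.rotate x hx).adj_snd h2⟩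
    obtain ⟨y, hy⟩ := this
    exact hxA (hA x y hy).1
  have h1 : (c.induce A hsup).map (SimpleGraph.Embedding.induce A).toHom = c :=
    SimpleGraph.Walk.map_induce c hsup
  have h2 : (c.induce A hsup).IsCycle := by
    have h3 : ((c.induce A hsup).map (SimpleGraph.Embedding.induce A).toHom).IsCycle := by
      rw [h1]
      exact hc
    exact h3.of_map
  have h4 := hf _ _ h2
  rw [← P1_poly hA f N _ he hN hN' (c.induce A hsup), h1] at h4
  exact h4

end H97G
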