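import Pool.Agent.Lib.H97G.RB

/-!
# H97G, module R, file RC: restrictions of embeddings
-/

namespace H97G

open H46K

variable {V : Type*}

theorem RC_edge {G : SimpleGraph V} {a b : V} (h : G.Adj a b) :
    (SimpleGraph.Walk.cons h SimpleGraph.Walk.nil : G.Walk a b).IsPath := by
  rw [SimpleGraph.Walk.cons_isPath_iff]
  refine ⟨SimpleGraph.Walk.IsPath.nil, ?_⟩
  rw [SimpleGraph.Walk.support_nil, List.mem_singleton]
  exact h.ne

theorem RC_edge_mem {G : SimpleGraph V} {a b : V} (h : G.Adj a b) (w : V)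
    (hw : w ∈ (SimpleGraph.Walk.cons h SimpleGraph.Walk.nil : G.Walk a b).support) :
    w = a ∨ w = b := by
  rw [SimpleGraph.Walk.support_cons, SimpleGraph.Walk.support_nil, List.mem_cons,
    List.mem_singleton] at hw
  exact hw

/-- the realization of an induced subgraph -/
def RC_ind (G : SimpleGraph V) (A : Set V) : TopMin G ((restr G A).induce A) where
  ι := Subtype.val
  inj := Subtype.val_injective
  R x y h := SimpleGraph.Walk.cons (show G.Adj x.1 y.1 from h.1) SimpleGraph.Walk.nil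
  path := fun x y h => RC_edge _
  symm := fun x y h => rfl
  inner := fun x y h z hz => by
    rcases RC_edge_mem _ _ hz with h1 | h1
    · exact Or.inl (Subtype.ext h1)
    · exact Or.inr (Subtype.ext h1)
  disj := fun x y h x' y' h' _ w hw hw' => by
    rcases RC_edge_mem _ _ hw with h1 | h1 <;> rcases RC_edge_mem _ _ hw' with h2 | h2
    · exact ⟨x, Or.inl rfl, Or.inl (Subtype.ext (h1.symm.trans h2)), h1⟩
    · exact ⟨x, Or.inl rfl, Or.inr (Subtype.ext (h1.symm.trans h2)), h1⟩
    · exact ⟨y, Or.inr rfl, Or.inl (Subtype.ext (h1.symm.trans h2)), h1⟩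
    · exact ⟨y, Or.inr rfl, Or.inr (Subtype.ext (h1.symm.trans h2)), h1⟩

theorem restrict_ind (G : SimpleGraph V) (f : SpatialGraph G) (d : P3) (hd : Generic f d)
    (h1 : AtMostOne f d) (A : Set V) :
    ∃ g : SpatialGraph ((restr G A).induce A), Generic g d ∧ AtMostOne g d :=
  ⟨(RC_ind G A).emb f, (RC_ind G A).emb_generic f d hd, (RC_ind G A).emb_atMostOne f d h1⟩

theorem RC_adj {G : SimpleGraph V} {A : Set V} {u v : V} {x y : A}
    (h : ((addE (restr G A) u v).induce A).Adj x y) (hG : ¬ G.Adj x.1 y.1) :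
    (x.1 = u ∧ y.1 = v) ∨ (x.1 = v ∧ y.1 = u) := by
  have h' : (G.Adj x.1 y.1 ∧ x.1 ∈ A ∧ y.1 ∈ A) ∨
      (x.1 ≠ y.1 ∧ ((x.1 = u ∧ y.1 = v) ∨ (x.1 = v ∧ y.1 = u))) := h
  rcases h' with h' | h'
  · exact absurd h'.1 hG
  · exact h'.2

theorem RC_adj1 {G : SimpleGraph V} {A : Set V} {u v : V} (huv : u ≠ v) {x y : A}
    (h : ((addE (restr G A) u v).induce A).Adj x y) (hG : ¬ G.Adj x.1 y.1) (hx : x.1 = u) :
    y.1 = v := by
  rcases RC_adj h hG with h1 | h1
  · exact h1.2
  · exact absurd (hx.symm.trans h1.1) huv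

theorem RC_adj2 {G : SimpleGraph V} {A : Set V} {u v : V} {x y : A}
    (h : ((addE (restr G A) u v).induce A).Adj x y) (hG : ¬ G.Adj x.1 y.1) (hx : ¬ x.1 = u) :
    x.1 = v ∧ y.1 = u := by
  rcases RC_adj h hG with h1 | h1
  · exact absurd h1.1 hx
  · exact h1

open Classical in
/-- the paths -/
noncomputable def RCw (G : SimpleGraph V) (A : Set V) (u v : V) (huv : u ≠ v) (Q : G.Walk u v)
    (x y : A) (h : ((addE (restr G A) u v).induce A).Adj x y) : G.Walk x.1 y.1 :=
  if hG : G.Adj x.1 y.1 then SimpleGraph.Walk.cons hG SimpleGraph.Walk.nil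
  else if hx : x.1 = u then Q.copy hx.symm (RC_adj1 huv h hG hx).symm
  else Q.reverse.copy (RC_adj2 h hG hx).1.symm (RC_adj2 h hG hx).2.symm

theorem RCw_path (G : SimpleGraph V) (A : Set V) (u v : V) (huv : u ≠ v) (Q : G.Walk u v)
    (hQ : Q.IsPath) (x y : A) (h : ((addE (restr G A) u v).induce A).Adj x y) :
    (RCw G A u v huv Q x y h).IsPath := by
  unfold RCw
  split_ifs with hG hx
  · exact RC_edge hG
  · rw [SimpleGraph.Walk.isPath_copy]
    exact hQ
  · rw [SimpleGraph.Walk.isPath_copy]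
    exact hQ.reverse

theorem RCw_symm (G : SimpleGraph V) (A : Set V) (u v : V) (huv : u ≠ v) (Q : G.Walk u v)
    (x y : A) (h : ((addE (restr G A) u v).induce A).Adj x y) :
    RCw G A u v huv Q y x h.symm = (RCw G A u v huv Q x y h).reverse := by
  unfold RCw
  by_cases hG : G.Adj x.1 y.1
  · rw [dif_pos hG, dif_pos hG.symm]
    rfl
  · have hG' : ¬ G.Adj y.1 x.1 := fun h' => hG h'.symm
    rw [dif_neg hG, dif_neg hG']
    by_cases hx : x.1 = u
    · have hy : ¬ y.1 = u := by
        rw [RC_adj1 huv h hG hx]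
        exact huv.symm
      rw [dif_pos hx, dif_neg hy, SimpleGraph.Walk.reverse_copy]
    · have hy := (RC_adj2 h hG hx).2
      rw [dif_neg hx, dif_pos hy, SimpleGraph.Walk.reverse_copy,
        SimpleGraph.Walk.reverse_reverse]

theorem RCw_in (G : SimpleGraph V) (A : Set V) (u v : V) (huv : u ≠ v) (Q : G.Walk u v)
    (hQA : ∀ w ∈ Q.support, w ∈ A → w = u ∨ w = v)
    (x y : A) (h : ((addE (restr G A) u v).induce A).Adj x y) (w : V)
    (hw : w ∈ (RCw G A u v huv Q x y h).support) (hA : w ∈ A) : w = x.1 ∨ w = y.1 := by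
  unfold RCw at hw
  split_ifs at hw with hG hx
  · exact RC_edge_mem _ _ hw
  · rw [SimpleGraph.Walk.support_copy] at hw
    rcases hQA w hw hA with h1 | h1
    · exact Or.inl (h1.trans hx.symm)
    · exact Or.inr (h1.trans (RC_adj1 huv h hG hx).symm)
  · rw [SimpleGraph.Walk.support_copy, SimpleGraph.Walk.support_reverse, List.mem_reverse] at hw
    rcases hQA w hw hA with h1 | h1
    · exact Or.inr (h1.trans (RC_adj2 h hG hx).2.symm)
    · exact Or.inl (h1.trans (RC_adj2 h hG hx).1.symm)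

theorem RCw_out (G : SimpleGraph V) (A : Set V) (u v : V) (huv : u ≠ v) (Q : G.Walk u v)
    (x y : A) (h : ((addE (restr G A) u v).induce A).Adj x y) (w : V)
    (hw : w ∈ (RCw G A u v huv Q x y h).support) (hA : w ∉ A) :
    (x.1 = u ∧ y.1 = v) ∨ (x.1 = v ∧ y.1 = u) := by
  by_cases hG : G.Adj x.1 y.1
  · unfold RCw at hw
    rw [dif_pos hG] at hw
    rcases RC_edge_mem _ _ hw with h1 | h1
    · exact absurd (h1 ▸ x.2) hA
    · exact absurd (h1 ▸ y.2) hA
  · exact RC_adj h hG

/-- the realization of an induced subgraph plus the edge `u v` -/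
noncomputable def RC_path (G : SimpleGraph V) (A : Set V) (u v : V) (huv : u ≠ v)
    (Q : G.Walk u v) (hQ : Q.IsPath) (hQA : ∀ w ∈ Q.support, w ∈ A → w = u ∨ w = v) :
    TopMin G ((addE (restr G A) u v).induce A) where
  ι := Subtype.val
  inj := Subtype.val_injective
  R := RCw G A u v huv Q
  path := RCw_path G A u v huv Q hQ
  symm := RCw_symm G A u v huv Q
  inner := fun x y h z hz => by
    rcases RCw_in G A u v huv Q hQA x y h z.1 hz z.2 with h1 | h1
    · exact Or.inl (Subtype.ext h1)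
    · exact Or.inr (Subtype.ext h1)
  disj := fun x y h x' y' h' hne w hw hw' => by
    by_cases hA : w ∈ A
    · refine ⟨⟨w, hA⟩, ?_, ?_, rfl⟩
      · rcases RCw_in G A u v huv Q hQA x y h w hw hA with h1 | h1
        · exact Or.inl (Subtype.ext h1)
        · exact Or.inr (Subtype.ext h1)
      · rcases RCw_in G A u v huv Q hQA x' y' h' w hw' hA with h1 | h1
        · exact Or.inl (Subtype.ext h1)
        · exact Or.inr (Subtype.ext h1)
    · exfalso
      apply hne
      rcases RCw_out G A u v huv Q x y h w hw hA with ⟨h1, h2⟩ | ⟨h1, h2⟩ <;>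
        rcases RCw_out G A u v huv Q x' y' h' w hw' hA with ⟨h3, h4⟩ | ⟨h3, h4⟩
      · rw [Subtype.ext (h1.trans h3.symm), Subtype.ext (h2.trans h4.symm)]
      · rw [Subtype.ext (h1.trans h4.symm), Subtype.ext (h2.trans h3.symm)]
        exact Sym2.eq_swap
      · rw [Subtype.ext (h1.trans h4.symm), Subtype.ext (h2.trans h3.symm)]
        exact Sym2.eq_swap
      · rw [Subtype.ext (h1.trans h3.symm), Subtype.ext (h2.trans h4.symm)]

theorem restrict_path (G : SimpleGraph V) (f : SpatialGraph G) (d : P3) (hd : Generic f d)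
    (h1 : AtMostOne f d) (A : Set V) (u v : V) (hu : u ∈ A) (hv : v ∈ A) (huv : u ≠ v)
    (hn : ¬ G.Adj u v) (Q : G.Walk u v) (hQ : Q.IsPath)
    (hQA : ∀ w ∈ Q.support, w ∈ A → w = u ∨ w = v) :
    ∃ g : SpatialGraph ((addE (restr G A) u v).induce A), Generic g d ∧ AtMostOne g d :=
  ⟨(RC_path G A u v huv Q hQ hQA).emb f, (RC_path G A u v huv Q hQ hQA).emb_generic f d hd,
    (RC_path G A u v huv Q hQ hQA).emb_atMostOne f d h1⟩

end H97G
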