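import Pool.Agent.Lib.H97G.Glue
import Pool.Agent.Lib.H97G.P1
import Pool.Agent.Lib.H97G.RC

/-!
# H97G module C, file C2: separations of order at most two

`hyp`: every graph on a proper subset of the vertices which has an embedding with at most one odd
link has an embedding in which every cycle is unknotted. Then the same holds for G if G has a
separation of order at most two.
-/

namespace H97G

open H46K

variable {V : Type*}

/-- A separation of order at most one: all neighbours of `C` are in `C` or equal to `u`, and there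
is a third vertex. -/
structure OneSep (G : SimpleGraph V) (C : Set V) (u : V) : Prop where
  ne : C.Nonempty
  nu : u ∉ C
  w : ∃ w, w ∉ C ∧ w ≠ u
  cl : ∀ a b, G.Adj a b → a ∈ C → b ∈ C ∨ b = u

/-- The hypothesis of the reduction. -/
def Hyp (V : Type*) (d : P3) : Prop :=
  ∀ (A : Set V) (K : SimpleGraph A), A ≠ Set.univ →
    (∃ g : SpatialGraph K, Generic g d ∧ AtMostOne g d) → ∃ f' : SpatialGraph K, KL f'

theorem C2_ind [Finite V] (G : SimpleGraph V) (f : SpatialGraph G) (d : P3) (hd : Generic f d)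
    (h1 : AtMostOne f d) (hyp : Hyp V d) (A : Set V) (hA : A ≠ Set.univ) :
    ∃ f' : SpatialGraph (restr G A), KL f' :=
  isol (restr G A) A (fun _ _ h => h.2) (hyp A _ hA (restrict_ind G f d hd h1 A))

theorem C2_addE (G : SimpleGraph V) (u v : V) : G ≤ addE G u v := fun _ _ h => Or.inl h

theorem C2_addE_adj (G : SimpleGraph V) {u v : V} (huv : u ≠ v) : (addE G u v).Adj u v :=
  Or.inr ⟨huv, Or.inl ⟨rfl, rfl⟩⟩

theorem C2_addE_le (G : SimpleGraph V) {u v : V} (h : G.Adj u v) : addE G u v ≤ G := by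
  intro a b hab
  rcases hab with hab | ⟨_, ⟨rfl, rfl⟩ | ⟨rfl, rfl⟩⟩
  · exact hab
  · exact h
  · exact h.symm

/-- A vertex with two neighbours. -/
def C2_deg (G : SimpleGraph V) (x : V) : Prop := ∃ y z, y ≠ z ∧ G.Adj x y ∧ G.Adj x z

/-- Separations of order at most one: a vertex with two neighbours on the side `C`. -/
theorem C2_one [Fintype V] [DecidableEq V] (G : SimpleGraph V) (f : SpatialGraph G) (d : P3)
    (hd : Generic f d) (h1 : AtMostOne f d) (hyp : Hyp V d) (C : Set V) (u : V)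
    (h : OneSep G C u) (x : V) (hxC : x ∈ C) (hx : C2_deg G x) :
    ∃ f' : SpatialGraph G, KL f' := by
  obtain ⟨y, z, hyz, hy, hz⟩ := hx
  have hCu : C ≠ (Set.univ : Set V) := by
    intro he
    apply h.nu
    rw [he]
    trivial
  by_cases ht : ∃ t ∈ C, G.Adj u t
  · obtain ⟨t, ht1, ht2⟩ := ht
    obtain ⟨t', ht', htt⟩ : ∃ t' ∈ C, t' ≠ t := by
      by_cases hxt : x = t
      · rcases h.cl x y hy hxC with h2 | h2
        · exact ⟨y, h2, fun h3 => hy.ne (hxt.trans h3.symm)⟩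
        · rcases h.cl x z hz hxC with h3 | h3
          · exact ⟨z, h3, fun h4 => hz.ne (hxt.trans h4.symm)⟩
          · exact absurd (h2.trans h3.symm) hyz
      · exact ⟨x, hxC, hxt⟩
    have hut : u ≠ t := ht2.ne
    have hA : Cᶜ ∪ {t} ≠ (Set.univ : Set V) := by
      intro he
      have : t' ∈ Cᶜ ∪ {t} := by
        rw [he]
        trivial
      rcases this with h2 | h2
      · exact h2 ht'
      · exact htt h2
    obtain ⟨w, hw1, hw2⟩ := h.w
    have hB : C ∪ {u} ≠ (Set.univ : Set V) := by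
      intro he
      have : w ∈ C ∪ {u} := by
        rw [he]
        trivial
      rcases this with h2 | h2
      · exact hw1 h2
      · exact hw2 h2
    refine kl_mono (C2_addE G u t) (glue G (Cᶜ ∪ {t}) (C ∪ {u}) u t hut (Or.inl h.nu)
      (Or.inr rfl) (Or.inr rfl) (Or.inl ht1) ?_ ?_ ?_ ?_ ?_)
    · intro w
      by_cases hw : w ∈ C
      · exact Or.inr (Or.inl hw)
      · exact Or.inl (Or.inl hw)
    · rintro w (hw | hw) (hw' | hw')
      · exact absurd hw' hw
      · exact Or.inl hw'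
      · exact Or.inr hw
      · exact Or.inr hw
    · intro a b hab
      by_cases ha : a ∈ C
      · right
        exact ⟨Or.inl ha, h.cl a b hab ha⟩
      · by_cases hb : b ∈ C
        · right
          refine ⟨?_, Or.inl hb⟩
          rcases h.cl b a hab.symm hb with h2 | h2
          · exact Or.inl h2
          · exact Or.inr h2
        · left
          exact ⟨Or.inl ha, Or.inl hb⟩
    · exact kl_mono (C2_addE_le _ ⟨ht2, Or.inl h.nu, Or.inr rfl⟩)
        (C2_ind G f d hd h1 hyp _ hA)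
    · exact kl_mono (C2_addE_le _ ⟨ht2, Or.inr rfl, Or.inl ht1⟩)
        (C2_ind G f d hd h1 hyp _ hB)
  · have hnu : ∀ a b, G.Adj a b → a ∈ C → b ∈ C := by
      intro a b hab ha
      rcases h.cl a b hab ha with h2 | h2
      · exact h2
      · exfalso
        apply ht
        rw [h2] at hab
        exact ⟨a, ha, hab.symm⟩
    have hyC := hnu x y hy hxC
    have hzC := hnu x z hz hxC
    have hA : Cᶜ ∪ {x, y} ≠ (Set.univ : Set V) := by
      intro he
      have : z ∈ Cᶜ ∪ {x, y} := by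
        rw [he]
        trivial
      rcases this with h2 | h2 | h2
      · exact h2 hzC
      · exact hz.ne h2.symm
      · exact hyz h2.symm
    refine kl_mono (C2_addE G x y) (glue G (Cᶜ ∪ {x, y}) C x y hy.ne (Or.inr (Or.inl rfl))
      hxC (Or.inr (Or.inr rfl)) hyC ?_ ?_ ?_ ?_ ?_)
    · intro w
      by_cases hw : w ∈ C
      · exact Or.inr hw
      · exact Or.inl (Or.inl hw)
    · rintro w (hw | hw) hw'
      · exact absurd hw' hw
      · exact hw
    · intro a b hab
      by_cases ha : a ∈ C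
      · exact Or.inr ⟨ha, hnu a b hab ha⟩
      · left
        exact ⟨Or.inl ha, Or.inl fun hb => ha (hnu b a hab.symm hb)⟩
    · exact kl_mono (C2_addE_le _ ⟨hy, Or.inr (Or.inl rfl), Or.inr (Or.inr rfl)⟩)
        (C2_ind G f d hd h1 hyp _ hA)
    · exact kl_mono (C2_addE_le _ ⟨hy, hxC, hyC⟩) (C2_ind G f d hd h1 hyp _ hCu)

/-- Separations of order at most one. -/
theorem one_sep [Fintype V] [DecidableEq V] (G : SimpleGraph V) (f : SpatialGraph G) (d : P3)
    (hd : Generic f d) (h1 : AtMostOne f d) (hyp : Hyp V d) (C : Set V) (u : V)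
    (h : OneSep G C u) (x : V) (hxu : x ≠ u) (hx : C2_deg G x) :
    ∃ f' : SpatialGraph G, KL f' := by
  by_cases hxC : x ∈ C
  · exact C2_one G f d hd h1 hyp C u h x hxC hx
  · refine C2_one G f d hd h1 hyp {w | w ∉ C ∧ w ≠ u} u ⟨h.w, fun h2 => h2.2 rfl, ?_, ?_⟩ x
      ⟨hxC, hxu⟩ hx
    · obtain ⟨t, ht⟩ := h.ne
      refine ⟨t, fun h2 => h2.1 ht, ?_⟩
      rintro rfl
      exact h.nu ht
    · rintro a b hab ⟨ha, ha'⟩
      by_cases hb : b = u
      · exact Or.inr hb
      · left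
        refine ⟨fun h2 => ?_, hb⟩
        rcases h.cl b a hab.symm h2 with h3 | h3
        · exact ha h3
        · exact ha' h3

/-- A closed set on one side of a pair of vertices joins them. -/
theorem C2_reach (G : SimpleGraph V) (hno : ∀ C u, ¬ OneSep G C u) (u v : V) (huv : u ≠ v)
    (D : Set V) (hD : D.Nonempty) (hu : u ∉ D) (hv : v ∉ D)
    (cl : ∀ a b, G.Adj a b → a ∈ D → b ∈ D ∨ b = u ∨ b = v) :
    (restr G (D ∪ {u, v})).Reachable u v := by
  by_contra hr
  have huB : u ∈ D ∪ {u, v} := Or.inr (Or.inl rfl)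
  have hvB : v ∈ D ∪ {u, v} := Or.inr (Or.inr rfl)
  by_cases hF : ∃ x ∈ D, (restr G (D ∪ {u, v})).Reachable u x
  · obtain ⟨x, hx1, hx2⟩ := hF
    refine hno {y | y ∈ D ∧ (restr G (D ∪ {u, v})).Reachable u y} u ⟨⟨x, hx1, hx2⟩,
      fun h => hu h.1, ⟨v, fun h => hv h.1, huv.symm⟩, ?_⟩
    rintro a b hab ⟨ha1, ha2⟩
    rcases cl a b hab ha1 with hb | hb | hb
    · left
      refine ⟨hb, ha2.trans (SimpleGraph.Adj.reachable ?_)⟩
      exact ⟨hab, Or.inl ha1, Or.inl hb⟩
    · exact Or.inr hb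
    · exfalso
      apply hr
      rw [hb] at hab
      refine ha2.trans (SimpleGraph.Adj.reachable ?_)
      exact ⟨hab, Or.inl ha1, hvB⟩
  · refine hno D v ⟨hD, hv, ⟨u, hu, huv⟩, ?_⟩
    intro a b hab ha
    rcases cl a b hab ha with hb | hb | hb
    · exact Or.inl hb
    · exfalso
      apply hF
      rw [hb] at hab
      exact ⟨a, ha, SimpleGraph.Adj.reachable ⟨hab.symm, huB, Or.inl ha⟩⟩
    · exact Or.inr hb

theorem C2_walk (G : SimpleGraph V) (B : Set V) {u v : V} (w : (restr G B).Walk u v) (hu : u ∈ B) :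
    ∃ w' : G.Walk u v, ∀ x ∈ w'.support, x ∈ B := by
  induction w with
  | nil => exact ⟨SimpleGraph.Walk.nil, fun x hx => by
      rw [SimpleGraph.Walk.support_nil, List.mem_singleton] at hx
      rw [hx]
      exact hu⟩
  | cons h p ih =>
    obtain ⟨w', hw'⟩ := ih h.2.2
    refine ⟨SimpleGraph.Walk.cons h.1 w', fun x hx => ?_⟩
    rw [SimpleGraph.Walk.support_cons, List.mem_cons] at hx
    rcases hx with hx | hx
    · rw [hx]
      exact hu
    · exact hw' x hx

/-- The path through `D`. -/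
theorem C2_path [DecidableEq V] (G : SimpleGraph V) (hno : ∀ C u, ¬ OneSep G C u) (u v : V)
    (huv : u ≠ v) (D : Set V) (hD : D.Nonempty) (hu : u ∉ D) (hv : v ∉ D)
    (cl : ∀ a b, G.Adj a b → a ∈ D → b ∈ D ∨ b = u ∨ b = v) :
    ∃ Q : G.Walk u v, Q.IsPath ∧ ∀ w ∈ Q.support, w ∈ Dᶜ → w = u ∨ w = v := by
  obtain ⟨w⟩ := C2_reach G hno u v huv D hD hu hv cl
  obtain ⟨w', hw'⟩ := C2_walk G (D ∪ {u, v}) w (Or.inr (Or.inl rfl))
  refine ⟨w'.bypass, w'.bypass_isPath, fun x hx hxD => ?_⟩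
  rcases hw' x (SimpleGraph.Walk.support_bypass_subset w' hx) with h1 | h1 | h1
  · exact absurd h1 hxD
  · exact Or.inl h1
  · exact Or.inr h1

/-- One side of a separation of order two. -/
theorem C2_side [Finite V] [DecidableEq V] (G : SimpleGraph V) (f : SpatialGraph G) (d : P3)
    (hd : Generic f d) (h1 : AtMostOne f d) (hyp : Hyp V d) (hno : ∀ C u, ¬ OneSep G C u)
    (u v : V) (huv : u ≠ v) (D : Set V) (hD : D.Nonempty) (hu : u ∉ D) (hv : v ∉ D)
    (cl : ∀ a b, G.Adj a b → a ∈ D → b ∈ D ∨ b = u ∨ b = v) :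
    ∃ f' : SpatialGraph (addE (restr G Dᶜ) u v), KL f' := by
  have hDu : Dᶜ ≠ (Set.univ : Set V) := by
    intro he
    obtain ⟨x, hx⟩ := hD
    have : x ∈ (Dᶜ : Set V) := by
      rw [he]
      trivial
    exact this hx
  by_cases hadj : G.Adj u v
  · exact kl_mono (C2_addE_le _ ⟨hadj, hu, hv⟩) (C2_ind G f d hd h1 hyp Dᶜ hDu)
  · obtain ⟨Q, hQ, hQ2⟩ := C2_path G hno u v huv D hD hu hv cl
    refine isol _ Dᶜ ?_ (hyp Dᶜ _ hDu
      (restrict_path G f d hd h1 Dᶜ u v hu hv huv hadj Q hQ hQ2))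
    intro a b hab
    rcases hab with hab | ⟨_, ⟨rfl, rfl⟩ | ⟨rfl, rfl⟩⟩
    · exact hab.2
    · exact ⟨hu, hv⟩
    · exact ⟨hv, hu⟩

/-- Separations of order two. -/
theorem two_sep [Fintype V] [DecidableEq V] (G : SimpleGraph V) (f : SpatialGraph G) (d : P3)
    (hd : Generic f d) (h1 : AtMostOne f d) (hyp : Hyp V d) (hno : ∀ C u, ¬ OneSep G C u)
    (u v : V) (huv : u ≠ v) (C D : Set V) (hC : C.Nonempty) (hD : D.Nonempty)
    (huC : u ∉ C) (hvC : v ∉ C) (huD : u ∉ D) (hvD : v ∉ D) (hCD : ∀ x, x ∈ C → x ∉ D)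
    (hall : ∀ x, x ∈ C ∨ x ∈ D ∨ x = u ∨ x = v)
    (clC : ∀ a b, G.Adj a b → a ∈ C → b ∈ C ∨ b = u ∨ b = v)
    (clD : ∀ a b, G.Adj a b → a ∈ D → b ∈ D ∨ b = u ∨ b = v) :
    ∃ f' : SpatialGraph G, KL f' := by
  have hCD' : ∀ a b, G.Adj a b → a ∈ C → b ∈ (Dᶜ : Set V) := by
    intro a b hab ha
    rcases clC a b hab ha with h2 | h2 | h2
    · exact hCD b h2
    · rw [h2]
      exact huD
    · rw [h2]
      exact hvD
  have hDC' : ∀ a b, G.Adj a b → a ∈ D → b ∈ (Cᶜ : Set V) := by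
    intro a b hab ha
    rcases clD a b hab ha with h2 | h2 | h2
    · exact fun h3 => hCD b h3 h2
    · rw [h2]
      exact huC
    · rw [h2]
      exact hvC
  refine kl_mono (C2_addE G u v) (glue G Dᶜ Cᶜ u v huv huD huC hvD hvC ?_ ?_ ?_ ?_ ?_)
  · intro w
    by_cases hw : w ∈ C
    · exact Or.inl (hCD w hw)
    · exact Or.inr hw
  · intro w hw hw'
    rcases hall w with h2 | h2 | h2
    · exact absurd h2 hw'
    · exact absurd h2 hw
    · exact h2
  · intro a b hab
    by_cases ha : a ∈ C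
    · exact Or.inl ⟨hCD a ha, hCD' a b hab ha⟩
    · by_cases ha' : a ∈ D
      · exact Or.inr ⟨ha, hDC' a b hab ha'⟩
      · by_cases hb : b ∈ C
        · exact Or.inl ⟨ha', hCD b hb⟩
        · exact Or.inr ⟨ha, hb⟩
  · exact C2_side G f d hd h1 hyp hno u v huv D hD huD hvD clD
  · exact C2_side G f d hd h1 hyp hno u v huv C hC huC hvC clC

/-- The vertices reachable from `a` outside `S`. -/
def C2_comp (G : SimpleGraph V) (S : Set V) (a : V) : Set V :=
  {x | x ∉ S ∧ (restr G Sᶜ).Reachable a x}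

theorem C2_comp_cl (G : SimpleGraph V) (S : Set V) (a : V) (x y : V) (hxy : G.Adj x y)
    (hx : x ∈ C2_comp G S a) : y ∈ C2_comp G S a ∨ y ∈ S := by
  by_cases hy : y ∈ S
  · exact Or.inr hy
  · left
    exact ⟨hy, hx.2.trans (SimpleGraph.Adj.reachable ⟨hxy, hx.1, hy⟩)⟩

theorem C2_reach_ind (G : SimpleGraph V) (S : Set V) {a b : V} (ha : a ∉ S) (hb : b ∉ S)
    (h : (restr G Sᶜ).Reachable a b) :
    (G.induce Sᶜ).Reachable ⟨a, ha⟩ ⟨b, hb⟩ := by
  obtain ⟨w⟩ := h
  induction w with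
  | nil => exact SimpleGraph.Reachable.refl _
  | cons h p ih =>
    exact (SimpleGraph.Adj.reachable (G := G.induce Sᶜ) (u := ⟨_, ha⟩) (v := ⟨_, h.2.2⟩)
      h.1).trans (ih h.2.2 hb)

theorem C2_card (G : SimpleGraph V) [Fintype V] (h3 : ¬ ThreeConn G) (h4 : 4 ≤ Fintype.card V) :
    ∃ u v a b : V, a ∉ ({u, v} : Set V) ∧ b ∉ ({u, v} : Set V) ∧
      ¬ (restr G ({u, v}ᶜ : Set V)).Reachable a b := by
  classical
  unfold ThreeConn at h3
  rw [not_and] at h3
  have h5 := h3 (by rw [Nat.card_eq_fintype_card]; exact h4)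
  push Not at h5
  obtain ⟨u, v, h6⟩ := h5
  have hne : Nonempty (({u, v}ᶜ : Set V) : Type _) := by
    by_contra hc
    have h7 : ∀ x : V, x ∈ ({u, v} : Finset V) := by
      intro x
      by_contra hx
      apply hc
      refine ⟨⟨x, ?_⟩⟩
      intro hx2
      apply hx
      simpa using hx2
    have h8 : Fintype.card V ≤ ({u, v} : Finset V).card := by
      rw [← Finset.card_univ]
      exact Finset.card_le_card fun x _ => h7 x
    have h9 := Finset.card_le_two (a := u) (b := v)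
    omega
  have h7 : ¬ (G.induce ({u, v}ᶜ : Set V)).Preconnected := by
    intro hp
    exact h6 ⟨hp⟩
  unfold SimpleGraph.Preconnected at h7
  push Not at h7
  obtain ⟨⟨a, ha⟩, ⟨b, hb⟩, hab⟩ := h7
  exact ⟨u, v, a, b, ha, hb, fun hr => hab (C2_reach_ind G _ ha hb hr)⟩

/-- The reduction. -/
theorem not_three [Fintype V] [DecidableEq V] (G : SimpleGraph V) (f : SpatialGraph G) (d : P3)
    (hd : Generic f d) (h1 : AtMostOne f d) (hyp : Hyp V d) (h3 : ¬ ThreeConn G)
    (h4 : 4 ≤ Fintype.card V) (x y : V) (hxy : x ≠ y) (hx : C2_deg G x) (hy : C2_deg G y) :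
    ∃ f' : SpatialGraph G, KL f' := by
  by_cases hno : ∃ C u, OneSep G C u
  · obtain ⟨C, u, h⟩ := hno
    by_cases hxu : x = u
    · exact one_sep G f d hd h1 hyp C u h y (fun h2 => hxy (hxu.trans h2.symm)) hy
    · exact one_sep G f d hd h1 hyp C u h x hxu hx
  push Not at hno
  obtain ⟨u, v, a, b, ha, hb, hab⟩ := C2_card G h3 h4
  have ha' : a ≠ u ∧ a ≠ v := by
    constructor
    · rintro rfl
      exact ha (Or.inl rfl)
    · rintro rfl
      exact ha (Or.inr rfl)
  have hb' : b ≠ u ∧ b ≠ v := by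
    constructor
    · rintro rfl
      exact hb (Or.inl rfl)
    · rintro rfl
      exact hb (Or.inr rfl)
  have haC : a ∈ C2_comp G {u, v} a := ⟨ha, SimpleGraph.Reachable.refl _⟩
  have hbC : b ∉ C2_comp G {u, v} a := fun h => hab h.2
  have huC : u ∉ C2_comp G {u, v} a := fun h => h.1 (Or.inl rfl)
  have hvC : v ∉ C2_comp G {u, v} a := fun h => h.1 (Or.inr rfl)
  have cl : ∀ x y, G.Adj x y → x ∈ C2_comp G {u, v} a →
      y ∈ C2_comp G {u, v} a ∨ y = u ∨ y = v := fun x y hxy hx => C2_comp_cl G _ a x y hxy hx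
  by_cases huv : u = v
  · exfalso
    refine hno (C2_comp G {u, v} a) u ⟨⟨a, haC⟩, huC, ⟨b, hbC, hb'.1⟩, ?_⟩
    intro x y hxy hx
    rcases cl x y hxy hx with h2 | h2 | h2
    · exact Or.inl h2
    · exact Or.inr h2
    · exact Or.inr (h2.trans huv.symm)
  · refine two_sep G f d hd h1 hyp hno u v huv (C2_comp G {u, v} a)
      {x | x ∉ C2_comp G {u, v} a ∧ x ≠ u ∧ x ≠ v} ⟨a, haC⟩ ⟨b, hbC, hb'⟩ huC hvC
      (fun h => h.2.1 rfl) (fun h => h.2.2 rfl) (fun x hx h => h.1 hx) ?_ cl ?_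
    · intro x
      by_cases h2 : x ∈ C2_comp G {u, v} a
      · exact Or.inl h2
      · by_cases h5 : x = u
        · exact Or.inr (Or.inr (Or.inl h5))
        · by_cases h6 : x = v
          · exact Or.inr (Or.inr (Or.inr h6))
          · exact Or.inr (Or.inl ⟨h2, h5, h6⟩)
    · rintro x y hxy ⟨hx1, hx2, hx3⟩
      by_cases h5 : y = u
      · exact Or.inr (Or.inl h5)
      · by_cases h6 : y = v
        · exact Or.inr (Or.inr h6)
        · left
          refine ⟨fun h2 => ?_, h5, h6⟩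
          rcases cl y x hxy.symm h2 with h7 | h7 | h7
          · exact hx1 h7
          · exact hx2 h7
          · exact hx3 h7

end H97G
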