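import Pool.Agent.Lib.H97G.C1
import Pool.Agent.Lib.H97G.C2
import Pool.Agent.Lib.H46K.Iso
import Pool.Agent.Lib.H46K.Main

/-!
# H97G module C, file C3: the induction
-/

namespace H97G

open H46K

theorem C3_generic {V W : Type*} {G : SimpleGraph V} {H : SimpleGraph W} (φ : G ≃g H)
    (f : SpatialGraph H) (d : P3) (h : Generic f d) : Generic (isoPull φ f) d := by
  refine ⟨h.1, ?_⟩
  intro u v u' v' huv huv' x hx s hs r hr
  exact h.2 (φ u) (φ v) (φ u') (φ v') (φ.map_rel_iff.2 huv) (φ.map_rel_iff.2 huv') x hx s hs r hr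

theorem C3_hasOdd {V W : Type*} {G : SimpleGraph V} {H : SimpleGraph W} (φ : G ≃g H)
    (f : SpatialGraph H) (d : P3) (h : HasOdd (isoPull φ f) d) : HasOdd f d := by
  obtain ⟨a, c₁, b, c₂, h1, h2, h3, h4⟩ := h
  refine ⟨φ.toHom a, c₁.map φ.toHom, φ.toHom b, c₂.map φ.toHom, h1.map φ.injective,
    h2.map φ.injective, ?_, ?_⟩
  · intro x hx hx'
    rw [SimpleGraph.Walk.support_map, List.mem_map] at hx hx'
    obtain ⟨y, hy, rfl⟩ := hx
    obtain ⟨z, hz, hzy⟩ := hx'
    have hzy' : z = y := φ.injective hzy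
    subst hzy'
    exact h3 hy hz
  · rw [isoPull_poly, isoPull_poly]
    exact h4

theorem C3_mono {n m : ℕ} (h : n ≤ m) (hn : NoOddEmb n) : NoOddEmb m := by
  obtain ⟨k, H, g, d, h1, h2⟩ := hn
  exact ⟨k, H, g, d, by omega, h2⟩

theorem C3_transport {W : Type} [Fintype W] (H : SimpleGraph W) (g : SpatialGraph H) (d : P3)
    (hIK : IsIK H) (hg : Generic g d) (ho : ¬ HasOdd g d) (N : ℕ) (hN : Fintype.card W < N) :
    NoOddEmb N := by
  let φ := SimpleGraph.Iso.map (Fintype.equivFin W) H
  exact ⟨Fintype.card W, _, isoPull φ.symm g, d, hN, isIK_of_iso _ _ φ hIK,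
    C3_generic φ.symm g d hg, fun h => ho (C3_hasOdd φ.symm g d h)⟩

theorem C3_deg {V : Type*} {G : SimpleGraph V} {a : V} {c : G.Walk a a} (hc : c.IsCycle) :
    C2_deg G a :=
  ⟨c.snd, c.penultimate, hc.snd_ne_penultimate, c.adj_snd hc.not_nil,
    (c.adj_penultimate hc.not_nil).symm⟩

theorem C3_ind (n : ℕ) : ∀ {V : Type} [Fintype V] [DecidableEq V], Fintype.card V = n →
    ∀ (G : SimpleGraph V), IsIK G → ∀ (f : SpatialGraph G) (d : P3), Generic f d →
      ¬ ExactlyOneOddLink f d ∨ NoOddEmb n := by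
  induction n using Nat.strong_induction_on with
  | _ n ih =>
    intro V _ _ hcard G hIK f d hd
    by_contra hc
    rw [not_or, not_not] at hc
    obtain ⟨h1, hno⟩ := hc
    have h2 := (exactlyOne_iff f d).1 h1
    by_cases h3 : ThreeConn G
    · exact H46K.main G h3 hIK f d hd h1
    · have hyp : Hyp V d := by
        intro A K hA hg
        obtain ⟨g, hg1, hg2⟩ := hg
        rw [← not_isIK]
        intro hK
        classical
        have hlt : Fintype.card A < n := by
          rw [← hcard]
          obtain ⟨x, hx⟩ := (Set.ne_univ_iff_exists_notMem A).1 hA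
          exact Fintype.card_subtype_lt hx
        by_cases ho : HasOdd g d
        · rcases ih (Fintype.card A) hlt rfl K hK g d hg1 with h5 | h5
          · exact h5 ((exactlyOne_iff g d).2 ⟨ho, hg2⟩)
          · exact hno (C3_mono hlt.le h5)
        · exact hno (C3_transport K g d hK hg1 ho n hlt)
      have h6 : ∃ f' : SpatialGraph G, KL f' := by
        by_cases h4 : Fintype.card V ≤ 3
        · exact small h4 G
        · obtain ⟨a, c₁, b, c₂, k1, k2, k3, _⟩ := h2.1
          have hab : a ≠ b := by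
            rintro rfl
            exact k3 c₁.start_mem_support c₂.start_mem_support
          exact not_three G f d hd h2.2 hyp h3 (by omega) a b hab (C3_deg k1) (C3_deg k2)
      exact not_isIK.2 h6 hIK

/-- The theorem for all intrinsically knotted graphs. -/
theorem finalC {V : Type} [Fintype V] [DecidableEq V] (G : SimpleGraph V) (hIK : IsIK G)
    (f : SpatialGraph G) (d : P3) (hd : Generic f d) :
    ¬ ExactlyOneOddLink f d ∨ NoOddEmb (Fintype.card V) :=
  C3_ind (Fintype.card V) rfl G hIK f d hd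

end H97G
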