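import Pool.Agent.Lib.H97G.WA

/-!
# H97G, module G (gluing along an edge): definitions and first facts

`fA` (of the graph on `A` with the edge `u v`) and `fB` (of the graph on `B` with the edge `u v`) are in normal form:
`u ↦ pO`, `v ↦ pE`, straight edge `u v`, everything else in `Reg`. The glued embedding is
`mir ∘ fA` on `A` and `thin r ∘ fB` on `B`.
-/

namespace H97G

open H46K

variable {V : Type*}

/-- `thin r` as a linear equivalence -/
noncomputable def thinL (r : ℝ) (hr : r ≠ 0) : P3 ≃ₗ[ℝ] P3 where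
  toFun := thin r
  map_add' X Y := by
    unfold thin
    ext <;> simp <;> ring
  map_smul' a X := by
    unfold thin
    ext <;> simp <;> ring
  invFun := thin r⁻¹
  left_inv X := by
    unfold thin
    ext <;> simp [hr]
  right_inv X := by
    unfold thin
    ext <;> simp [hr]

/-- `thin r` as an affine equivalence -/
noncomputable def thinE (r : ℝ) (hr : r ≠ 0) : P3 ≃ᵃ[ℝ] P3 := (thinL r hr).toAffineEquiv

/-- `mir` as a linear equivalence -/
noncomputable def mirL : P3 ≃ₗ[ℝ] P3 where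
  toFun := mir
  map_add' X Y := by
    unfold mir
    ext <;> simp <;> ring
  map_smul' a X := by
    unfold mir
    ext <;> simp
  invFun := mir
  left_inv X := by
    unfold mir
    ext <;> simp
  right_inv X := by
    unfold mir
    ext <;> simp

/-- `mir` as an affine equivalence -/
noncomputable def mirE : P3 ≃ᵃ[ℝ] P3 := mirL.toAffineEquiv

theorem thinE_coe (r : ℝ) (hr : r ≠ 0) : (⇑(thinE r hr) : P3 → P3) = thin r := rfl

theorem mirE_coe : (⇑mirE : P3 → P3) = mir := rfl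

theorem thin_inj {r : ℝ} (hr : r ≠ 0) : Function.Injective (thin r) := (thinL r hr).injective

theorem mir_inj : Function.Injective mir := mirL.injective

theorem thin_pO (r : ℝ) : thin r pO = pO := by
  simp [thin, pO]

theorem thin_pE (r : ℝ) : thin r pE = pE := by
  simp [thin, pE]

theorem mir_pO : mir pO = pO := by
  simp [mir, pO]

theorem mir_pE : mir pE = pE := by
  simp [mir, pE]

theorem pO_ne_pE : pO ≠ pE := by
  intro h
  have := congrArg (fun X : P3 => X.2.2) h
  simp [pO, pE] at this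

/-- normal form of an embedding with respect to the edge `u v` -/
structure NForm {H : SimpleGraph V} (f : SpatialGraph H) (u v : V) : Prop where
  pu : f.pt u = pO
  pv : f.pt v = pE
  muv : f.mid u v = []
  pw : ∀ w, w ≠ u → w ≠ v → Reg (f.pt w)
  pm : ∀ x y, H.Adj x y → ∀ X ∈ f.mid x y, Reg X

/-- two sides of a 2-separation (the edge `u v` itself is not assumed to be in `G`) -/
structure Sep (G : SimpleGraph V) (A B : Set V) (u v : V) : Prop where
  huv : u ≠ v
  huA : u ∈ A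
  huB : u ∈ B
  hvA : v ∈ A
  hvB : v ∈ B
  hAB : ∀ w, w ∈ A ∨ w ∈ B
  hI : ∀ w, w ∈ A → w ∈ B → w = u ∨ w = v
  hE : ∀ a b, G.Adj a b → (a ∈ A ∧ b ∈ A) ∨ (a ∈ B ∧ b ∈ B)

/-- the graph on the side `A`, with the edge `u v` -/
abbrev Sd (G : SimpleGraph V) (A : Set V) (u v : V) : SimpleGraph V := addE (restr G A) u v

/-- the connected sum theorem (module S) -/
def StConnSum : Prop := ∀ (rest mids : List P3), Unknot (pO :: pE :: rest) →
  Unknot (pO :: (mids ++ [pE])) → (∀ X ∈ rest, RegN X) → (∀ X ∈ mids, Reg X) →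
    ∃ r0 : ℝ, 0 < r0 ∧ ∀ r, 0 < r → r ≤ r0 →
      Unknot (pO :: (mids.map (thin r) ++ pE :: rest))

/-- the normal form theorem (module N) -/
def StNf (V : Type*) : Prop := ∀ (G : SimpleGraph V) (u v : V), G.Adj u v →
  (∃ f : SpatialGraph G, KL f) → ∃ f : SpatialGraph G, KL f ∧ NForm f u v

open Classical in
/-- positions of the vertices -/
noncomputable def gpt {HA HB : SimpleGraph V} (A : Set V) (fA : SpatialGraph HA)
    (fB : SpatialGraph HB) (r : ℝ) (w : V) : P3 :=
  if w ∈ A then mir (fA.pt w) else thin r (fB.pt w)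

open Classical in
/-- bend points -/
noncomputable def gmid {HA HB : SimpleGraph V} (A : Set V) (u v : V) (fA : SpatialGraph HA)
    (fB : SpatialGraph HB) (r : ℝ) (x y : V) : List P3 :=
  if (x = u ∧ y = v) ∨ (x = v ∧ y = u) then []
  else if x ∈ A ∧ y ∈ A then (fA.mid x y).map mir else (fB.mid x y).map (thin r)

variable {G : SimpleGraph V} {A B : Set V} {u v : V}

theorem Sep.symm (h : Sep G A B u v) : Sep G B A u v :=
  ⟨h.huv, h.huB, h.huA, h.hvB, h.hvA, fun w => (h.hAB w).symm, fun w a b => h.hI w b a,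
    fun a b hab => (h.hE a b hab).symm⟩

theorem mem_of_adj (hu : u ∈ A) (hv : v ∈ A) {x y : V} (h : (Sd G A u v).Adj x y) :
    x ∈ A ∧ y ∈ A := by
  rcases h with h | ⟨_, ⟨rfl, rfl⟩ | ⟨rfl, rfl⟩⟩
  · exact h.2
  · exact ⟨hu, hv⟩
  · exact ⟨hv, hu⟩

theorem sd_le : Sd G A u v ≤ addE G u v := by
  intro x y h
  rcases h with h | h
  · exact Or.inl h.1
  · exact Or.inr h

theorem adj_AB (h : Sep G A B u v) {x y : V} (hxy : (addE G u v).Adj x y) :
    (Sd G A u v).Adj x y ∨ (Sd G B u v).Adj x y := by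
  rcases hxy with h1 | h1
  · rcases h.hE x y h1 with h2 | h2
    · exact Or.inl (Or.inl ⟨h1, h2⟩)
    · exact Or.inr (Or.inl ⟨h1, h2⟩)
  · exact Or.inl (Or.inr h1)

/-- an edge of both sides is the edge `u v` -/
theorem adj_both (h : Sep G A B u v) {x y : V} (hA : (Sd G A u v).Adj x y)
    (hB : (Sd G B u v).Adj x y) : (x = u ∧ y = v) ∨ (x = v ∧ y = u) := by
  obtain ⟨a1, a2⟩ := mem_of_adj h.huA h.hvA hA
  obtain ⟨b1, b2⟩ := mem_of_adj h.huB h.hvB hB
  have hne : x ≠ y := hA.ne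
  rcases h.hI x a1 b1 with rfl | rfl <;> rcases h.hI y a2 b2 with rfl | rfl
  · exact absurd rfl hne
  · exact Or.inl ⟨rfl, rfl⟩
  · exact Or.inr ⟨rfl, rfl⟩
  · exact absurd rfl hne

theorem NForm.mvu {H : SimpleGraph V} {f : SpatialGraph H} (h : NForm f u v) (huv : H.Adj u v) :
    f.mid v u = [] := by
  rw [f.mid_symm u v huv, h.muv]
  rfl

variable {fA : SpatialGraph (Sd G A u v)} {fB : SpatialGraph (Sd G B u v)} {r : ℝ}

theorem adj_uv (huv : u ≠ v) (H : SimpleGraph V) : (addE H u v).Adj u v :=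
  Or.inr ⟨huv, Or.inl ⟨rfl, rfl⟩⟩

theorem gpt_A {w : V} (hw : w ∈ A) : gpt A fA fB r w = mir (fA.pt w) := by
  unfold gpt
  rw [if_pos hw]

theorem gpt_B (h : Sep G A B u v) (nA : NForm fA u v) (nB : NForm fB u v) {w : V} (hw : w ∈ B) :
    gpt A fA fB r w = thin r (fB.pt w) := by
  by_cases hA : w ∈ A
  · rw [gpt_A hA]
    rcases h.hI w hA hw with rfl | rfl
    · rw [nA.pu, nB.pu, mir_pO, thin_pO]
    · rw [nA.pv, nB.pv, mir_pE, thin_pE]
  · unfold gpt
    rw [if_neg hA]

theorem gmid_A (h : Sep G A B u v) (nA : NForm fA u v) {x y : V} (hxy : (Sd G A u v).Adj x y) :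
    gmid A u v fA fB r x y = (fA.mid x y).map mir := by
  unfold gmid
  split_ifs with h1 h2
  · rcases h1 with ⟨rfl, rfl⟩ | ⟨rfl, rfl⟩
    · rw [nA.muv]
      rfl
    · rw [nA.mvu (adj_uv h.huv _)]
      rfl
  · rfl
  · exact absurd (mem_of_adj h.huA h.hvA hxy) h2

theorem gmid_B (h : Sep G A B u v) (nB : NForm fB u v) {x y : V} (hxy : (Sd G B u v).Adj x y) :
    gmid A u v fA fB r x y = (fB.mid x y).map (thin r) := by
  unfold gmid
  split_ifs with h1 h2
  · rcases h1 with ⟨rfl, rfl⟩ | ⟨rfl, rfl⟩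
    · rw [nB.muv]
      rfl
    · rw [nB.mvu (adj_uv h.huv _)]
      rfl
  · exfalso
    obtain ⟨b1, b2⟩ := mem_of_adj h.huB h.hvB hxy
    have hne : x ≠ y := hxy.ne
    rcases h.hI x h2.1 b1 with rfl | rfl <;> rcases h.hI y h2.2 b2 with rfl | rfl
    · exact hne rfl
    · exact h1 (Or.inl ⟨rfl, rfl⟩)
    · exact h1 (Or.inr ⟨rfl, rfl⟩)
    · exact hne rfl
  · rfl

theorem garc_A (h : Sep G A B u v) (nA : NForm fA u v) {x y : V} (hxy : (Sd G A u v).Adj x y) :
    gpt A fA fB r x :: (gmid A u v fA fB r x y ++ [gpt A fA fB r y]) = (fA.arc x y).map mir := by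
  obtain ⟨a1, a2⟩ := mem_of_adj h.huA h.hvA hxy
  rw [gpt_A a1, gpt_A a2, gmid_A h nA hxy]
  simp [SpatialGraph.arc]

theorem garc_B (h : Sep G A B u v) (nA : NForm fA u v) (nB : NForm fB u v) {x y : V}
    (hxy : (Sd G B u v).Adj x y) :
    gpt A fA fB r x :: (gmid A u v fA fB r x y ++ [gpt A fA fB r y]) =
      (fB.arc x y).map (thin r) := by
  obtain ⟨a1, a2⟩ := mem_of_adj h.huB h.hvB hxy
  rw [gpt_B h nA nB a1, gpt_B h nA nB a2, gmid_B h nB hxy]
  simp [SpatialGraph.arc]

end H97G
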