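import Pool.Agent.Lib.H97G.GX

/-!
# H97G, chunk GB: the glued embedding

Every edge of `addE G u v` is an edge of `Sd G A u v` or of `Sd G B u v` (`adj_AB`); by `garc_A`, `garc_B` its arc is the image of
the arc of `fA` under `mir` or of `fB` under `thin r` (affine equivalences `mirE`, `thinE`; `arcSet_map`, `isSimple_map` of IH).
`gpt_inj`: both in `A`: injectivity; both in `B`: same; `w` in `A`, not in `B`, and `w'` in `B`, not in `A`: first coordinates < 0 and > 0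
(`gpt_A`, `gpt_B`, `Reg`).
`g_symm`: `fA.mid_symm`, `fB.mid_symm`, `gmid_A`, `gmid_B`.  `g_simple`: `isSimple_map`.
`g_disj`: both edges in the A-graph: `z = mir z0`, `fA.disj`; both in the B-graph: same; one edge in the A-graph and not in the
B-graph, the other one in the B-graph and not in the A-graph (so both different from `u v`): `z.1 ≤ 0` and `z.1 ≥ 0` (`nf_nonneg`), so
`z.1 = 0` and `nf_arc` on both sides: `z = pO` or `z = pE` on both, common end `u` or `v` (`mir_pO`, ...).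
`g_vert`: edge in the A-graph: `w` in `A`: `fA.vert`; `w` not in `A`: `gpt w` has first coordinate > 0 but the arc has ≤ 0. Edge in
the B-graph: same.
-/

namespace H97G

open H46K

variable {V : Type*} {G : SimpleGraph V} {A B : Set V} {u v : V}
variable {fA : SpatialGraph (Sd G A u v)} {fB : SpatialGraph (Sd G B u v)} {r : ℝ}

theorem GB_ptA {w : V} (nA : NForm fA u v) (hw : w ∈ A) : (gpt A fA fB r w).1 ≤ 0 := by
  rw [gpt_A hw]
  have h1 := (GX_pt nA w).1
  have h2 : (mir (fA.pt w)).1 = -(fA.pt w).1 := rfl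
  rw [h2]
  linarith

theorem GB_notA (h : Sep G A B u v) (nB : NForm fB u v) (hr : 0 < r) {w : V} (hw : w ∉ A) :
    0 < (gpt A fA fB r w).1 := by
  unfold gpt
  rw [if_neg hw]
  have hu : w ≠ u := by
    rintro rfl
    exact hw h.huA
  have hv : w ≠ v := by
    rintro rfl
    exact hw h.hvA
  have h1 := (nB.pw w hu hv).1
  have h2 : (thin r (fB.pt w)).1 = r * (fB.pt w).1 := rfl
  rw [h2]
  exact mul_pos hr h1

theorem GB_notB (h : Sep G A B u v) (nA : NForm fA u v) {w : V} (hw : w ∉ B) :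
    (gpt A fA fB r w).1 < 0 := by
  have hA : w ∈ A := by
    rcases h.hAB w with h1 | h1
    · exact h1
    · exact absurd h1 hw
  have hu : w ≠ u := by
    rintro rfl
    exact hw h.huB
  have hv : w ≠ v := by
    rintro rfl
    exact hw h.hvB
  have h1 := (nA.pw w hu hv).1
  rw [gpt_A hA]
  have h2 : (mir (fA.pt w)).1 = -(fA.pt w).1 := rfl
  rw [h2]
  linarith

theorem gpt_inj (h : Sep G A B u v) (nA : NForm fA u v) (nB : NForm fB u v) (hr : 0 < r) :
    Function.Injective (gpt A fA fB r) := by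
  intro w w' hww
  by_cases hw : w ∈ A <;> by_cases hw' : w' ∈ A
  · rw [gpt_A hw, gpt_A hw'] at hww
    exact fA.pt_inj (mir_inj hww)
  · have h1 := GB_ptA (fB := fB) (r := r) nA hw
    have h2 := GB_notA (fA := fA) h nB hr hw'
    rw [hww] at h1
    linarith
  · have h1 := GB_ptA (fB := fB) (r := r) nA hw'
    have h2 := GB_notA (fA := fA) h nB hr hw
    rw [← hww] at h1
    linarith
  · unfold gpt at hww
    rw [if_neg hw, if_neg hw'] at hww
    exact fB.pt_inj (thin_inj hr.ne' hww)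

theorem g_symm (h : Sep G A B u v) (nA : NForm fA u v) (nB : NForm fB u v) (x y : V)
    (hxy : (addE G u v).Adj x y) : gmid A u v fA fB r y x = (gmid A u v fA fB r x y).reverse := by
  rcases adj_AB h hxy with h1 | h1
  · rw [gmid_A h nA h1, gmid_A h nA h1.symm, fA.mid_symm x y h1, List.map_reverse]
  · rw [gmid_B h nB h1, gmid_B h nB h1.symm, fB.mid_symm x y h1, List.map_reverse]

theorem g_simple (h : Sep G A B u v) (nA : NForm fA u v) (nB : NForm fB u v) (hr : 0 < r)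
    (x y : V) (hxy : (addE G u v).Adj x y) :
    IsSimple (gpt A fA fB r x :: (gmid A u v fA fB r x y ++ [gpt A fA fB r y])) := by
  rcases adj_AB h hxy with h1 | h1
  · rw [garc_A h nA h1]
    exact (isSimple_map (fA.arc x y) mirE).2 (fA.simple x y h1)
  · rw [garc_B h nA nB h1]
    exact (isSimple_map (fB.arc x y) (thinE r hr.ne')).2 (fB.simple x y h1)

theorem GB_memA (h : Sep G A B u v) (nA : NForm fA u v) {x y : V} (hxy : (Sd G A u v).Adj x y)
    {z : P3} (hz : z ∈ arcSet (gpt A fA fB r x :: (gmid A u v fA fB r x y ++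
      [gpt A fA fB r y]))) : ∃ z0 ∈ arcSet (fA.arc x y), z = mir z0 := by
  rw [garc_A h nA hxy] at hz
  have h1 := arcSet_map (fA.arc x y) mirE
  rw [mirE_coe] at h1
  rw [h1] at hz
  obtain ⟨z0, h2, h3⟩ := hz
  exact ⟨z0, h2, h3.symm⟩

theorem GB_memB (h : Sep G A B u v) (nA : NForm fA u v) (nB : NForm fB u v) (hr : 0 < r)
    {x y : V} (hxy : (Sd G B u v).Adj x y)
    {z : P3} (hz : z ∈ arcSet (gpt A fA fB r x :: (gmid A u v fA fB r x y ++
      [gpt A fA fB r y]))) : ∃ z0 ∈ arcSet (fB.arc x y), z = thin r z0 := by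
  rw [garc_B h nA nB hxy] at hz
  have h1 := arcSet_map (fB.arc x y) (thinE r hr.ne')
  rw [thinE_coe] at h1
  rw [h1] at hz
  obtain ⟨z0, h2, h3⟩ := hz
  exact ⟨z0, h2, h3.symm⟩

theorem GB_AA (h : Sep G A B u v) (nA : NForm fA u v)
    {x y x' y' : V} (hxy : (Sd G A u v).Adj x y) (hxy' : (Sd G A u v).Adj x' y')
    (hne : s(x, y) ≠ s(x', y')) {z : P3}
    (hz : z ∈ arcSet (gpt A fA fB r x :: (gmid A u v fA fB r x y ++ [gpt A fA fB r y])))
    (hz' : z ∈ arcSet (gpt A fA fB r x' :: (gmid A u v fA fB r x' y' ++ [gpt A fA fB r y']))) :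
    ∃ w, (w = x ∨ w = y) ∧ (w = x' ∨ w = y') ∧ z = gpt A fA fB r w := by
  obtain ⟨z0, h1, h2⟩ := GB_memA h nA hxy hz
  obtain ⟨z1, h3, h4⟩ := GB_memA h nA hxy' hz'
  have h5 : z0 = z1 := mir_inj (h2.symm.trans h4)
  subst h5
  obtain ⟨w, a1, a2, a3⟩ := fA.disj x y x' y' hxy hxy' hne z0 ⟨h1, h3⟩
  refine ⟨w, a1, a2, ?_⟩
  have hw : w ∈ A := by
    obtain ⟨b1, b2⟩ := mem_of_adj h.huA h.hvA hxy
    rcases a1 with rfl | rfl
    · exact b1
    · exact b2
  rw [gpt_A hw, h2, a3]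

theorem GB_BB (h : Sep G A B u v) (nA : NForm fA u v) (nB : NForm fB u v) (hr : 0 < r)
    {x y x' y' : V} (hxy : (Sd G B u v).Adj x y) (hxy' : (Sd G B u v).Adj x' y')
    (hne : s(x, y) ≠ s(x', y')) {z : P3}
    (hz : z ∈ arcSet (gpt A fA fB r x :: (gmid A u v fA fB r x y ++ [gpt A fA fB r y])))
    (hz' : z ∈ arcSet (gpt A fA fB r x' :: (gmid A u v fA fB r x' y' ++ [gpt A fA fB r y']))) :
    ∃ w, (w = x ∨ w = y) ∧ (w = x' ∨ w = y') ∧ z = gpt A fA fB r w := by
  obtain ⟨z0, h1, h2⟩ := GB_memB h nA nB hr hxy hz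
  obtain ⟨z1, h3, h4⟩ := GB_memB h nA nB hr hxy' hz'
  have h5 : z0 = z1 := thin_inj hr.ne' (h2.symm.trans h4)
  subst h5
  obtain ⟨w, a1, a2, a3⟩ := fB.disj x y x' y' hxy hxy' hne z0 ⟨h1, h3⟩
  refine ⟨w, a1, a2, ?_⟩
  have hw : w ∈ B := by
    obtain ⟨b1, b2⟩ := mem_of_adj h.huB h.hvB hxy
    rcases a1 with rfl | rfl
    · exact b1
    · exact b2
  rw [gpt_B h nA nB hw, h2, a3]

theorem GB_uv (h : Sep G A B u v) {x y : V} (hxy : s(x, y) = s(u, v)) (C : Set V) :
    (Sd G C u v).Adj x y := by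
  rcases Sym2.eq_iff.1 hxy with ⟨rfl, rfl⟩ | ⟨rfl, rfl⟩
  · exact adj_uv h.huv _
  · exact (adj_uv h.huv _).symm

theorem GB_AB (h : Sep G A B u v) (nA : NForm fA u v) (nB : NForm fB u v) (hr : 0 < r)
    {x y x' y' : V} (hxy : (Sd G A u v).Adj x y) (hxy' : (Sd G B u v).Adj x' y')
    (hne : s(x, y) ≠ s(x', y')) {z : P3}
    (hz : z ∈ arcSet (gpt A fA fB r x :: (gmid A u v fA fB r x y ++ [gpt A fA fB r y])))
    (hz' : z ∈ arcSet (gpt A fA fB r x' :: (gmid A u v fA fB r x' y' ++ [gpt A fA fB r y']))) :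
    ∃ w, (w = x ∨ w = y) ∧ (w = x' ∨ w = y') ∧ z = gpt A fA fB r w := by
  by_cases e1 : s(x, y) = s(u, v)
  · exact GB_BB h nA nB hr (GB_uv h e1 B) hxy' hne hz hz'
  by_cases e2 : s(x', y') = s(u, v)
  · exact GB_AA h nA hxy (GB_uv h e2 A) hne hz hz'
  obtain ⟨z0, h1, h2⟩ := GB_memA h nA hxy hz
  obtain ⟨z1, h3, h4⟩ := GB_memB h nA nB hr hxy' hz'
  have k0 := nf_nonneg nA hxy h1
  have k1 := nf_nonneg nB hxy' h3
  have m0 : z.1 = -z0.1 := by
    rw [h2]
    rfl
  have m1 : z.1 = r * z1.1 := by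
    rw [h4]
    rfl
  have k2 : 0 ≤ r * z1.1 := mul_nonneg hr.le k1
  have n0 : z0.1 = 0 := by linarith
  have n1 : z1.1 = 0 := by
    have h5 : r * z1.1 = 0 := by linarith
    rcases mul_eq_zero.1 h5 with h6 | h6
    · exact absurd h6 hr.ne'
    · exact h6
  rcases nf_arc nA hxy h1 n0 e1 with ⟨p1, p2⟩ | ⟨p1, p2⟩ <;>
    rcases nf_arc nB hxy' h3 n1 e2 with ⟨q1, q2⟩ | ⟨q1, q2⟩
  · exact ⟨u, p2, q2, by rw [gpt_A h.huA, nA.pu, h2, p1]⟩
  · exfalso
    rw [h2, p1, q1, mir_pO, thin_pE] at h4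
    exact pO_ne_pE h4
  · exfalso
    rw [h2, p1, q1, mir_pE, thin_pO] at h4
    exact pO_ne_pE h4.symm
  · exact ⟨v, p2, q2, by rw [gpt_A h.hvA, nA.pv, h2, p1]⟩

theorem g_disj (h : Sep G A B u v) (nA : NForm fA u v) (nB : NForm fB u v) (hr : 0 < r)
    (x y x' y' : V) (hxy : (addE G u v).Adj x y) (hxy' : (addE G u v).Adj x' y')
    (hne : s(x, y) ≠ s(x', y')) (z : P3)
    (hz : z ∈ arcSet (gpt A fA fB r x :: (gmid A u v fA fB r x y ++ [gpt A fA fB r y])) ∩
      arcSet (gpt A fA fB r x' :: (gmid A u v fA fB r x' y' ++ [gpt A fA fB r y']))) :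
    ∃ w, (w = x ∨ w = y) ∧ (w = x' ∨ w = y') ∧ z = gpt A fA fB r w := by
  rcases adj_AB h hxy with h1 | h1 <;> rcases adj_AB h hxy' with h2 | h2
  · exact GB_AA h nA h1 h2 hne hz.1 hz.2
  · exact GB_AB h nA nB hr h1 h2 hne hz.1 hz.2
  · obtain ⟨w, a1, a2, a3⟩ := GB_AB h nA nB hr h2 h1 hne.symm hz.2 hz.1
    exact ⟨w, a2, a1, a3⟩
  · exact GB_BB h nA nB hr h1 h2 hne hz.1 hz.2

theorem g_vert (h : Sep G A B u v) (nA : NForm fA u v) (nB : NForm fB u v) (hr : 0 < r)
    (x y w : V) (hxy : (addE G u v).Adj x y)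
    (hz : gpt A fA fB r w ∈
      arcSet (gpt A fA fB r x :: (gmid A u v fA fB r x y ++ [gpt A fA fB r y]))) :
    w = x ∨ w = y := by
  rcases adj_AB h hxy with h1 | h1
  · obtain ⟨z0, h2, h3⟩ := GB_memA h nA h1 hz
    by_cases hw : w ∈ A
    · rw [gpt_A hw] at h3
      have h4 := mir_inj h3
      rw [← h4] at h2
      exact fA.vert x y w h1 h2
    · exfalso
      have h4 := GB_notA (fA := fA) h nB hr hw
      have h5 := nf_nonneg nA h1 h2
      have h6 : (gpt A fA fB r w).1 = -z0.1 := by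
        rw [h3]
        rfl
      linarith
  · obtain ⟨z0, h2, h3⟩ := GB_memB h nA nB hr h1 hz
    by_cases hw : w ∈ B
    · rw [gpt_B h nA nB hw] at h3
      have h4 := thin_inj hr.ne' h3
      rw [← h4] at h2
      exact fB.vert x y w h1 h2
    · exfalso
      have h4 := GB_notB (fB := fB) (r := r) h nA hw
      have h5 := mul_nonneg hr.le (nf_nonneg nB h1 h2)
      have h6 : (gpt A fA fB r w).1 = r * z0.1 := by
        rw [h3]
        rfl
      linarith

/-- the glued embedding -/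
noncomputable def gemb (h : Sep G A B u v) (nA : NForm fA u v) (nB : NForm fB u v)
    (hr : 0 < r) : SpatialGraph (addE G u v) where
  pt := gpt A fA fB r
  mid := gmid A u v fA fB r
  pt_inj := gpt_inj h nA nB hr
  mid_symm := fun x y hxy => g_symm h nA nB x y hxy
  simple := fun x y hxy => g_simple h nA nB hr x y hxy
  disj := fun x y x' y' hxy hxy' hne z hz => g_disj h nA nB hr x y x' y' hxy hxy' hne z hz
  vert := fun x y w hxy hz => g_vert h nA nB hr x y w hxy hz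

end H97G
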