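import Pool.Agent.Lib.H97G.GB

/-!
# H97G, chunk GC: polygons of the glued embedding inside one side

`poly_A`, `poly_B`: induction on the walk (`Walk.transfer`, `poly` of `cons`; `gpt_A`, `gmid_A`, `gpt_B`, `gmid_B`; the edge `x y` is in
the edge set of the side, so `x`, `y` are in `A` by `mem_of_adj`).
`kl_A`: the transferred walk is a cycle (`Walk.IsCycle.transfer`), `fA` is `KL`, `unknot_map` with `mirE`.
-/

namespace H97G

open H46K

variable {V : Type*} {G : SimpleGraph V} {A B : Set V} {u v : V}
variable {fA : SpatialGraph (Sd G A u v)} {fB : SpatialGraph (Sd G B u v)} {r : ℝ}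

theorem poly_A (h : Sep G A B u v) (nA : NForm fA u v) (nB : NForm fB u v) (hr : 0 < r)
    {a b : V} (w : (addE G u v).Walk a b) (hw : ∀ e ∈ w.edges, e ∈ (Sd G A u v).edgeSet) :
    (gemb h nA nB hr).poly w = (fA.poly (w.transfer (Sd G A u v) hw)).map mir := by
  induction w with
  | nil => rfl
  | @cons x y z hxy p ih =>
    have hadj : (Sd G A u v).Adj x y := hw s(x, y) (by simp)
    obtain ⟨hx, -⟩ := mem_of_adj h.huA h.hvA hadj
    have ih' := ih (fun e he => hw e (by simp [he]))
    have e1 : (gemb h nA nB hr).poly (SimpleGraph.Walk.cons hxy p) =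
        gpt A fA fB r x :: (gmid A u v fA fB r x y ++ (gemb h nA nB hr).poly p) := rfl
    have e2 : fA.poly ((SimpleGraph.Walk.cons hxy p).transfer (Sd G A u v) hw) =
        fA.pt x :: (fA.mid x y ++ fA.poly (p.transfer (Sd G A u v)
          (fun e he => hw e (by simp [he])))) := rfl
    rw [e1, e2, ih', gpt_A hx, gmid_A h nA hadj, List.map_cons, List.map_append]

theorem poly_B (h : Sep G A B u v) (nA : NForm fA u v) (nB : NForm fB u v) (hr : 0 < r)
    {a b : V} (w : (addE G u v).Walk a b) (hw : ∀ e ∈ w.edges, e ∈ (Sd G B u v).edgeSet) :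
    (gemb h nA nB hr).poly w = (fB.poly (w.transfer (Sd G B u v) hw)).map (thin r) := by
  induction w with
  | nil => rfl
  | @cons x y z hxy p ih =>
    have hadj : (Sd G B u v).Adj x y := hw s(x, y) (by simp)
    obtain ⟨hx, -⟩ := mem_of_adj h.huB h.hvB hadj
    have ih' := ih (fun e he => hw e (by simp [he]))
    have e1 : (gemb h nA nB hr).poly (SimpleGraph.Walk.cons hxy p) =
        gpt A fA fB r x :: (gmid A u v fA fB r x y ++ (gemb h nA nB hr).poly p) := rfl
    have e2 : fB.poly ((SimpleGraph.Walk.cons hxy p).transfer (Sd G B u v) hw) =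
        fB.pt x :: (fB.mid x y ++ fB.poly (p.transfer (Sd G B u v)
          (fun e he => hw e (by simp [he])))) := rfl
    rw [e1, e2, ih', gpt_B h nA nB hx, gmid_B h nB hadj, List.map_cons, List.map_append]

theorem kl_A (h : Sep G A B u v) (nA : NForm fA u v) (nB : NForm fB u v) (hr : 0 < r)
    (kA : KL fA) {a : V} (c : (addE G u v).Walk a a) (hc : c.IsCycle)
    (hw : ∀ e ∈ c.edges, e ∈ (Sd G A u v).edgeSet) : Unknot ((gemb h nA nB hr).poly c) := by
  rw [poly_A h nA nB hr c hw]
  exact unknot_map mirE (kA a _ (hc.transfer hw))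

theorem kl_B (h : Sep G A B u v) (nA : NForm fA u v) (nB : NForm fB u v) (hr : 0 < r)
    (kB : KL fB) {a : V} (c : (addE G u v).Walk a a) (hc : c.IsCycle)
    (hw : ∀ e ∈ c.edges, e ∈ (Sd G B u v).edgeSet) : Unknot ((gemb h nA nB hr).poly c) := by
  rw [poly_B h nA nB hr c hw]
  exact unknot_map (thinE r hr.ne') (kB a _ (hc.transfer hw))

/-- points of the polygon of a walk in an embedding in normal form, besides `pO`, `pE` -/
theorem poly_mem {H : SimpleGraph V} {f : SpatialGraph H} (nf : NForm f u v) {a b : V}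
    (w : H.Walk a b) : ∀ X ∈ f.poly w, (∃ x ∈ w.support.dropLast, X = f.pt x) ∨ Reg X := by
  induction w with
  | nil =>
    intro X hX
    cases hX
  | @cons x y z hxy p ih =>
    intro X hX
    have hsup : (SimpleGraph.Walk.cons hxy p).support.dropLast = x :: p.support.dropLast := by
      rw [SimpleGraph.Walk.support_cons, List.dropLast_cons_of_ne_nil p.support_ne_nil]
    have e1 : f.poly (SimpleGraph.Walk.cons hxy p) = f.pt x :: (f.mid x y ++ f.poly p) := rfl
    rw [e1, List.mem_cons, List.mem_append] at hX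
    rcases hX with hX | hX | hX
    · exact Or.inl ⟨x, by rw [hsup]; exact List.mem_cons_self, hX⟩
    · exact Or.inr (nf.pm x y hxy X hX)
    · rcases ih X hX with ⟨x', hx', h1⟩ | h1
      · exact Or.inl ⟨x', by rw [hsup]; exact List.mem_cons_of_mem _ hx', h1⟩
      · exact Or.inr h1

end H97G
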