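import Pool.Agent.Lib.H97G.G0

/-!
# H97G, chunk GD: cycles of a graph with a 2-separation

Pure graph theory. `H = addE G u v`.
`side_walk`: if `p : H.Walk x v` is a path which does not pass through `u` and `x ∈ A`, `x ≠ v` (so `x ≠ u`) then all its edges are edges
of `Sd G A u v`: induction on `p`: the first edge `x y` is an edge of `G` (`x ≠ u, v`), both ends in `A` or both in `B`; `x ∉ B` by
`hI`, so `y ∈ A`; `y = v`: the rest is a path from `v` to `v`, so `nil`; otherwise induction.
`path_uv`: a path from `u` to `v` has all its edges in the A-graph or all in the B-graph: it is `cons (u x) p'`, `x = v`: it is the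
edge `u v` (`p'` is `nil`); otherwise `x` is in `A` or in `B`, `side_walk` for `p'`, and the first edge.
`path_vu`: the reverse.
`cycle_split`: (1) if `u` and `v` are both on the cycle: rotate to `u` (`Walk.rotate`, `IsCycle.rotate`, `f.poly` of a rotated walk is a rotation
of the list: `cycle_at` of WA, or `poly_append` with `takeUntil`, `dropUntil`), `c' = p.append q`, `p = c'.takeUntil v` and
`q = c'.dropUntil v` are paths (`IsCycle.isPath_takeUntil`, `IsCycle.isPath_of_append_right`, ...). `path_uv p`, `path_vu q`: if
both are in the A-graph or both in the B-graph we are done. If `p` is in the B-graph and `q` in the A-graph: third case (if `p` contains the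
edge `u v` then all edges of `p` = edge `u v` are in the A-graph too: first case; same for `q`). If `p` is in the A-graph and `q` in the
B-graph: take `q.reverse` and `p.reverse` (`poly_reverse`, `unknot_reverse`, `Unknot.rot`).
(2) `u` or `v` is not on the cycle: all edges are in one side: rotate to the vertex which is on the cycle (say `u`), write it as
`cons (u x) p'`, `p'` a path from `x` to `u` avoiding `v`: `side_walk` with `u`, `v` exchanged (`Sep` is symmetric in `u`, `v` and
`addE G u v = addE G v u` up to `Adj`-equivalence); if neither `u` nor `v` is on the cycle: all vertices are in `A` without `B` or in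
`B` without `A`: the same induction without end condition (`side_free`).
-/

namespace H97G

open H46K

variable {V : Type*} {G : SimpleGraph V} {A B : Set V} {u v : V}

/-- a walk which leaves `A` without `{u, v}` only at its last vertex -/
theorem side_walk (h : Sep G A B u v) {x y : V} (p : (addE G u v).Walk x y) (hx : x ∈ A)
    (hp : ∀ w ∈ p.support.dropLast, w ≠ u ∧ w ≠ v) :
    ∀ e ∈ p.edges, e ∈ (Sd G A u v).edgeSet := by
  induction p with
  | nil =>
    intro e he
    simp at he
  | @cons x y z hxy p ih =>
    have hsup : (SimpleGraph.Walk.cons hxy p).support.dropLast = x :: p.support.dropLast := by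
      rw [SimpleGraph.Walk.support_cons, List.dropLast_cons_of_ne_nil p.support_ne_nil]
    rw [hsup] at hp
    obtain ⟨hxu, hxv⟩ := hp x List.mem_cons_self
    have hxB : x ∉ B := by
      intro hB
      rcases h.hI x hx hB with h1 | h1
      · exact hxu h1
      · exact hxv h1
    have hG : G.Adj x y := by
      rcases hxy with h1 | ⟨_, ⟨h1, _⟩ | ⟨h1, _⟩⟩
      · exact h1
      · exact absurd h1 hxu
      · exact absurd h1 hxv
    have hy : y ∈ A := by
      rcases h.hE x y hG with h1 | h1
      · exact h1.2
      · exact absurd h1.1 hxB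
    intro e he
    rw [SimpleGraph.Walk.edges_cons, List.mem_cons] at he
    rcases he with rfl | he
    · exact Or.inl ⟨hG, hx, hy⟩
    · exact ih hy (fun w hw => hp w (List.mem_cons_of_mem _ hw)) e he

theorem GD_last {H : SimpleGraph V} {x y : V} (p : H.Walk x y) (hp : p.IsPath) :
    ∀ w ∈ p.support.dropLast, w ≠ y := by
  intro w hw hwy
  have h1 : p.support.dropLast ++ [y] = p.support := by
    have h2 := List.dropLast_append_getLast p.support_ne_nil
    rw [SimpleGraph.Walk.getLast_support] at h2
    exact h2
  have h3 := hp.support_nodup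
  rw [← h1, List.nodup_append] at h3
  exact h3.2.2 w hw y (List.mem_singleton_self y) hwy

theorem GD_edge (h : Sep G A B u v) {t x : V} (ht : t = u ∨ t = v) (hx : x ∈ A)
    (hxu : x ≠ u) (hxv : x ≠ v) (htx : (addE G u v).Adj t x) : (Sd G A u v).Adj t x := by
  have hG : G.Adj t x := by
    rcases htx with h1 | ⟨_, ⟨_, h1⟩ | ⟨_, h1⟩⟩
    · exact h1
    · exact absurd h1 hxv
    · exact absurd h1 hxu
  have htA : t ∈ A := by
    rcases ht with rfl | rfl
    · exact h.huA
    · exact h.hvA
  exact Or.inl ⟨hG, htA, hx⟩

/-- a cons walk -/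
theorem GD_cons (h : Sep G A B u v) {t x y : V} (ht : t = u ∨ t = v) (hx : x ∈ A)
    (hxu : x ≠ u) (hxv : x ≠ v) (htx : (addE G u v).Adj t x) (p : (addE G u v).Walk x y)
    (hp : ∀ w ∈ p.support.dropLast, w ≠ u ∧ w ≠ v) :
    ∀ e ∈ (SimpleGraph.Walk.cons htx p).edges, e ∈ (Sd G A u v).edgeSet := by
  intro e he
  rw [SimpleGraph.Walk.edges_cons, List.mem_cons] at he
  rcases he with rfl | he
  · exact GD_edge h ht hx hxu hxv htx
  · exact side_walk h p hx hp e he

theorem GD_single (h : Sep G A B u v) : s(u, v) ∈ (Sd G A u v).edgeSet :=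
  adj_uv h.huv _

/-- a path from `u` to `v` with the edge `u v` -/
theorem GD_only {H : SimpleGraph V} {u v : V} (p : H.Walk u v) (hp : p.IsPath)
    (he : s(u, v) ∈ p.edges) : ∀ e ∈ p.edges, e = s(u, v) := by
  cases p with
  | nil => simp at he
  | @cons _ x _ hux p =>
    rw [SimpleGraph.Walk.cons_isPath_iff] at hp
    rw [SimpleGraph.Walk.edges_cons, List.mem_cons] at he
    rcases he with he | he
    · have hx : v = x := by
        have h1 : v ∈ s(u, x) := by
          rw [← he]
          exact Sym2.mem_mk_right u v
        rcases Sym2.mem_iff.1 h1 with h2 | h2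
        · exact absurd (h2 ▸ p.end_mem_support) hp.2
        · exact h2
      subst hx
      have h2 : p = SimpleGraph.Walk.nil := by
        exact SimpleGraph.Walk.isPath_iff_eq_nil.1 hp.1
      intro e he'
      rw [h2, SimpleGraph.Walk.edges_cons, SimpleGraph.Walk.edges_nil, List.mem_singleton] at he'
      exact he'
    · exact absurd (p.fst_mem_support_of_mem_edges he) hp.2

theorem path_uv (h : Sep G A B u v) (p : (addE G u v).Walk u v) (hp : p.IsPath) :
    (∀ e ∈ p.edges, e ∈ (Sd G A u v).edgeSet) ∨ (∀ e ∈ p.edges, e ∈ (Sd G B u v).edgeSet) := by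
  by_cases he : s(u, v) ∈ p.edges
  · left
    intro e h1
    rw [GD_only p hp he e h1]
    exact GD_single h
  cases p with
  | nil => exact absurd rfl h.huv
  | @cons _ x _ hux p =>
    rw [SimpleGraph.Walk.cons_isPath_iff] at hp
    have hxv : x ≠ v := by
      rintro rfl
      apply he
      rw [SimpleGraph.Walk.edges_cons]
      exact List.mem_cons_self
    have hxu : x ≠ u := by
      rintro rfl
      exact hp.2 p.start_mem_support
    have hd : ∀ w ∈ p.support.dropLast, w ≠ u ∧ w ≠ v := by
      intro w hw
      refine ⟨?_, GD_last p hp.1 w hw⟩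
      rintro rfl
      exact hp.2 (List.mem_of_mem_dropLast hw)
    rcases h.hAB x with hx | hx
    · exact Or.inl (GD_cons h (Or.inl rfl) hx hxu hxv hux p hd)
    · exact Or.inr (GD_cons h.symm (Or.inl rfl) hx hxu hxv hux p hd)

theorem path_vu (h : Sep G A B u v) (p : (addE G u v).Walk v u) (hp : p.IsPath) :
    (∀ e ∈ p.edges, e ∈ (Sd G A u v).edgeSet) ∨ (∀ e ∈ p.edges, e ∈ (Sd G B u v).edgeSet) := by
  have h1 := path_uv h p.reverse hp.reverse
  rw [SimpleGraph.Walk.edges_reverse] at h1
  simp only [List.mem_reverse] at h1
  exact h1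

theorem GD_one (h : Sep G A B u v) {t : V} (ht : t = u ∨ t = v) (c : (addE G u v).Walk t t)
    (hc : c.IsCycle) (ho : ∀ w ∈ c.support, w = u ∨ w = v → w = t) :
    (∀ e ∈ c.edges, e ∈ (Sd G A u v).edgeSet) ∨ (∀ e ∈ c.edges, e ∈ (Sd G B u v).edgeSet) := by
  cases c with
  | nil => exact absurd rfl hc.ne_nil
  | @cons _ x _ htx p =>
    rw [SimpleGraph.Walk.cons_isCycle_iff] at hc
    have hxt : x ≠ t := htx.ne.symm
    have hxs : x ∈ (SimpleGraph.Walk.cons htx p).support := by
      rw [SimpleGraph.Walk.support_cons]
      exact List.mem_cons_of_mem _ p.start_mem_support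
    have hxu : x ≠ u := fun h1 => hxt (ho x hxs (Or.inl h1))
    have hxv : x ≠ v := fun h1 => hxt (ho x hxs (Or.inr h1))
    have hd : ∀ w ∈ p.support.dropLast, w ≠ u ∧ w ≠ v := by
      intro w hw
      have h1 := GD_last p hc.1 w hw
      have h2 : w ∈ (SimpleGraph.Walk.cons htx p).support := by
        rw [SimpleGraph.Walk.support_cons]
        exact List.mem_cons_of_mem _ (List.mem_of_mem_dropLast hw)
      exact ⟨fun h3 => h1 (ho w h2 (Or.inl h3)), fun h3 => h1 (ho w h2 (Or.inr h3))⟩
    rcases h.hAB x with hx | hx
    · exact Or.inl (GD_cons h ht hx hxu hxv htx p hd)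
    · exact Or.inr (GD_cons h.symm ht hx hxu hxv htx p hd)

theorem GD_rot [DecidableEq V] {H : SimpleGraph V} {a t : V} (c : H.Walk a a) (ht : t ∈ c.support)
    (g : SpatialGraph H) : Unknot (g.poly c) ↔ Unknot (g.poly (c.rotate t ht)) := by
  have h1 : g.poly c = g.poly (c.takeUntil t ht) ++ g.poly (c.dropUntil t ht) := by
    rw [← poly_append, SimpleGraph.Walk.take_spec]
  have h2 : g.poly (c.rotate t ht) = g.poly (c.dropUntil t ht) ++ g.poly (c.takeUntil t ht) := by
    rw [← poly_append]
    rfl
  have h3 : g.poly c ~r g.poly (c.rotate t ht) := by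
    rw [h1, h2]
    exact List.isRotated_append
  exact ⟨Unknot.rot _ _ h3, Unknot.rot _ _ h3.symm⟩

theorem GD_rev {H : SimpleGraph V} {a : V} (c : H.Walk a a) (g : SpatialGraph H) :
    Unknot (g.poly c) ↔ Unknot (g.poly c.reverse) := by
  have h1 := poly_reverse g c
  constructor
  · intro h
    exact Unknot.rot _ _ h1.symm (unknot_reverse h)
  · intro h
    have h2 := unknot_reverse (Unknot.rot _ _ h1 h)
    rwa [List.reverse_reverse] at h2

theorem cycle_split [DecidableEq V] (h : Sep G A B u v) {a : V} (c : (addE G u v).Walk a a)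
    (hc : c.IsCycle) :
    (∀ e ∈ c.edges, e ∈ (Sd G A u v).edgeSet) ∨ (∀ e ∈ c.edges, e ∈ (Sd G B u v).edgeSet) ∨
    ∃ (p : (addE G u v).Walk u v) (q : (addE G u v).Walk v u), p.IsPath ∧ q.IsPath ∧
      s(u, v) ∉ p.edges ∧ s(u, v) ∉ q.edges ∧
      (∀ e ∈ p.edges, e ∈ (Sd G B u v).edgeSet) ∧ (∀ e ∈ q.edges, e ∈ (Sd G A u v).edgeSet) ∧
      ∀ g : SpatialGraph (addE G u v), (Unknot (g.poly c) ↔ Unknot (g.poly (p.append q))) := by
  by_cases hu : u ∈ c.support
  · have hc' := hc.rotate hu
    have hed : ∀ e, e ∈ c.edges ↔ e ∈ (c.rotate u hu).edges := fun e =>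
      (c.rotate_edges u hu).mem_iff.symm
    by_cases hv : v ∈ c.support
    · have hv' : v ∈ (c.rotate u hu).support := by
        rw [SimpleGraph.Walk.mem_support_rotate_iff]
        exact hv
      obtain ⟨p, hp⟩ : ∃ p, p = (c.rotate u hu).takeUntil v hv' := ⟨_, rfl⟩
      obtain ⟨q, hq⟩ : ∃ q, q = (c.rotate u hu).dropUntil v hv' := ⟨_, rfl⟩
      have hpq : p.append q = c.rotate u hu := by
        rw [hp, hq]
        exact SimpleGraph.Walk.take_spec _ hv'
      have hpp : p.IsPath := by
        rw [hp]
        exact hc'.isPath_takeUntil hv'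
      have hqp : q.IsPath := by
        rw [← hpq] at hc'
        refine hc'.isPath_of_append_right ?_
        intro hn
        exact h.huv hn.eq
      have hed' : ∀ e, e ∈ c.edges ↔ e ∈ p.edges ∨ e ∈ q.edges := by
        intro e
        rw [hed e, ← hpq, SimpleGraph.Walk.edges_append, List.mem_append]
      have hun : ∀ g : SpatialGraph (addE G u v),
          (Unknot (g.poly c) ↔ Unknot (g.poly (p.append q))) := by
        intro g
        rw [hpq]
        exact GD_rot c hu g
      have hrv : s(u, v) ∈ q.edges → ∀ e ∈ q.edges, e = s(u, v) := by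
        intro h1 e he
        have h2 := GD_only q.reverse hqp.reverse (by
          rw [SimpleGraph.Walk.edges_reverse, List.mem_reverse]
          exact h1) e (by
          rw [SimpleGraph.Walk.edges_reverse, List.mem_reverse]
          exact he)
        exact h2
      have hAA : (∀ e ∈ p.edges, e ∈ (Sd G A u v).edgeSet) →
          (∀ e ∈ q.edges, e ∈ (Sd G A u v).edgeSet) →
            ∀ e ∈ c.edges, e ∈ (Sd G A u v).edgeSet := by
        intro h1 h2 e he
        rcases (hed' e).1 he with h3 | h3
        · exact h1 e h3
        · exact h2 e h3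
      have hBB : (∀ e ∈ p.edges, e ∈ (Sd G B u v).edgeSet) →
          (∀ e ∈ q.edges, e ∈ (Sd G B u v).edgeSet) →
            ∀ e ∈ c.edges, e ∈ (Sd G B u v).edgeSet := by
        intro h1 h2 e he
        rcases (hed' e).1 he with h3 | h3
        · exact h1 e h3
        · exact h2 e h3
      by_cases hpe : s(u, v) ∈ p.edges
      · have h1 := GD_only p hpp hpe
        rcases path_vu h q hqp with h2 | h2
        · left
          exact hAA (fun e he => by rw [h1 e he]; exact GD_single h) h2
        · right
          left
          exact hBB (fun e he => by rw [h1 e he]; exact GD_single h.symm) h2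
      by_cases hqe : s(u, v) ∈ q.edges
      · have h1 := hrv hqe
        rcases path_uv h p hpp with h2 | h2
        · left
          exact hAA h2 (fun e he => by rw [h1 e he]; exact GD_single h)
        · right
          left
          exact hBB h2 (fun e he => by rw [h1 e he]; exact GD_single h.symm)
      rcases path_uv h p hpp with h1 | h1 <;> rcases path_vu h q hqp with h2 | h2
      · exact Or.inl (hAA h1 h2)
      · right
        right
        refine ⟨q.reverse, p.reverse, hqp.reverse, hpp.reverse, ?_, ?_, ?_, ?_, ?_⟩
        · rw [SimpleGraph.Walk.edges_reverse, List.mem_reverse]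
          exact hqe
        · rw [SimpleGraph.Walk.edges_reverse, List.mem_reverse]
          exact hpe
        · intro e he
          rw [SimpleGraph.Walk.edges_reverse, List.mem_reverse] at he
          exact h2 e he
        · intro e he
          rw [SimpleGraph.Walk.edges_reverse, List.mem_reverse] at he
          exact h1 e he
        · intro g
          rw [hun g, ← SimpleGraph.Walk.reverse_append]
          exact GD_rev _ g
      · exact Or.inr (Or.inr ⟨p, q, hpp, hqp, hpe, hqe, h1, h2, hun⟩)
      · exact Or.inr (Or.inl (hBB h1 h2))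
    · have h1 := GD_one h (Or.inl rfl) (c.rotate u hu) hc' (by
        intro w hw hw'
        rw [SimpleGraph.Walk.mem_support_rotate_iff] at hw
        rcases hw' with rfl | rfl
        · rfl
        · exact absurd hw hv)
      rcases h1 with h1 | h1
      · exact Or.inl fun e he => h1 e ((hed e).1 he)
      · exact Or.inr (Or.inl fun e he => h1 e ((hed e).1 he))
  · by_cases hv : v ∈ c.support
    · have hc' := hc.rotate hv
      have hed : ∀ e, e ∈ c.edges ↔ e ∈ (c.rotate v hv).edges := fun e =>
        (c.rotate_edges v hv).mem_iff.symm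
      have h1 := GD_one h (Or.inr rfl) (c.rotate v hv) hc' (by
        intro w hw hw'
        rw [SimpleGraph.Walk.mem_support_rotate_iff] at hw
        rcases hw' with rfl | rfl
        · exact absurd hw hu
        · rfl)
      rcases h1 with h1 | h1
      · exact Or.inl fun e he => h1 e ((hed e).1 he)
      · exact Or.inr (Or.inl fun e he => h1 e ((hed e).1 he))
    · have hd : ∀ w ∈ c.support.dropLast, w ≠ u ∧ w ≠ v := by
        intro w hw
        have h1 := List.mem_of_mem_dropLast hw
        refine ⟨?_, ?_⟩
        · rintro rfl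
          exact hu h1
        · rintro rfl
          exact hv h1
      rcases h.hAB a with ha | ha
      · exact Or.inl (side_walk h c ha hd)
      · exact Or.inr (Or.inl (side_walk h.symm c ha hd))

end H97G
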