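import Pool.Agent.Lib.H97G.GC
import Pool.Agent.Lib.H97G.GD

/-!
# H97G, chunk GE: crossing cycles are unknotted for small r

`p` a path from `u` to `v` in the B-graph without the edge `u v`, `q` a path from `v` to `u` in the A-graph without the edge
`u v`. Let `p' = p.transfer`, `q' = q.transfer`; they are not `nil` (`u ≠ v`), so `fB.poly p' = pO :: mids` and
`fA.poly q' = pE :: rest'`; `mids` and `rest'` are in `Reg` (`poly_mem`: the vertices of `p'` except the first and the last one are
different from `u`, `v` since it is a path; the support without the last vertex starts with `u`). By `poly_append`, `poly_A`, `poly_B`: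
`(gemb ..).poly (p.append q) = pO :: (mids.map (thin r) ++ pE :: rest'.map mir)`, and `rest'.map mir` is in `RegN`.
The cycle `cons (u v) q'` of the A-graph (`cons_isCycle_iff`) has the polygon `pO :: pE :: rest'` (`nA.muv`), unknotted by `kA`, so
`unknot_map mirE` gives `Unknot (pO :: pE :: rest'.map mir)`. The cycle `cons (v u) p'` of the B-graph has the polygon `pE :: pO :: mids`,
unknotted by `kB`; rotate: `Unknot (pO :: (mids ++ [pE]))`. `hS` gives `r0`.
`cross_small`: the paths `u → v` and `v → u` are finitely many (`SimpleGraph.Path` is a `Fintype`; or `Filter.eventually_all` over the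
finite types), so one `r0` works for all pairs (minimum over a finite type: `Finite.exists_min`, or `Filter.eventually_all` with `𝓝[>] 0`).
-/

namespace H97G

open H46K

variable {V : Type*} {G : SimpleGraph V} {A B : Set V} {u v : V}
variable {fA : SpatialGraph (Sd G A u v)} {fB : SpatialGraph (Sd G B u v)}

/-- the polygon of a path between `a` and `b`, `{a, b} = {u, v}` -/
theorem GE_path {H : SimpleGraph V} {f : SpatialGraph H} {u v : V} (nf : NForm f u v) {a b : V}
    (hab : a ≠ b) (h1 : a = u ∨ a = v) (h2 : b = u ∨ b = v) (w : H.Walk a b) (hw : w.IsPath) :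
    ∃ l, f.poly w = f.pt a :: l ∧ ∀ X ∈ l, Reg X := by
  cases w with
  | nil => exact absurd rfl hab
  | @cons _ c _ hac p =>
    refine ⟨f.mid a c ++ f.poly p, rfl, ?_⟩
    rw [SimpleGraph.Walk.cons_isPath_iff] at hw
    intro X hX
    rw [List.mem_append] at hX
    rcases hX with hX | hX
    · exact nf.pm a c hac X hX
    · rcases poly_mem nf p X hX with ⟨x, hx, rfl⟩ | h
      · have hxa : x ≠ a := by
          rintro rfl
          exact hw.2 (List.mem_of_mem_dropLast hx)
        have hxb : x ≠ b := by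
          rintro rfl
          exact GD_last p hw.1 x hx rfl
        apply nf.pw
        · rcases h1 with h1 | h1
          · rw [← h1]
            exact hxa
          · rcases h2 with h2 | h2
            · rw [← h2]
              exact hxb
            · exact absurd (h1.trans h2.symm) hab
        · rcases h2 with h2 | h2
          · rcases h1 with h1 | h1
            · exact absurd (h1.trans h2.symm) hab
            · rw [← h1]
              exact hxa
          · rw [← h2]
            exact hxb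
      · exact h

theorem GE_regN {X : P3} (h : Reg X) : RegN (mir X) := by
  obtain ⟨h1, h2, h3⟩ := h
  refine ⟨?_, h2, h3⟩
  simp only [mir]
  linarith

theorem cross_one (hS : StConnSum) (h : Sep G A B u v) (nA : NForm fA u v) (nB : NForm fB u v)
    (kA : KL fA) (kB : KL fB) (p : (addE G u v).Walk u v) (q : (addE G u v).Walk v u)
    (hp : p.IsPath) (hq : q.IsPath) (hpe : s(u, v) ∉ p.edges) (hqe : s(u, v) ∉ q.edges)
    (hpB : ∀ e ∈ p.edges, e ∈ (Sd G B u v).edgeSet)
    (hqA : ∀ e ∈ q.edges, e ∈ (Sd G A u v).edgeSet) :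
    ∃ r0 : ℝ, 0 < r0 ∧ ∀ (r : ℝ) (hr : 0 < r), r ≤ r0 →
      Unknot ((gemb h nA nB hr).poly (p.append q)) := by
  have hp' : (p.transfer (Sd G B u v) hpB).IsPath := hp.transfer hpB
  have hq' : (q.transfer (Sd G A u v) hqA).IsPath := hq.transfer hqA
  obtain ⟨mids, hm1, hm2⟩ := GE_path nB h.huv (Or.inl rfl) (Or.inr rfl) _ hp'
  obtain ⟨rest', hr1, hr2⟩ := GE_path nA h.huv.symm (Or.inr rfl) (Or.inl rfl) _ hq'
  rw [nB.pu] at hm1
  rw [nA.pv] at hr1
  have huvA : (Sd G A u v).Adj u v := adj_uv h.huv _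
  have huvB : (Sd G B u v).Adj u v := adj_uv h.huv _
  have hU1 : Unknot (pO :: pE :: rest'.map mir) := by
    have hc : (SimpleGraph.Walk.cons huvA (q.transfer (Sd G A u v) hqA)).IsCycle := by
      rw [SimpleGraph.Walk.cons_isCycle_iff]
      refine ⟨hq', ?_⟩
      rw [SimpleGraph.Walk.edges_transfer]
      exact hqe
    have h1 := kA _ _ hc
    rw [WA_cons, nA.muv, hr1, nA.pu] at h1
    have h2 := unknot_map mirE h1
    rw [mirE_coe] at h2
    simpa [mir_pO, mir_pE] using h2
  have hU2 : Unknot (pO :: (mids ++ [pE])) := by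
    have hc : (SimpleGraph.Walk.cons huvB.symm (p.transfer (Sd G B u v) hpB)).IsCycle := by
      rw [SimpleGraph.Walk.cons_isCycle_iff]
      refine ⟨hp', ?_⟩
      rw [SimpleGraph.Walk.edges_transfer, Sym2.eq_swap]
      exact hpe
    have h1 := kB _ _ hc
    rw [WA_cons, nB.mvu huvB, hm1, nB.pv] at h1
    refine Unknot.rot _ _ ?_ h1
    exact List.isRotated_append (l := [pE]) (l' := pO :: mids)
  obtain ⟨r0, hr0, hr⟩ := hS (rest'.map mir) mids hU1 hU2 (by
    intro X hX
    obtain ⟨Y, hY, rfl⟩ := List.mem_map.1 hX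
    exact GE_regN (hr2 Y hY)) hm2
  refine ⟨r0, hr0, fun r hrp hrr => ?_⟩
  have h3 := hr r hrp hrr
  rw [poly_append, poly_B h nA nB hrp p hpB, poly_A h nA nB hrp q hqA, hm1, hr1]
  simpa [thin_pO, mir_pE] using h3

theorem cross_small [Fintype V] [DecidableEq V] (hS : StConnSum) (h : Sep G A B u v)
    (nA : NForm fA u v) (nB : NForm fB u v) (kA : KL fA) (kB : KL fB) :
    ∃ (r : ℝ) (hr : 0 < r), ∀ (p : (addE G u v).Walk u v) (q : (addE G u v).Walk v u),
      p.IsPath → q.IsPath → s(u, v) ∉ p.edges → s(u, v) ∉ q.edges →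
      (∀ e ∈ p.edges, e ∈ (Sd G B u v).edgeSet) → (∀ e ∈ q.edges, e ∈ (Sd G A u v).edgeSet) →
        Unknot ((gemb h nA nB hr).poly (p.append q)) := by
  classical
  have h1 : ∀ pq : (addE G u v).Path u v × (addE G u v).Path v u, ∃ r0 : ℝ, 0 < r0 ∧
      (s(u, v) ∉ pq.1.1.edges → s(u, v) ∉ pq.2.1.edges →
        (∀ e ∈ pq.1.1.edges, e ∈ (Sd G B u v).edgeSet) →
        (∀ e ∈ pq.2.1.edges, e ∈ (Sd G A u v).edgeSet) →
          ∀ (r : ℝ) (hr : 0 < r), r ≤ r0 → Unknot ((gemb h nA nB hr).poly (pq.1.1.append pq.2.1))) := by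
    rintro ⟨⟨p, hp⟩, ⟨q, hq⟩⟩
    by_cases hc : s(u, v) ∉ p.edges ∧ s(u, v) ∉ q.edges ∧
        (∀ e ∈ p.edges, e ∈ (Sd G B u v).edgeSet) ∧ (∀ e ∈ q.edges, e ∈ (Sd G A u v).edgeSet)
    · obtain ⟨r0, hr0, h2⟩ := cross_one hS h nA nB kA kB p q hp hq hc.1 hc.2.1 hc.2.2.1 hc.2.2.2
      exact ⟨r0, hr0, fun _ _ _ _ r hr hrr => h2 r hr hrr⟩
    · refine ⟨1, one_pos, fun a1 a2 a3 a4 => absurd ⟨a1, a2, a3, a4⟩ hc⟩
  choose R hR0 hR using h1
  haveI : Finite ((addE G u v).Path u v × (addE G u v).Path v u) := by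
    haveI : Fintype ((addE G u v).Path u v) := inferInstance
    haveI : Fintype ((addE G u v).Path v u) := inferInstance
    infer_instance
  by_cases hne : Nonempty ((addE G u v).Path u v × (addE G u v).Path v u)
  · obtain ⟨x0, hx0⟩ := Finite.exists_min R
    refine ⟨R x0, hR0 x0, fun p q hp hq h2 h3 h4 h5 => ?_⟩
    exact hR ⟨⟨p, hp⟩, ⟨q, hq⟩⟩ h2 h3 h4 h5 (R x0) (hR0 x0) (hx0 _)
  · exact ⟨1, one_pos, fun p q hp hq _ _ _ _ => absurd ⟨⟨p, hp⟩, ⟨q, hq⟩⟩ hne⟩

end H97G
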