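import Pool.Agent.Lib.H97G.G0

/-!
# H97G, chunk GF: subgraphs of graphs with a knotless embedding

Same `pt`, `mid`; the conditions for adjacent vertices of `G` follow from those of `G'`. A cycle `c` of `G` is mapped to the cycle
`c.mapLe h` of `G'` (`Walk.IsCycle.mapLe` or `IsCycle.map` with an injective homomorphism) with the same polygon (induction on
walks).
-/

namespace H97G

open H46K

variable {V : Type*}

/-- restriction of an embedding to a subgraph -/
def GF_res {G G' : SimpleGraph V} (h : G ≤ G') (f : SpatialGraph G') : SpatialGraph G where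
  pt := f.pt
  mid := f.mid
  pt_inj := f.pt_inj
  mid_symm := fun u v huv => f.mid_symm u v (h huv)
  simple := fun u v huv => f.simple u v (h huv)
  disj := fun u v u' v' huv huv' => f.disj u v u' v' (h huv) (h huv')
  vert := fun u v w huv => f.vert u v w (h huv)

theorem GF_poly {G G' : SimpleGraph V} (h : G ≤ G') (f : SpatialGraph G') {a b : V} (w : G.Walk a b) :
    (GF_res h f).poly w = f.poly (w.mapLe h) := by
  induction w with
  | nil => rfl
  | cons hab p ih =>
    have e1 : (SimpleGraph.Walk.cons hab p).mapLe h = SimpleGraph.Walk.cons (h hab) (p.mapLe h) := rfl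
    rw [e1, WA_cons, WA_cons, ih]
    rfl

theorem kl_mono {G G' : SimpleGraph V} (h : G ≤ G') (hf : ∃ f : SpatialGraph G', KL f) :
    ∃ f : SpatialGraph G, KL f := by
  obtain ⟨f, hk⟩ := hf
  refine ⟨GF_res h f, fun a c hc => ?_⟩
  rw [GF_poly]
  exact hk a _ (hc.mapLe h)

end H97G
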