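import Pool.Agent.Lib.H97G.GE
import Pool.Agent.Lib.H97G.GF

/-!
# H97G, module G: the gluing theorem (assembled)
-/

namespace H97G

open H46K

variable {V : Type*}

theorem glue_of [Fintype V] [DecidableEq V] (hS : StConnSum) (hN : StNf V) (G : SimpleGraph V)
    (A B : Set V) (u v : V)
    (huv : u ≠ v) (huA : u ∈ A) (huB : u ∈ B) (hvA : v ∈ A) (hvB : v ∈ B)
    (hAB : ∀ w, w ∈ A ∨ w ∈ B) (hI : ∀ w, w ∈ A → w ∈ B → w = u ∨ w = v)
    (hE : ∀ a b, G.Adj a b → (a ∈ A ∧ b ∈ A) ∨ (a ∈ B ∧ b ∈ B))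
    (hA : ∃ f : SpatialGraph (addE (restr G A) u v), KL f)
    (hB : ∃ f : SpatialGraph (addE (restr G B) u v), KL f) :
    ∃ f : SpatialGraph (addE G u v), KL f := by
  have h : Sep G A B u v := ⟨huv, huA, huB, hvA, hvB, hAB, hI, hE⟩
  obtain ⟨fA, kA, nA⟩ := hN _ u v (adj_uv huv _) hA
  obtain ⟨fB, kB, nB⟩ := hN _ u v (adj_uv huv _) hB
  obtain ⟨r, hr, hcr⟩ := cross_small hS h nA nB kA kB
  refine ⟨gemb h nA nB hr, fun a c hc => ?_⟩
  rcases cycle_split h c hc with h1 | h1 | ⟨p, q, hp, hq, hpe, hqe, hpB, hqA, hiff⟩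
  · exact kl_A h nA nB hr kA c hc h1
  · exact kl_B h nA nB hr kB c hc h1
  · exact (hiff _).2 (hcr p q hp hq hpe hqe hpB hqA)

end H97G
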