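import Pool.Agent.Lib.H97G.G0

/-!
# H97G, chunk GX: arcs in normal form and the plane x = 0

`half_arc`: induction on `M` (with `a` general): the first coordinate is affine on segments; if `M` is not empty, the segment
`[a, c]`, `c` the first element of `M`, has first coordinate > 0 except possibly at `a`; the rest of the list starts with
`c`, `c.1 > 0`, and `z = c` is impossible since `z.1 = 0`. If `M` is empty one of `a`, `b` has positive first coordinate.
`nf_arc`: the list is `f.pt x :: (f.mid x y ++ [f.pt y])`; the ends have first coordinate `0` (`pO`, `pE`) or positive;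
an edge different from `u v` has an end different from `u`, `v`, or has a bend point or ... : if both ends are in
`{u, v}` then the edge is `u v` (the ends are different). So `half_arc` applies; `z = f.pt x`, `z.1 = 0` gives `x = u` or `x = v`.
-/

namespace H97G

open H46K

variable {V : Type*}

theorem half_nonneg (L : List P3) (hL : ∀ X ∈ L, 0 ≤ X.1) {z : P3} (hz : z ∈ arcSet L) :
    0 ≤ z.1 := by
  have hc : Convex ℝ {X : P3 | 0 ≤ X.1} :=
    (convex_Ici (0 : ℝ)).linear_preimage (LinearMap.fst ℝ ℝ (ℝ × ℝ))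
  exact arcSet_subset hc hL hz

theorem GX_seg {a c z : P3} (ha : 0 ≤ a.1) (hc : 0 < c.1) (hz : z ∈ segment ℝ a c)
    (h0 : z.1 = 0) : z = a := by
  obtain ⟨s, t, hs, ht, hst, rfl⟩ := hz
  have h1 : s * a.1 + t * c.1 = 0 := h0
  have h2 : 0 ≤ s * a.1 := mul_nonneg hs ha
  have h3 : 0 ≤ t * c.1 := mul_nonneg ht hc.le
  have h4 : t = 0 := by
    have h5 : t * c.1 = 0 := by linarith
    rcases mul_eq_zero.1 h5 with h6 | h6
    · exact h6
    · exact absurd h6 hc.ne'
  have h5 : s = 1 := by linarith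
  rw [h4, h5, one_smul, zero_smul, add_zero]

theorem half_arc (a b : P3) (M : List P3) (ha : 0 ≤ a.1) (hb : 0 ≤ b.1)
    (hM : ∀ X ∈ M, 0 < X.1) (hne : 0 < a.1 ∨ 0 < b.1 ∨ M ≠ []) {z : P3}
    (hz : z ∈ arcSet (a :: (M ++ [b]))) (h0 : z.1 = 0) : z = a ∨ z = b := by
  induction M generalizing a with
  | nil =>
    rcases hz with hz | hz
    · rcases hne with h | h | h
      · right
        rw [segment_symm] at hz
        exact GX_seg hb h hz h0
      · left
        exact GX_seg ha h hz h0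
      · exact absurd rfl h
    · exact Or.inr hz
  | cons c M ih =>
    have hc : 0 < c.1 := hM c List.mem_cons_self
    rcases hz with hz | hz
    · exact Or.inl (GX_seg ha hc hz h0)
    · rcases ih c hc.le (fun X hX => hM X (List.mem_cons_of_mem _ hX)) (Or.inl hc) hz with h | h
      · rw [h] at h0
        exact absurd h0 hc.ne'
      · exact Or.inr h

theorem GX_pt {H : SimpleGraph V} {f : SpatialGraph H} {u v : V} (nf : NForm f u v) (x : V) :
    0 ≤ (f.pt x).1 ∧ ((f.pt x).1 = 0 → (x = u ∧ f.pt x = pO) ∨ (x = v ∧ f.pt x = pE)) := by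
  by_cases hu : x = u
  · subst hu
    rw [nf.pu]
    exact ⟨le_refl _, fun _ => Or.inl ⟨rfl, rfl⟩⟩
  by_cases hv : x = v
  · subst hv
    rw [nf.pv]
    exact ⟨le_refl _, fun _ => Or.inr ⟨rfl, rfl⟩⟩
  have h := (nf.pw x hu hv).1
  exact ⟨h.le, fun h0 => absurd h0 h.ne'⟩

theorem nf_nonneg {H : SimpleGraph V} {f : SpatialGraph H} {u v : V} (nf : NForm f u v) {x y : V}
    (hxy : H.Adj x y) {z : P3} (hz : z ∈ arcSet (f.arc x y)) : 0 ≤ z.1 := by
  refine half_nonneg _ ?_ hz
  intro X hX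
  unfold SpatialGraph.arc at hX
  rw [List.mem_cons, List.mem_append, List.mem_singleton] at hX
  rcases hX with rfl | hX | rfl
  · exact (GX_pt nf x).1
  · exact (nf.pm x y hxy X hX).1.le
  · exact (GX_pt nf y).1

theorem nf_arc {H : SimpleGraph V} {f : SpatialGraph H} {u v : V} (nf : NForm f u v) {x y : V}
    (hxy : H.Adj x y) {z : P3} (hz : z ∈ arcSet (f.arc x y)) (h0 : z.1 = 0)
    (hne : s(x, y) ≠ s(u, v)) :
    (z = pO ∧ (u = x ∨ u = y)) ∨ (z = pE ∧ (v = x ∨ v = y)) := by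
  have hn : 0 < (f.pt x).1 ∨ 0 < (f.pt y).1 ∨ f.mid x y ≠ [] := by
    by_contra hcon
    push Not at hcon
    obtain ⟨h1, h2, _⟩ := hcon
    have a1 := (GX_pt nf x).2 (le_antisymm h1 (GX_pt nf x).1)
    have a2 := (GX_pt nf y).2 (le_antisymm h2 (GX_pt nf y).1)
    have hxy' : x ≠ y := hxy.ne
    rcases a1 with ⟨rfl, _⟩ | ⟨rfl, _⟩ <;> rcases a2 with ⟨rfl, _⟩ | ⟨rfl, _⟩
    · exact hxy' rfl
    · exact hne rfl
    · exact hne Sym2.eq_swap
    · exact hxy' rfl
  have h1 := half_arc (f.pt x) (f.pt y) (f.mid x y) (GX_pt nf x).1 (GX_pt nf y).1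
    (fun X hX => (nf.pm x y hxy X hX).1) hn hz h0
  rcases h1 with rfl | rfl
  · rcases (GX_pt nf x).2 h0 with ⟨h2, h3⟩ | ⟨h2, h3⟩
    · exact Or.inl ⟨h3, Or.inl h2.symm⟩
    · exact Or.inr ⟨h3, Or.inl h2.symm⟩
  · rcases (GX_pt nf y).2 h0 with ⟨h2, h3⟩ | ⟨h2, h3⟩
    · exact Or.inl ⟨h3, Or.inr h2.symm⟩
    · exact Or.inr ⟨h3, Or.inr h2.symm⟩

end H97G
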