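import Pool.Agent.Lib.H97G.VE

/-!
# H97G, chunk VF: cycles through `u` using two arcs different from `u v`

`R = f.mid u y ++ (f.poly q ++ (f.pt y' :: f.mid y' u))`. The old polygon is `f.pt u :: R`; `sub_ins` adds `m y` (between `f.pt u` and the head
`nx f u y` of `R`) and `m y'` (between the last element `nx f u y'` of `R` and `f.pt u`; rotate): `f.pt u :: m y :: (R ++ [m y'])`.
`local_move` with `U = interior T`, from `f.pt u` to `b`. Needed: `SimpleC (z :: m y :: (R ++ [m y']))` for `z ∈ interior T`: rotate to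
`m y' :: ([z] ++ m y :: R)` and `simpleC_two`: `IsSimple [m y', z, m y]` by `ib`; `IsSimple (m y :: (R ++ [m y']))` from
`unknot_simpleC` for `z = f.pt u`; the first arc is in `T`, the second one meets `T` only in `m y`, `m y'` (`arc_R`, `m_seg`).
-/

namespace H97G

open H46K

variable {V : Type*} {G : SimpleGraph V}

theorem VF_rot (a : P3) (l : List P3) : (a :: l) ~r (l ++ [a]) :=
  List.isRotated_append (l := [a]) (l' := l)

theorem move_two {f : SpatialGraph G} {u v : V} {b : P3} {M : List P3} {T : Set P3} {m : V → P3}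
    (hT : Tube f u v b M T m) {y y' : V} (hy : G.Adj u y) (hyv : y ≠ v) (hy' : G.Adj y' u)
    (hyv' : y' ≠ v) (hne : y ≠ y') (q : G.Walk y y') (hq : u ∉ q.support)
    (hU : Unknot (f.pt u :: (f.mid u y ++ (f.poly q ++ (f.pt y' :: f.mid y' u))))) :
    Unknot (b :: m y :: ((f.mid u y ++ (f.poly q ++ (f.pt y' :: f.mid y' u))) ++ [m y'])) := by
  have hR := arc_R hT hy hyv hy' hyv' q hq
  obtain ⟨l1, hl1⟩ := R_head f (u := u) q (f.mid y' u)
  obtain ⟨l2, hl2⟩ := R_last f hy' (f.mid u y ++ f.poly q)
  rw [List.append_assoc] at hl2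
  generalize hRR : f.mid u y ++ (f.poly q ++ (f.pt y' :: f.mid y' u)) = R at hU hR hl1 hl2 ⊢
  have hm := hT.m_mem y hy hyv
  have hm' := hT.m_mem y' hy'.symm hyv'
  -- step 1
  have h1 : Unknot (f.pt u :: m y :: R) := by
    rw [hl1] at hU ⊢
    exact sub_ins hm hU
  -- step 2
  have h2 : Unknot (nx f u y' :: f.pt u :: m y :: l2) := by
    refine Unknot.rot _ _ ?_ h1
    rw [hl2]
    exact (VF_rot (nx f u y') (f.pt u :: m y :: l2)).symm
  rw [openSegment_symm] at hm'
  have h3 := sub_ins hm' h2
  have h4 : Unknot (f.pt u :: m y :: (R ++ [m y'])) := by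
    refine Unknot.rot _ _ ?_ h3
    rw [hl2]
    have h5 := List.isRotated_append (l := [nx f u y', m y']) (l' := f.pt u :: m y :: l2)
    have e1 : f.pt u :: m y :: (l2 ++ [nx f u y'] ++ [m y']) =
        (f.pt u :: m y :: l2) ++ [nx f u y', m y'] := by simp
    rw [e1]
    exact h5
  have h6 : SimpleC (m y' :: ([f.pt u] ++ m y :: R)) := by
    refine simpleC_rot ?_ (unknot_simpleC h4)
    exact (VF_rot (m y') (f.pt u :: m y :: R)).symm
  rw [simpleC_two] at h6
  obtain ⟨h7, h8, h9, h10⟩ := h6
  refine local_move (interior T) isOpen_interior hT.cvx.interior (f.pt u) b _ hT.pin hT.bin ?_ h4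
  intro z hz
  have hzT : z ∈ T := interior_subset hz
  have h11 : SimpleC (m y' :: ([z] ++ m y :: R)) := by
    rw [simpleC_two]
    have hmT := hT.m_T y hy hyv
    have hmT' := hT.m_T y' hy'.symm hyv'
    have hmi := hT.m_int y hy hyv
    have hmi' := hT.m_int y' hy'.symm hyv'
    refine ⟨⟨?_, ?_, ?_⟩, h8, h9, ?_⟩
    · rintro rfl
      exact hmi' hz
    · change segment ℝ (m y') z ∩ arcSet [z, m y] ⊆ {z}
      rw [IB_seg, segment_symm]
      exact ib hT.cvx hz hmT' hmT hmi' hmi h9
    · change IsSimple [z, m y]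
      rw [IB_simple]
      rintro rfl
      exact hmi hz
    · rintro x ⟨hx1, hx2⟩
      have hxT : x ∈ T := by
        refine arcSet_subset hT.cvx ?_ hx1
        intro w hw
        simp only [List.singleton_append, List.mem_cons, List.not_mem_nil, or_false] at hw
        rcases hw with rfl | rfl | rfl
        · exact hmT'
        · exact hzT
        · exact hmT
      have e1 : m y :: (R ++ [m y']) = m y :: nx f u y :: (l1 ++ [m y']) := by rw [hl1]; simp
      rw [e1] at hx2
      rcases hx2 with hx2 | hx2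
      · right
        exact hT.m_seg y hy hyv ⟨hx2, hxT⟩
      · have e2 : nx f u y :: (l1 ++ [m y']) = l2 ++ nx f u y' :: [m y'] := by
          have : nx f u y :: (l1 ++ [m y']) = R ++ [m y'] := by rw [hl1]; simp
          rw [this, hl2]
          simp
        rw [e2, arcSet_append, ← hl2] at hx2
        rcases hx2 with hx2 | hx2
        · exact absurd hxT (Set.disjoint_left.1 hR hx2)
        · left
          rw [IB_seg, segment_symm] at hx2
          exact hT.m_seg y' hy'.symm hyv' ⟨hx2, hxT⟩
  exact simpleC_rot (VF_rot (m y') (z :: m y :: R)) h11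

end H97G
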