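import Pool.Agent.Lib.H97G.VE

/-!
# H97G, chunk VG: cycles through `u` using the arc `u v`

`R = f.mid u y ++ (f.poly q ++ (f.pt v :: M.reverse))`. The old polygon is `f.pt u :: (R ++ [b])`; `sub_ins` of `m y`: `f.pt u :: m y :: (R ++ [b])`,
rotate to `b :: f.pt u :: m y :: R`, then `del b (f.pt u) (m y) R`. Conditions: `segment b (f.pt u)` and `segment (f.pt u) (m y)` are on the arcs
`u v`, `u y`, which meet only in `f.pt u`; the hull of `b, f.pt u, m y` is in `T`; `arcSet (m y :: (R ++ [b]))`: the part up to the last element of `R`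
(the head `r` of `M ++ [f.pt v]`, as `R = .. ++ [r]`) meets `T` only in `m y` (`arc_Rv`, `m_seg`), the last segment `[r, b]` meets the
hull only in `b` by `ray` (`[f.pt u, m y]` and `[b, r]` are disjoint: the arcs `u y`, `u v` meet only in `f.pt u`, not on `[b, r]`).
-/

namespace H97G

open H46K

variable {V : Type*} {G : SimpleGraph V}

theorem VG_rot (a : P3) (l : List P3) : (a :: l) ~r (l ++ [a]) :=
  List.isRotated_append (l := [a]) (l' := l)

/-- the last element of `R` -/
theorem VG_last (M : List P3) (p : P3) (L : List P3) :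
    ∃ r l l', L ++ (p :: M.reverse) = l ++ [r] ∧ M ++ [p] = r :: l' := by
  cases M with
  | nil => exact ⟨p, L, [], by simp, rfl⟩
  | cons a M => exact ⟨a, L ++ (p :: M.reverse), M ++ [p], by simp, rfl⟩

theorem move_one {f : SpatialGraph G} {u v : V} (huv : G.Adj u v) {b : P3} {M : List P3}
    (hb : f.mid u v = b :: M) {T : Set P3} {m : V → P3} (hT : Tube f u v b M T m) {y : V}
    (hy : G.Adj u y) (hyv : y ≠ v) (q : G.Walk y v) (hq : u ∉ q.support)
    (hU : Unknot (f.pt u :: ((f.mid u y ++ (f.poly q ++ (f.pt v :: M.reverse))) ++ [b]))) :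
    Unknot (b :: m y :: (f.mid u y ++ (f.poly q ++ (f.pt v :: M.reverse)))) := by
  have hR := arc_Rv hT hy hyv q hq
  obtain ⟨l1, hl1⟩ := R_head f (u := u) q M.reverse
  obtain ⟨r, l2, l', hl2, hr⟩ := VG_last M (f.pt v) (f.mid u y ++ f.poly q)
  rw [List.append_assoc] at hl2
  generalize hRR : f.mid u y ++ (f.poly q ++ (f.pt v :: M.reverse)) = R at hU hR hl1 hl2 ⊢
  have hm := hT.m_mem y hy hyv
  have hmT := hT.m_T y hy hyv
  have hmi := hT.m_int y hy hyv
  have hpT : f.pt u ∈ T := interior_subset hT.pin
  have hbT : b ∈ T := interior_subset hT.bin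
  -- step 1
  have h1 : Unknot (f.pt u :: m y :: (R ++ [b])) := by
    rw [hl1] at hU ⊢
    exact sub_ins hm hU
  have h2 : Unknot (b :: f.pt u :: m y :: R) := by
    refine Unknot.rot _ _ ?_ h1
    exact (VG_rot b (f.pt u :: m y :: R)).symm
  -- the arcs
  have hsv := simple_v huv hb
  have harc1 : segment ℝ b (f.pt u) ⊆ arcSet (f.arc u v) := by
    unfold SpatialGraph.arc
    rw [hb, List.cons_append, segment_symm]
    exact Set.subset_union_left
  have harc2 : segment ℝ (f.pt u) (m y) ⊆ arcSet (f.arc u y) := by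
    obtain ⟨l, hl⟩ := rs_eq f u y
    have e1 : f.arc u y = f.pt u :: nx f u y :: l := by
      rw [← hl]
      rfl
    rw [e1]
    refine Set.Subset.trans ?_ Set.subset_union_left
    exact (convex_segment _ _).segment_subset (left_mem_segment ℝ _ _)
      (openSegment_subset_segment ℝ _ _ hm)
  have hmeet : ∀ x, x ∈ arcSet (f.arc u v) → x ∈ arcSet (f.arc u y) → x = f.pt u := by
    intro x hx1 hx2
    obtain ⟨w, hw1, hw2, hw3⟩ := f.disj u v u y huv hy (by
      intro h
      rw [Sym2.eq_iff] at h
      rcases h with ⟨_, h⟩ | ⟨h3, h4⟩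
      · exact hyv h.symm
      · exact hy.ne h3) x ⟨hx1, hx2⟩
    rcases hw1 with rfl | rfl
    · exact hw3
    · rcases hw2 with h | h
      · rw [hw3, h]
      · exact absurd h.symm hyv
  have hpb : f.pt u ≠ b := by
    have h3 := f.simple u v huv
    rw [hb, List.cons_append] at h3
    exact h3.1
  refine Unknot.del b (f.pt u) (m y) R hpb.symm ?_ ?_ ?_ h2
  · intro h
    rw [← h] at hmi
    exact hmi hT.pin
  · rintro x ⟨hx1, hx2⟩
    exact hmeet x (harc1 hx1) (harc2 hx2)
  · rintro x ⟨hx1, hx2⟩
    have hxT : x ∈ T := by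
      refine convexHull_min ?_ hT.cvx hx1
      rintro w (rfl | rfl | rfl)
      · exact hbT
      · exact hpT
      · exact hmT
    have e1 : m y :: (R ++ [b]) = m y :: nx f u y :: (l1 ++ [b]) := by rw [hl1]; simp
    rw [e1] at hx2
    rcases hx2 with hx2 | hx2
    · right
      exact hT.m_seg y hy hyv ⟨hx2, hxT⟩
    · have e2 : nx f u y :: (l1 ++ [b]) = l2 ++ r :: [b] := by
        have : nx f u y :: (l1 ++ [b]) = R ++ [b] := by rw [hl1]; simp
        rw [this, hl2]
        simp
      rw [e2, arcSet_append, ← hl2] at hx2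
      rcases hx2 with hx2 | hx2
      · exact absurd hxT (Set.disjoint_left.1 hR hx2)
      · left
        rw [IB_seg, segment_symm] at hx2
        have hrT : r ∉ T := by
          refine Set.disjoint_left.1 hR (mem_arcSet ?_)
          rw [hl2]
          simp
        have hbr : segment ℝ b r ⊆ arcSet (b :: (M ++ [f.pt v])) := by
          rw [hr]
          exact Set.subset_union_left
        have hbr2 : segment ℝ b r ⊆ arcSet (f.arc u v) := by
          refine hbr.trans ?_
          unfold SpatialGraph.arc
          rw [hb, List.cons_append]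
          exact Set.subset_union_right
        refine ray hT.cvx hbT hpT hmT hrT ?_ ⟨hx1, hx2⟩
        rw [Set.disjoint_left]
        intro w hw1 hw2
        have hw3 := hmeet w (hbr2 hw2) (harc2 hw1)
        rw [hw3] at hw2
        exact hsv.2 (hbr hw2)

end H97G
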