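import Pool.Agent.Lib.H97G.VB
import Pool.Agent.Lib.H97G.VF
import Pool.Agent.Lib.H97G.VG

/-!
# H97G, chunk VH: `absorb`

`f' = nemb`. A cycle avoiding `u` has the same polygon (`poly_congr`). A cycle through `u`: `cycle_at_ne` for `u`, `v`:
it may be replaced by `cons h1 (q.concat h2)` with first neighbour `y ≠ v`; its polygon is
`f.pt u :: (f.mid u y ++ (f.poly q ++ (f.pt y' :: f.mid y' u)))` (`poly_concat`); the polygon for `f'` is computed from the
definition of `npt`, `nmid` (`poly_congr` for `q`). `y' ≠ v`: `move_two`; `y' = v`: `f.mid v u = M.reverse ++ [b]`: `move_one`.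
-/

namespace H97G

open H46K

variable {V : Type*} {G : SimpleGraph V}

theorem VH_congr {f : SpatialGraph G} {u v : V} (huv : G.Adj u v) {b : P3}
    {M : List P3} (hb : f.mid u v = b :: M) {T : Set P3} {m : V → P3} (hT : Tube f u v b M T m)
    {x y : V} (q : G.Walk x y) (hq : u ∉ q.support) :
    (nemb huv hb hT).poly q = f.poly q := by
  apply poly_congr
  intro a c hac
  have ha : a ≠ u := by
    rintro rfl
    exact hq (q.fst_mem_support_of_mem_edges hac)
  have hc : c ≠ u := by
    rintro rfl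
    exact hq (q.snd_mem_support_of_mem_edges hac)
  constructor
  · simp [nemb, npt, ha]
  · simp [nemb, nmid, ha, hc]

theorem nemb_kl {f : SpatialGraph G} (hf : KL f) {u v : V} (huv : G.Adj u v) {b : P3}
    {M : List P3} (hb : f.mid u v = b :: M) {T : Set P3} {m : V → P3} (hT : Tube f u v b M T m) :
    KL (nemb huv hb hT) := by
  intro v₀ c hc
  by_cases hu : u ∈ c.support
  · obtain ⟨y, y', h1, h2, q, hyv, hq, hqu, hyy, hcyc, hp⟩ := cycle_at_ne u v c hc hu
    rw [hp]
    have h3 := hf _ _ hcyc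
    rw [WA_cons, poly_concat] at h3 ⊢
    rw [VH_congr huv hb hT q hqu]
    have hyu : y ≠ u := h1.ne.symm
    have hyu' : y' ≠ u := h2.ne
    have e1 : (nemb huv hb hT).pt u = b := by simp [nemb, npt]
    have e2 : (nemb huv hb hT).pt y' = f.pt y' := by simp [nemb, npt, hyu']
    have e3 : (nemb huv hb hT).mid u y = m y :: f.mid u y := by simp [nemb, nmid, hyv]
    rw [e1, e2, e3]
    by_cases hyv' : y' = v
    · subst hyv'
      have e4 : (nemb huv hb hT).mid y' u = M.reverse := by simp [nemb, nmid, hyu']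
      have e5 : f.mid y' u = M.reverse ++ [b] := by
        rw [f.mid_symm u y' huv, hb, List.reverse_cons]
      rw [e4]
      rw [e5] at h3
      refine move_one huv hb hT h1 hyv q hqu ?_
      have e6 : f.mid u y ++ (f.poly q ++ f.pt y' :: M.reverse) ++ [b] =
          f.mid u y ++ (f.poly q ++ f.pt y' :: (M.reverse ++ [b])) := by simp
      rw [e6]
      exact h3
    · have e4 : (nemb huv hb hT).mid y' u = f.mid y' u ++ [m y'] := by
        simp [nemb, nmid, hyu', hyv']
      rw [e4]
      have h5 := move_two hT h1 hyv h2 hyv' hyy q hqu h3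
      have e6 : f.mid u y ++ (f.poly q ++ (f.pt y' :: f.mid y' u)) ++ [m y'] =
          f.mid u y ++ (f.poly q ++ f.pt y' :: (f.mid y' u ++ [m y'])) := by simp
      rw [e6] at h5
      exact h5
  · rw [VH_congr huv hb hT c hu]
    exact hf _ _ hc

theorem absorb [Finite V] (G : SimpleGraph V) (f : SpatialGraph G) (hf : KL f) (u v : V)
    (huv : G.Adj u v) (b : P3) (M : List P3) (hb : f.mid u v = b :: M) :
    ∃ f' : SpatialGraph G, KL f' ∧ f'.pt u = b ∧ (∀ w, w ≠ u → f'.pt w = f.pt w) ∧
      f'.mid u v = M ∧ (∀ x y, G.Adj x y → x ≠ u → y ≠ u → f'.mid x y = f.mid x y) ∧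
      ∀ y, G.Adj u y → y ≠ v → ∃ m ∈ openSegment ℝ (f.pt u) (nx f u y),
        f'.mid u y = m :: f.mid u y := by
  obtain ⟨T, m, hT⟩ := exists_tube f u v huv b M hb
  refine ⟨nemb huv hb hT, nemb_kl hf huv hb hT, ?_, ?_, ?_, ?_, ?_⟩
  · simp [nemb, npt]
  · intro w hw
    simp [nemb, npt, hw]
  · simp [nemb, nmid]
  · intro x y _ hx hy
    simp [nemb, nmid, hx, hy]
  · intro y hy hyv
    exact ⟨m y, hT.m_mem y hy hyv, by simp [nemb, nmid, hyv]⟩

end H97G
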