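import Pool.Agent.Lib.H97G.NG
import Pool.Agent.Lib.H97G.VH

/-!
# H97G, chunk NH: absorbing all bends of the edge `u v`

`exp_u`: induction on `M₁`. `M₁ = b :: M₁'`: `absorb` at `u` gives `f'` with `f'.pt u = b` in the region, `f'.mid u v = M₁' ++ pO :: pE :: M₂`; the
new bend points are `m ∈ openSegment (f.pt u) (nx f u y)`, both ends in the region (`nx` is a bend point or `f.pt y`), which is
convex; arcs not at `u` are unchanged, arcs `y u` by `mid_symm`. `M₁ = []`: `absorb` with `b = pO`.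
`exp_v`: the arc `v u` is `N ++ [pE]` (`N = M₂.reverse`), induction on `N` with `absorb` at `v` (edge `v u`): as before; for `y ≠ u` the
point `nx f v y` is in the region (it is a bend point or `f.pt y`, `y ≠ u, v`). `N = []`: `b = pE`, `M = []`.
-/

namespace H97G

open H46K

variable {V : Type*} {G : SimpleGraph V}

theorem reg_seg {p q m : P3} (hp : Reg p) (hq : Reg q) (hm : m ∈ openSegment ℝ p q) : Reg m := by
  obtain ⟨a, b, ha, hb, hab, rfl⟩ := hm
  obtain ⟨h1, h2, h3⟩ := hp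
  obtain ⟨g1, g2, g3⟩ := hq
  refine ⟨?_, ?_, ?_⟩ <;>
    simp only [Prod.fst_add, Prod.snd_add, Prod.smul_fst, Prod.smul_snd, smul_eq_mul]
  · positivity
  · positivity
  · have e1 := mul_lt_mul_of_pos_left h3 ha
    have e2 := mul_lt_mul_of_pos_left g3 hb
    linarith

theorem NH_nx (f : SpatialGraph G) (u y : V) : nx f u y = f.pt y ∨ nx f u y ∈ f.mid u y := by
  unfold nx
  cases h : f.mid u y with
  | nil => left; rfl
  | cons a l => right; simp

theorem NH_oth {f f' : SpatialGraph G} {u v : V}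
    (hoth : ∀ x y, G.Adj x y → s(x, y) ≠ s(u, v) → ∀ X ∈ f.mid x y, Reg X)
    (hpu : Reg (f.pt u)) (hpt : ∀ y, y ≠ u → y ≠ v → Reg (f.pt y))
    (hxy : ∀ x y, G.Adj x y → x ≠ u → y ≠ u → f'.mid x y = f.mid x y)
    (hy : ∀ y, G.Adj u y → y ≠ v → ∃ m ∈ openSegment ℝ (f.pt u) (nx f u y),
        f'.mid u y = m :: f.mid u y) :
    ∀ x y, G.Adj x y → s(x, y) ≠ s(u, v) → ∀ X ∈ f'.mid x y, Reg X := by
  have key : ∀ y, G.Adj u y → s(u, y) ≠ s(u, v) → ∀ X ∈ f'.mid u y, Reg X := by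
    intro y huy hne X hX
    have hyv : y ≠ v := fun h => hne (by rw [h])
    obtain ⟨m, hm, hm2⟩ := hy y huy hyv
    rw [hm2] at hX
    rcases List.mem_cons.mp hX with rfl | hX
    · refine reg_seg hpu ?_ hm
      rcases NH_nx f u y with h | h
      · rw [h]
        exact hpt y huy.ne' hyv
      · exact hoth u y huy hne _ h
    · exact hoth u y huy hne X hX
  intro x y hadj hne X hX
  by_cases hx : x = u
  · subst hx
    exact key y hadj hne X hX
  · by_cases hyu : y = u
    · subst hyu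
      rw [f'.mid_symm y x hadj.symm] at hX
      exact key x hadj.symm (by rw [Sym2.eq_swap]; exact hne) X (List.mem_reverse.mp hX)
    · rw [hxy x y hadj hx hyu] at hX
      exact hoth x y hadj hne X hX

/-- `u` is at `pO`, the next point of the arc `u v` is `pE` -/
structure ExpU (f : SpatialGraph G) (u v : V) (N : List P3) : Prop where
  kl : KL f
  pu : f.pt u = pO
  mid : f.mid v u = N ++ [pE]
  n : ∀ X ∈ N, Reg X
  pt : ∀ w, w ≠ u → Reg (f.pt w)
  oth : ∀ x y, G.Adj x y → s(x, y) ≠ s(u, v) → ∀ X ∈ f.mid x y, Reg X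

theorem exp_u [Finite V] (u v : V) (huv : G.Adj u v) (M₂ : List P3) : ∀ (M₁ : List P3)
    (f : SpatialGraph G), Exp f u v M₁ M₂ → ∃ f' : SpatialGraph G, ExpU f' u v M₂.reverse := by
  intro M₁
  induction M₁ with
  | nil =>
    intro f hf
    obtain ⟨f', hk, hpu, hpt, hmid, hxy, hy⟩ :=
      absorb G f hf.kl u v huv pO (pE :: M₂) (by rw [hf.mid]; rfl)
    refine ⟨f', hk, hpu, ?_, ?_, ?_, ?_⟩
    · rw [f'.mid_symm u v huv, hmid]
      simp
    · intro X hX
      exact hf.m2 X (List.mem_reverse.mp hX)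
    · intro w hw
      rw [hpt w hw]
      exact hf.pt w
    · exact NH_oth hf.oth (hf.pt u) (fun y _ _ => hf.pt y) hxy hy
  | cons b M ih =>
    intro f hf
    obtain ⟨f', hk, hpu, hpt, hmid, hxy, hy⟩ :=
      absorb G f hf.kl u v huv b (M ++ pO :: pE :: M₂) (by rw [hf.mid]; rfl)
    refine ih f' ⟨hk, hmid, fun X hX => hf.m1 X (List.mem_cons_of_mem _ hX), hf.m2, ?_, ?_⟩
    · intro w
      by_cases hw : w = u
      · rw [hw, hpu]
        exact hf.m1 b List.mem_cons_self
      · rw [hpt w hw]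
        exact hf.pt w
    · exact NH_oth hf.oth (hf.pt u) (fun y _ _ => hf.pt y) hxy hy

theorem exp_v [Finite V] (u v : V) (huv : G.Adj u v) : ∀ (N : List P3) (f : SpatialGraph G),
    ExpU f u v N → ∃ f' : SpatialGraph G, KL f' ∧ f'.pt u = pO ∧ f'.pt v = pE ∧
      f'.mid u v = [] ∧ (∀ w, w ≠ u → w ≠ v → Reg (f'.pt w)) ∧
      ∀ x y, G.Adj x y → ∀ X ∈ f'.mid x y, Reg X := by
  intro N
  have hvu : v ≠ u := huv.ne'
  have hswap : ∀ {x y : V}, s(x, y) ≠ s(v, u) → s(x, y) ≠ s(u, v) := by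
    intro x y h
    rwa [Sym2.eq_swap (a := u) (b := v)]
  have hswap' : ∀ {x y : V}, s(x, y) ≠ s(u, v) → s(x, y) ≠ s(v, u) := by
    intro x y h
    rwa [Sym2.eq_swap (a := v) (b := u)]
  induction N with
  | nil =>
    intro f hf
    obtain ⟨f', hk, hpv, hpt, hmid, hxy, hy⟩ :=
      absorb G f hf.kl v u huv.symm pE [] (by rw [hf.mid]; rfl)
    have hoth := NH_oth (f := f) (f' := f') (u := v) (v := u)
      (fun x y h1 h2 => hf.oth x y h1 (hswap h2)) (hf.pt v hvu)
      (fun y _ h2 => hf.pt y h2) hxy hy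
    refine ⟨f', hk, ?_, hpv, ?_, ?_, ?_⟩
    · rw [hpt u hvu.symm]
      exact hf.pu
    · rw [f'.mid_symm v u huv.symm, hmid]
      rfl
    · intro w h1 h2
      rw [hpt w h2]
      exact hf.pt w h1
    · intro x y hadj X hX
      by_cases hne : s(x, y) = s(v, u)
      · exfalso
        rcases Sym2.eq_iff.mp hne with ⟨rfl, rfl⟩ | ⟨rfl, rfl⟩
        · rw [hmid] at hX
          exact absurd hX (List.not_mem_nil)
        · rw [f'.mid_symm y x hadj.symm, hmid] at hX
          exact absurd hX (by simp)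
      · exact hoth x y hadj hne X hX
  | cons b N ih =>
    intro f hf
    obtain ⟨f', hk, hpv, hpt, hmid, hxy, hy⟩ :=
      absorb G f hf.kl v u huv.symm b (N ++ [pE]) (by rw [hf.mid]; rfl)
    have hoth := NH_oth (f := f) (f' := f') (u := v) (v := u)
      (fun x y h1 h2 => hf.oth x y h1 (hswap h2)) (hf.pt v hvu)
      (fun y _ h2 => hf.pt y h2) hxy hy
    refine ih f' ⟨hk, ?_, hmid, fun X hX => hf.n X (List.mem_cons_of_mem _ hX), ?_, ?_⟩
    · rw [hpt u hvu.symm]
      exact hf.pu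
    · intro w hw
      by_cases hwv : w = v
      · rw [hwv, hpv]
        exact hf.n b List.mem_cons_self
      · rw [hpt w hwv]
        exact hf.pt w hw
    · intro x y h1 h2
      exact hoth x y h1 (hswap' h2)

theorem nf [Finite V] (G : SimpleGraph V) (u v : V) (huv : G.Adj u v)
    (h : ∃ f : SpatialGraph G, KL f) :
    ∃ f : SpatialGraph G, KL f ∧ f.pt u = pO ∧ f.pt v = pE ∧ f.mid u v = [] ∧
      (∀ w, w ≠ u → w ≠ v → Reg (f.pt w)) ∧ ∀ x y, G.Adj x y → ∀ X ∈ f.mid x y, Reg X := by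
  obtain ⟨f, hf⟩ := h
  obtain ⟨f1, M₁, M₂, h1⟩ := exists_exp f hf u v huv
  obtain ⟨f2, h2⟩ := exp_u u v huv M₂ M₁ f1 h1
  exact exp_v u v huv _ f2 h2

end H97G
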