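import Pool.Agent.Lib.H97G.IF

/-!
# H97G, chunk IG: isotopies of polygons

`p t i = fs[i] t` for `i : Fin fs.length`, so `fs.map (fun g => g t) = List.ofFn (p t)`, `p` continuous. By `loc_const` the
property `Unknot (List.ofFn (p t))` of `t ∈ [0, 1]` is locally constant (for `t` near `t₀` all `p t j` are in the balls), and
`[0, 1]` is preconnected (`IsLocallyConstant.apply_eq_of_preconnectedSpace` on `unitInterval`, or
`IsPreconnected` of `Set.Icc 0 1`).
-/

namespace H97G

open H46K

/-- isotopies of polygons -/
theorem iso (fs : List (ℝ → P3)) (hc : ∀ g ∈ fs, Continuous g)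
    (hs : ∀ t, 0 ≤ t → t ≤ 1 → SimpleC (fs.map fun g => g t)) (h0 : Unknot (fs.map fun g => g 0)) :
    Unknot (fs.map fun g => g 1) := by
  let p : ℝ → Fin fs.length → P3 := fun t i => fs[i] t
  have hp : ∀ t, (fs.map fun g => g t) = List.ofFn (p t) := by
    intro t
    apply List.ext_getElem
    · rw [List.length_map, List.length_ofFn]
    · intro i h1 h2
      rw [List.getElem_map, List.getElem_ofFn]
      rfl
  have hpc : ∀ i, Continuous fun t => p t i := fun i => hc _ (List.getElem_mem i.2)
  let f : unitInterval → Prop := fun t => Unknot (List.ofFn (p t))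
  have hf : IsLocallyConstant f := by
    rw [IsLocallyConstant.iff_eventually_eq]
    intro x
    have hx : SimpleC (List.ofFn (p x)) := by
      rw [← hp]
      exact hs x x.2.1 x.2.2
    obtain ⟨ε, hε, h1⟩ := loc_const (p x) hx
    have h2 : ∀ᶠ y : unitInterval in nhds x, ∀ j, p y j ∈ Metric.ball (p x j) ε := by
      rw [Filter.eventually_all]
      intro j
      have h3 : Filter.Tendsto (fun y : unitInterval => p y j) (nhds x) (nhds (p x j)) :=
        ((hpc j).comp continuous_subtype_val).tendsto x
      exact h3 (Metric.ball_mem_nhds _ hε)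
    refine h2.mono fun y hy => ?_
    have hx0 : ∀ j, p x j ∈ Metric.ball (p x j) ε := fun j => Metric.mem_ball_self hε
    exact propext ⟨h1 _ _ hy hx0, h1 _ _ hx0 hy⟩
  have h1 := hf.apply_eq_of_preconnectedSpace (0 : unitInterval) 1
  have h2 : f 0 := by
    change Unknot (List.ofFn (p ((0 : unitInterval) : ℝ)))
    rw [Set.Icc.coe_zero, ← hp]
    exact h0
  rw [h1] at h2
  have h3 : Unknot (List.ofFn (p ((1 : unitInterval) : ℝ))) := h2
  rw [Set.Icc.coe_one, ← hp] at h3
  exact h3

end H97G
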