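import Pool.Agent.Lib.H97G.ID
import Pool.Agent.Lib.H97G.IG

/-!
# H97G, chunk SN: a slightly longer side

`stretch_simple`: `simpleC_open` with `ι = Fin (n + 2)` (or `ℕ`), names `0 :: 1 :: ...` for `pO :: pE :: rest` (the names of the points
of `rest` keep the same points): the set of `(w, w')` with `SimpleC (w :: w' :: rest)` is a neighbourhood of `(pO, pE)`;
balls of radius `2 τ` (sup metric), `(0,0,-s)` is at distance `s`.
`stretch_unknot`: `iso` with the functions `s ↦ (0, 0, -τ s)`, `s ↦ (0, 0, 1 + τ s)` and the constants `rest`.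
-/

namespace H97G

open H46K

/-- the points of the stretched polygon -/
def SN_F (z : ℝ × ℝ) : Bool ⊕ P3 → P3 :=
  Sum.elim (fun b => if b then (0, 0, 1 + z.2) else (0, 0, -z.1)) id

theorem SN_cont : Continuous SN_F := by
  refine continuous_pi fun i => ?_
  rcases i with b | p
  · cases b
    · show Continuous fun z : ℝ × ℝ => ((0, 0, -z.1) : P3)
      fun_prop
    · show Continuous fun z : ℝ × ℝ => ((0, 0, 1 + z.2) : P3)
      fun_prop
  · exact continuous_const

theorem SN_map (rest : List P3) (z : ℝ × ℝ) :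
    (Sum.inl false :: Sum.inl true :: rest.map Sum.inr).map (SN_F z) =
      (0, 0, -z.1) :: (0, 0, 1 + z.2) :: rest := by
  rw [List.map_cons, List.map_cons, List.map_map]
  have h : (SN_F z ∘ Sum.inr) = id := rfl
  rw [h, List.map_id]
  rfl

theorem stretch_simple {rest : List P3} (h : SimpleC (pO :: pE :: rest)) :
    ∃ τ : ℝ, 0 < τ ∧ ∀ s s' : ℝ, 0 ≤ s → s ≤ τ → 0 ≤ s' → s' ≤ τ →
      SimpleC ((0, 0, -s) :: (0, 0, 1 + s') :: rest) := by
  have hopen := (simpleC_open (Sum.inl false :: Sum.inl true :: rest.map Sum.inr)).preimage SN_cont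
  have h0 : ((0, 0) : ℝ × ℝ) ∈ SN_F ⁻¹' {F : Bool ⊕ P3 → P3 |
      SimpleC ((Sum.inl false :: Sum.inl true :: rest.map Sum.inr).map F)} := by
    show SimpleC ((Sum.inl false :: Sum.inl true :: rest.map Sum.inr).map (SN_F (0, 0)))
    rw [SN_map]
    have e1 : ((0, 0, -((0, 0) : ℝ × ℝ).1) : P3) = pO := by simp [pO]
    have e2 : ((0, 0, 1 + ((0, 0) : ℝ × ℝ).2) : P3) = pE := by simp [pE]
    rw [e1, e2]
    exact h
  obtain ⟨ε, hε, hball⟩ := Metric.isOpen_iff.1 hopen _ h0
  refine ⟨ε / 2, by positivity, fun s s' hs hs1 hs' hs'1 => ?_⟩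
  have hmem : ((s, s') : ℝ × ℝ) ∈ Metric.ball ((0, 0) : ℝ × ℝ) ε := by
    rw [Metric.mem_ball, Prod.dist_eq, max_lt_iff, Real.dist_eq, Real.dist_eq]
    simp only [sub_zero]
    rw [abs_of_nonneg hs, abs_of_nonneg hs']
    constructor <;> linarith
  have h1 : SimpleC ((Sum.inl false :: Sum.inl true :: rest.map Sum.inr).map (SN_F (s, s'))) :=
    hball hmem
  rwa [SN_map] at h1

theorem stretch_unknot {rest : List P3} {τ : ℝ} (hτ : 0 < τ) (h : Unknot (pO :: pE :: rest))
    (hs : ∀ s s' : ℝ, 0 ≤ s → s ≤ τ → 0 ≤ s' → s' ≤ τ →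
      SimpleC ((0, 0, -s) :: (0, 0, 1 + s') :: rest)) :
    Unknot ((0, 0, -τ) :: (0, 0, 1 + τ) :: rest) := by
  set fs : List (ℝ → P3) := (fun s => ((0, 0, -(τ * s)) : P3)) ::
    (fun s => ((0, 0, 1 + τ * s) : P3)) :: rest.map fun p => fun _ => p with hfs
  have hmap : ∀ t : ℝ, (fs.map fun g => g t) = (0, 0, -(τ * t)) :: (0, 0, 1 + τ * t) :: rest := by
    intro t
    rw [hfs, List.map_cons, List.map_cons, List.map_map]
    have h1 : ((fun g : ℝ → P3 => g t) ∘ fun p : P3 => fun _ : ℝ => p) = id := rfl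
    rw [h1, List.map_id]
  have h1 := iso fs ?_ ?_ ?_
  · rw [hmap, mul_one] at h1
    exact h1
  · intro g hg
    rw [hfs, List.mem_cons, List.mem_cons, List.mem_map] at hg
    rcases hg with rfl | rfl | ⟨p, -, rfl⟩
    · fun_prop
    · fun_prop
    · exact continuous_const
  · intro t ht0 ht1
    rw [hmap]
    have h2 : 0 ≤ τ * t := mul_nonneg hτ.le ht0
    have h3 : τ * t ≤ τ := mul_le_of_le_one_right hτ.le ht1
    exact hs _ _ h2 h3 h2 h3
  · rw [hmap, mul_zero]
    have e1 : ((0, 0, -0) : P3) = pO := by simp [pO]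
    have e2 : ((0, 0, 1 + 0) : P3) = pE := by simp [pE]
    rw [e1, e2]
    exact h

end H97G
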