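import Pool.Agent.Lib.H97G.IB

/-!
# H97G, chunk IH: symmetries and subdivisions

`unknot_reverse`: induction; `(a :: v :: b :: l).reverse` is a rotation of `b :: v :: a :: l.reverse`, use `ins b v a l.reverse`,
`arcSet_reverse`, `Set.pair_comm`, `segment_symm`. `unknot_map`: induction; `φ` maps segments to segments, convex hulls to convex
hulls, `arcSet (l.map φ) = φ '' arcSet l`, affine independence is preserved.
`sub_ins`, `sub_del`: `ins`, `del` with a degenerate triangle: `convexHull {a, v, b} = segment a b` for
`v ∈ openSegment a b`; the remaining condition from `unknot_simpleC` and `simpleC_two` (`p = a`, `q = b`); `a ≠ b` from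
`simpleC_two`.
-/

namespace H97G

open H46K

theorem unknot_reverse {l : List P3} (h : Unknot l) : Unknot l.reverse := by
  induction h with
  | tri a b c h =>
    refine Unknot.tri c b a ?_
    rw [affineIndependent_iff_not_collinear_set] at h ⊢
    have : ({c, b, a} : Set P3) = {a, b, c} := by
      ext x
      simp only [Set.mem_insert_iff, Set.mem_singleton_iff]
      tauto
    rwa [this]
  | rot l l' h _ ih => exact Unknot.rot _ _ h.reverse ih
  | ins a v b l hav hvb hs ht _ ih =>
    have h1 : Unknot (b :: a :: l.reverse) := by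
      refine Unknot.rot _ _ ?_ ih
      have e1 : (a :: b :: l).reverse = l.reverse ++ [b, a] := by simp
      rw [e1]
      exact List.isRotated_append
    have h2 := Unknot.ins b v a l.reverse hvb.symm hav.symm
      (by
        rw [Set.inter_comm, segment_symm, segment_symm ℝ b v]
        exact hs)
      (by
        have e1 : a :: (l.reverse ++ [b]) = (b :: (l ++ [a])).reverse := by simp
        have e2 : ({b, v, a} : Set P3) = {a, v, b} := by
          ext x
          simp only [Set.mem_insert_iff, Set.mem_singleton_iff]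
          tauto
        rw [e1, arcSet_reverse, e2, Set.pair_comm b a]
        exact ht) h1
    refine Unknot.rot _ _ ?_ h2
    have e1 : (a :: v :: b :: l).reverse = l.reverse ++ [b, v, a] := by simp
    rw [e1]
    exact List.isRotated_append (l := [b, v, a])
  | del a v b l hav hvb hs ht _ ih =>
    have h1 : Unknot (b :: v :: a :: l.reverse) := by
      refine Unknot.rot _ _ ?_ ih
      have e1 : (a :: v :: b :: l).reverse = l.reverse ++ [b, v, a] := by simp
      rw [e1]
      exact List.isRotated_append
    have h2 := Unknot.del b v a l.reverse hvb.symm hav.symm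
      (by
        rw [Set.inter_comm, segment_symm, segment_symm ℝ b v]
        exact hs)
      (by
        have e1 : a :: (l.reverse ++ [b]) = (b :: (l ++ [a])).reverse := by simp
        have e2 : ({b, v, a} : Set P3) = {a, v, b} := by
          ext x
          simp only [Set.mem_insert_iff, Set.mem_singleton_iff]
          tauto
        rw [e1, arcSet_reverse, e2, Set.pair_comm b a]
        exact ht) h1
    refine Unknot.rot _ _ ?_ h2
    have e1 : (a :: b :: l).reverse = l.reverse ++ [b, a] := by simp
    rw [e1]
    exact List.isRotated_append (l := [b, a])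

theorem IH_seg (φ : P3 ≃ᵃ[ℝ] P3) (a b : P3) : segment ℝ (φ a) (φ b) = φ '' segment ℝ a b :=
  (image_segment ℝ (φ : P3 →ᵃ[ℝ] P3) a b).symm

theorem arcSet_map (l : List P3) (φ : P3 ≃ᵃ[ℝ] P3) : arcSet (l.map φ) = φ '' arcSet l := by
  induction l with
  | nil => simp [arcSet]
  | cons a l ih =>
    cases l with
    | nil => simp [arcSet]
    | cons b l =>
      rw [List.map_cons, List.map_cons]
      change segment ℝ (φ a) (φ b) ∪ arcSet ((b :: l).map φ) = φ '' (segment ℝ a b ∪ arcSet (b :: l))
      rw [ih, Set.image_union, IH_seg]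

theorem isSimple_map (l : List P3) (φ : P3 ≃ᵃ[ℝ] P3) : IsSimple (l.map φ) ↔ IsSimple l := by
  induction l with
  | nil => simp [IsSimple]
  | cons a l ih =>
    cases l with
    | nil => simp [IsSimple]
    | cons b l =>
      rw [List.map_cons, List.map_cons]
      change (φ a ≠ φ b ∧ segment ℝ (φ a) (φ b) ∩ arcSet ((b :: l).map φ) ⊆ {φ b} ∧
        IsSimple ((b :: l).map φ)) ↔ (a ≠ b ∧ segment ℝ a b ∩ arcSet (b :: l) ⊆ {b} ∧
          IsSimple (b :: l))
      rw [ih, arcSet_map, IH_seg, ← Set.image_inter φ.injective, ← Set.image_singleton,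
        Set.image_subset_image_iff φ.injective, φ.injective.ne_iff]

theorem IH_hull (φ : P3 ≃ᵃ[ℝ] P3) (a b c : P3) :
    convexHull ℝ {φ a, φ b, φ c} = φ '' convexHull ℝ {a, b, c} := by
  have h := AffineMap.image_convexHull (φ : P3 →ᵃ[ℝ] P3) {a, b, c}
  have h1 : ((φ : P3 →ᵃ[ℝ] P3) : P3 → P3) '' {a, b, c} = {φ a, φ b, φ c} := by
    rw [Set.image_insert_eq, Set.image_pair]
    rfl
  rw [h1] at h
  exact h.symm

theorem unknot_map {l : List P3} (φ : P3 ≃ᵃ[ℝ] P3) (h : Unknot l) : Unknot (l.map φ) := by
  have key : ∀ (a v b : P3) (l : List P3), convexHull ℝ {a, v, b} ∩ arcSet (b :: (l ++ [a])) ⊆ {a, b} →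
      convexHull ℝ {φ a, φ v, φ b} ∩ arcSet (φ b :: (l.map φ ++ [φ a])) ⊆ {φ a, φ b} := by
    intro a v b l ht
    have e1 : φ b :: (l.map φ ++ [φ a]) = (b :: (l ++ [a])).map φ := by simp
    rw [e1, arcSet_map, IH_hull, ← Set.image_inter φ.injective, ← Set.image_pair,
      Set.image_subset_image_iff φ.injective]
    exact ht
  have key2 : ∀ a v b : P3, segment ℝ a v ∩ segment ℝ v b ⊆ {v} →
      segment ℝ (φ a) (φ v) ∩ segment ℝ (φ v) (φ b) ⊆ {φ v} := by
    intro a v b hs
    rw [IH_seg, IH_seg, ← Set.image_inter φ.injective, ← Set.image_singleton,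
      Set.image_subset_image_iff φ.injective]
    exact hs
  induction h with
  | tri a b c h =>
    refine Unknot.tri _ _ _ ?_
    have h1 := (AffineEquiv.affineIndependent_iff φ (p := ![a, b, c])).2 h
    have e1 : (φ ∘ ![a, b, c]) = ![φ a, φ b, φ c] := by
      funext i
      fin_cases i <;> rfl
    rw [e1] at h1
    exact h1
  | rot l l' h _ ih => exact Unknot.rot _ _ (h.map φ) ih
  | ins a v b l hav hvb hs ht _ ih =>
    exact Unknot.ins _ _ _ _ (φ.injective.ne hav) (φ.injective.ne hvb) (key2 a v b hs)
      (key a v b l ht) ih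
  | del a v b l hav hvb hs ht _ ih =>
    exact Unknot.del _ _ _ _ (φ.injective.ne hav) (φ.injective.ne hvb) (key2 a v b hs)
      (key a v b l ht) ih

/-- a point inside a segment -/
theorem IH_open {a b v : P3} (hv : v ∈ openSegment ℝ a b) (hab : a ≠ b) :
    a ≠ v ∧ v ≠ b ∧ segment ℝ a v ∩ segment ℝ v b ⊆ {v} ∧
      segment ℝ a v ∪ segment ℝ v b = segment ℝ a b ∧
      convexHull ℝ {a, v, b} = segment ℝ a b := by
  have hvs : v ∈ segment ℝ a b := openSegment_subset_segment ℝ a b hv
  rw [openSegment_eq_image'] at hv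
  obtain ⟨t, ⟨ht0, ht1⟩, rfl⟩ := hv
  simp only at hvs ⊢
  have hba : b - a ≠ 0 := sub_ne_zero.2 hab.symm
  set w := b - a with hw
  have hbw : b = a + w := by rw [hw]; abel
  refine ⟨?_, ?_, ?_, ?_, ?_⟩
  · intro h
    have h1 : t • w = 0 := by
      have : a + t • w = a + 0 := by rw [add_zero]; exact h.symm
      exact add_left_cancel this
    rcases smul_eq_zero.1 h1 with h2 | h2
    · exact ht0.ne' h2
    · exact hba h2
  · intro h
    rw [hbw] at h
    have h1 : t • w = w := add_left_cancel h
    have h2 : (t - 1) • w = 0 := by rw [sub_smul, one_smul, h1, sub_self]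
    rcases smul_eq_zero.1 h2 with h3 | h3
    · linarith
    · exact hba h3
  · rintro x ⟨hx1, hx2⟩
    rw [segment_eq_image'] at hx1 hx2
    obtain ⟨s, ⟨hs0, hs1⟩, rfl⟩ := hx1
    obtain ⟨r, ⟨hr0, hr1⟩, hr⟩ := hx2
    simp only at hr ⊢
    rw [Set.mem_singleton_iff]
    have e1 : a + s • (a + t • w - a) = a + (s * t) • w := by
      rw [add_sub_cancel_left, smul_smul]
    have e2 : a + t • w + r • (b - (a + t • w)) = a + (t + r * (1 - t)) • w := by
      rw [hbw]
      module
    rw [e1, e2] at hr
    have h1 : ((t + r * (1 - t)) - s * t) • w = 0 := by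
      rw [sub_smul, add_left_cancel hr, sub_self]
    rcases smul_eq_zero.1 h1 with h2 | h2
    · have h3 : r * (1 - t) ≤ 0 := by nlinarith
      have h4 : r * (1 - t) = 0 := le_antisymm h3 (mul_nonneg hr0 (by linarith))
      have h5 : s * t = t := by linarith
      rw [e1, h5]
    · exact absurd h2 hba
  · apply Set.Subset.antisymm
    · refine Set.union_subset ?_ ?_
      · exact (convex_segment a b).segment_subset (left_mem_segment ℝ a b) hvs
      · exact (convex_segment a b).segment_subset hvs (right_mem_segment ℝ a b)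
    · intro x hx
      rw [segment_eq_image'] at hx
      obtain ⟨u, ⟨hu0, hu1⟩, rfl⟩ := hx
      simp only
      rcases le_total u t with h | h
      · left
        rw [segment_eq_image']
        refine ⟨u / t, ⟨by positivity, (div_le_one ht0).2 h⟩, ?_⟩
        simp only
        rw [add_sub_cancel_left, smul_smul, div_mul_cancel₀ _ ht0.ne']
      · right
        rw [segment_eq_image']
        have h1 : 0 < 1 - t := by linarith
        refine ⟨(u - t) / (1 - t), ⟨div_nonneg (by linarith) h1.le,
          (div_le_one h1).2 (by linarith)⟩, ?_⟩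
        simp only
        have e2 : a + t • w + ((u - t) / (1 - t)) • (b - (a + t • w)) =
            a + (t + (u - t) / (1 - t) * (1 - t)) • w := by
          rw [hbw]
          module
        rw [e2, div_mul_cancel₀ _ h1.ne']
        congr 2
        ring
  · rw [← convexHull_pair]
    apply Set.Subset.antisymm
    · refine convexHull_min ?_ (convex_convexHull ℝ _)
      rintro x (rfl | rfl | rfl)
      · exact subset_convexHull ℝ _ (by simp)
      · rw [convexHull_pair]
        exact hvs
      · exact subset_convexHull ℝ _ (by simp)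
    · refine convexHull_mono ?_
      intro x hx
      rcases hx with rfl | rfl <;> simp

/-- add a point on a side -/
theorem sub_ins {a b v : P3} {l : List P3} (hv : v ∈ openSegment ℝ a b) (h : Unknot (a :: b :: l)) :
    Unknot (a :: v :: b :: l) := by
  have h1 := (simpleC_two a b [] l).1 (unknot_simpleC h)
  obtain ⟨h2, h3, h4, -, h5⟩ := IH_open hv h1.2.2.1
  refine Unknot.ins a v b l h2 h3 h4 ?_ h
  rw [h5, ← IB_seg]
  exact h1.2.2.2

/-- delete a point on a side -/
theorem sub_del {a b v : P3} {l : List P3} (hv : v ∈ openSegment ℝ a b)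
    (h : Unknot (a :: v :: b :: l)) : Unknot (a :: b :: l) := by
  have h1 := (simpleC_two a b [v] l).1 (unknot_simpleC h)
  obtain ⟨h2, h3, h4, h6, h5⟩ := IH_open hv h1.2.2.1
  refine Unknot.del a v b l h2 h3 h4 ?_ h
  rw [h5, ← h6, ← IB_seg v b]
  exact h1.2.2.2

end H97G
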