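import Pool.Agent.Lib.H97G.SA
import Pool.Agent.Lib.H97G.IH

/-!
# H97G, chunk SO: removing the two tips

`A = (0,0,-τ)`, `B = (0,0,1+τ)`, `M = mids.map (thin r)` with `r > 0`; `arcSet (pO :: (M ++ [pE])) ⊆ {pO, pE} ∪ Reg` (the image
of `arc_reg` under `thin r`, which preserves `Reg`; `thin r = plc pO pE (1,0,0) (0,1,0) r`, `arc_plc`).
`cut_A`: `rest = ρ ++ [z]`. The polygon `A :: pO :: (M ++ pE :: B :: (ρ ++ [z]))` is a rotation of
`z :: A :: pO :: (M ++ pE :: B :: ρ)`; `Unknot.del z A pO (M ++ pE :: B :: ρ)`. The hull of `z, A, pO` (`z` in `RegN`) has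
`x ≤ 0`, and `x = 0` only on `[A, pO]` (third coordinate `≤ 0`); it is the union of the segments `[z, w]` with `w = (0,0,-s)`,
`0 ≤ s ≤ τ` (`w` in `[A, pO]`). It meets `arcSet (pO :: (M ++ pE :: B :: (ρ ++ [z])))` as follows: the pattern only in `pO`, `[pE, B]`
not, and `arcSet (B :: (ρ ++ [z]))` only in `z`: a point of `[z, w]` and of `arcSet (B :: rest)` is `z` or `w`, by `simpleC_two` for the
polygon `w :: B :: rest` (hypothesis `hs` with `s' = τ`, as a rotation of `z :: w :: B :: ρ`, `β = []`), and `w` is not in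
`arcSet (B :: rest)`: all points of `arcSet (B :: rest)` have third coordinate `> 0`, the third coordinate of `w` is `≤ 0`.
`cut_B`: in the same way. `rest = y :: ρ'`. The polygon `pO :: (M ++ pE :: B :: y :: ρ')` is a rotation of
`pE :: B :: y :: (ρ' ++ pO :: M)`, `Unknot.del pE B y (ρ' ++ pO :: M)`; the hull of `pE, B, y` is the union of the `[w', y]`,
`w' = (0,0,1+s')`, has `x = 0` only on `[pE, B]` and positive third coordinate; it meets
`arcSet (y :: (ρ' ++ pO :: (M ++ [pE])))` only in `y` and `pE`: `arcSet (y :: (ρ' ++ [pO]))` only in `y` by `hs` with `s = 0`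
(all its points have third coordinate `< 1`, so `w'` is not one of them), the pattern only in `pE`.
(The first polygon of `connSum` is `Unknot`, so `simpleC` and `rest ≠ []` are available: `simpleC_two`: `rest = []` would give
`[pE, pO]` and `[pO, pE]` with intersection in `{pO, pE}`.)
-/

namespace H97G

open H46K

theorem SO_hull {p q s w : P3} (h : w ∈ convexHull ℝ ({p, q, s} : Set P3)) :
    ∃ α β γ : ℝ, 0 ≤ α ∧ 0 ≤ β ∧ 0 ≤ γ ∧ α + β + γ = 1 ∧ w = α • p + β • q + γ • s := by
  rw [convexHull_insert ⟨q, by simp⟩, convexHull_pair, mem_convexJoin] at h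
  obtain ⟨p', hp', z, hz, hw⟩ := h
  rw [Set.mem_singleton_iff] at hp'
  subst hp'
  obtain ⟨a1, b1, ha, hb, hab, rfl⟩ := hz
  obtain ⟨a2, b2, ha2, hb2, hab2, rfl⟩ := hw
  refine ⟨a2, b2 * a1, b2 * b1, ha2, mul_nonneg hb2 ha, mul_nonneg hb2 hb, ?_, ?_⟩
  · rw [add_assoc, ← mul_add, hab, mul_one, hab2]
  · module

theorem rest_ne_nil {rest : List P3} (h : SimpleC (pO :: pE :: rest)) : rest ≠ [] := by
  rintro rfl
  have h1 := ((simpleC_two pO pE [] []).1 h).2.2.2
  rw [List.nil_append, List.nil_append, IB_seg, IB_seg, segment_symm ℝ pE pO, Set.inter_self] at h1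
  have h2 : ((0, 0, 1 / 2) : P3) ∈ segment ℝ pO pE := by
    refine ⟨1 / 2, 1 / 2, by norm_num, by norm_num, by norm_num, ?_⟩
    unfold pO pE
    refine Prod.ext ?_ (Prod.ext ?_ ?_)
    · simp
    · simp
    · simp
  rcases h1 h2 with h3 | h3
  · have h4 := congrArg (fun X : P3 => X.2.2) h3
    simp only [pO] at h4
    norm_num at h4
  · have h4 := congrArg (fun X : P3 => X.2.2) (Set.mem_singleton_iff.1 h3)
    simp only [pE] at h4
    norm_num at h4

theorem SO_thin (r : ℝ) : thin r = plc pO pE (1, 0, 0) (0, 1, 0) r := by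
  funext X
  unfold thin plc pO pE
  refine Prod.ext ?_ (Prod.ext ?_ ?_)
  · simp
  · simp
  · simp

theorem SO_det : det3 (1, 0, 0) (0, 1, 0) (pE - pO) ≠ 0 := by
  unfold det3 pE pO
  simp

theorem thin_arc {mids : List P3} (hP : Pat mids) {r : ℝ} (hr : 0 < r) :
    arcSet (pO :: (mids.map (thin r) ++ [pE])) ⊆ {pO, pE} ∪ {X | Reg X} := by
  rw [SO_thin, arc_plc mids pO pE (1, 0, 0) (0, 1, 0) r hr.ne' SO_det]
  rintro x ⟨y, hy, rfl⟩
  rcases arc_reg hP hy with hy | hy
  · rcases hy with hy | hy
    · left
      left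
      rw [hy, plc_pO]
    · left
      right
      rw [Set.mem_singleton_iff] at hy ⊢
      rw [hy, plc_pE]
  · right
    rw [← SO_thin]
    exact ⟨mul_pos hr hy.1, hy.2.1, hy.2.2⟩

/-- the arc through `rest` from a point with third coordinate in a convex set of heights -/
theorem SO_pos {rest : List P3} (hr : ∀ X ∈ rest, RegN X) {B : P3} (hB : 0 < B.2.2) :
    ∀ X ∈ arcSet (B :: rest), 0 < X.2.2 := by
  have hc : Convex ℝ {X : P3 | 0 < X.2.2} := by
    intro x hx y hy a b ha hb hab
    have hx' : 0 < x.2.2 := hx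
    have hy' : 0 < y.2.2 := hy
    have e : (a • x + b • y : P3).2.2 = a * x.2.2 + b * y.2.2 := rfl
    rw [Set.mem_setOf_eq, e]
    rcases ha.eq_or_lt with rfl | ha
    · have hb1 : b = 1 := by linarith
      rw [hb1]
      linarith
    · have := mul_pos ha hx'
      have := mul_nonneg hb hy'.le
      linarith
  have h := arcSet_subset hc (l := B :: rest) (by
    intro x hx
    rcases List.mem_cons.1 hx with rfl | hx
    · exact hB
    · exact (hr x hx).2.1)
  exact fun X hX => h hX

theorem SO_lt {l : List P3} (hr : ∀ X ∈ l, X.2.2 < 1) : ∀ X ∈ arcSet l, X.2.2 < 1 := by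
  have hc : Convex ℝ {X : P3 | X.2.2 < 1} := by
    intro x hx y hy a b ha hb hab
    have hx' : x.2.2 < 1 := hx
    have hy' : y.2.2 < 1 := hy
    have e : (a • x + b • y : P3).2.2 = a * x.2.2 + b * y.2.2 := rfl
    rw [Set.mem_setOf_eq, e]
    rcases ha.eq_or_lt with rfl | ha
    · have hb1 : b = 1 := by linarith
      rw [hb1]
      linarith
    · have := mul_lt_mul_of_pos_left hx' ha
      have := mul_le_mul_of_nonneg_left hy'.le hb
      linarith
  have h := arcSet_subset hc (l := l) (by
    intro x hx
    exact hr x hx)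
  exact fun X hX => h hX

theorem cut_A {mids rest : List P3} (hP : Pat mids) (hr : ∀ X ∈ rest, RegN X) (hne : rest ≠ [])
    {τ r : ℝ} (hτ : 0 < τ) (hr0 : 0 < r)
    (hs : ∀ s s' : ℝ, 0 ≤ s → s ≤ τ → 0 ≤ s' → s' ≤ τ →
      SimpleC ((0, 0, -s) :: (0, 0, 1 + s') :: rest))
    (h : Unknot ((0, 0, -τ) :: pO :: (mids.map (thin r) ++ pE :: (0, 0, 1 + τ) :: rest))) :
    Unknot (pO :: (mids.map (thin r) ++ pE :: (0, 0, 1 + τ) :: rest)) := by
  have hthin := thin_arc hP hr0
  set M := mids.map (thin r) with hM
  rcases List.eq_nil_or_concat rest with h0 | ⟨ρ, z, h0⟩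
  · exact absurd h0 hne
  rw [List.concat_eq_append] at h0
  subst h0
  have hz : RegN z := hr z (by simp)
  have hz1 : z.1 < 0 := hz.1
  have h1 : Unknot (z :: (0, 0, -τ) :: pO :: (M ++ pE :: (0, 0, 1 + τ) :: ρ)) := by
    refine Unknot.rot _ _ ?_ h
    have e : ((0, 0, -τ) :: pO :: (M ++ pE :: (0, 0, 1 + τ) :: (ρ ++ [z])) : List P3) =
        ((0, 0, -τ) :: pO :: (M ++ pE :: (0, 0, 1 + τ) :: ρ)) ++ [z] := by simp
    rw [e]
    exact List.isRotated_append
  have hX : ∀ α β γ : ℝ, (α • z + β • ((0, 0, -τ) : P3) + γ • pO).1 = α * z.1 ∧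
      (α • z + β • ((0, 0, -τ) : P3) + γ • pO).2.2 = α * z.2.2 - β * τ := by
    intro α β γ
    constructor
    · change α * z.1 + β * 0 + γ * 0 = α * z.1
      ring
    · change α * z.2.2 + β * (-τ) + γ * 0 = α * z.2.2 - β * τ
      ring
  have h2 : Unknot (z :: pO :: (M ++ pE :: (0, 0, 1 + τ) :: ρ)) := by
    refine Unknot.del z (0, 0, -τ) pO _ ?_ ?_ ?_ ?_ h1
    · intro hh
      rw [hh] at hz1
      exact lt_irrefl _ hz1
    · intro hh
      have h4 := congrArg (fun X : P3 => X.2.2) hh
      simp only [pO] at h4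
      linarith
    · rintro X ⟨⟨a1, b1, ha1, hb1, hab1, rfl⟩, ⟨a2, b2, ha2, hb2, hab2, he⟩⟩
      have h4 := congrArg (fun X : P3 => X.1) he
      have h5 : a2 * 0 + b2 * 0 = a1 * z.1 + b1 * 0 := h4
      have h6 : a1 * z.1 = 0 := by linarith
      have h7 : a1 = 0 := by
        rcases mul_eq_zero.1 h6 with g | g
        · exact g
        · linarith
      have h8 : b1 = 1 := by linarith
      rw [h7, h8, zero_smul, zero_add, one_smul]
      rfl
    · rintro X ⟨hXh, hXa⟩
      obtain ⟨α, β, γ, hα, hβ, hγ, hsum, rfl⟩ := SO_hull hXh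
      obtain ⟨hX1, hX2⟩ := hX α β γ
      set X := α • z + β • ((0, 0, -τ) : P3) + γ • pO with hXdef
      have hX1le : X.1 ≤ 0 := by
        rw [hX1]
        exact mul_nonpos_of_nonneg_of_nonpos hα hz1.le
      have hcase : X.1 = 0 → X.2.2 ≤ 0 := by
        intro hh
        rw [hX1] at hh
        rcases mul_eq_zero.1 hh with g | g
        · rw [hX2, g]
          have := mul_nonneg hβ hτ.le
          linarith
        · linarith
      have e1 : (pO :: ((M ++ pE :: (0, 0, 1 + τ) :: ρ) ++ [z]) : List P3) =
          (pO :: M) ++ pE :: ((0, 0, 1 + τ) :: (ρ ++ [z])) := by simp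
      rw [e1, arcSet_append] at hXa
      rcases hXa with hXa | hXa
      · rcases hthin hXa with hc | hc
        · rcases hc with hc | hc
          · exact Or.inr hc
          · exfalso
            rw [Set.mem_singleton_iff] at hc
            have h4 : X.1 = 0 := by rw [hc]; rfl
            have h5 : X.2.2 = 1 := by rw [hc]; rfl
            have := hcase h4
            linarith
        · exfalso
          have := hc.1
          linarith
      · rw [IA_cons] at hXa
        rcases hXa with hXa | hXa
        · exfalso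
          obtain ⟨a1, b1, ha1, hb1, hab1, he⟩ := hXa
          have h4 : X.1 = 0 := by
            rw [← he]
            change a1 * 0 + b1 * 0 = 0
            ring
          have h5 : X.2.2 = 1 + b1 * τ := by
            rw [← he]
            change a1 * 1 + b1 * (1 + τ) = 1 + b1 * τ
            linear_combination hab1
          have := hcase h4
          have := mul_nonneg hb1 hτ.le
          linarith
        · have hpos : 0 < X.2.2 := SO_pos (rest := ρ ++ [z]) hr (B := (0, 0, 1 + τ))
            (by change 0 < 1 + τ; linarith) X hXa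
          have hα0 : 0 < α := by
            rcases hα.eq_or_lt with g | g
            · exfalso
              rw [hX2, ← g] at hpos
              have := mul_nonneg hβ hτ.le
              linarith
            · exact g
          rcases (show α ≤ 1 by linarith).eq_or_lt with hα1 | hα1
          · have g1 : β = 0 := by linarith
            have g2 : γ = 0 := by linarith
            left
            rw [hXdef, hα1, g1, g2]
            simp
          · have hd : 0 < 1 - α := by linarith
            have hs0 : 0 ≤ β * τ / (1 - α) := by positivity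
            have hs1 : β * τ / (1 - α) ≤ τ := by
              rw [div_le_iff₀ hd]
              nlinarith
            have g1 := hs _ τ hs0 hs1 hτ.le (le_refl _)
            have g2 := (IB_last (0, 0, -(β * τ / (1 - α))) ((0, 0, 1 + τ) :: ρ) z).1 g1
            have g3 : X ∈ segment ℝ z (0, 0, -(β * τ / (1 - α))) := by
              refine ⟨α, 1 - α, hα, hd.le, by ring, ?_⟩
              have e2 : (1 - α) * (β * τ / (1 - α)) = β * τ := mul_div_cancel₀ _ hd.ne'
              rw [hXdef]
              refine Prod.ext ?_ (Prod.ext ?_ ?_)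
              · change α * z.1 + (1 - α) * 0 = α * z.1 + β * 0 + γ * 0
                ring
              · change α * z.2.1 + (1 - α) * 0 = α * z.2.1 + β * 0 + γ * 0
                ring
              · change α * z.2.2 + (1 - α) * (-(β * τ / (1 - α))) =
                  α * z.2.2 + β * (-τ) + γ * 0
                linear_combination -e2
            have g4 : X ∈ arcSet ((0, 0, -(β * τ / (1 - α))) :: (((0, 0, 1 + τ) :: ρ) ++ [z])) := by
              rw [List.cons_append, IA_cons]
              exact Or.inr hXa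
            rcases g2.2.2 ⟨g3, g4⟩ with g5 | g5
            · exact Or.inl g5
            · exfalso
              rw [Set.mem_singleton_iff] at g5
              have g6 : X.2.2 = -(β * τ / (1 - α)) := by rw [g5]
              linarith
  refine Unknot.rot _ _ ?_ h2
  have e : (pO :: (M ++ pE :: (0, 0, 1 + τ) :: (ρ ++ [z])) : List P3) =
      (pO :: (M ++ pE :: (0, 0, 1 + τ) :: ρ)) ++ [z] := by simp
  rw [e]
  exact List.isRotated_append (l := [z])

theorem cut_B {mids rest : List P3} (hP : Pat mids) (hr : ∀ X ∈ rest, RegN X) (hne : rest ≠ [])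
    {τ r : ℝ} (hτ : 0 < τ) (hr0 : 0 < r)
    (hs : ∀ s s' : ℝ, 0 ≤ s → s ≤ τ → 0 ≤ s' → s' ≤ τ →
      SimpleC ((0, 0, -s) :: (0, 0, 1 + s') :: rest))
    (h : Unknot (pO :: (mids.map (thin r) ++ pE :: (0, 0, 1 + τ) :: rest))) :
    Unknot (pO :: (mids.map (thin r) ++ pE :: rest)) := by
  have hthin := thin_arc hP hr0
  set M := mids.map (thin r) with hM
  rcases rest with _ | ⟨y, ρ⟩
  · exact absurd rfl hne
  have hy : RegN y := hr y (by simp)
  have hy1 : y.1 < 0 := hy.1
  have hy2 : 0 < y.2.2 := hy.2.1
  have h1 : Unknot (pE :: (0, 0, 1 + τ) :: y :: (ρ ++ pO :: M)) := by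
    refine Unknot.rot _ _ ?_ h
    have e : (pO :: (M ++ pE :: (0, 0, 1 + τ) :: y :: ρ) : List P3) =
        (pO :: M) ++ (pE :: (0, 0, 1 + τ) :: y :: ρ) := by simp
    have e' : (pE :: (0, 0, 1 + τ) :: y :: (ρ ++ pO :: M) : List P3) =
        (pE :: (0, 0, 1 + τ) :: y :: ρ) ++ (pO :: M) := by simp
    rw [e, e']
    exact List.isRotated_append
  have h2 : Unknot (pE :: y :: (ρ ++ pO :: M)) := by
    refine Unknot.del pE (0, 0, 1 + τ) y _ ?_ ?_ ?_ ?_ h1
    · intro hh
      have h4 := congrArg (fun X : P3 => X.2.2) hh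
      simp only [pE] at h4
      linarith
    · intro hh
      rw [← hh] at hy1
      exact lt_irrefl _ hy1
    · rintro X ⟨⟨a1, b1, ha1, hb1, hab1, rfl⟩, ⟨a2, b2, ha2, hb2, hab2, he⟩⟩
      have h4 := congrArg (fun X : P3 => X.1) he
      have h5 : a2 * 0 + b2 * y.1 = a1 * 0 + b1 * 0 := h4
      have h6 : b2 * y.1 = 0 := by linarith
      have h7 : b2 = 0 := by
        rcases mul_eq_zero.1 h6 with g | g
        · exact g
        · linarith
      have h8 : a2 = 1 := by linarith
      rw [← he, h7, h8, zero_smul, add_zero, one_smul]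
      rfl
    · rintro X ⟨hXh, hXa⟩
      obtain ⟨α, β, γ, hα, hβ, hγ, hsum, rfl⟩ := SO_hull hXh
      set X := α • pE + β • ((0, 0, 1 + τ) : P3) + γ • y with hXdef
      have hX1 : X.1 = γ * y.1 := by
        change α * 0 + β * 0 + γ * y.1 = γ * y.1
        ring
      have hX2 : X.2.2 = α + β * (1 + τ) + γ * y.2.2 := by
        change α * 1 + β * (1 + τ) + γ * y.2.2 = α + β * (1 + τ) + γ * y.2.2
        ring
      have hpos : 0 < X.2.2 := by
        rw [hX2]
        have p1 : 0 ≤ β * (1 + τ) := mul_nonneg hβ (by linarith)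
        have p2 : 0 ≤ γ * y.2.2 := mul_nonneg hγ hy2.le
        by_contra hcon
        rw [not_lt] at hcon
        have q1 : α = 0 := by linarith
        have q2 : β * (1 + τ) = 0 := by linarith
        have q3 : γ * y.2.2 = 0 := by linarith
        have q4 : β = 0 := by
          rcases mul_eq_zero.1 q2 with g | g
          · exact g
          · linarith
        have q5 : γ = 0 := by
          rcases mul_eq_zero.1 q3 with g | g
          · exact g
          · linarith
        linarith
      have e1 : (y :: ((ρ ++ pO :: M) ++ [pE]) : List P3) =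
          (y :: ρ) ++ pO :: (M ++ [pE]) := by simp
      rw [e1, arcSet_append] at hXa
      rcases hXa with hXa | hXa
      · have hlt : X.2.2 < 1 := by
          refine SO_lt (l := (y :: ρ) ++ [pO]) ?_ X hXa
          intro Y hY
          rcases List.mem_append.1 hY with hY | hY
          · exact (hr Y hY).2.2
          · rw [List.mem_singleton] at hY
            rw [hY]
            change (0 : ℝ) < 1
            exact one_pos
        have hγ0 : 0 < γ := by
          rcases hγ.eq_or_lt with g | g
          · exfalso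
            rw [hX2, ← g] at hlt
            have := mul_nonneg hβ hτ.le
            nlinarith
          · exact g
        rcases (show γ ≤ 1 by linarith).eq_or_lt with hγ1 | hγ1
        · have g1 : β = 0 := by linarith
          have g2 : α = 0 := by linarith
          right
          rw [Set.mem_singleton_iff, hXdef, hγ1, g1, g2]
          simp
        · have hd : 0 < 1 - γ := by linarith
          have hs0 : 0 ≤ β * τ / (1 - γ) := by positivity
          have hs1 : β * τ / (1 - γ) ≤ τ := by
            rw [div_le_iff₀ hd]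
            nlinarith
          have g1 := hs 0 _ (le_refl _) hτ.le hs0 hs1
          have g2 := (simpleC_two (0, 0, -0) (0, 0, 1 + β * τ / (1 - γ)) [] (y :: ρ)).1 g1
          have g3 := g2.2.1.2.1
          have g4 : X ∈ segment ℝ (0, 0, 1 + β * τ / (1 - γ)) y := by
            refine ⟨1 - γ, γ, hd.le, hγ, by ring, ?_⟩
            have e2 : (1 - γ) * (β * τ / (1 - γ)) = β * τ := mul_div_cancel₀ _ hd.ne'
            rw [hXdef]
            refine Prod.ext ?_ (Prod.ext ?_ ?_)
            · change (1 - γ) * 0 + γ * y.1 = α * 0 + β * 0 + γ * y.1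
              ring
            · change (1 - γ) * 0 + γ * y.2.1 = α * 0 + β * 0 + γ * y.2.1
              ring
            · change (1 - γ) * (1 + β * τ / (1 - γ)) + γ * y.2.2 =
                α * 1 + β * (1 + τ) + γ * y.2.2
              linear_combination e2 - hsum
          have e0 : ((0, 0, -0) : P3) = pO := by
            unfold pO
            rw [neg_zero]
          have g5 : X ∈ arcSet (y :: (ρ ++ [((0, 0, -0) : P3)])) := by
            rw [e0]
            exact hXa
          exact Or.inr (g3 ⟨g4, g5⟩)
      · rcases hthin hXa with hc | hc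
        · rcases hc with hc | hc
          · exfalso
            have h5 : X.2.2 = 0 := by rw [hc]; rfl
            linarith
          · exact Or.inl hc
        · exfalso
          have h4 := hc.1
          rw [hX1] at h4
          have := mul_nonpos_of_nonneg_of_nonpos hγ hy1.le
          linarith
  refine Unknot.rot _ _ ?_ h2
  have e : (pO :: (M ++ pE :: y :: ρ) : List P3) = (pO :: M) ++ (pE :: y :: ρ) := by simp
  have e' : (pE :: y :: (ρ ++ pO :: M) : List P3) = (pE :: y :: ρ) ++ (pO :: M) := by simp
  rw [e, e']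
  exact List.isRotated_append

end H97G
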