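import Pool.Agent.Lib.H97G.SM
import Pool.Agent.Lib.H97G.SN
import Pool.Agent.Lib.H97G.SO

/-!
# H97G, module S: the connected sum of two trivial knots in normal form (assembly)
-/

namespace H97G

open H46K

theorem connSum (rest mids : List P3) (h1 : Unknot (pO :: pE :: rest))
    (h2 : Unknot (pO :: (mids ++ [pE]))) (hr : ∀ X ∈ rest, RegN X) (hm : ∀ X ∈ mids, Reg X) :
    ∃ r0 : ℝ, 0 < r0 ∧ ∀ r, 0 < r → r ≤ r0 →
      Unknot (pO :: (mids.map (thin r) ++ pE :: rest)) := by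
  have hP : Pat mids := ⟨hm, h2⟩
  have hS := unknot_simpleC h1
  have hne := rest_ne_nil hS
  obtain ⟨τ, hτ, hs⟩ := stretch_simple hS
  have hU := stretch_unknot hτ h1 hs
  have hG := all_good hP hU _ _ _ (List.IsRotated.refl _)
  have h12 : (0 : ℝ) < 1 + 2 * τ := by linarith
  have e1 : lin ((0, 0, -τ) : P3) (0, 0, 1 + τ) (τ / (1 + 2 * τ)) = pO := by
    unfold lin pO
    simp only [Prod.mk_sub_mk, Prod.smul_mk, Prod.mk_add_mk, smul_eq_mul, Prod.mk.injEq]
    refine ⟨by ring, by ring, ?_⟩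
    field_simp
    ring
  have e2 : lin ((0, 0, -τ) : P3) (0, 0, 1 + τ) ((1 + τ) / (1 + 2 * τ)) = pE := by
    unfold lin pE
    simp only [Prod.mk_sub_mk, Prod.smul_mk, Prod.mk_add_mk, smul_eq_mul, Prod.mk.injEq]
    refine ⟨by ring, by ring, ?_⟩
    field_simp
    ring
  have e3 : ∀ r : ℝ, plc pO pE (1, 0, 0) (0, 1, 0) r = thin r := by
    intro r
    funext X
    unfold plc thin pO pE
    ext <;> simp
  obtain ⟨r0, h0, hr0⟩ := hG (τ / (1 + 2 * τ)) ((1 + τ) / (1 + 2 * τ)) (1, 0, 0) (0, 1, 0)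
    (by positivity) (by gcongr; linarith) (by rw [div_lt_one h12]; linarith)
    (by unfold det3; simp; linarith)
  refine ⟨r0, h0, fun r h3 h4 => ?_⟩
  have h5 := hr0 r h3 h4
  unfold dec at h5
  rw [e1, e2, e3] at h5
  exact cut_B hP hr hne hτ h3 hs (cut_A hP hr hne hτ h3 hs h5)

end H97G
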