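import Pool.Agent.Lib.H97G.GG
import Pool.Agent.Lib.H97G.SConn
import Pool.Agent.Lib.H97G.NH

/-!
# H97G: the gluing theorem
-/

namespace H97G

open H46K

variable {V : Type*}

theorem glue [Fintype V] [DecidableEq V] (G : SimpleGraph V) (A B : Set V) (u v : V)
    (huv : u ≠ v) (huA : u ∈ A) (huB : u ∈ B) (hvA : v ∈ A) (hvB : v ∈ B)
    (hAB : ∀ w, w ∈ A ∨ w ∈ B) (hI : ∀ w, w ∈ A → w ∈ B → w = u ∨ w = v)
    (hE : ∀ a b, G.Adj a b → (a ∈ A ∧ b ∈ A) ∨ (a ∈ B ∧ b ∈ B))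
    (hA : ∃ f : SpatialGraph (addE (restr G A) u v), KL f)
    (hB : ∃ f : SpatialGraph (addE (restr G B) u v), KL f) :
    ∃ f : SpatialGraph (addE G u v), KL f := by
  have hN : StNf V := by
    intro G u v huv h
    obtain ⟨f, h1, h2, h3, h4, h5, h6⟩ := nf G u v huv h
    exact ⟨f, h1, ⟨h2, h3, h4, h5, h6⟩⟩
  exact glue_of connSum hN G A B u v huv huA huB hvA hvB hAB hI hE hA hB

end H97G
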