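import Pool.Agent.Lib.H97G.D0

/-!
# H97G, chunk IA: polygonal arcs

All by induction on the first list. `isSimple_append`, step `l₁ = b :: l₁'` with next point `c` (the head of `l₁' ++ [a]`):
if `x` is in `[b, c]` and in `arcSet (a :: l₂)`, then (⇐) `x = a`, so `x` is in `arcSet (l₁' ++ [a])` and `x = c`.
`isSimple_reverse`: from `isSimple_append` (reverse of `a :: l` is `l.reverse ++ [a]`) and `arcSet_reverse`.
`ends_ne`: `[p, c]` meets the rest only in `c`, and `q` is in the rest; `q = p` would give `p = c`.
-/

namespace H97G

open H46K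

theorem IA_cons (a b : P3) (l : List P3) :
    arcSet (a :: b :: l) = segment ℝ a b ∪ arcSet (b :: l) := rfl

theorem IA_simple_cons (a b : P3) (l : List P3) :
    IsSimple (a :: b :: l) ↔ a ≠ b ∧ segment ℝ a b ∩ arcSet (b :: l) ⊆ {b} ∧ IsSimple (b :: l) :=
  Iff.rfl

theorem mem_arcSet {l : List P3} {x : P3} (h : x ∈ l) : x ∈ arcSet l := by
  induction l with
  | nil => exact absurd h List.not_mem_nil
  | cons a l ih =>
    cases l with
    | nil =>
      rw [List.mem_singleton] at h
      rw [h]
      exact Set.mem_singleton _
    | cons b l =>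
      rw [IA_cons]
      rcases List.mem_cons.1 h with h | h
      · rw [h]
        exact Or.inl (left_mem_segment ℝ a b)
      · exact Or.inr (ih h)

theorem arcSet_append (l₁ : List P3) (a : P3) (l₂ : List P3) :
    arcSet (l₁ ++ a :: l₂) = arcSet (l₁ ++ [a]) ∪ arcSet (a :: l₂) := by
  induction l₁ with
  | nil =>
    rw [List.nil_append, List.nil_append]
    have h1 : arcSet [a] = {a} := rfl
    rw [h1]
    symm
    rw [Set.union_eq_right, Set.singleton_subset_iff]
    exact mem_arcSet List.mem_cons_self
  | cons b l ih =>
    cases l with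
    | nil =>
      rw [List.cons_append, List.nil_append, List.cons_append, List.nil_append, IA_cons, IA_cons]
      have h1 : arcSet [a] = {a} := rfl
      have h2 : ({a} : Set P3) ∪ arcSet (a :: l₂) = arcSet (a :: l₂) := by
        rw [Set.union_eq_right, Set.singleton_subset_iff]
        exact mem_arcSet List.mem_cons_self
      rw [h1, Set.union_assoc, h2]
    | cons c l =>
      rw [List.cons_append, List.cons_append, List.cons_append, List.cons_append, IA_cons, IA_cons,
        ← List.cons_append, ← List.cons_append, ih, Set.union_assoc]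

theorem isSimple_append (l₁ : List P3) (a : P3) (l₂ : List P3) :
    IsSimple (l₁ ++ a :: l₂) ↔ IsSimple (l₁ ++ [a]) ∧ IsSimple (a :: l₂) ∧
      arcSet (l₁ ++ [a]) ∩ arcSet (a :: l₂) ⊆ {a} := by
  induction l₁ with
  | nil =>
    rw [List.nil_append, List.nil_append]
    constructor
    · intro h
      exact ⟨trivial, h, Set.inter_subset_left⟩
    · rintro ⟨_, h, _⟩
      exact h
  | cons b l ih =>
    cases l with
    | nil =>
      rw [List.cons_append, List.nil_append, List.cons_append, List.nil_append, IA_simple_cons,
        IA_simple_cons, IA_cons]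
      have h1 : arcSet [a] = {a} := rfl
      rw [h1]
      constructor
      · rintro ⟨h2, h3, h4⟩
        refine ⟨⟨h2, Set.inter_subset_right, trivial⟩, h4, ?_⟩
        rintro x ⟨hx | hx, hx'⟩
        · exact h3 ⟨hx, hx'⟩
        · exact hx
      · rintro ⟨⟨h2, _, _⟩, h4, h5⟩
        exact ⟨h2, fun x hx => h5 ⟨Or.inl hx.1, hx.2⟩, h4⟩
    | cons c l =>
      rw [List.cons_append, List.cons_append, List.cons_append, List.cons_append, IA_simple_cons,
        IA_simple_cons, IA_cons, ← List.cons_append, ← List.cons_append, ih, arcSet_append]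
      constructor
      · rintro ⟨h1, h2, h3, h4, h5⟩
        refine ⟨⟨h1, fun x hx => h2 ⟨hx.1, Or.inl hx.2⟩, h3⟩, h4, ?_⟩
        rintro x ⟨hx | hx, hx'⟩
        · have h6 : x = c := h2 ⟨hx, Or.inr hx'⟩
          refine h5 ⟨?_, hx'⟩
          rw [h6]
          exact mem_arcSet (List.mem_append_left _ List.mem_cons_self)
        · exact h5 ⟨hx, hx'⟩
      · rintro ⟨⟨h1, h2, h3⟩, h4, h5⟩
        refine ⟨h1, ?_, h3, h4, fun x hx => h5 ⟨Or.inr hx.1, hx.2⟩⟩
        rintro x ⟨hx, hx' | hx'⟩
        · exact h2 ⟨hx, hx'⟩
        · have h6 : x = a := h5 ⟨Or.inl hx, hx'⟩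
          refine h2 ⟨hx, ?_⟩
          rw [h6]
          exact mem_arcSet (List.mem_append_right _ (List.mem_singleton.2 rfl))

theorem arcSet_reverse (l : List P3) : arcSet l.reverse = arcSet l := by
  induction l with
  | nil => rfl
  | cons b l ih =>
    cases l with
    | nil => rfl
    | cons c l =>
      rw [List.reverse_cons, List.reverse_cons, List.append_assoc, List.singleton_append,
        arcSet_append, ← List.reverse_cons, ih, IA_cons, IA_cons, segment_symm]
      have h1 : arcSet [b] = {b} := rfl
      have h2 : segment ℝ b c ∪ ({b} : Set P3) = segment ℝ b c := by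
        rw [Set.union_eq_left, Set.singleton_subset_iff]
        exact left_mem_segment ℝ b c
      rw [h1, h2, Set.union_comm]

theorem isSimple_reverse (l : List P3) : IsSimple l.reverse ↔ IsSimple l := by
  induction l with
  | nil => exact Iff.rfl
  | cons b l ih =>
    cases l with
    | nil => exact Iff.rfl
    | cons c l =>
      have h1 : arcSet [b] = {b} := rfl
      rw [List.reverse_cons, List.reverse_cons, List.append_assoc, List.singleton_append,
        isSimple_append, ← List.reverse_cons, ih, arcSet_reverse, IA_simple_cons, IA_simple_cons,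
        IA_cons c b, h1]
      constructor
      · rintro ⟨h2, ⟨h3, _, _⟩, h4⟩
        refine ⟨h3.symm, fun x hx => h4 ⟨hx.2, Or.inl ?_⟩, h2⟩
        rw [segment_symm]
        exact hx.1
      · rintro ⟨h2, h3, h4⟩
        refine ⟨h4, ⟨h2.symm, Set.inter_subset_right, trivial⟩, ?_⟩
        rintro x ⟨hx, hx' | hx'⟩
        · refine h3 ⟨?_, hx⟩
          rw [segment_symm]
          exact hx'
        · have h5 : x = b := hx'
          refine h3 ⟨?_, hx⟩
          rw [h5]
          exact left_mem_segment ℝ b c

theorem IA_segment_compact (a b : P3) : IsCompact (segment ℝ a b) := by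
  rw [segment_eq_image_lineMap]
  refine isCompact_Icc.image ?_
  exact AffineMap.lineMap_continuous

theorem arcSet_compact (l : List P3) : IsCompact (arcSet l) := by
  induction l with
  | nil => exact isCompact_empty
  | cons b l ih =>
    cases l with
    | nil => exact isCompact_singleton
    | cons c l => exact (IA_segment_compact b c).union ih

theorem ends_ne {p q : P3} {β : List P3} (h : IsSimple (p :: (β ++ [q]))) : p ≠ q := by
  cases β with
  | nil => exact h.1
  | cons c β =>
    rw [List.cons_append, IA_simple_cons] at h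
    intro hpq
    refine h.1 (h.2.1 ⟨left_mem_segment ℝ p c, ?_⟩)
    rw [hpq]
    refine mem_arcSet ?_
    rw [← List.cons_append]
    exact List.mem_append_right _ (List.mem_singleton.2 rfl)

/-- arcs in convex sets -/
theorem arcSet_subset {l : List P3} {C : Set P3} (hC : Convex ℝ C) (h : ∀ x ∈ l, x ∈ C) :
    arcSet l ⊆ C := by
  induction l with
  | nil => exact Set.empty_subset _
  | cons b l ih =>
    cases l with
    | nil =>
      have h1 : arcSet [b] = {b} := rfl
      rw [h1, Set.singleton_subset_iff]
      exact h b List.mem_cons_self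
    | cons c l =>
      rw [IA_cons]
      refine Set.union_subset ?_ (ih fun x hx => h x (List.mem_cons_of_mem _ hx))
      exact hC.segment_subset (h b List.mem_cons_self)
        (h c (List.mem_cons_of_mem _ List.mem_cons_self))

end H97G
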