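import Pool.Agent.Lib.H97G.IA

/-!
# H97G, chunk IB: simple closed polygons

`simpleC_two`. Let `z` be the last point of `q :: ρ`. `SimpleC` unfolds to (by `isSimple_append` at `q`) (1) `IsSimple X`,
`X = p :: (β ++ [q])`, (2) `IsSimple (q :: ρ)`, (3) `X ∩ (q :: ρ) ⊆ {q}`, (4) `z ≠ p`, (5) `[z, p] ∩ (X ∪ (q :: ρ)) ⊆ {z, p}`; the right
side (by `isSimple_append` at `z`, `q :: ρ = L ++ [z]`) to (1), (2), (4), (6) `(q :: ρ) ∩ [z, p] ⊆ {z}`, (7) `p ≠ q`,
(8) `X ∩ ((q :: ρ) ∪ [z, p]) ⊆ {p, q}`. (⇒) (7) by `ends_ne`; (6): `p` is not in `q :: ρ` (by (3) it would be `q`);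
(8): `z` in `X` gives `z = q` by (3). (⇐) (3): `p` in `q :: ρ` gives `p = z` by (6); (5): `q` in `[z, p]` gives `q = z` by (6).
The lists: `p :: (β ++ q :: ρ) = p :: (m ++ [z])`, treat `ρ = []` and `ρ = ρ' ++ [z]` separately.
`simpleC_rot`: it suffices to rotate by one: `a :: (m ++ [z])` to `m ++ [z] ++ [a]`: write `m = b :: m'` (`m = []` is impossible:
`[z, a]` would be in the arc) and apply `simpleC_two` twice (with `p = a`, `q = b`, `β = []` and, for the rotated
polygon, `p = b`, `q = a`), the condition is symmetric (use `isSimple_reverse`, `arcSet_reverse` only if needed).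
`unknot_simpleC`: induction. `tri`: from `AffineIndependent` (coordinates of a point of two sides). `ins`, `del`: `simpleC_two` with
`p = a`, `q = b`, `β = [v]` resp. `[]`; `arcSet [a, v, b]` is contained in the hull.
-/

namespace H97G

open H46K

theorem IB_last (a : P3) (m : List P3) (z : P3) : SimpleC (a :: (m ++ [z])) ↔
    IsSimple (a :: (m ++ [z])) ∧ z ≠ a ∧ segment ℝ z a ∩ arcSet (a :: (m ++ [z])) ⊆ {z, a} := by
  constructor
  · rintro ⟨a', m', z', h, h1, h2, h3⟩
    rw [List.cons.injEq] at h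
    obtain ⟨rfl, h⟩ := h
    have h4 := List.append_inj_right' h rfl
    rw [List.cons.injEq] at h4
    obtain ⟨rfl, -⟩ := h4
    exact ⟨h1, h2, h3⟩
  · rintro ⟨h1, h2, h3⟩
    exact ⟨a, m, z, rfl, h1, h2, h3⟩

theorem IB_seg (z p : P3) : arcSet [z, p] = segment ℝ z p := by
  change segment ℝ z p ∪ {p} = segment ℝ z p
  rw [Set.union_eq_left]
  rintro x rfl
  exact right_mem_segment ℝ z x

theorem IB_simple (z p : P3) : IsSimple [z, p] ↔ z ≠ p := by
  constructor
  · intro h
    exact h.1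
  · intro h
    exact ⟨h, Set.inter_subset_right, trivial⟩

theorem simpleC_two (p q : P3) (β ρ : List P3) : SimpleC (p :: (β ++ q :: ρ)) ↔
    IsSimple (p :: (β ++ [q])) ∧ IsSimple (q :: (ρ ++ [p])) ∧ p ≠ q ∧
      arcSet (p :: (β ++ [q])) ∩ arcSet (q :: (ρ ++ [p])) ⊆ {p, q} := by
  rcases List.eq_nil_or_concat ρ with rfl | ⟨ρ', z, rfl⟩
  · rw [IB_last, List.nil_append, IB_simple, IB_seg]
    constructor
    · rintro ⟨h1, h2, h3⟩
      refine ⟨h1, h2, h2.symm, ?_⟩
      rw [Set.inter_comm, Set.pair_comm]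
      exact h3
    · rintro ⟨h1, h2, -, h3⟩
      refine ⟨h1, h2, ?_⟩
      rw [Set.inter_comm, Set.pair_comm]
      exact h3
  · rw [List.concat_eq_append]
    have e1 : p :: (β ++ q :: (ρ' ++ [z])) = p :: ((β ++ q :: ρ') ++ [z]) := by simp
    have e2 : q :: ((ρ' ++ [z]) ++ [p]) = (q :: ρ') ++ z :: [p] := by simp
    have e3 : p :: ((β ++ q :: ρ') ++ [z]) = (p :: β) ++ q :: (ρ' ++ [z]) := by simp
    rw [e1, IB_last, e2, e3, isSimple_append (p :: β) q (ρ' ++ [z]),
      isSimple_append (q :: ρ') z [p], arcSet_append (p :: β) q (ρ' ++ [z]),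
      arcSet_append (q :: ρ') z [p], IB_simple, IB_seg]
    have e4 : p :: β ++ [q] = p :: (β ++ [q]) := rfl
    have e5 : q :: ρ' ++ [z] = q :: (ρ' ++ [z]) := rfl
    rw [e4, e5]
    have hpX : p ∈ arcSet (p :: (β ++ [q])) := mem_arcSet (by simp)
    have hqY : q ∈ arcSet (q :: (ρ' ++ [z])) := mem_arcSet (by simp)
    have hzY : z ∈ arcSet (q :: (ρ' ++ [z])) := mem_arcSet (by simp)
    have hpS : p ∈ segment ℝ z p := right_mem_segment ℝ z p
    constructor
    · rintro ⟨⟨h1, h2, h3⟩, h4, h5⟩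
      have h6 : p ≠ q := ends_ne h1
      refine ⟨h1, ⟨h2, h4, ?_⟩, h6, ?_⟩
      · rintro x ⟨hx1, hx2⟩
        rcases h5 ⟨hx2, Or.inr hx1⟩ with hx | hx
        · exact hx
        · exfalso
          rw [Set.mem_singleton_iff] at hx
          rw [hx] at hx1
          exact h6 (h3 ⟨hpX, hx1⟩)
      · rintro x ⟨hx1, hx2 | hx2⟩
        · exact Or.inr (h3 ⟨hx1, hx2⟩)
        · rcases h5 ⟨hx2, Or.inl hx1⟩ with hx | hx
          · rw [hx] at hx1 ⊢
            exact Or.inr (h3 ⟨hx1, hzY⟩)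
          · exact Or.inl hx
    · rintro ⟨h1, ⟨h2, h4, h7⟩, h6, h8⟩
      refine ⟨⟨h1, h2, ?_⟩, h4, ?_⟩
      · rintro x ⟨hx1, hx2⟩
        rcases h8 ⟨hx1, Or.inl hx2⟩ with hx | hx
        · exfalso
          rw [hx] at hx2
          exact h4 (h7 ⟨hx2, hpS⟩).symm
        · exact hx
      · rintro x ⟨hx1, hx2 | hx2⟩
        · rcases h8 ⟨hx2, Or.inr hx1⟩ with hx | hx
          · exact Or.inr hx
          · rw [Set.mem_singleton_iff] at hx
            rw [hx] at hx1 ⊢
            exact Or.inl (h7 ⟨hqY, hx1⟩)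
        · exact Or.inl (h7 ⟨hx2, hx1⟩)

theorem IB_rot1 (a b : P3) (l : List P3) (h : SimpleC (a :: b :: l)) : SimpleC (b :: (l ++ [a])) := by
  have h1 := (simpleC_two a b [] l).1 h
  refine (simpleC_two b a l []).2 ⟨h1.2.1, h1.1, h1.2.2.1.symm, ?_⟩
  rw [Set.inter_comm, Set.pair_comm]
  exact h1.2.2.2

theorem simpleC_rot {l l' : List P3} (h : l ~r l') (hl : SimpleC l) : SimpleC l' := by
  obtain ⟨n, rfl⟩ := h
  induction n with
  | zero => simpa using hl
  | succ n ih =>
    rw [← List.rotate_rotate]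
    obtain ⟨a, m, z, h1, -⟩ := id ih
    have h2 : ∃ b l'', m ++ [z] = b :: l'' := by
      cases m with
      | nil => exact ⟨z, [], rfl⟩
      | cons b m' => exact ⟨b, m' ++ [z], rfl⟩
    obtain ⟨b, l'', h2⟩ := h2
    rw [h2] at h1
    rw [h1] at ih ⊢
    have h3 : (a :: b :: l'').rotate 1 = b :: (l'' ++ [a]) := by simp
    rw [h3]
    exact IB_rot1 a b l'' ih

/-- two sides of a triangle -/
theorem IB_two {a b c : P3} (h : ¬ Collinear ℝ {a, b, c}) :
    segment ℝ a b ∩ segment ℝ b c ⊆ {b} := by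
  rintro x ⟨hx1, hx2⟩
  rw [segment_symm, segment_eq_image'] at hx1
  rw [segment_eq_image'] at hx2
  obtain ⟨s, -, hs⟩ := hx1
  obtain ⟨t, -, ht⟩ := hx2
  simp only at hs ht
  by_contra hxb
  apply h
  have hs0 : s ≠ 0 := by
    rintro rfl
    apply hxb
    rw [← hs]
    simp
  rw [collinear_iff_of_mem (p₀ := b) (by simp)]
  refine ⟨c - b, ?_⟩
  rintro p (rfl | rfl | rfl)
  · refine ⟨t / s, ?_⟩
    have h1 : s • (p - b) = t • (c - b) := by
      have h2 := hs.trans ht.symm
      exact add_left_cancel h2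
    have h3 : p - b = (t / s) • (c - b) := by
      rw [div_eq_inv_mul, mul_smul, ← h1, smul_smul, inv_mul_cancel₀ hs0, one_smul]
    rw [← h3, vadd_eq_add, sub_add_cancel]
  · exact ⟨0, by simp⟩
  · exact ⟨1, by simp⟩

theorem simpleC_tri (a b c : P3) (h : AffineIndependent ℝ ![a, b, c]) : SimpleC [a, b, c] := by
  rw [affineIndependent_iff_not_collinear_set] at h
  have h1 : ¬ Collinear ℝ {b, c, a} := by
    have : ({b, c, a} : Set P3) = {a, b, c} := by
      ext x
      simp only [Set.mem_insert_iff, Set.mem_singleton_iff]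
      tauto
    rwa [this]
  have h2 : ¬ Collinear ℝ {c, a, b} := by
    have : ({c, a, b} : Set P3) = {a, b, c} := by
      ext x
      simp only [Set.mem_insert_iff, Set.mem_singleton_iff]
      tauto
    rwa [this]
  have hab : a ≠ b := by
    rintro rfl
    apply h
    simpa using collinear_pair ℝ a c
  have hbc : b ≠ c := by
    rintro rfl
    apply h
    simpa using collinear_pair ℝ a b
  have hca : c ≠ a := by
    rintro rfl
    apply h
    have : ({c, b, c} : Set P3) = {c, b} := by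
      ext x
      simp only [Set.mem_insert_iff, Set.mem_singleton_iff]
      tauto
    rw [this]
    exact collinear_pair ℝ c b
  have e1 : arcSet [b, c, a] = segment ℝ b c ∪ segment ℝ c a := by
    change segment ℝ b c ∪ arcSet [c, a] = _
    rw [IB_seg]
  refine (simpleC_two a b [] [c]).2 ⟨?_, ?_, hab, ?_⟩
  · exact (IB_simple a b).2 hab
  · refine ⟨hbc, ?_, (IB_simple c a).2 hca⟩
    have : arcSet ([c] ++ [a]) = segment ℝ c a := IB_seg c a
    change segment ℝ b c ∩ arcSet [c, a] ⊆ {c}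
    rw [IB_seg]
    exact IB_two h1
  · change arcSet [a, b] ∩ arcSet [b, c, a] ⊆ {a, b}
    rw [e1, IB_seg]
    rintro x ⟨hx, hx' | hx'⟩
    · exact Or.inr (IB_two h ⟨hx, hx'⟩)
    · exact Or.inl (IB_two h2 ⟨hx', hx⟩)

theorem unknot_simpleC {l : List P3} (h : Unknot l) : SimpleC l := by
  induction h with
  | tri a b c h => exact simpleC_tri a b c h
  | rot l l' h _ ih => exact simpleC_rot h ih
  | ins a v b l hav hvb hs ht _ ih =>
    have h1 := (simpleC_two a b [] l).1 ih
    refine (simpleC_two a b [v] l).2 ⟨⟨hav, ?_, (IB_simple v b).2 hvb⟩, h1.2.1, h1.2.2.1, ?_⟩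
    · change segment ℝ a v ∩ arcSet [v, b] ⊆ {v}
      rw [IB_seg]
      exact hs
    · refine (Set.inter_subset_inter_left _ (arcSet_subset (convex_convexHull ℝ {a, v, b}) ?_)).trans ht
      intro x hx
      apply subset_convexHull
      simpa using hx
  | del a v b l hav hvb hs ht _ ih =>
    have h1 := (simpleC_two a b [v] l).1 ih
    refine (simpleC_two a b [] l).2 ⟨(IB_simple a b).2 h1.2.2.1, h1.2.1, h1.2.2.1, ?_⟩
    refine (Set.inter_subset_inter_left _ (arcSet_subset (convex_convexHull ℝ {a, v, b}) ?_)).trans ht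
    intro x hx
    apply subset_convexHull
    simp only [List.nil_append, List.mem_cons, List.not_mem_nil, or_false] at hx
    rcases hx with rfl | rfl <;> simp

end H97G
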