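import Pool.Agent.Lib.H97G.IB

/-!
# H97G, chunk IC: open conditions

`Corner a b c` iff `a ≠ b`, `c ≠ b` and the unit vectors `(a - b) / ‖a - b‖`, `(c - b) / ‖c - b‖` are different (if they are equal the point
`b + ε u` is on both segments; if `x ≠ b` is on both segments, both are `(x - b) / ‖x - b‖`). The set is open since the
map to the difference of the unit vectors is continuous on the open set `a ≠ b`, `c ≠ b`.
`segDisj_open`: `(a, b, c, d)` is in the set iff `a + s (b - a) ≠ c + t (d - c)` for all `(s, t)` in the compact square; use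
`IsCompact.eventually_forall_of_forall_eventually` or `generalized_tube_lemma`.
-/

namespace H97G

open H46K

/-- nondegenerate corner -/
def Corner (a b c : P3) : Prop := a ≠ b ∧ b ≠ c ∧ segment ℝ a b ∩ segment ℝ b c ⊆ {b}

theorem IC_corner (a b c : P3) :
    Corner a b c ↔ a ≠ b ∧ b ≠ c ∧ ‖a - b‖ • (c - b) ≠ ‖c - b‖ • (a - b) := by
  unfold Corner
  refine and_congr_right fun hab => and_congr_right fun hbc => ?_
  have ha0 : a - b ≠ 0 := sub_ne_zero.2 hab
  have hc0 : c - b ≠ 0 := sub_ne_zero.2 hbc.symm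
  have hray := sameRay_iff_norm_smul_eq (x := a - b) (y := c - b)
  rw [← not_iff_not, Ne, not_not, ← hray]
  constructor
  · intro h
    rw [Set.not_subset] at h
    obtain ⟨x, ⟨hx1, hx2⟩, hxb⟩ := h
    rw [segment_symm, segment_eq_image'] at hx1
    rw [segment_eq_image'] at hx2
    obtain ⟨s, hs, rfl⟩ := hx1
    obtain ⟨t, ht, hst⟩ := hx2
    simp only at hst hxb
    have hs0 : s ≠ 0 := by
      rintro rfl
      simp at hxb
    have ht0 : t ≠ 0 := by
      rintro rfl
      rw [zero_smul, add_zero] at hst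
      exact hxb hst.symm
    have hs1 : 0 < s := lt_of_le_of_ne hs.1 hs0.symm
    have ht1 : 0 < t := lt_of_le_of_ne ht.1 ht0.symm
    have h3 : s • (a - b) = t • (c - b) := (add_left_cancel hst).symm
    exact Or.inr (Or.inr ⟨s, t, hs1, ht1, h3⟩)
  · intro h hsub
    obtain ⟨s, t, hs, ht, hst⟩ := h.exists_pos ha0 hc0
    have hm : 0 < s + t := by positivity
    have h1 : b + (s / (s + t)) • (a - b) ∈ segment ℝ a b := by
      rw [segment_symm, segment_eq_image']
      exact ⟨s / (s + t), ⟨by positivity, (div_le_one hm).2 (by linarith)⟩, rfl⟩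
    have h2 : b + (s / (s + t)) • (a - b) ∈ segment ℝ b c := by
      rw [segment_eq_image']
      refine ⟨t / (s + t), ⟨by positivity, (div_le_one hm).2 (by linarith)⟩, ?_⟩
      simp only
      rw [div_eq_inv_mul, mul_smul, ← hst, ← mul_smul, ← div_eq_inv_mul]
    have h3 := hsub ⟨h1, h2⟩
    rw [Set.mem_singleton_iff, add_eq_left, smul_eq_zero] at h3
    rcases h3 with h3 | h3
    · rw [div_eq_zero_iff] at h3
      rcases h3 with h3 | h3 <;> linarith
    · exact ha0 h3

theorem corner_open : IsOpen {q : P3 × P3 × P3 | Corner q.1 q.2.1 q.2.2} := by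
  simp only [IC_corner]
  refine IsOpen.and (isOpen_ne_fun continuous_fst (by fun_prop)) (IsOpen.and
    (isOpen_ne_fun (by fun_prop) (by fun_prop)) (isOpen_ne_fun (by fun_prop) (by fun_prop)))

theorem segDisj_open : IsOpen {q : (P3 × P3) × (P3 × P3) |
    Disjoint (segment ℝ q.1.1 q.1.2) (segment ℝ q.2.1 q.2.2)} := by
  let I : Set ℝ := Set.Icc 0 1
  let C : Set ((I × I) × ((P3 × P3) × (P3 × P3))) :=
    {p | p.2.1.1 + (p.1.1 : ℝ) • (p.2.1.2 - p.2.1.1) =
      p.2.2.1 + (p.1.2 : ℝ) • (p.2.2.2 - p.2.2.1)}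
  have hC : IsClosed C := isClosed_eq (by fun_prop) (by fun_prop)
  have hI : CompactSpace I := isCompact_iff_compactSpace.1 isCompact_Icc
  have himg : IsClosed (Prod.snd '' C) := isClosedMap_snd_of_compactSpace C hC
  have heq : {q : (P3 × P3) × (P3 × P3) |
      Disjoint (segment ℝ q.1.1 q.1.2) (segment ℝ q.2.1 q.2.2)} = (Prod.snd '' C)ᶜ := by
    ext q
    rw [Set.mem_ofPred_eq, Set.mem_compl_iff, Set.disjoint_left]
    constructor
    · rintro h ⟨⟨⟨s, t⟩, q'⟩, hq, rfl⟩
      refine h (a := q'.1.1 + (s : ℝ) • (q'.1.2 - q'.1.1)) ?_ ?_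
      · rw [segment_eq_image']
        exact ⟨s, s.2, rfl⟩
      · rw [segment_eq_image']
        exact ⟨t, t.2, hq.symm⟩
    · intro h x hx1 hx2
      rw [segment_eq_image'] at hx1 hx2
      obtain ⟨s, hs, rfl⟩ := hx1
      obtain ⟨t, ht, hst⟩ := hx2
      exact h ⟨((⟨s, hs⟩, ⟨t, ht⟩), q), hst.symm, rfl⟩
  rw [heq]
  exact himg.isOpen_compl

end H97G
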