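import Pool.Agent.Lib.H97G.IC

/-!
# H97G, chunk ID: being a simple closed polygon is an open condition

`L : List ι` a list of names of vertices, `F : ι → P3` (product topology). `arcDisj_open`: induction on `L` (`[a]`: the
segment `[F a, F a]`; `a :: b :: L`: the union). `isSimple_open`: induction; `a :: b :: c :: L`:
`IsSimple` iff `IsSimple (b :: c :: L)`, `Corner a b c` and `[a, b]` disjoint from `arcSet (c :: L)` (as `b` is not in
`arcSet (c :: L)`). `simpleC_iff`: for `l = a :: (m ++ [z])`: `SimpleC l` iff `m ≠ []`, `IsSimple l`, `Corner z a b` (`b` the head of `m`),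
`Corner y z a` (`y` the last point of `m`), `[z, a]` disjoint from `arcSet m`.
`simpleC_open`: from these.
-/

namespace H97G

open H46K

theorem ID_seg_open {ι : Type*} (i j a b : ι) :
    IsOpen {F : ι → P3 | Disjoint (segment ℝ (F i) (F j)) (segment ℝ (F a) (F b))} := by
  have h : Continuous fun F : ι → P3 => ((F i, F j), (F a, F b)) := by fun_prop
  exact segDisj_open.preimage h

theorem arcDisj_open {ι : Type*} (i j : ι) (L : List ι) :
    IsOpen {F : ι → P3 | Disjoint (segment ℝ (F i) (F j)) (arcSet (L.map F))} := by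
  induction L with
  | nil =>
    have h : {F : ι → P3 | Disjoint (segment ℝ (F i) (F j)) (arcSet (([] : List ι).map F))} =
        Set.univ := by
      ext F
      simp [arcSet]
    rw [h]
    exact isOpen_univ
  | cons a L ih =>
    cases L with
    | nil =>
      have h : {F : ι → P3 | Disjoint (segment ℝ (F i) (F j)) (arcSet ([a].map F))} =
          {F : ι → P3 | Disjoint (segment ℝ (F i) (F j)) (segment ℝ (F a) (F a))} := by
        ext F
        simp [arcSet, segment_same]
      rw [h]
      exact ID_seg_open i j a a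
    | cons b L =>
      have h : {F : ι → P3 | Disjoint (segment ℝ (F i) (F j)) (arcSet ((a :: b :: L).map F))} =
          {F : ι → P3 | Disjoint (segment ℝ (F i) (F j)) (segment ℝ (F a) (F b))} ∩
          {F : ι → P3 | Disjoint (segment ℝ (F i) (F j)) (arcSet ((b :: L).map F))} := by
        ext F
        simp [arcSet, Set.disjoint_union_right]
      rw [h]
      exact (ID_seg_open i j a b).inter ih

theorem ID_simple_iff (A B C : P3) (M : List P3) : IsSimple (A :: B :: C :: M) ↔
    IsSimple (B :: C :: M) ∧ Corner A B C ∧ Disjoint (segment ℝ A B) (arcSet (C :: M)) := by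
  constructor
  · rintro ⟨h1, h2, h3⟩
    have h3' := h3
    obtain ⟨g1, g2, g3⟩ := h3'
    have hB : B ∉ arcSet (C :: M) := fun hB => g1 (g2 ⟨left_mem_segment ℝ B C, hB⟩)
    refine ⟨h3, ⟨h1, g1, fun x hx => h2 ⟨hx.1, Or.inl hx.2⟩⟩, ?_⟩
    rw [Set.disjoint_left]
    intro x hx hx'
    have hxB : x = B := h2 ⟨hx, Or.inr hx'⟩
    rw [hxB] at hx'
    exact hB hx'
  · rintro ⟨h1, ⟨h2, h3, h4⟩, h5⟩
    refine ⟨h2, ?_, h1⟩
    rintro x ⟨hx, hx' | hx'⟩
    · exact h4 ⟨hx, hx'⟩
    · exact absurd hx' (Set.disjoint_left.1 h5 hx)

theorem ID_corner_open {ι : Type*} (i j k : ι) :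
    IsOpen {F : ι → P3 | Corner (F i) (F j) (F k)} := by
  have h : Continuous fun F : ι → P3 => (F i, F j, F k) := by fun_prop
  exact corner_open.preimage h

theorem isSimple_open {ι : Type*} (L : List ι) : IsOpen {F : ι → P3 | IsSimple (L.map F)} := by
  induction L with
  | nil =>
    have h : {F : ι → P3 | IsSimple (([] : List ι).map F)} = Set.univ := by
      ext F
      simp [IsSimple]
    rw [h]
    exact isOpen_univ
  | cons a L ih =>
    cases L with
    | nil =>
      have h : {F : ι → P3 | IsSimple ([a].map F)} = Set.univ := by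
        ext F
        simp [IsSimple]
      rw [h]
      exact isOpen_univ
    | cons b L =>
      cases L with
      | nil =>
        have h : {F : ι → P3 | IsSimple ([a, b].map F)} = {F : ι → P3 | F a ≠ F b} := by
          ext F
          simp [IsSimple, arcSet]
        rw [h]
        have hc1 : Continuous fun F : ι → P3 => F a := by fun_prop
        have hc2 : Continuous fun F : ι → P3 => F b := by fun_prop
        exact isOpen_ne_fun hc1 hc2
      | cons c L =>
        have h : {F : ι → P3 | IsSimple ((a :: b :: c :: L).map F)} =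
            {F : ι → P3 | IsSimple ((b :: c :: L).map F)} ∩
            ({F : ι → P3 | Corner (F a) (F b) (F c)} ∩
            {F : ι → P3 | Disjoint (segment ℝ (F a) (F b)) (arcSet ((c :: L).map F))}) := by
          ext F
          exact ID_simple_iff (F a) (F b) (F c) (L.map F)
        rw [h]
        exact ih.inter ((ID_corner_open a b c).inter (arcDisj_open a b (c :: L)))

theorem ID_simpleC_iff (a z : P3) (m : List P3) : SimpleC (a :: (m ++ [z])) ↔
    IsSimple (a :: (m ++ [z])) ∧ z ≠ a ∧ segment ℝ z a ∩ arcSet (a :: (m ++ [z])) ⊆ {z, a} := by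
  constructor
  · rintro ⟨a', m', z', h1, h2, h3, h4⟩
    obtain ⟨e1, e2⟩ := List.cons.inj h1
    obtain ⟨e3, e4⟩ := List.append_inj' e2 rfl
    have e5 : z = z' := by simpa using e4
    subst e1 e5
    exact ⟨h2, h3, h4⟩
  · rintro ⟨h2, h3, h4⟩
    exact ⟨a, m, z, rfl, h2, h3, h4⟩

theorem simpleC_iff (a b y z : P3) (m m' m'' : List P3) (h1 : m = b :: m') (h2 : m = m'' ++ [y]) :
    SimpleC (a :: (m ++ [z])) ↔ IsSimple (a :: (m ++ [z])) ∧ Corner z a b ∧ Corner y z a ∧
      Disjoint (segment ℝ z a) (arcSet m) := by
  rw [ID_simpleC_iff]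
  have harc1 : arcSet (a :: (m ++ [z])) = segment ℝ a b ∪ arcSet (m ++ [z]) := by
    rw [h1]
    rfl
  have harc2 : arcSet (m ++ [z]) = arcSet m ∪ arcSet [y, z] := by
    rw [h2, List.append_assoc]
    exact arcSet_append m'' y [z]
  have hyz : arcSet [y, z] = segment ℝ y z := by
    show segment ℝ y z ∪ {z} = segment ℝ y z
    rw [Set.union_eq_left, Set.singleton_subset_iff]
    exact right_mem_segment ℝ y z
  have harc : arcSet (a :: (m ++ [z])) = segment ℝ a b ∪ (arcSet m ∪ segment ℝ y z) := by
    rw [harc1, harc2, hyz]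
  constructor
  · rintro ⟨g1, g2, g3⟩
    have k1 : IsSimple (a :: b :: (m' ++ [z])) := by
      rw [h1] at g1
      exact g1
    obtain ⟨k2, k3, k4⟩ := k1
    have k5 : b ≠ z := ends_ne k4
    have k6 : IsSimple (m'' ++ y :: [z]) := by
      have e : m'' ++ y :: [z] = b :: (m' ++ [z]) := by
        have e1 : m ++ [z] = b :: (m' ++ [z]) := by rw [h1]; rfl
        rw [← e1, h2, List.append_assoc]
        rfl
      rw [e]
      exact k4
    obtain ⟨k7, k8, k9⟩ := (isSimple_append m'' y [z]).1 k6
    have k10 : y ≠ z := k8.1
    have hb : arcSet (b :: (m' ++ [z])) = arcSet m ∪ segment ℝ y z := by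
      have e1 : m ++ [z] = b :: (m' ++ [z]) := by rw [h1]; rfl
      rw [← e1, harc2, hyz]
    have ha : a ∉ arcSet m ∪ segment ℝ y z := by
      intro ha
      rw [← hb] at ha
      exact k2 (k3 ⟨left_mem_segment ℝ a b, ha⟩)
    refine ⟨g1, ⟨g2, k2, ?_⟩, ⟨k10, g2, ?_⟩, ?_⟩
    · rintro x ⟨hx1, hx2⟩
      have hx3 : x ∈ ({z, a} : Set P3) := by
        apply g3
        refine ⟨hx1, ?_⟩
        rw [harc]
        exact Or.inl hx2
      rcases hx3 with hx3 | hx3
      · exfalso
        have hzb : z = b := by
          apply k3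
          refine ⟨hx3 ▸ hx2, ?_⟩
          rw [hb]
          exact Or.inr (right_mem_segment ℝ y z)
        exact k5 hzb.symm
      · exact hx3
    · rintro x ⟨hx1, hx2⟩
      have hx3 : x ∈ ({z, a} : Set P3) := by
        apply g3
        refine ⟨hx2, ?_⟩
        rw [harc]
        exact Or.inr (Or.inr hx1)
      rcases hx3 with hx3 | hx3
      · exact hx3
      · exfalso
        have hx4 : x = a := hx3
        rw [hx4] at hx1
        exact ha (Or.inr hx1)
    · rw [Set.disjoint_left]
      intro x hx1 hx2
      have hx3 : x ∈ ({z, a} : Set P3) := by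
        apply g3
        refine ⟨hx1, ?_⟩
        rw [harc]
        exact Or.inr (Or.inl hx2)
      rcases hx3 with hx3 | hx3
      · have hx4 : x = z := hx3
        rw [hx4] at hx2
        have hzy : z = y := by
          apply k9
          refine ⟨?_, ?_⟩
          · rw [← h2]
            exact hx2
          · rw [hyz]
            exact right_mem_segment ℝ y z
        exact k10 hzy.symm
      · have hx4 : x = a := hx3
        rw [hx4] at hx2
        exact ha (Or.inl hx2)
  · rintro ⟨g1, ⟨g2, g3, g4⟩, ⟨g5, g6, g7⟩, g8⟩
    refine ⟨g1, g2, ?_⟩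
    rintro x ⟨hx1, hx2⟩
    rw [harc] at hx2
    rcases hx2 with hx2 | hx2 | hx2
    · exact Or.inr (g4 ⟨hx1, hx2⟩)
    · exact absurd hx2 (Set.disjoint_left.1 g8 hx1)
    · exact Or.inl (g7 ⟨hx2, hx1⟩)

theorem ID_two (A B : P3) : ¬ SimpleC [A, B] := by
  intro h
  obtain ⟨h1, h2, h3⟩ := (ID_simpleC_iff A B []).1 h
  have hm : midpoint ℝ B A ∈ segment ℝ B A := midpoint_mem_segment B A
  have hm2 : midpoint ℝ B A ∈ arcSet (A :: ([] ++ [B])) := by
    refine Or.inl ?_
    rw [segment_symm]
    exact hm
  have h4 := h3 ⟨hm, hm2⟩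
  rcases h4 with h4 | h4
  · rw [midpoint_eq_left_iff] at h4
    exact h2 h4
  · have h5 : midpoint ℝ B A = A := h4
    rw [midpoint_eq_right_iff] at h5
    exact h2 h5

theorem simpleC_open {ι : Type*} (L : List ι) : IsOpen {F : ι → P3 | SimpleC (L.map F)} := by
  have hemp : (∀ F : ι → P3, ¬ SimpleC (L.map F)) → IsOpen {F : ι → P3 | SimpleC (L.map F)} := by
    intro h
    have h' : {F : ι → P3 | SimpleC (L.map F)} = ∅ := by
      ext F
      simp [h F]
    rw [h']
    exact isOpen_empty
  cases L with
  | nil =>
    apply hemp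
    rintro F ⟨a, m, z, h, _⟩
    simp at h
  | cons i L =>
    rcases List.eq_nil_or_concat L with h | ⟨M, w, h⟩
    · apply hemp
      rintro F ⟨a, m, z, h', _⟩
      subst h
      have := congrArg List.length h'
      simp at this
    · rw [List.concat_eq_append] at h
      subst h
      cases M with
      | nil =>
        apply hemp
        intro F
        exact ID_two (F i) (F w)
      | cons b M' =>
        rcases List.eq_nil_or_concat (b :: M') with h | ⟨M'', y, h⟩
        · exact absurd h (List.cons_ne_nil b M')
        · rw [List.concat_eq_append] at h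
          have hset : {F : ι → P3 | SimpleC ((i :: ((b :: M') ++ [w])).map F)} =
              {F : ι → P3 | IsSimple ((i :: ((b :: M') ++ [w])).map F)} ∩
              ({F : ι → P3 | Corner (F w) (F i) (F b)} ∩
              ({F : ι → P3 | Corner (F y) (F w) (F i)} ∩
              {F : ι → P3 | Disjoint (segment ℝ (F w) (F i)) (arcSet ((b :: M').map F))})) := by
            ext F
            have e1 : (b :: M').map F = F b :: M'.map F := rfl
            have e2 : (b :: M').map F = M''.map F ++ [F y] := by
              rw [h, List.map_append]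
              rfl
            have e3 : (i :: ((b :: M') ++ [w])).map F = F i :: ((b :: M').map F ++ [F w]) := by
              rw [List.map_cons, List.map_append]
              rfl
            have key := simpleC_iff (F i) (F b) (F y) (F w) ((b :: M').map F) _ _ e1 e2
            show SimpleC ((i :: ((b :: M') ++ [w])).map F) ↔
              IsSimple ((i :: ((b :: M') ++ [w])).map F) ∧ Corner (F w) (F i) (F b) ∧
                Corner (F y) (F w) (F i) ∧
                Disjoint (segment ℝ (F w) (F i)) (arcSet ((b :: M').map F))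
            rw [e3]
            exact key
          rw [hset]
          exact (isSimple_open _).inter ((ID_corner_open w i b).inter
            ((ID_corner_open y w i).inter (arcDisj_open w i (b :: M'))))

end H97G
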