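import Pool.Agent.Lib.H97G.IB

/-!
# H97G, chunk IE: moving one vertex inside a convex open set

Write `x :: l = x :: b :: (r ++ [a])` (`SimpleC` gives at least three vertices). `generic`: an open nonempty set is not contained in the
union of two proper affine subspaces spanned by three points (a proper affine subspace of `P3` has empty interior /
measure zero; the span of three points has dimension at most two).
`local_gen`: `n ∈ U` not in the affine span of `a, x, b`. Hull facts: `hull {x, n, b}` is the union of the segments `[w, b]` with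
`w ∈ [x, n] ⊆ U`, so by `hs w` it meets `arcSet (b :: (r ++ [a]))` only in `b`; if
`α x + β n + γ b = (1 - t) a + t x` with `β ≠ 0` then `n` is in the span; so `hull {x, n, b}` meets `[a, x]` only in points of
`[x, b] ∩ [a, x] = {x}`. `hull {a, x, n}` is the union of `[a, w]`, `w ∈ [x, n]`: meets `arcSet (b :: (r ++ [a]))` only in `a`; a point
`α a + β x + γ n = (1 - t) n + t b`, `t > 0`: `γ = 1 - t` (otherwise `n` is in the span) and `b = (α a + β x) / t` is in
`[a, x]`: impossible (`SimpleC (x :: l)`).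
Forward: `Unknot (x :: b :: (r ++ [a]))`, `ins x n b (r ++ [a])`, rotate to `a :: x :: n :: b :: r`, `del a x n (b :: r)`, rotate.
Backward: `Unknot (a :: n :: b :: r)`, `ins a x n (b :: r)`, rotate to `x :: n :: b :: (r ++ [a])`, `del x n b (r ++ [a])`.
`local_move`: choose `n` generic for `a, x, b` and for `a, y, b`; `x → n → y`.
-/

namespace H97G

open H46K

theorem IE_span (a x b : P3) (u v w : ℝ) (h : u + v + w = 1) :
    u • a + v • x + w • b ∈ affineSpan ℝ ({a, x, b} : Set P3) := by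
  have ha : a ∈ affineSpan ℝ ({a, x, b} : Set P3) := mem_affineSpan ℝ (by simp)
  have hx : x ∈ affineSpan ℝ ({a, x, b} : Set P3) := mem_affineSpan ℝ (by simp)
  have hb : b ∈ affineSpan ℝ ({a, x, b} : Set P3) := mem_affineSpan ℝ (by simp)
  have h1 := AffineSubspace.vsub_mem_direction hx ha
  have h2 := AffineSubspace.vsub_mem_direction hb ha
  have h3 := Submodule.add_mem _ (Submodule.smul_mem _ v h1) (Submodule.smul_mem _ w h2)
  have h4 := AffineSubspace.vadd_mem_of_mem_direction h3 ha
  have h5 : u • a + v • x + w • b = (v • (x -ᵥ a) + w • (b -ᵥ a)) +ᵥ a := by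
    have hu : u = 1 - v - w := by linarith
    rw [hu, vadd_eq_add, vsub_eq_sub, vsub_eq_sub]
    module
  rw [h5]
  exact h4

theorem IE_span' {a x b n : P3} {β u v w : ℝ} (hβ : β ≠ 0) (h : β • n = u • a + v • x + w • b)
    (hs : u + v + w = β) : n ∈ affineSpan ℝ ({a, x, b} : Set P3) := by
  have h1 : n = (β⁻¹ * u) • a + (β⁻¹ * v) • x + (β⁻¹ * w) • b := by
    rw [← inv_smul_smul₀ hβ n, h]
    module
  rw [h1]
  apply IE_span
  rw [← mul_add, ← mul_add, hs, inv_mul_cancel₀ hβ]

theorem IE_hull {p q s w : P3} (h : w ∈ convexHull ℝ ({p, q, s} : Set P3)) :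
    ∃ α β γ : ℝ, 0 ≤ α ∧ 0 ≤ β ∧ 0 ≤ γ ∧ α + β + γ = 1 ∧ w = α • p + β • q + γ • s := by
  rw [convexHull_insert ⟨q, by simp⟩, convexHull_pair, mem_convexJoin] at h
  obtain ⟨p', hp', z, hz, hw⟩ := h
  rw [Set.mem_singleton_iff] at hp'
  subst hp'
  obtain ⟨a1, b1, ha, hb, hab, rfl⟩ := hz
  obtain ⟨a2, b2, ha2, hb2, hab2, rfl⟩ := hw
  refine ⟨a2, b2 * a1, b2 * b1, ha2, mul_nonneg hb2 ha, mul_nonneg hb2 hb, ?_, ?_⟩
  · rw [add_assoc, ← mul_add, hab, mul_one, hab2]
  · module

theorem IE_ne_top (a b c : P3) : affineSpan ℝ ({a, b, c} : Set P3) ≠ ⊤ := by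
  intro h
  have h1 : vectorSpan ℝ ({a, b, c} : Set P3) = ⊤ := by
    rw [← direction_affineSpan, h, AffineSubspace.direction_top]
  have h2 := coplanar_triple ℝ a b c
  unfold Coplanar at h2
  rw [h1, rank_top] at h2
  have h3 : Module.rank ℝ P3 = 3 := by
    rw [← Module.finrank_eq_rank]
    simp
  rw [h3] at h2
  norm_num at h2

theorem generic (U : Set P3) (hU : IsOpen U) (hne : U.Nonempty) (a b c a' b' c' : P3) :
    ∃ n ∈ U, n ∉ affineSpan ℝ ({a, b, c} : Set P3) ∧ n ∉ affineSpan ℝ ({a', b', c'} : Set P3) := by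
  by_contra hcon
  push Not at hcon
  have hsub : U ⊆ (affineSpan ℝ ({a, b, c} : Set P3) : Set P3) ∪
      (affineSpan ℝ ({a', b', c'} : Set P3) : Set P3) := by
    intro n hn
    by_cases h : n ∈ affineSpan ℝ ({a, b, c} : Set P3)
    · exact Or.inl h
    · exact Or.inr (hcon n hn h)
  have h1 := MeasureTheory.Measure.addHaar_affineSubspace (MeasureTheory.Measure.addHaar : MeasureTheory.Measure P3)
    _ (IE_ne_top a b c)
  have h2 := MeasureTheory.Measure.addHaar_affineSubspace (MeasureTheory.Measure.addHaar : MeasureTheory.Measure P3)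
    _ (IE_ne_top a' b' c')
  have h3 := MeasureTheory.measure_mono_null hsub (MeasureTheory.measure_union_null h1 h2)
  exact (hU.measure_pos MeasureTheory.Measure.addHaar hne).ne' h3

/-- what `SimpleC (z :: b :: (r ++ [a]))` says -/
theorem IE_simple {z a b : P3} {r : List P3} (h : SimpleC (z :: b :: (r ++ [a]))) :
    z ≠ b ∧ a ≠ z ∧ a ≠ b ∧ segment ℝ z b ∩ arcSet (b :: (r ++ [a])) ⊆ {b} ∧
      segment ℝ a z ∩ arcSet (b :: (r ++ [a])) ⊆ {a} ∧
      segment ℝ a z ∩ segment ℝ z b ⊆ {z} := by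
  obtain ⟨a', m, z', h1, h2, h3, h4⟩ := h
  have e1 : z = a' ∧ (b :: r) ++ [a] = m ++ [z'] := by
    rw [List.cons.injEq] at h1
    exact ⟨h1.1, by rw [← h1.2]; rfl⟩
  obtain ⟨rfl, e2⟩ := e1
  obtain ⟨-, e3⟩ := List.append_inj' e2 rfl
  rw [List.cons.injEq] at e3
  obtain ⟨rfl, -⟩ := e3
  obtain ⟨g1, g2, g3⟩ := h2
  have hab : b ≠ a := ends_ne g3
  have harc : arcSet (z :: b :: (r ++ [a])) = segment ℝ z b ∪ arcSet (b :: (r ++ [a])) := rfl
  rw [harc] at h4
  have hz : z ∉ arcSet (b :: (r ++ [a])) := by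
    intro hz
    exact g1 (g2 ⟨left_mem_segment ℝ z b, hz⟩)
  have ha : a ∈ arcSet (b :: (r ++ [a])) := mem_arcSet (by simp)
  refine ⟨g1, h3, hab.symm, g2, ?_, ?_⟩
  · rintro w ⟨w1, w2⟩
    rcases h4 ⟨w1, Or.inr w2⟩ with h5 | h5
    · exact h5
    · rw [Set.mem_singleton_iff] at h5
      rw [h5] at w2
      exact absurd w2 hz
  · rintro w ⟨w1, w2⟩
    rcases h4 ⟨w1, Or.inl w2⟩ with h5 | h5
    · rw [h5] at w2
      exact absurd (g2 ⟨w2, ha⟩ : a = b) hab.symm
    · exact h5

/-- a point of the triangle over a segment in `U` -/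
theorem IE_tri (U : Set P3) (hc : Convex ℝ U) {x n b : P3} (hx : x ∈ U) (hn : n ∈ U) {α β γ : ℝ}
    (hα : 0 ≤ α) (hβ : 0 ≤ β) (hγ : 0 ≤ γ) (hs : α + β + γ = 1) :
    α • x + β • n + γ • b = b ∨ ∃ z ∈ U, α • x + β • n + γ • b ∈ segment ℝ z b := by
  rcases (add_nonneg hα hβ).eq_or_lt with h | h
  · left
    have h1 : α = 0 := by linarith
    have h2 : β = 0 := by linarith
    have h3 : γ = 1 := by linarith
    rw [h1, h2, h3]
    module
  · right
    refine ⟨(α / (α + β)) • x + (β / (α + β)) • n, hc hx hn (by positivity) (by positivity) ?_,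
      α + β, γ, h.le, hγ, hs, ?_⟩
    · field_simp
    · rw [smul_add, smul_smul, smul_smul, mul_div_cancel₀ _ h.ne', mul_div_cancel₀ _ h.ne']

/-- the four elementary moves -/
theorem IE_cond (U : Set P3) (hc : Convex ℝ U) (x n a b : P3) (r : List P3)
    (hx : x ∈ U) (hn : n ∈ U) (hs : ∀ z ∈ U, SimpleC (z :: b :: (r ++ [a])))
    (hg : n ∉ affineSpan ℝ ({a, x, b} : Set P3)) :
    x ≠ n ∧ n ≠ b ∧ a ≠ x ∧ segment ℝ x n ∩ segment ℝ n b ⊆ {n} ∧
      convexHull ℝ {x, n, b} ∩ arcSet (b :: ((r ++ [a]) ++ [x])) ⊆ {x, b} ∧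
      segment ℝ a x ∩ segment ℝ x n ⊆ {x} ∧
      convexHull ℝ {a, x, n} ∩ arcSet (n :: ((b :: r) ++ [a])) ⊆ {a, n} := by
  obtain ⟨x1, x2, x3, x4, x5, x6⟩ := IE_simple (hs x hx)
  obtain ⟨n1, n2, -, n4, n5, n6⟩ := IE_simple (hs n hn)
  have hxn : x ≠ n := by
    rintro rfl
    exact hg (mem_affineSpan ℝ (by simp))
  have hbΓ : b ∈ arcSet (b :: (r ++ [a])) := mem_arcSet (by simp)
  refine ⟨hxn, n1, x2, ?_, ?_, ?_, ?_⟩
  · rintro w ⟨⟨s1, s2, hs1, hs2, hs12, hw1⟩, ⟨t1, t2, ht1, ht2, ht12, hw2⟩⟩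
    rw [Set.mem_singleton_iff]
    rcases ht2.eq_or_lt with h | h
    · rw [← hw2, ← h]
      have : t1 = 1 := by linarith
      rw [this]
      module
    · exfalso
      by_cases h1 : s2 - t1 = 0
      · have h2 : s1 = t2 := by linarith
        have h3 : t2 • x = t2 • b := by
          have h4 : s2 = t1 := by linarith
          rw [h2, h4] at hw1
          have h5 := hw1.trans hw2.symm
          linear_combination (norm := module) h5
        exact x1 (smul_right_injective P3 h.ne' h3)
      · apply hg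
        refine IE_span' (β := s2 - t1) (u := 0) (v := -s1) (w := t2) h1 ?_ (by linarith)
        have h5 := hw1.trans hw2.symm
        linear_combination (norm := module) h5
  · rintro w ⟨hw1, hw2⟩
    obtain ⟨α, β, γ, hα, hβ, hγ, hsum, rfl⟩ := IE_hull hw1
    have harc : arcSet (b :: ((r ++ [a]) ++ [x])) = arcSet (b :: (r ++ [a])) ∪ segment ℝ a x ∪ {x} := by
      have h1 := arcSet_append (b :: r) a [x]
      have h2 : b :: ((r ++ [a]) ++ [x]) = (b :: r) ++ a :: [x] := by simp
      rw [h2, h1, Set.union_assoc]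
      rfl
    rw [harc] at hw2
    rcases hw2 with (hw2 | hw2) | hw2
    · right
      rcases IE_tri U hc (b := b) hx hn hα hβ hγ hsum with h | ⟨z, hz, h⟩
      · exact h
      · exact (IE_simple (hs z hz)).2.2.2.1 ⟨h, hw2⟩
    · by_cases hβ0 : β = 0
      · left
        apply x6
        refine ⟨hw2, α, γ, hα, hγ, by linarith, ?_⟩
        rw [hβ0]
        module
      · exfalso
        obtain ⟨t1, t2, ht1, ht2, ht12, hw⟩ := hw2
        apply hg
        refine IE_span' (β := β) (u := t1) (v := t2 - α) (w := -γ) hβ0 ?_ (by linarith)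
        linear_combination (norm := module) -hw
    · left
      exact hw2
  · rintro w ⟨⟨s1, s2, hs1, hs2, hs12, hw1⟩, ⟨t1, t2, ht1, ht2, ht12, hw2⟩⟩
    rw [Set.mem_singleton_iff]
    rcases ht2.eq_or_lt with h | h
    · rw [← hw2, ← h]
      have : t1 = 1 := by linarith
      rw [this]
      module
    · exfalso
      apply hg
      refine IE_span' (β := t2) (u := s1) (v := s2 - t1) (w := 0) h.ne' ?_ (by linarith)
      have h5 := hw1.trans hw2.symm
      linear_combination (norm := module) -h5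
  · rintro w ⟨hw1, hw2⟩
    obtain ⟨α, β, γ, hα, hβ, hγ, hsum, rfl⟩ := IE_hull hw1
    have harc : arcSet (n :: ((b :: r) ++ [a])) = segment ℝ n b ∪ arcSet (b :: (r ++ [a])) := rfl
    rw [harc] at hw2
    rcases hw2 with hw2 | hw2
    · obtain ⟨t1, t2, ht1, ht2, ht12, hw⟩ := hw2
      by_cases h1 : γ - t1 = 0
      · rcases ht2.eq_or_lt with h | h
        · right
          rw [Set.mem_singleton_iff, ← hw, ← h]
          have : t1 = 1 := by linarith
          rw [this]
          module
        · exfalso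
          have hbm : b ∈ segment ℝ a x := by
            refine ⟨α / t2, β / t2, by positivity, by positivity, ?_, ?_⟩
            · rw [← add_div, div_eq_one_iff_eq h.ne']
              linarith
            · have h2 : t2 • b = α • a + β • x := by
                have h3 : γ = t1 := by linarith
                rw [h3] at hw
                linear_combination (norm := module) hw
              rw [← inv_smul_smul₀ h.ne' b, h2]
              module
          exact x3 (x5 ⟨hbm, hbΓ⟩ : b = a).symm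
      · exfalso
        apply hg
        refine IE_span' (β := γ - t1) (u := -α) (v := -β) (w := t2) h1 ?_ (by linarith)
        linear_combination (norm := module) -hw
    · left
      have e : α • a + β • x + γ • n = β • x + γ • n + α • a := by module
      rcases IE_tri U hc (b := a) hx hn hβ hγ hα (by linarith) with h | ⟨z, hz, h⟩
      · rw [e, h]
      · rw [e] at hw2 ⊢
        rw [segment_symm] at h
        exact (IE_simple (hs z hz)).2.2.2.2.1 ⟨h, hw2⟩

theorem local_gen (U : Set P3) (hc : Convex ℝ U) (x n a b : P3) (r : List P3)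
    (hx : x ∈ U) (hn : n ∈ U) (hs : ∀ z ∈ U, SimpleC (z :: b :: (r ++ [a])))
    (hg : n ∉ affineSpan ℝ ({a, x, b} : Set P3)) :
    Unknot (x :: b :: (r ++ [a])) ↔ Unknot (n :: b :: (r ++ [a])) := by
  obtain ⟨h1, h2, h3, h4, h5, h6, h7⟩ := IE_cond U hc x n a b r hx hn hs hg
  have r1 : List.IsRotated (x :: n :: b :: (r ++ [a])) (a :: x :: n :: b :: r) := by
    have := List.isRotated_append (l := [a]) (l' := x :: n :: b :: r)
    exact this.symm
  have r2 : List.IsRotated (n :: b :: (r ++ [a])) (a :: n :: b :: r) := by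
    have := List.isRotated_append (l := [a]) (l' := n :: b :: r)
    exact this.symm
  constructor
  · intro h
    have k1 : Unknot (x :: n :: b :: (r ++ [a])) := Unknot.ins x n b (r ++ [a]) h1 h2 h4 h5 h
    have k2 := Unknot.rot _ _ r1 k1
    have k3 : Unknot (a :: n :: b :: r) := Unknot.del a x n (b :: r) h3 h1 h6 h7 k2
    exact Unknot.rot _ _ r2.symm k3
  · intro h
    have k2 := Unknot.rot _ _ r2 h
    have k3 : Unknot (a :: x :: n :: b :: r) := Unknot.ins a x n (b :: r) h3 h1 h6 h7 k2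
    have k1 := Unknot.rot _ _ r1.symm k3
    exact Unknot.del x n b (r ++ [a]) h1 h2 h4 h5 k1

/-- moving one vertex inside an open convex set `U` -/
theorem local_move (U : Set P3) (hU : IsOpen U) (hc : Convex ℝ U) (x y : P3) (l : List P3)
    (hx : x ∈ U) (hy : y ∈ U) (hs : ∀ z ∈ U, SimpleC (z :: l)) (h : Unknot (x :: l)) :
    Unknot (y :: l) := by
  obtain ⟨a', m, z', e1, e2, e3, e4⟩ := hs x hx
  rw [List.cons.injEq] at e1
  obtain ⟨rfl, rfl⟩ := e1
  cases m with
  | nil =>
    exfalso
    have h1 : midpoint ℝ z' x ∈ segment ℝ z' x := midpoint_mem_segment z' x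
    have h2 : midpoint ℝ z' x ∈ arcSet (x :: ([] ++ [z'])) := by
      left
      rw [segment_symm]
      exact h1
    rcases e4 ⟨h1, h2⟩ with h3 | h3
    · rw [midpoint_eq_left_iff] at h3
      exact e3 h3
    · rw [Set.mem_singleton_iff, midpoint_eq_right_iff] at h3
      exact e3 h3
  | cons b r =>
    obtain ⟨n, hn, hn1, hn2⟩ := generic U hU ⟨x, hx⟩ z' x b z' y b
    rw [List.cons_append] at h hs ⊢
    exact (local_gen U hc y n z' b r hy hn hs hn2).2 ((local_gen U hc x n z' b r hx hn hs hn1).1 h)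

end H97G
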