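import Pool.Agent.Lib.H97G.ID
import Pool.Agent.Lib.H97G.IE

/-!
# H97G, chunk IF: `Unknot` is locally constant on simple closed polygons

By `simpleC_open` (`L = List.finRange n`, `List.ofFn F = (List.finRange n).map F`) there is a ball (sup metric of `Fin n → P3`) around `F`
of radius `ε` with `SimpleC` everywhere. `one_coord`: `G` in the ball, `x ∈ ball (F i) ε`: rotate `List.ofFn G` so that
`G i` comes first: `(List.ofFn G).rotate i = G i :: tail`, with the same `tail` for `Function.update G i z` (all `z`);
`local_move` with `U = ball (F i) ε` (convex open). Then change the coordinates one after another: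
`G_k j = if j < k then F'' j else F' j`.
-/

namespace H97G

open H46K

theorem IF_rot (l : List P3) (i : ℕ) (hi : i < l.length) (z : P3) :
    (l.set i z).rotate i = z :: (l.drop (i + 1) ++ l.take i) := by
  rw [List.rotate_eq_drop_append_take (by rw [List.length_set]; exact hi.le),
    List.take_set_of_le (le_refl i), List.drop_eq_getElem_cons (by rw [List.length_set]; exact hi),
    List.getElem_set_self, List.drop_set_of_lt (Nat.lt_succ_self i)]
  rfl

theorem IF_upd {n : ℕ} (G : Fin n → P3) (i : Fin n) (z : P3) :
    List.ofFn (Function.update G i z) = (List.ofFn G).set i z := by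
  refine List.ext_getElem (by simp) fun j h1 h2 => ?_
  rw [List.getElem_ofFn, List.getElem_set, List.getElem_ofFn]
  by_cases h : (i : ℕ) = j
  · rw [if_pos h]
    have : (⟨j, by simpa using h1⟩ : Fin n) = i := Fin.ext h.symm
    rw [this, Function.update_self]
  · rw [if_neg h, Function.update_of_ne]
    intro h3
    exact h (congrArg Fin.val h3).symm

theorem one_coord {n : ℕ} (F G : Fin n → P3) (ε : ℝ)
    (hs : ∀ G' : Fin n → P3, (∀ j, G' j ∈ Metric.ball (F j) ε) → SimpleC (List.ofFn G'))
    (hG : ∀ j, G j ∈ Metric.ball (F j) ε) (i : Fin n) (x : P3) (hx : x ∈ Metric.ball (F i) ε)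
    (h : Unknot (List.ofFn G)) : Unknot (List.ofFn (Function.update G i x)) := by
  have hlen : (i : ℕ) < (List.ofFn G).length := by rw [List.length_ofFn]; exact i.2
  let tl : List P3 := (List.ofFn G).drop (i + 1) ++ (List.ofFn G).take i
  have hrot : ∀ z : P3, (List.ofFn (Function.update G i z)).rotate i = z :: tl := fun z => by
    rw [IF_upd]
    exact IF_rot _ _ hlen z
  have hirot : ∀ z : P3, List.ofFn (Function.update G i z) ~r (z :: tl) := fun z =>
    ⟨i, hrot z⟩
  have h1 : Unknot (G i :: tl) := by
    refine Unknot.rot _ _ ?_ h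
    have := hirot (G i)
    rwa [Function.update_eq_self] at this
  have h2 : Unknot (x :: tl) := by
    refine local_move (Metric.ball (F i) ε) Metric.isOpen_ball (convex_ball _ _) (G i) x tl (hG i)
      hx (fun z hz => ?_) h1
    refine simpleC_rot (hirot z) (hs _ fun j => ?_)
    by_cases hj : j = i
    · subst hj
      rw [Function.update_self]
      exact hz
    · rw [Function.update_of_ne hj]
      exact hG j
  exact Unknot.rot _ _ (hirot x).symm h2

theorem loc_const {n : ℕ} (F : Fin n → P3) (hF : SimpleC (List.ofFn F)) :
    ∃ ε : ℝ, 0 < ε ∧ ∀ F' F'' : Fin n → P3, (∀ j, F' j ∈ Metric.ball (F j) ε) →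
      (∀ j, F'' j ∈ Metric.ball (F j) ε) → Unknot (List.ofFn F') → Unknot (List.ofFn F'') := by
  have hopen := simpleC_open (List.finRange n)
  have hmem : F ∈ {F : Fin n → P3 | SimpleC ((List.finRange n).map F)} := by
    change SimpleC ((List.finRange n).map F)
    rw [← List.ofFn_eq_map]
    exact hF
  obtain ⟨ε, hε, hball⟩ := Metric.isOpen_iff.1 hopen F hmem
  have hs : ∀ G' : Fin n → P3, (∀ j, G' j ∈ Metric.ball (F j) ε) → SimpleC (List.ofFn G') := by
    intro G' hG'
    have h1 : G' ∈ Metric.ball F ε := by
      rw [Metric.mem_ball, dist_pi_lt_iff hε]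
      exact fun j => hG' j
    have h2 := hball h1
    change SimpleC ((List.finRange n).map G') at h2
    rw [← List.ofFn_eq_map] at h2
    exact h2
  refine ⟨ε, hε, fun F' F'' hF' hF'' h => ?_⟩
  have key : ∀ k : ℕ, k ≤ n →
      Unknot (List.ofFn fun j : Fin n => if (j : ℕ) < k then F'' j else F' j) := by
    intro k
    induction k with
    | zero =>
      intro _
      simpa using h
    | succ k ih =>
      intro hk
      have h1 := ih (by omega)
      have h2 := one_coord F (fun j : Fin n => if (j : ℕ) < k then F'' j else F' j) ε hs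
        (fun j => by
          by_cases hj : (j : ℕ) < k
          · simp only [if_pos hj]; exact hF'' j
          · simp only [if_neg hj]; exact hF' j) ⟨k, hk⟩ (F'' ⟨k, hk⟩) (hF'' _) h1
      have h3 : Function.update (fun j : Fin n => if (j : ℕ) < k then F'' j else F' j) ⟨k, hk⟩
          (F'' ⟨k, hk⟩) = fun j : Fin n => if (j : ℕ) < k + 1 then F'' j else F' j := by
        funext j
        by_cases hj : j = ⟨k, hk⟩
        · subst hj
          rw [Function.update_self, if_pos (Nat.lt_succ_self k)]
        · rw [Function.update_of_ne hj]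
          have hjk : (j : ℕ) ≠ k := fun h => hj (Fin.ext h)
          by_cases hlt : (j : ℕ) < k
          · rw [if_pos hlt, if_pos (by omega)]
          · rw [if_neg hlt, if_neg (by omega)]
      rwa [h3] at h2
  have h4 := key n le_rfl
  have h5 : (fun j : Fin n => if (j : ℕ) < n then F'' j else F' j) = F'' := by
    funext j
    rw [if_pos j.2]
  rwa [h5] at h4

end H97G
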