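import Pool.Agent.Lib.H97G.D0

/-!
# H97G: the interface theorems of the modules (skeleton; each module proves its own ones in its own files)
-/

namespace H97G

open H46K

variable {V : Type*}

/-! ## Module I (isotopies of polygons; files I*.lean) -/

theorem unknot_simpleC {l : List P3} (h : Unknot l) : SimpleC l := sorry

theorem simpleC_rot {l l' : List P3} (h : l ~r l') (hl : SimpleC l) : SimpleC l' := sorry

theorem unknot_reverse {l : List P3} (h : Unknot l) : Unknot l.reverse := sorry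

theorem unknot_map {l : List P3} (φ : P3 ≃ᵃ[ℝ] P3) (h : Unknot l) : Unknot (l.map φ) := sorry

/-- closed polygons composed of two arcs -/
theorem simpleC_two (p q : P3) (β ρ : List P3) : SimpleC (p :: (β ++ q :: ρ)) ↔
    IsSimple (p :: (β ++ [q])) ∧ IsSimple (q :: (ρ ++ [p])) ∧ p ≠ q ∧
      arcSet (p :: (β ++ [q])) ∩ arcSet (q :: (ρ ++ [p])) ⊆ {p, q} := sorry

/-- moving one vertex inside an open convex set `U` -/
theorem local_move (U : Set P3) (hU : IsOpen U) (hc : Convex ℝ U) (x y : P3) (l : List P3)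
    (hx : x ∈ U) (hy : y ∈ U) (hs : ∀ z ∈ U, SimpleC (z :: l)) (h : Unknot (x :: l)) :
    Unknot (y :: l) := sorry

/-- isotopies of polygons -/
theorem iso (fs : List (ℝ → P3)) (hc : ∀ g ∈ fs, Continuous g)
    (hs : ∀ t, 0 ≤ t → t ≤ 1 → SimpleC (fs.map fun g => g t)) (h0 : Unknot (fs.map fun g => g 0)) :
    Unknot (fs.map fun g => g 1) := sorry

/-- add a point on a side -/
theorem sub_ins {a b v : P3} {l : List P3} (hv : v ∈ openSegment ℝ a b) (h : Unknot (a :: b :: l)) :
    Unknot (a :: v :: b :: l) := sorry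

/-- delete a point on a side -/
theorem sub_del {a b v : P3} {l : List P3} (hv : v ∈ openSegment ℝ a b)
    (h : Unknot (a :: v :: b :: l)) : Unknot (a :: b :: l) := sorry

/-! ## Module S (connected sums; files S*.lean) -/

theorem connSum (rest mids : List P3) (h1 : Unknot (pO :: pE :: rest))
    (h2 : Unknot (pO :: (mids ++ [pE]))) (hr : ∀ X ∈ rest, RegN X) (hm : ∀ X ∈ mids, Reg X) :
    ∃ r0 : ℝ, 0 < r0 ∧ ∀ r, 0 < r → r ≤ r0 →
      Unknot (pO :: (mids.map (thin r) ++ pE :: rest)) := sorry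

/-! ## Module V (a vertex absorbs the first bend of one of its edges; files V*.lean) -/

/-- the point after the first vertex of the arc from `u` to `y` -/
def nx {G : SimpleGraph V} (f : SpatialGraph G) (u y : V) : P3 := (f.mid u y ++ [f.pt y]).headI

theorem absorb [Finite V] (G : SimpleGraph V) (f : SpatialGraph G) (hf : KL f) (u v : V)
    (huv : G.Adj u v) (b : P3) (M : List P3) (hb : f.mid u v = b :: M) :
    ∃ f' : SpatialGraph G, KL f' ∧ f'.pt u = b ∧ (∀ w, w ≠ u → f'.pt w = f.pt w) ∧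
      f'.mid u v = M ∧ (∀ x y, G.Adj x y → x ≠ u → y ≠ u → f'.mid x y = f.mid x y) ∧
      ∀ y, G.Adj u y → y ≠ v → ∃ m ∈ openSegment ℝ (f.pt u) (nx f u y),
        f'.mid u y = m :: f.mid u y := sorry

/-! ## Module N (normal form; files N*.lean) -/

theorem nf [Finite V] (G : SimpleGraph V) (u v : V) (huv : G.Adj u v)
    (h : ∃ f : SpatialGraph G, KL f) :
    ∃ f : SpatialGraph G, KL f ∧ f.pt u = pO ∧ f.pt v = pE ∧ f.mid u v = [] ∧
      (∀ w, w ≠ u → w ≠ v → Reg (f.pt w)) ∧ ∀ x y, G.Adj x y → ∀ X ∈ f.mid x y, Reg X := sorry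

/-! ## Module G (gluing along an edge; files G*.lean) -/

theorem kl_mono {G G' : SimpleGraph V} (h : G ≤ G') (hf : ∃ f : SpatialGraph G', KL f) :
    ∃ f : SpatialGraph G, KL f := sorry

theorem glue [Fintype V] [DecidableEq V] (G : SimpleGraph V) (A B : Set V) (u v : V)
    (huv : u ≠ v) (huA : u ∈ A) (huB : u ∈ B) (hvA : v ∈ A) (hvB : v ∈ B)
    (hAB : ∀ w, w ∈ A ∨ w ∈ B) (hI : ∀ w, w ∈ A → w ∈ B → w = u ∨ w = v)
    (hE : ∀ a b, G.Adj a b → (a ∈ A ∧ b ∈ A) ∨ (a ∈ B ∧ b ∈ B))
    (hA : ∃ f : SpatialGraph (addE (restr G A) u v), KL f)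
    (hB : ∃ f : SpatialGraph (addE (restr G B) u v), KL f) :
    ∃ f : SpatialGraph (addE G u v), KL f := sorry

/-! ## Module P (isolated and pendant vertices; files P*.lean) -/

theorem isol [Finite V] (G : SimpleGraph V) (A : Set V) (hA : ∀ a b, G.Adj a b → a ∈ A ∧ b ∈ A)
    (h : ∃ f : SpatialGraph (G.induce A), KL f) : ∃ f : SpatialGraph G, KL f := sorry

theorem pend [Finite V] (G : SimpleGraph V) (u v : V) (huv : G.Adj u v)
    (hv : ∀ w, G.Adj v w → w = u) (h : ∃ f : SpatialGraph (restr G {v}ᶜ), KL f) :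
    ∃ f : SpatialGraph G, KL f := sorry

/-! ## Module R (restriction of embeddings and odd links; files R*.lean) -/

theorem restrict_ind (G : SimpleGraph V) (f : SpatialGraph G) (d : P3) (hd : Generic f d)
    (h1 : AtMostOne f d) (A : Set V) :
    ∃ g : SpatialGraph ((restr G A).induce A), Generic g d ∧ AtMostOne g d := sorry

theorem restrict_path (G : SimpleGraph V) (f : SpatialGraph G) (d : P3) (hd : Generic f d)
    (h1 : AtMostOne f d) (A : Set V) (u v : V) (hu : u ∈ A) (hv : v ∈ A) (huv : u ≠ v)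
    (hn : ¬ G.Adj u v) (Q : G.Walk u v) (hQ : Q.IsPath)
    (hQA : ∀ w ∈ Q.support, w ∈ A → w = u ∨ w = v) :
    ∃ g : SpatialGraph ((addE (restr G A) u v).induce A), Generic g d ∧ AtMostOne g d := sorry

/-! ## Module C (connectivity, induction, final theorem; files C*.lean) -/

/-- the theorem of H46K -/
theorem threeConn_case {V : Type} [Fintype V] [DecidableEq V] (G : SimpleGraph V)
    (h3 : ThreeConn G) (hIK : IsIK G) (f : SpatialGraph G) (d : P3) (hd : Generic f d) :
    ¬ ExactlyOneOddLink f d := sorry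

theorem final {V : Type} [Fintype V] [DecidableEq V] (G : SimpleGraph V) (hIK : IsIK G)
    (f : SpatialGraph G) (d : P3) (hd : Generic f d) :
    ¬ ExactlyOneOddLink f d ∨ NoOddEmb (Fintype.card V) := sorry

end H97G
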