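import Pool.Agent.Lib.H97G.IE
import Pool.Agent.Lib.H97G.IH

/-!
# H97G, module V: a vertex absorbs the first bend of one of its edges; definitions

`f` an embedding, `e = u v` an edge with `f.mid u v = b :: M`, `p = f.pt u`. The vertex `u` will be moved to `b`.
`rs f u y` is the arc from `u` to `y` without its first vertex, `nx f u y` its first point.
`Tube`: a closed convex set `T` with `p, b` in the interior, which contains nothing else of the embedding besides
`[p, m y]` (`y ≠ v`) on the first segment of every arc `u y` and a part of `[p, b]`, `[b, r]` of the arc `e`.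
-/

namespace H97G

open H46K

variable {V : Type*} {G : SimpleGraph V}

/-- the arc from `u` to `y` without its first vertex -/
def rs (f : SpatialGraph G) (u y : V) : List P3 := f.mid u y ++ [f.pt y]

/-- the point after the first vertex of the arc from `u` to `y` -/
def nx (f : SpatialGraph G) (u y : V) : P3 := (f.mid u y ++ [f.pt y]).headI

theorem rs_eq (f : SpatialGraph G) (u y : V) : ∃ l, rs f u y = nx f u y :: l := by
  unfold rs nx
  cases h : f.mid u y with
  | nil => exact ⟨[], rfl⟩
  | cons a l => exact ⟨l ++ [f.pt y], rfl⟩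

/-- see the header -/
structure Tube (f : SpatialGraph G) (u v : V) (b : P3) (M : List P3) (T : Set P3)
    (m : V → P3) : Prop where
  cvx : Convex ℝ T
  cl : IsClosed T
  pin : f.pt u ∈ interior T
  bin : b ∈ interior T
  m_mem : ∀ y, G.Adj u y → y ≠ v → m y ∈ openSegment ℝ (f.pt u) (nx f u y)
  m_T : ∀ y, G.Adj u y → y ≠ v → m y ∈ T
  m_int : ∀ y, G.Adj u y → y ≠ v → m y ∉ interior T
  m_seg : ∀ y, G.Adj u y → y ≠ v → segment ℝ (m y) (nx f u y) ∩ T ⊆ {m y}
  tail : ∀ y, G.Adj u y → y ≠ v → Disjoint (arcSet (rs f u y)) T
  tailv : Disjoint (arcSet (M ++ [f.pt v])) T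
  oth : ∀ x y, G.Adj x y → x ≠ u → y ≠ u → Disjoint (arcSet (f.arc x y)) T
  vtx : ∀ w, w ≠ u → f.pt w ∉ T

open Classical in
/-- the new positions of the vertices -/
noncomputable def npt (f : SpatialGraph G) (u : V) (b : P3) : V → P3 :=
  fun w => if w = u then b else f.pt w

open Classical in
/-- the new bend points -/
noncomputable def nmid (f : SpatialGraph G) (u v : V) (M : List P3) (m : V → P3) :
    V → V → List P3 := fun x y =>
  if x = u then (if y = v then M else m y :: f.mid u y)
  else if y = u then (if x = v then M.reverse else f.mid x u ++ [m x]) else f.mid x y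

end H97G
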