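import Pool.Agent.Lib.H97G.WA
import Pool.Agent.Lib.H97G.V0

/-!
# H97G, chunk NA: changing the arc of one edge

`Oth f u v` = union of the arcs of the other edges. `upd` = the embedding with the new bend points `L` on the edge `u v`.
`umid_symm`: cases. `upd_simple`, `upd_disj`, `upd_vert`: for the edge `u v` in one of the two directions use `Upd` (with
`arcSet_reverse`, `isSimple_reverse`), otherwise the old embedding.
`upd_kl`: a cycle not containing the edge `u v` has the same polygon (`poly_congr`). Otherwise `cycle_edge`: it may be replaced by `cons h q`;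
`f.poly q = f.pt v :: R` (`q` is not `nil`), its polygon is `f.pt u :: (f.mid u v ++ f.pt v :: R)`, for the new embedding
`f.pt u :: (L ++ f.pt v :: R)`; `arcSet (f.pt v :: (R ++ [f.pt u]))` is contained in `Oth f u v` by `mem_poly` (the point `f.pt u` is on the
last arc of `q`).
-/

namespace H97G

open H46K

variable {V : Type*} {G : SimpleGraph V}

/-- the union of the arcs of the edges different from `u v` -/
def Oth (f : SpatialGraph G) (u v : V) : Set P3 :=
  {z | ∃ x y, G.Adj x y ∧ s(x, y) ≠ s(u, v) ∧ z ∈ arcSet (f.arc x y)}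

open Classical in
/-- the new bend points -/
noncomputable def umid (f : SpatialGraph G) (u v : V) (L : List P3) : V → V → List P3 :=
  fun x y => if x = u ∧ y = v then L else if x = v ∧ y = u then L.reverse else f.mid x y

/-- the conditions on the new arc -/
structure Upd (f : SpatialGraph G) (u v : V) (L : List P3) : Prop where
  simple : IsSimple (f.pt u :: (L ++ [f.pt v]))
  disj : ∀ x y, G.Adj x y → s(x, y) ≠ s(u, v) →
    ∀ z ∈ arcSet (f.pt u :: (L ++ [f.pt v])) ∩ arcSet (f.arc x y),
      ∃ w, (w = u ∨ w = v) ∧ (w = x ∨ w = y) ∧ z = f.pt w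
  vert : ∀ w, f.pt w ∈ arcSet (f.pt u :: (L ++ [f.pt v])) → w = u ∨ w = v

theorem umid_symm {f : SpatialGraph G} {u v : V} (huv : G.Adj u v) (L : List P3) (x y : V)
    (hxy : G.Adj x y) : umid f u v L y x = (umid f u v L x y).reverse := by
  unfold umid
  have hne := huv.ne
  have hne' := huv.ne'
  by_cases h1 : x = u ∧ y = v
  · obtain ⟨rfl, rfl⟩ := h1
    simp [hne']
  · by_cases h2 : x = v ∧ y = u
    · obtain ⟨rfl, rfl⟩ := h2
      simp [hne']
    · have h3 : ¬ (y = u ∧ x = v) := fun h => h2 ⟨h.2, h.1⟩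
      have h4 : ¬ (y = v ∧ x = u) := fun h => h1 ⟨h.2, h.1⟩
      rw [if_neg h3, if_neg h4, if_neg h1, if_neg h2]
      exact f.mid_symm x y hxy

theorem NA_uv {f : SpatialGraph G} {u v : V} (huv : G.Adj u v) (L : List P3) {x y : V}
    (h : s(x, y) = s(u, v)) :
    (f.pt x :: (umid f u v L x y ++ [f.pt y]) = f.pt u :: (L ++ [f.pt v])) ∨
    (f.pt x :: (umid f u v L x y ++ [f.pt y]) = (f.pt u :: (L ++ [f.pt v])).reverse) := by
  have hne' := huv.ne'
  unfold umid
  rcases Sym2.eq_iff.mp h with ⟨rfl, rfl⟩ | ⟨rfl, rfl⟩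
  · left
    simp
  · right
    simp [hne']

theorem NA_arc {f : SpatialGraph G} {u v : V} (huv : G.Adj u v) (L : List P3) {x y : V}
    (h : s(x, y) = s(u, v)) : arcSet (f.pt x :: (umid f u v L x y ++ [f.pt y])) =
      arcSet (f.pt u :: (L ++ [f.pt v])) := by
  rcases NA_uv (f := f) huv L h with h1 | h1
  · rw [h1]
  · rw [h1, arcSet_reverse]

theorem NA_old {f : SpatialGraph G} {u v : V} (L : List P3) {x y : V}
    (h : s(x, y) ≠ s(u, v)) : umid f u v L x y = f.mid x y := by
  unfold umid
  rw [if_neg, if_neg]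
  · rintro ⟨rfl, rfl⟩
    exact h Sym2.eq_swap
  · rintro ⟨rfl, rfl⟩
    exact h rfl

theorem upd_simple {f : SpatialGraph G} {u v : V} (huv : G.Adj u v) {L : List P3}
    (h : Upd f u v L) (x y : V) (hxy : G.Adj x y) :
    IsSimple (f.pt x :: (umid f u v L x y ++ [f.pt y])) := by
  by_cases he : s(x, y) = s(u, v)
  · rcases NA_uv (f := f) huv L he with h1 | h1
    · rw [h1]
      exact h.simple
    · rw [h1, isSimple_reverse]
      exact h.simple
  · rw [NA_old L he]
    exact f.simple x y hxy

theorem NA_end {u v x y w : V} (h : s(x, y) = s(u, v)) (hw : w = u ∨ w = v) : w = x ∨ w = y := by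
  rcases Sym2.eq_iff.mp h with ⟨rfl, rfl⟩ | ⟨rfl, rfl⟩
  · exact hw
  · exact hw.symm

theorem upd_disj {f : SpatialGraph G} {u v : V} (huv : G.Adj u v) {L : List P3}
    (h : Upd f u v L) (x y x' y' : V) (hxy : G.Adj x y) (hxy' : G.Adj x' y')
    (hne : s(x, y) ≠ s(x', y')) (z : P3)
    (hz : z ∈ arcSet (f.pt x :: (umid f u v L x y ++ [f.pt y])) ∩
      arcSet (f.pt x' :: (umid f u v L x' y' ++ [f.pt y']))) :
    ∃ w, (w = x ∨ w = y) ∧ (w = x' ∨ w = y') ∧ z = f.pt w := by
  by_cases he : s(x, y) = s(u, v)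
  · have he' : s(x', y') ≠ s(u, v) := fun h' => hne (he.trans h'.symm)
    rw [NA_arc (f := f) huv L he, NA_old L he'] at hz
    obtain ⟨w, h1, h2, h3⟩ := h.disj x' y' hxy' he' z hz
    exact ⟨w, NA_end he h1, h2, h3⟩
  · by_cases he' : s(x', y') = s(u, v)
    · rw [NA_arc (f := f) huv L he', NA_old L he] at hz
      obtain ⟨w, h1, h2, h3⟩ := h.disj x y hxy he z ⟨hz.2, hz.1⟩
      exact ⟨w, h2, NA_end he' h1, h3⟩
    · rw [NA_old L he, NA_old L he'] at hz
      exact f.disj x y x' y' hxy hxy' hne z hz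

theorem upd_vert {f : SpatialGraph G} {u v : V} (huv : G.Adj u v) {L : List P3}
    (h : Upd f u v L) (x y w : V) (hxy : G.Adj x y)
    (hz : f.pt w ∈ arcSet (f.pt x :: (umid f u v L x y ++ [f.pt y]))) : w = x ∨ w = y := by
  by_cases he : s(x, y) = s(u, v)
  · rw [NA_arc (f := f) huv L he] at hz
    exact NA_end he (h.vert w hz)
  · rw [NA_old L he] at hz
    exact f.vert x y w hxy hz

/-- the new embedding -/
noncomputable def upd {f : SpatialGraph G} {u v : V} (huv : G.Adj u v) {L : List P3}
    (h : Upd f u v L) : SpatialGraph G where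
  pt := f.pt
  mid := umid f u v L
  pt_inj := f.pt_inj
  mid_symm := fun x y hxy => umid_symm huv L x y hxy
  simple := fun x y hxy => upd_simple huv h x y hxy
  disj := fun x y x' y' hxy hxy' hne z hz => upd_disj huv h x y x' y' hxy hxy' hne z hz
  vert := fun x y w hxy hz => upd_vert huv h x y w hxy hz

theorem NA_poly_cons (f : SpatialGraph G) {a b : V} (q : G.Walk a b) (hab : a ≠ b) :
    ∃ R, f.poly q = f.pt a :: R := by
  cases q with
  | nil => exact absurd rfl hab
  | cons h p => exact ⟨_, rfl⟩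

theorem upd_kl {f : SpatialGraph G} (hf : KL f) {u v : V} (huv : G.Adj u v) {L : List P3}
    (h : Upd f u v L)
    (hmove : ∀ R : List P3, arcSet (f.pt v :: (R ++ [f.pt u])) ⊆ Oth f u v →
      Unknot (f.pt u :: (f.mid u v ++ f.pt v :: R)) → Unknot (f.pt u :: (L ++ f.pt v :: R))) :
    KL (upd huv h) := by
  have hold : ∀ {a b : V} (w : G.Walk a b), s(u, v) ∉ w.edges →
      (upd huv h).poly w = f.poly w := by
    intro a b w hw
    apply poly_congr
    intro x y hxy
    refine ⟨rfl, NA_old L ?_⟩
    intro he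
    rw [he] at hxy
    exact hw hxy
  intro v0 c hc
  by_cases he : s(u, v) ∈ c.edges
  · obtain ⟨h1, q, hq, hqe, hcyc, hun⟩ := cycle_edge u v c hc he
    rw [hun (upd huv h)]
    obtain ⟨R, hR⟩ := NA_poly_cons f q huv.ne'
    have e1 : (upd huv h).poly (SimpleGraph.Walk.cons h1 q) = f.pt u :: (L ++ f.pt v :: R) := by
      show f.pt u :: (umid f u v L u v ++ (upd huv h).poly q) = _
      rw [hold q hqe, hR]
      unfold umid
      simp
    rw [e1]
    apply hmove
    · intro z hz
      have e2 : f.pt v :: (R ++ [f.pt u]) = f.poly q ++ [f.pt u] := by rw [hR]; rfl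
      rw [e2] at hz
      rcases mem_poly f q z hz with h2 | ⟨y, y', h2, h3, h4⟩
      · obtain ⟨y, q', h5, h6⟩ : ∃ (y : V) (q' : G.Walk v y) (h5 : G.Adj y u),
            q = q'.concat h5 := by
          cases q with
          | nil => exact absurd rfl huv.ne
          | cons h5 p =>
            obtain ⟨y, q', h6, h7⟩ := SimpleGraph.Walk.exists_cons_eq_concat h5 p
            exact ⟨y, q', h6, h7⟩
        refine ⟨y, u, h5, ?_, ?_⟩
        · intro h7
          apply hqe
          rw [← h7, h6]
          simp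
        · rw [h2]
          apply mem_arcSet
          simp [SpatialGraph.arc]
      · refine ⟨y, y', h2, ?_, h4⟩
        intro h5
        rw [h5] at h3
        exact hqe h3
    · have := (hun f).mp (hf v0 c hc)
      have e3 : f.poly (SimpleGraph.Walk.cons h1 q) = f.pt u :: (f.mid u v ++ f.pt v :: R) := by
        show f.pt u :: (f.mid u v ++ f.poly q) = _
        rw [hR]
      rwa [e3] at this
  · rw [hold c he]
    exact hf v0 c hc

end H97G
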