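import Pool.Agent.Lib.H97G.IA

/-!
# H97G, chunk NB: a free ray

`exists_ray`: choose `D` outside of the proper subspaces `span {a - y, b - y}` (`(a, b) ∈ S`), `span {w}`, `{X | X.1 = 0}`
(`Subspace.biUnion_ne_univ_of_top_notMem`; `P3` has dimension three); if `D.1 < 0` take `-D`. If `y + t D ∈ [a, b]` then `t ≠ 0` (hypothesis)
and `t D = α (a - y) + β (b - y)`, so `D` is in the span.
-/

namespace H97G

open H46K

theorem nb_finrank : Module.finrank ℝ P3 = 3 := by
  simp [P3, Module.finrank_prod]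

theorem nb_pair (u v : P3) : Submodule.span ℝ ({u, v} : Set P3) ≠ ⊤ := by
  intro h
  have h1 : Module.finrank ℝ (Submodule.span ℝ ({u, v} : Set P3)) ≤ 2 := by
    classical
    have h2 := finrank_span_finset_le_card (R := ℝ) ({u, v} : Finset P3)
    have h3 : (({u, v} : Finset P3) : Set P3) = {u, v} := by simp
    rw [h3] at h2
    exact h2.trans (Finset.card_le_two)
  rw [h, finrank_top, nb_finrank] at h1
  omega

theorem exists_ray (S : Finset (P3 × P3)) (y w : P3) (hy : ∀ s ∈ S, y ∉ segment ℝ s.1 s.2) :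
    ∃ D : P3, 0 < D.1 ∧ (∀ s ∈ S, ∀ t : ℝ, 0 ≤ t → y + t • D ∉ segment ℝ s.1 s.2) ∧
      ∀ t : ℝ, D ≠ t • w := by
  classical
  set T : Finset (Submodule ℝ P3) :=
    insert (LinearMap.ker (LinearMap.fst ℝ ℝ (ℝ × ℝ))) (insert (Submodule.span ℝ {w, w})
      (S.image fun s => Submodule.span ℝ {s.1 - y, s.2 - y})) with hT
  have hTop : (⊤ : Submodule ℝ P3) ∉ T := by
    intro h
    rw [hT, Finset.mem_insert, Finset.mem_insert, Finset.mem_image] at h
    rcases h with h | h | ⟨s, _, h⟩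
    · have : ((1, 0, 0) : P3) ∈ LinearMap.ker (LinearMap.fst ℝ ℝ (ℝ × ℝ)) := by
        rw [← h]
        trivial
      rw [LinearMap.mem_ker] at this
      simp at this
    · exact nb_pair w w h.symm
    · exact nb_pair _ _ h
  have hne := Subspace.biUnion_ne_univ_of_top_notMem hTop
  obtain ⟨D, hD⟩ := (Set.ne_univ_iff_exists_notMem _).1 hne
  simp only [Set.mem_iUnion, SetLike.mem_coe, exists_prop, not_exists, not_and] at hD
  have h1 : D.1 ≠ 0 := by
    intro h
    refine hD _ (Finset.mem_insert_self _ _) ?_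
    rw [LinearMap.mem_ker]
    exact h
  have h2 : D ∉ Submodule.span ℝ ({w, w} : Set P3) :=
    hD _ (Finset.mem_insert_of_mem (Finset.mem_insert_self _ _))
  have h3 : ∀ s ∈ S, D ∉ Submodule.span ℝ ({s.1 - y, s.2 - y} : Set P3) := by
    intro s hs
    exact hD _ (Finset.mem_insert_of_mem (Finset.mem_insert_of_mem
      (Finset.mem_image.2 ⟨s, hs, rfl⟩)))
  -- the sign
  obtain ⟨E, hE1, hE2, hE3⟩ : ∃ E : P3, 0 < E.1 ∧ E ∉ Submodule.span ℝ ({w, w} : Set P3) ∧
      ∀ s ∈ S, E ∉ Submodule.span ℝ ({s.1 - y, s.2 - y} : Set P3) := by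
    rcases lt_or_gt_of_ne h1 with h | h
    · refine ⟨-D, ?_, ?_, ?_⟩
      · rw [Prod.fst_neg]
        linarith
      · rwa [Submodule.neg_mem_iff]
      · intro s hs
        rw [Submodule.neg_mem_iff]
        exact h3 s hs
    · exact ⟨D, h, h2, h3⟩
  refine ⟨E, hE1, ?_, ?_⟩
  · intro s hs t ht h
    obtain ⟨a, b, ha, hb, hab, e⟩ := h
    have ht0 : t ≠ 0 := by
      rintro rfl
      apply hy s hs
      rw [zero_smul, add_zero] at e
      exact ⟨a, b, ha, hb, hab, e⟩
    apply hE3 s hs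
    have e1 : E = (t⁻¹ * a) • (s.1 - y) + (t⁻¹ * b) • (s.2 - y) := by
      have e2 : t • E = a • (s.1 - y) + b • (s.2 - y) := by
        have e3 : a • (s.1 - y) + b • (s.2 - y) = (a • s.1 + b • s.2) - (a + b) • y := by
          module
        rw [e3, e, hab, one_smul, add_sub_cancel_left]
      rw [mul_smul, mul_smul, ← smul_add, ← e2, smul_smul, inv_mul_cancel₀ ht0, one_smul]
    rw [e1]
    exact Submodule.add_mem _ (Submodule.smul_mem _ _ (Submodule.subset_span (by simp)))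
      (Submodule.smul_mem _ _ (Submodule.subset_span (by simp)))
  · intro t h
    apply hE2
    rw [h]
    exact Submodule.smul_mem _ _ (Submodule.subset_span (by simp))

/-- a finger from the segment `[p, q]` -/
structure Finger (p q : P3) (Z : Set P3) (y₁ x m y₂ S : P3) : Prop where
  y1 : y₁ ∈ openSegment ℝ p q
  y2 : y₂ ∈ openSegment ℝ y₁ q
  mm : m ∈ openSegment ℝ x y₂
  hull1 : Disjoint (convexHull ℝ {y₁, x, y₂}) Z
  hull2 : convexHull ℝ {y₁, x, y₂} ∩ segment ℝ p q ⊆ segment ℝ y₁ y₂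
  lt : ∀ X ∈ Z, X.1 < m.1
  lp : p.1 < m.1 ∧ q.1 < m.1 ∧ y₁.1 < m.1 ∧ y₂.1 < m.1
  mx : m.1 < x.1
  hS : S = (0, 1, 0) ∨ S = (0, 0, 1)
  li : LinearIndependent ℝ ![y₁ - x, y₂ - x, S]

end H97G
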