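import Pool.Agent.Lib.H97G.NB

/-!
# H97G, chunk NB2: the finger

`exists_finger`: `y` = midpoint of `[p, q]`, `D` from `exists_ray` (`S` describes `Z`, `w = q - p`), `x = y + τ D` with `τ` so large that `x.1` is larger
than the first coordinates of `Z` (bounded, compact) and of `p`, `q`. `[y, x]` is disjoint from the compact set `Z`
(on the ray), so for `y₁, y₂` on `(p, q)` near `y` on both sides the hull of `y₁, x, y₂` is disjoint from `Z` (it is in the
`δ`-thickening of `[y, x]`). `x` is not on the line `p q`, so a point `α y₁ + β x + γ y₂` of the hull on `[p, q]` has `β = 0`. `m` on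
`(x, y₂)` near `x`: `m.1` is larger than all first coordinates except `x.1`. `S`: if both `y₁ - x, y₂ - x, (0,1,0)` and `y₁ - x, y₂ - x, (0,0,1)` were
dependent, the plane of `y₁ - x, y₂ - x` (independent) would contain both unit vectors, so it would be `X.1 = 0`, but `(y₁ - x).1 < 0`.
-/

namespace H97G

open H46K

theorem nb2_li (u v w : P3) (h : u.1 * (v.2.1 * w.2.2 - v.2.2 * w.2.1) -
    u.2.1 * (v.1 * w.2.2 - v.2.2 * w.1) + u.2.2 * (v.1 * w.2.1 - v.2.1 * w.1) ≠ 0) :
    LinearIndependent ℝ ![u, v, w] := by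
  rw [Fintype.linearIndependent_iff]
  intro g hg
  rw [Fin.sum_univ_three] at hg
  simp only [Matrix.cons_val_zero, Matrix.cons_val_one, Matrix.cons_val] at hg
  have h1 := congrArg (fun X : P3 => X.1) hg
  have h2 := congrArg (fun X : P3 => X.2.1) hg
  have h3 := congrArg (fun X : P3 => X.2.2) hg
  simp only [Prod.fst_add, Prod.snd_add, Prod.smul_fst, Prod.smul_snd, smul_eq_mul,
    Prod.fst_zero, Prod.snd_zero] at h1 h2 h3
  have e0 : g 0 = 0 := by
    apply mul_right_cancel₀ h
    rw [zero_mul]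
    linear_combination (v.2.1 * w.2.2 - v.2.2 * w.2.1) * h1 - (v.1 * w.2.2 - v.2.2 * w.1) * h2 +
      (v.1 * w.2.1 - v.2.1 * w.1) * h3
  have e1 : g 1 = 0 := by
    apply mul_right_cancel₀ h
    rw [zero_mul]
    linear_combination -(u.2.1 * w.2.2 - u.2.2 * w.2.1) * h1 + (u.1 * w.2.2 - u.2.2 * w.1) * h2 -
      (u.1 * w.2.1 - u.2.1 * w.1) * h3
  have e2 : g 2 = 0 := by
    apply mul_right_cancel₀ h
    rw [zero_mul]
    linear_combination (u.2.1 * v.2.2 - u.2.2 * v.2.1) * h1 - (u.1 * v.2.2 - u.2.2 * v.1) * h2 +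
      (u.1 * v.2.1 - u.2.1 * v.1) * h3
  intro i
  fin_cases i
  · exact e0
  · exact e1
  · exact e2

theorem nb2_hull (a b c X : P3) (h : X ∈ convexHull ℝ ({a, b, c} : Set P3)) :
    ∃ α β γ : ℝ, 0 ≤ α ∧ 0 ≤ β ∧ 0 ≤ γ ∧ α + β + γ = 1 ∧ X = α • a + β • b + γ • c := by
  rw [convexHull_insert ⟨b, by simp⟩, convexHull_pair, mem_convexJoin] at h
  obtain ⟨a', ha', z, hz, hX⟩ := h
  rw [Set.mem_singleton_iff] at ha'
  subst ha'
  obtain ⟨s, t, hs, ht, hst, rfl⟩ := hz
  obtain ⟨s', t', hs', ht', hst', rfl⟩ := hX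
  refine ⟨s', t' * s, t' * t, hs', by positivity, by positivity, ?_, ?_⟩
  · linear_combination t' * hst + hst'
  · rw [smul_add, smul_smul, smul_smul, add_assoc]

theorem exists_finger (p q : P3) (hpq : p ≠ q) (Z : Set P3) (S : Finset (P3 × P3))
    (hZ : ∀ z, z ∈ Z ↔ ∃ s ∈ S, z ∈ segment ℝ s.1 s.2) (hd : Disjoint (openSegment ℝ p q) Z) :
    ∃ y₁ x m y₂ S, Finger p q Z y₁ x m y₂ S := by
  have hZu : Z = ⋃ s ∈ S, segment ℝ s.1 s.2 := by
    ext z
    simp only [hZ, Set.mem_iUnion, exists_prop]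
  have hseg : ∀ a b : P3, IsCompact (segment ℝ a b) := by
    intro a b
    rw [← convexHull_pair (𝕜 := ℝ)]
    exact (Set.toFinite _).isCompact_convexHull ℝ
  have hZc : IsCompact Z := by
    rw [hZu]
    exact S.isCompact_biUnion fun s _ => hseg _ _
  set y : P3 := (1 / 2 : ℝ) • p + (1 / 2 : ℝ) • q with hy
  have hyo : y ∈ openSegment ℝ p q := ⟨1 / 2, 1 / 2, by norm_num, by norm_num, by norm_num, rfl⟩
  have hyZ : y ∉ Z := fun h => (Set.disjoint_left.1 hd) hyo h
  obtain ⟨D, hD1, hD2, hD3⟩ := exists_ray S y (q - p) (fun s hs h => hyZ ((hZ y).2 ⟨s, hs, h⟩))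
  obtain ⟨M, hM⟩ : ∃ M : ℝ, ∀ X ∈ Z, X.1 ≤ M := by
    obtain ⟨M, hM⟩ := (hZc.image continuous_fst).bddAbove
    exact ⟨M, fun X hX => hM ⟨X, hX, rfl⟩⟩
  set B : ℝ := max M (max p.1 q.1) + 1 with hB
  have hBM : M < B := by
    have := le_max_left M (max p.1 q.1)
    linarith
  have hBp : p.1 < B := by
    have := (le_max_left p.1 q.1).trans (le_max_right M (max p.1 q.1))
    linarith
  have hBq : q.1 < B := by
    have := (le_max_right p.1 q.1).trans (le_max_right M (max p.1 q.1))
    linarith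
  have hy1 : y.1 = 1 / 2 * p.1 + 1 / 2 * q.1 := by
    rw [hy]
    simp [Prod.fst_add, Prod.smul_fst]
  have hByy : y.1 < B := by
    rw [hy1]
    linarith
  set τ : ℝ := (B - y.1 + 1) / D.1 with hτ
  have hτ0 : 0 < τ := by
    apply div_pos _ hD1
    linarith
  set x : P3 := y + τ • D with hx
  have hx1 : x.1 = B + 1 := by
    rw [hx, Prod.fst_add, Prod.smul_fst, smul_eq_mul, hτ, div_mul_cancel₀ _ hD1.ne']
    ring
  have hyx : Disjoint (segment ℝ y x) Z := by
    rw [Set.disjoint_left]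
    intro z hz hzZ
    obtain ⟨s, hs, hzs⟩ := (hZ z).1 hzZ
    rw [segment_eq_image'] at hz
    obtain ⟨t, ht, rfl⟩ := hz
    refine hD2 s hs (t * τ) (mul_nonneg ht.1 hτ0.le) ?_
    have e : y + t • (x - y) = y + (t * τ) • D := by
      rw [hx, add_sub_cancel_left, smul_smul]
    rw [← e]
    exact hzs
  obtain ⟨δ, hδ, hδ2⟩ := (hseg y x).exists_thickening_subset_open hZc.isClosed.isOpen_compl
    (Set.subset_compl_iff_disjoint_right.2 hyx)
  have hw : q - p ≠ 0 := sub_ne_zero.2 hpq.symm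
  have hwn : 0 < ‖q - p‖ := norm_pos_iff.2 hw
  obtain ⟨η, hη0, hη1, hη2⟩ : ∃ η : ℝ, 0 < η ∧ η < 1 / 2 ∧ η * ‖q - p‖ < δ := by
    refine ⟨min (1 / 4) (δ / (2 * ‖q - p‖)), ?_, ?_, ?_⟩
    · exact lt_min (by norm_num) (by positivity)
    · exact lt_of_le_of_lt (min_le_left _ _) (by norm_num)
    · calc min (1 / 4) (δ / (2 * ‖q - p‖)) * ‖q - p‖ ≤ δ / (2 * ‖q - p‖) * ‖q - p‖ :=
            mul_le_mul_of_nonneg_right (min_le_right _ _) hwn.le
        _ = δ / 2 := by field_simp
        _ < δ := by linarith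
  set y₁ : P3 := (1 / 2 + η) • p + (1 / 2 - η) • q with hy₁
  set y₂ : P3 := (1 / 2 - η) • p + (1 / 2 + η) • q with hy₂
  have ey₁ : y₁ = y - η • (q - p) := by
    rw [hy₁, hy]
    module
  have ey₂ : y₂ = y + η • (q - p) := by
    rw [hy₂, hy]
    module
  have hyx' : y ∈ segment ℝ y x := left_mem_segment ℝ y x
  have t1 : y₁ ∈ Metric.thickening δ (segment ℝ y x) := by
    rw [Metric.mem_thickening_iff]
    refine ⟨y, hyx', ?_⟩
    rw [ey₁, dist_eq_norm]
    have : y - η • (q - p) - y = -(η • (q - p)) := by abel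
    rw [this, norm_neg, norm_smul, Real.norm_eq_abs, abs_of_pos hη0]
    exact hη2
  have t2 : y₂ ∈ Metric.thickening δ (segment ℝ y x) := by
    rw [Metric.mem_thickening_iff]
    refine ⟨y, hyx', ?_⟩
    rw [ey₂, dist_eq_norm]
    have : y + η • (q - p) - y = η • (q - p) := by abel
    rw [this, norm_smul, Real.norm_eq_abs, abs_of_pos hη0]
    exact hη2
  have t3 : x ∈ Metric.thickening δ (segment ℝ y x) :=
    Metric.self_subset_thickening hδ _ (right_mem_segment ℝ y x)
  have hth : Convex ℝ (Metric.thickening δ (segment ℝ y x)) := (convex_segment y x).thickening δ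
  have hhull : convexHull ℝ ({y₁, x, y₂} : Set P3) ⊆ Metric.thickening δ (segment ℝ y x) := by
    apply convexHull_min _ hth
    intro z hz
    simp only [Set.mem_insert_iff, Set.mem_singleton_iff] at hz
    rcases hz with rfl | rfl | rfl
    · exact t1
    · exact t3
    · exact t2
  -- first coordinates
  have hy₁1 : y₁.1 = (1 / 2 + η) * p.1 + (1 / 2 - η) * q.1 := by
    rw [hy₁]
    simp [Prod.fst_add, Prod.smul_fst]
  have hy₂1 : y₂.1 = (1 / 2 - η) * p.1 + (1 / 2 + η) * q.1 := by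
    rw [hy₂]
    simp [Prod.fst_add, Prod.smul_fst]
  have hBy₁ : y₁.1 < B := by
    rw [hy₁1]
    nlinarith
  have hBy₂ : y₂.1 < B := by
    rw [hy₂1]
    nlinarith
  obtain ⟨θ, hθ0, hθ1, hθ2⟩ : ∃ θ : ℝ, 0 < θ ∧ θ < 1 ∧ θ * (x.1 - y₂.1) < 1 := by
    have hp : 0 < x.1 - y₂.1 := by
      rw [hx1]
      linarith
    refine ⟨min (1 / 2) (1 / (2 * (x.1 - y₂.1))), ?_, ?_, ?_⟩
    · exact lt_min (by norm_num) (by positivity)
    · exact lt_of_le_of_lt (min_le_left _ _) (by norm_num)
    · calc min (1 / 2) (1 / (2 * (x.1 - y₂.1))) * (x.1 - y₂.1) ≤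
            1 / (2 * (x.1 - y₂.1)) * (x.1 - y₂.1) :=
            mul_le_mul_of_nonneg_right (min_le_right _ _) hp.le
        _ = 1 / 2 := by field_simp
        _ < 1 := by norm_num
  set m : P3 := (1 - θ) • x + θ • y₂ with hm
  have hm1 : m.1 = x.1 - θ * (x.1 - y₂.1) := by
    rw [hm, Prod.fst_add, Prod.smul_fst, Prod.smul_fst, smul_eq_mul, smul_eq_mul]
    ring
  have hmB : B < m.1 := by
    rw [hm1, hx1]
    rw [hx1] at hθ2
    linarith
  -- the vectors
  have hind : ∀ s t : ℝ, s • (y₁ - x) + t • (y₂ - x) = 0 → s = 0 ∧ t = 0 := by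
    intro s t hst
    have e : ((s + t) * τ) • D = ((t - s) * η) • (q - p) := by
      have e1 : y₁ - x = -(η • (q - p)) - τ • D := by
        rw [ey₁, hx]
        abel
      have e2 : y₂ - x = η • (q - p) - τ • D := by
        rw [ey₂, hx]
        abel
      rw [e1, e2] at hst
      have : ((s + t) * τ) • D - ((t - s) * η) • (q - p) =
          -(s • (-(η • (q - p)) - τ • D) + t • (η • (q - p) - τ • D)) := by
        module
      rw [hst, neg_zero, sub_eq_zero] at this
      exact this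
    by_cases hs : s + t = 0
    · rw [hs, zero_mul, zero_smul] at e
      have h2 : (t - s) * η = 0 := by
        rcases smul_eq_zero.1 e.symm with h | h
        · exact h
        · exact absurd h hw
      have h3 : t - s = 0 := by
        rcases mul_eq_zero.1 h2 with h | h
        · exact h
        · exact absurd h hη0.ne'
      constructor <;> linarith
    · exfalso
      have hst' : (s + t) * τ ≠ 0 := mul_ne_zero hs hτ0.ne'
      apply hD3 (((s + t) * τ)⁻¹ * ((t - s) * η))
      rw [mul_smul, ← e, smul_smul, inv_mul_cancel₀ hst', one_smul]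
  have hS : ∃ S' : P3, (S' = (0, 1, 0) ∨ S' = (0, 0, 1)) ∧
      LinearIndependent ℝ ![y₁ - x, y₂ - x, S'] := by
    set u := y₁ - x with hu
    set v := y₂ - x with hv
    have hu1 : u.1 < 0 := by
      rw [hu, Prod.fst_sub, hx1]
      linarith
    by_cases c2 : u.1 * v.2.2 - u.2.2 * v.1 = 0
    · by_cases c3 : u.1 * v.2.1 - u.2.1 * v.1 = 0
      · exfalso
        have c1 : u.2.1 * v.2.2 - u.2.2 * v.2.1 = 0 := by
          have : u.1 * (u.2.1 * v.2.2 - u.2.2 * v.2.1) = 0 := by
            linear_combination u.2.1 * c2 - u.2.2 * c3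
          rcases mul_eq_zero.1 this with h | h
          · exact absurd h hu1.ne
          · exact h
        have hdep : (-v.1) • u + u.1 • v = 0 := by
          ext
          · simp only [Prod.fst_add, Prod.smul_fst, smul_eq_mul, Prod.fst_zero]
            ring
          · simp only [Prod.snd_add, Prod.fst_add, Prod.smul_fst, Prod.smul_snd, smul_eq_mul,
              Prod.fst_zero, Prod.snd_zero]
            linear_combination c3
          · simp only [Prod.snd_add, Prod.smul_snd, smul_eq_mul, Prod.snd_zero]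
            linear_combination c2
        exact hu1.ne (hind _ _ hdep).2
      · refine ⟨(0, 0, 1), Or.inr rfl, nb2_li _ _ _ ?_⟩
        intro h
        apply c3
        simp only [mul_zero, sub_zero, mul_one] at h
        linear_combination h
    · refine ⟨(0, 1, 0), Or.inl rfl, nb2_li _ _ _ ?_⟩
      intro h
      apply c2
      simp only [mul_zero, sub_zero, mul_one, zero_sub] at h
      linear_combination -h
  obtain ⟨S', hS1, hS2⟩ := hS
  refine ⟨y₁, x, m, y₂, S', ?_, ?_, ?_, ?_, ?_, ?_, ?_, ?_, hS1, hS2⟩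
  · exact ⟨1 / 2 + η, 1 / 2 - η, by linarith, by linarith, by ring, rfl⟩
  · have hh : (0 : ℝ) < 1 / 2 + η := by linarith
    refine ⟨(1 / 2 - η) / (1 / 2 + η), 1 - (1 / 2 - η) / (1 / 2 + η), ?_, ?_, by ring, ?_⟩
    · apply div_pos <;> linarith
    · rw [sub_pos, div_lt_one hh]
      linarith
    · rw [hy₁, hy₂]
      have e1 : (1 / 2 - η) / (1 / 2 + η) * (1 / 2 + η) = 1 / 2 - η := div_mul_cancel₀ _ hh.ne'
      have e2 : (1 / 2 - η) / (1 / 2 + η) * (1 / 2 - η) + (1 - (1 / 2 - η) / (1 / 2 + η)) =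
          1 / 2 + η := by
        field_simp
        ring
      rw [smul_add, smul_smul, smul_smul, e1, add_assoc, ← add_smul, e2]
  · exact ⟨1 - θ, θ, by linarith, hθ0, by ring, rfl⟩
  · rw [Set.disjoint_left]
    intro z hz hzZ
    exact hδ2 (hhull hz) hzZ
  · rintro X ⟨hX1, hX2⟩
    obtain ⟨α, β, γ, hα, hβ, hγ, hsum, rfl⟩ := nb2_hull _ _ _ _ hX1
    obtain ⟨s, t, hs, ht, hst, hX⟩ := hX2
    have hβ0 : β = 0 := by
      by_contra hne
      have hb' : β * τ ≠ 0 := mul_ne_zero hne hτ0.ne'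
      have e : (β * τ) • D = (t - 1 / 2 - (γ - α) * η) • (q - p) := by
        have e1 : α • y₁ + β • x + γ • y₂ = (α + β + γ) • y + ((γ - α) * η) • (q - p) +
            (β * τ) • D := by
          rw [ey₁, ey₂, hx]
          module
        have e2 : s • p + t • q = (s + t) • y + ((t - s) / 2) • (q - p) := by
          rw [hy]
          module
        rw [e1, e2, hsum, hst] at hX
        have e3 : (t - s) / 2 = t - 1 / 2 := by
          linarith
        rw [e3] at hX
        have e4 : (β * τ) • D = (t - 1 / 2) • (q - p) - ((γ - α) * η) • (q - p) := by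
          rw [eq_sub_iff_add_eq]
          have h5 : (1 : ℝ) • y + (t - 1 / 2) • (q - p) - (1 : ℝ) • y =
              (1 : ℝ) • y + ((γ - α) * η) • (q - p) + (β * τ) • D - (1 : ℝ) • y := by
            rw [hX]
          have h6 : (1 : ℝ) • y + (t - 1 / 2) • (q - p) - (1 : ℝ) • y = (t - 1 / 2) • (q - p) := by
            abel
          have h7 : (1 : ℝ) • y + ((γ - α) * η) • (q - p) + (β * τ) • D - (1 : ℝ) • y =
              (β * τ) • D + ((γ - α) * η) • (q - p) := by
            abel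
          rw [h6, h7] at h5
          exact h5.symm
        rw [e4, ← sub_smul]
      apply hD3 ((β * τ)⁻¹ * (t - 1 / 2 - (γ - α) * η))
      rw [mul_smul, ← e, smul_smul, inv_mul_cancel₀ hb', one_smul]
    subst hβ0
    refine ⟨α, γ, hα, hγ, by linarith, ?_⟩
    rw [zero_smul, add_zero]
  · intro X hX
    exact lt_of_le_of_lt (hM X hX) (hBM.trans hmB)
  · exact ⟨hBp.trans hmB, hBq.trans hmB, hBy₁.trans hmB, hBy₂.trans hmB⟩
  · rw [hm1]
    have : 0 < θ * (x.1 - y₂.1) := by
      apply mul_pos hθ0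
      rw [hx1]
      linarith
    linarith

end H97G
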