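import Pool.Agent.Lib.H97G.NB

/-!
# H97G, chunk NB3: the star triangle

All points of the triangle `x, m + t S, m` have first coordinate `≥ m.1` (`S.1 = 0`, `mx`), the points of `Z` and of `[p, q]` less (`lt`, `lp`). A point
`α x + β (m + t S) + γ m` of the triangle on `[y₁, x]` or `[x, y₂]`: `m = x + μ (y₂ - x)`, `0 < μ < 1`, so minus `x` it is
`(β + γ) μ (y₂ - x) + β t S`, and on the segments `σ (y₁ - x)` resp. `σ (y₂ - x)`; by `li` `σ = 0` and `β = 0`, `γ = 0` resp. `β = 0` and the point is on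
`[x, m]`.
-/

namespace H97G

open H46K

theorem nb3_hull (a b c X : P3) (h : X ∈ convexHull ℝ ({a, b, c} : Set P3)) :
    ∃ α β γ : ℝ, 0 ≤ α ∧ 0 ≤ β ∧ 0 ≤ γ ∧ α + β + γ = 1 ∧ X = α • a + β • b + γ • c := by
  rw [convexHull_insert ⟨b, by simp⟩, convexHull_pair, mem_convexJoin] at h
  obtain ⟨a', ha', z, hz, hX⟩ := h
  rw [Set.mem_singleton_iff] at ha'
  subst ha'
  obtain ⟨s, t, hs, ht, hst, rfl⟩ := hz
  obtain ⟨s', t', hs', ht', hst', rfl⟩ := hX
  refine ⟨s', t' * s, t' * t, hs', by positivity, by positivity, ?_, ?_⟩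
  · linear_combination t' * hst + hst'
  · rw [smul_add, smul_smul, smul_smul, add_assoc]

theorem nb3_zero (u v w : P3) (h : LinearIndependent ℝ ![u, v, w]) (a b c : ℝ)
    (e : a • u + b • v + c • w = 0) : a = 0 ∧ b = 0 ∧ c = 0 := by
  rw [Fintype.linearIndependent_iff] at h
  have h1 := h ![a, b, c] (by
    rw [Fin.sum_univ_three]
    simpa using e)
  exact ⟨h1 0, h1 1, h1 2⟩

/-- the triangle `x, m + t S, m` -/
theorem finger_star {p q : P3} {Z : Set P3} {y₁ x m y₂ S : P3} (h : Finger p q Z y₁ x m y₂ S)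
    (t : ℝ) (ht : 0 < t) :
    Disjoint (convexHull ℝ {x, m + t • S, m}) Z ∧
      Disjoint (convexHull ℝ {x, m + t • S, m}) (segment ℝ p q) ∧
      convexHull ℝ {x, m + t • S, m} ∩ segment ℝ y₁ x ⊆ {x} ∧
      convexHull ℝ {x, m + t • S, m} ∩ segment ℝ x y₂ ⊆ segment ℝ x m := by
  have hS1 : S.1 = 0 := by
    rcases h.hS with h | h <;> rw [h]
  have hge : ∀ X ∈ convexHull ℝ ({x, m + t • S, m} : Set P3), m.1 ≤ X.1 := by
    intro X hX
    obtain ⟨α, β, γ, hα, hβ, hγ, hs, rfl⟩ := nb3_hull _ _ _ _ hX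
    simp only [Prod.fst_add, Prod.smul_fst, smul_eq_mul, hS1, mul_zero, add_zero]
    have h1 := h.mx
    have h2 : m.1 = (α + β + γ) * m.1 := by rw [hs, one_mul]
    nlinarith
  obtain ⟨μ', μ, hμ', hμ, hμs, hm⟩ := h.mm
  have hm' : m = x + μ • (y₂ - x) := by
    rw [← hm]
    have : μ' = 1 - μ := by linarith
    rw [this]
    module
  have hpt : ∀ α β γ : ℝ, α + β + γ = 1 → α • x + β • (m + t • S) + γ • m =
      x + ((β + γ) * μ) • (y₂ - x) + (β * t) • S := by
    intro α β γ hs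
    have : α = 1 - β - γ := by linarith
    rw [this, hm']
    module
  refine ⟨?_, ?_, ?_, ?_⟩
  · rw [Set.disjoint_left]
    intro X hX hZ
    exact absurd (h.lt X hZ) (not_lt.2 (hge X hX))
  · rw [Set.disjoint_left]
    intro X hX hZ
    have h1 := hge X hX
    obtain ⟨a, b, ha, hb, hab, rfl⟩ := hZ
    simp only [Prod.fst_add, Prod.smul_fst, smul_eq_mul] at h1
    have h2 := h.lp.1
    have h3 := h.lp.2.1
    have h4 : m.1 = (a + b) * m.1 := by rw [hab, one_mul]
    rcases eq_or_lt_of_le ha with ha' | ha'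
    · have : b = 1 := by linarith
      subst this
      rw [← ha'] at h1
      linarith
    · nlinarith
  · rintro X ⟨hX, hX2⟩
    obtain ⟨α, β, γ, hα, hβ, hγ, hs, rfl⟩ := nb3_hull _ _ _ _ hX
    rw [hpt α β γ hs] at hX2 ⊢
    obtain ⟨a, b, ha, hb, hab, e⟩ := hX2
    have e1 : (-a) • (y₁ - x) + ((β + γ) * μ) • (y₂ - x) + (β * t) • S = 0 := by
      have hb' : b = 1 - a := by linarith
      rw [hb'] at e
      have : (-a) • (y₁ - x) + ((β + γ) * μ) • (y₂ - x) + (β * t) • S =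
          (x + ((β + γ) * μ) • (y₂ - x) + (β * t) • S) - (a • y₁ + (1 - a) • x) := by
        module
      rw [this, ← e, sub_self]
    obtain ⟨h1, h2, h3⟩ := nb3_zero _ _ _ h.li _ _ _ e1
    rw [h2, h3]
    simp
  · rintro X ⟨hX, hX2⟩
    obtain ⟨α, β, γ, hα, hβ, hγ, hs, rfl⟩ := nb3_hull _ _ _ _ hX
    have hX3 := hX2
    rw [hpt α β γ hs] at hX2
    obtain ⟨a, b, ha, hb, hab, e⟩ := hX2
    have e1 : (0 : ℝ) • (y₁ - x) + ((β + γ) * μ - b) • (y₂ - x) + (β * t) • S = 0 := by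
      have ha' : a = 1 - b := by linarith
      rw [ha'] at e
      have : (0 : ℝ) • (y₁ - x) + ((β + γ) * μ - b) • (y₂ - x) + (β * t) • S =
          (x + ((β + γ) * μ) • (y₂ - x) + (β * t) • S) - ((1 - b) • x + b • y₂) := by
        module
      rw [this, ← e, sub_self]
    obtain ⟨-, -, h3⟩ := nb3_zero _ _ _ h.li _ _ _ e1
    have hβ0 : β = 0 := by
      rcases mul_eq_zero.1 h3 with h | h
      · exact h
      · exact absurd h ht.ne'
    subst hβ0
    refine ⟨α, γ, hα, hγ, by linarith, ?_⟩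
    rw [zero_smul, add_zero]

end H97G
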