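import Pool.Agent.Lib.H97G.NA
import Pool.Agent.Lib.H97G.NB

/-!
# H97G, chunk NC: the rest of the embedding as a finite union of segments

`Zr f u v` = everything of the embedding except the open first segment of the arc `u v`. Finite union of segments: `mem_arcSet_iff`
(H46K, TU1) for lists of length at least two, points are degenerate segments `[z, z]`; finitely many vertices and edges.
`Zr_disj`: `[p, q]` (`p = f.pt u`, `q = nx f u v`) meets `arcSet (rs f u v)` only in `q` (simple arc); it meets another arc only in a common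
end `f.pt w`, `w = u` (`w = v`: `f.pt v` is in `arcSet (rs f u v)`, so it is `q`, not in the open segment); `f.vert` for the vertices.
-/

namespace H97G

open H46K

variable {V : Type*} {G : SimpleGraph V}

/-- everything of the embedding except the open first segment of the arc `u v` -/
def Zr (f : SpatialGraph G) (u v : V) : Set P3 :=
  arcSet (rs f u v) ∪ Oth f u v ∪ Set.range f.pt

/-- finite unions of segments -/
def NC_fs (X : Set P3) : Prop :=
  ∃ S : Finset (P3 × P3), ∀ z, z ∈ X ↔ ∃ s ∈ S, z ∈ segment ℝ s.1 s.2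

theorem NC_arc (l : List P3) : NC_fs (arcSet l) := by
  classical
  induction l with
  | nil => exact ⟨∅, fun z => by simp [arcSet]⟩
  | cons a l ih =>
    cases l with
    | nil =>
      refine ⟨{(a, a)}, fun z => ?_⟩
      simp [arcSet]
    | cons b l =>
      obtain ⟨S, hS⟩ := ih
      refine ⟨insert (a, b) S, fun z => ?_⟩
      rw [IA_cons, Set.mem_union, hS z]
      simp only [Finset.mem_insert, exists_eq_or_imp]

theorem NC_union {X Y : Set P3} (hX : NC_fs X) (hY : NC_fs Y) : NC_fs (X ∪ Y) := by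
  classical
  obtain ⟨S, hS⟩ := hX
  obtain ⟨T, hT⟩ := hY
  refine ⟨S ∪ T, fun z => ?_⟩
  rw [Set.mem_union, hS z, hT z]
  simp only [Finset.mem_union, or_and_right, exists_or]

theorem NC_iUnion {ι : Type*} [Finite ι] (P : ι → Prop) (X : ι → Set P3)
    (hX : ∀ i, NC_fs (X i)) : NC_fs {z | ∃ i, P i ∧ z ∈ X i} := by
  classical
  have := Fintype.ofFinite ι
  choose S hS using hX
  refine ⟨(Finset.univ.filter P).biUnion S, fun z => ?_⟩
  constructor
  · rintro ⟨i, hi, hz⟩
    obtain ⟨s, hs, hzs⟩ := (hS i z).1 hz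
    exact ⟨s, Finset.mem_biUnion.2 ⟨i, Finset.mem_filter.2 ⟨Finset.mem_univ _, hi⟩, hs⟩, hzs⟩
  · rintro ⟨s, hs, hzs⟩
    obtain ⟨i, hi, hs'⟩ := Finset.mem_biUnion.1 hs
    exact ⟨i, (Finset.mem_filter.1 hi).2, (hS i z).2 ⟨s, hs', hzs⟩⟩

theorem Zr_segments [Finite V] (f : SpatialGraph G) (u v : V) (huv : G.Adj u v) :
    ∃ S : Finset (P3 × P3), ∀ z, z ∈ Zr f u v ↔ ∃ s ∈ S, z ∈ segment ℝ s.1 s.2 := by
  refine NC_union (NC_union (NC_arc _) ?_) ?_
  · have h := NC_iUnion (ι := V × V) (fun p => G.Adj p.1 p.2 ∧ s(p.1, p.2) ≠ s(u, v))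
      (fun p => arcSet (f.arc p.1 p.2)) (fun p => NC_arc _)
    convert h using 1
    ext z
    constructor
    · rintro ⟨x, y, h1, h2, h3⟩
      exact ⟨(x, y), ⟨h1, h2⟩, h3⟩
    · rintro ⟨⟨x, y⟩, ⟨h1, h2⟩, h3⟩
      exact ⟨x, y, h1, h2, h3⟩
  · have h := NC_iUnion (ι := V) (fun _ => True) (fun w => {f.pt w})
      (fun w => by simpa [arcSet] using NC_arc [f.pt w])
    convert h using 1
    ext z
    constructor
    · rintro ⟨w, rfl⟩
      exact ⟨w, trivial, rfl⟩
    · rintro ⟨w, -, h3⟩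
      exact ⟨w, h3.symm⟩

theorem NC_open_ne {a b z : P3} (hab : a ≠ b) (hz : z ∈ openSegment ℝ a b) : z ≠ a ∧ z ≠ b := by
  constructor
  · rintro rfl
    exact hab (left_mem_openSegment_iff.1 hz)
  · rintro rfl
    exact hab (right_mem_openSegment_iff.1 hz)

theorem Zr_disj (f : SpatialGraph G) (u v : V) (huv : G.Adj u v) :
    Disjoint (openSegment ℝ (f.pt u) (nx f u v)) (Zr f u v) := by
  obtain ⟨l, hl⟩ := rs_eq f u v
  have harc : f.arc u v = f.pt u :: nx f u v :: l := by
    show f.pt u :: (f.mid u v ++ [f.pt v]) = _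
    rw [← hl]
    rfl
  have hsim : IsSimple (f.pt u :: nx f u v :: l) := by
    rw [← harc]
    exact f.simple u v huv
  have hv : f.pt v ∈ arcSet (rs f u v) := mem_arcSet (by simp [rs])
  rw [Set.disjoint_left]
  intro z hz hZ
  obtain ⟨hz1, hz2⟩ := NC_open_ne hsim.1 hz
  have hseg : z ∈ segment ℝ (f.pt u) (nx f u v) := openSegment_subset_segment ℝ _ _ hz
  have hzarc : z ∈ arcSet (f.pt u :: (f.mid u v ++ [f.pt v])) := by
    show z ∈ arcSet (f.arc u v)
    rw [harc]
    exact Or.inl hseg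
  have key : z ∉ arcSet (rs f u v) := by
    intro h
    rw [hl] at h
    exact hz2 (hsim.2.1 ⟨hseg, h⟩)
  have key2 : ∀ w, (w = u ∨ w = v) → z ≠ f.pt w := by
    rintro w (rfl | rfl) h
    · exact hz1 h
    · exact key (by rw [h]; exact hv)
  rcases hZ with (h | ⟨x, y, hxy, hne, h⟩) | ⟨w, rfl⟩
  · exact key h
  · obtain ⟨w, hw, -, hzw⟩ := f.disj u v x y huv hxy hne.symm z ⟨hzarc, h⟩
    exact key2 w hw hzw
  · exact key2 w (f.vert u v w huv hzarc) rfl

end H97G
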