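import Pool.Agent.Lib.H97G.NC
import Pool.Agent.Lib.H97G.NB3

/-!
# H97G, chunk ND: the arc with finger and star is admissible

`L = y₁ :: x :: (m + t S) :: m :: y₂ :: f.mid u v`, the arc is `p, y₁, x, x*, m, y₂, q, ...`. Write `W = arcSet [y₁, x, x*, m, y₂]`; it is contained in
`convexHull {y₁, x, y₂} ∪ convexHull {x, x*, m}`, so it is disjoint from `Zr f u v` (`hull1`, `finger_star`) and meets `[p, q]` only in
`y₁`, `y₂`: a point of `[y₁, x]` on `[p, q]` is on `[y₁, y₂]` (`hull2`), and `x` is not on the line `p q` (`x ∉ [p, q]` by `mx`, `lp`). Simple: the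
path `W` is simple (`finger_star`, `hull1`, `hull2`, `li`), `[p, y₁]`, `[y₂, q]` are disjoint parts of `[p, q]`, `arcSet (rs f u v)` meets `[p, q]` only in
`q`. `disj`: a common point with another arc is not on `W`, so it is on the old arc. `vert`: same.
-/

namespace H97G

open H46K

variable {V : Type*} {G : SimpleGraph V}

/-- point of a line -/
def ND_L (p q : P3) (s : ℝ) : P3 := p + s • (q - p)

theorem ND_L_inj {p q : P3} (h : p ≠ q) {s t : ℝ} (e : ND_L p q s = ND_L p q t) : s = t := by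
  unfold ND_L at e
  have e1 : (s - t) • (q - p) = 0 := by
    rw [sub_smul]
    rw [sub_eq_zero]
    exact add_left_cancel e
  rcases smul_eq_zero.1 e1 with e2 | e2
  · linarith
  · exact absurd (sub_eq_zero.1 e2).symm h

theorem ND_seg {p q z : P3} {a b : ℝ} (hab : a ≤ b)
    (hz : z ∈ segment ℝ (ND_L p q a) (ND_L p q b)) : ∃ s, a ≤ s ∧ s ≤ b ∧ z = ND_L p q s := by
  rw [segment_eq_image'] at hz
  obtain ⟨t, ⟨ht0, ht1⟩, rfl⟩ := hz
  refine ⟨a + t * (b - a), ?_, ?_, ?_⟩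
  · nlinarith
  · nlinarith
  · unfold ND_L
    beta_reduce
    module

theorem ND_open {p q y : P3} (h : y ∈ openSegment ℝ p q) : ∃ a, 0 < a ∧ a < 1 ∧ y = ND_L p q a := by
  rw [openSegment_eq_image'] at h
  obtain ⟨t, ⟨ht0, ht1⟩, rfl⟩ := h
  exact ⟨t, ht0, ht1, rfl⟩

theorem ND_open2 {p q y : P3} {a : ℝ} (ha : a < 1) (h : y ∈ openSegment ℝ (ND_L p q a) q) :
    ∃ b, a < b ∧ b < 1 ∧ y = ND_L p q b := by
  rw [openSegment_eq_image'] at h
  obtain ⟨t, ⟨ht0, ht1⟩, rfl⟩ := h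
  refine ⟨a + t * (1 - a), ?_, ?_, ?_⟩
  · nlinarith
  · nlinarith
  · unfold ND_L
    beta_reduce
    module

theorem ND_L0 (p q : P3) : ND_L p q 0 = p := by
  unfold ND_L
  module

theorem ND_L1 (p q : P3) : ND_L p q 1 = q := by
  unfold ND_L
  module

/-- first coordinates of points of a segment -/
theorem ND_fst {a b z : P3} (hz : z ∈ segment ℝ a b) :
    ∃ t : ℝ, 0 ≤ t ∧ t ≤ 1 ∧ z = a + t • (b - a) ∧ z.1 = a.1 + t * (b.1 - a.1) := by
  rw [segment_eq_image'] at hz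
  obtain ⟨t, ⟨ht0, ht1⟩, rfl⟩ := hz
  exact ⟨t, ht0, ht1, rfl, rfl⟩

theorem ND_mid {a b c z : P3} (hb : b ∈ openSegment ℝ a c) (hac : a ≠ c)
    (h1 : z ∈ segment ℝ a b) (h2 : z ∈ segment ℝ b c) : z = b := by
  obtain ⟨t, ht0, ht1, rfl⟩ := ND_open hb
  have h1' : z ∈ segment ℝ (ND_L a c 0) (ND_L a c t) := by
    rw [ND_L0]
    exact h1
  have h2' : z ∈ segment ℝ (ND_L a c t) (ND_L a c 1) := by
    rw [ND_L1]
    exact h2
  obtain ⟨s, hs0, hs1, hs⟩ := ND_seg ht0.le h1'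
  obtain ⟨s', hs0', hs1', hs'⟩ := ND_seg ht1.le h2'
  have h3 := ND_L_inj hac (hs.symm.trans hs')
  have h4 : s = t := by linarith
  rw [hs, h4]

/-- the new arc is in the union of two hulls and the old arc -/
theorem ND_sub {p q y₁ x xs m y₂ : P3} (l : List P3) (hy1 : y₁ ∈ segment ℝ p q)
    (hy2 : y₂ ∈ segment ℝ p q) (hm : m ∈ segment ℝ x y₂) :
    arcSet (p :: y₁ :: x :: xs :: m :: y₂ :: q :: l) ⊆
      convexHull ℝ {y₁, x, y₂} ∪ convexHull ℝ {x, xs, m} ∪ arcSet (p :: q :: l) := by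
  have hc1 : Convex ℝ (convexHull ℝ ({y₁, x, y₂} : Set P3)) := convex_convexHull ℝ _
  have hc2 : Convex ℝ (convexHull ℝ ({x, xs, m} : Set P3)) := convex_convexHull ℝ _
  have hcs : Convex ℝ (segment ℝ p q) := convex_segment p q
  have a1 : y₁ ∈ convexHull ℝ ({y₁, x, y₂} : Set P3) := subset_convexHull ℝ _ (by simp)
  have a2 : x ∈ convexHull ℝ ({y₁, x, y₂} : Set P3) := subset_convexHull ℝ _ (by simp)
  have a3 : y₂ ∈ convexHull ℝ ({y₁, x, y₂} : Set P3) := subset_convexHull ℝ _ (by simp)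
  have b1 : x ∈ convexHull ℝ ({x, xs, m} : Set P3) := subset_convexHull ℝ _ (by simp)
  have b2 : xs ∈ convexHull ℝ ({x, xs, m} : Set P3) := subset_convexHull ℝ _ (by simp)
  have b3 : m ∈ convexHull ℝ ({x, xs, m} : Set P3) := subset_convexHull ℝ _ (by simp)
  have a4 : m ∈ convexHull ℝ ({y₁, x, y₂} : Set P3) := hc1.segment_subset a2 a3 hm
  rintro z (hz | hz | hz | hz | hz | hz | hz)
  · exact Or.inr (Or.inl (hcs.segment_subset (left_mem_segment ℝ p q) hy1 hz))
  · exact Or.inl (Or.inl (hc1.segment_subset a1 a2 hz))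
  · exact Or.inl (Or.inr (hc2.segment_subset b1 b2 hz))
  · exact Or.inl (Or.inr (hc2.segment_subset b2 b3 hz))
  · exact Or.inl (Or.inl (hc1.segment_subset a4 a3 hz))
  · exact Or.inr (Or.inl (hcs.segment_subset hy2 (right_mem_segment ℝ p q) hz))
  · exact Or.inr (Or.inr hz)

/-- the new arc is simple -/
theorem ND_simple {p q : P3} {Z : Set P3} {y₁ x m y₂ S : P3} (h : Finger p q Z y₁ x m y₂ S)
    (l : List P3) (hZ : arcSet (q :: l) ⊆ Z) (hs : IsSimple (p :: q :: l)) (t : ℝ) (ht : 0 < t) :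
    IsSimple (p :: y₁ :: x :: (m + t • S) :: m :: y₂ :: q :: l) := by
  obtain ⟨hpq, hs1, hs2⟩ := hs
  obtain ⟨fs1, fs2, fs3, fs4⟩ := finger_star h t ht
  have hy1 := openSegment_subset_segment ℝ _ _ h.y1
  obtain ⟨a, ha0, ha1, hya⟩ := ND_open h.y1
  have hy2' := h.y2
  rw [hya] at hy2'
  obtain ⟨b, hab, hb1, hyb⟩ := ND_open2 ha1 hy2'
  have e0 := ND_L0 p q
  have e1 := ND_L1 p q
  have hy2 : y₂ ∈ segment ℝ p q := by
    rw [segment_eq_image']
    exact ⟨b, ⟨by linarith, hb1.le⟩, hyb.symm⟩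
  have hcs : Convex ℝ (segment ℝ p q) := convex_segment p q
  set xs : P3 := m + t • S with hxs
  have hS1 : S.1 = 0 := by
    rcases h.hS with h1 | h1 <;> rw [h1]
  have hS0 : S ≠ 0 := by
    rcases h.hS with h1 | h1 <;> rw [h1] <;> simp
  have hxs1 : xs.1 = m.1 := by
    rw [hxs]
    show m.1 + t * S.1 = m.1
    rw [hS1]
    ring
  have hc1 : Convex ℝ (convexHull ℝ ({y₁, x, y₂} : Set P3)) := convex_convexHull ℝ _
  have hc2 : Convex ℝ (convexHull ℝ ({x, xs, m} : Set P3)) := convex_convexHull ℝ _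
  have a1 : y₁ ∈ convexHull ℝ ({y₁, x, y₂} : Set P3) := subset_convexHull ℝ _ (by simp)
  have a2 : x ∈ convexHull ℝ ({y₁, x, y₂} : Set P3) := subset_convexHull ℝ _ (by simp)
  have a3 : y₂ ∈ convexHull ℝ ({y₁, x, y₂} : Set P3) := subset_convexHull ℝ _ (by simp)
  have b1 : x ∈ convexHull ℝ ({x, xs, m} : Set P3) := subset_convexHull ℝ _ (by simp)
  have b2 : xs ∈ convexHull ℝ ({x, xs, m} : Set P3) := subset_convexHull ℝ _ (by simp)
  have b3 : m ∈ convexHull ℝ ({x, xs, m} : Set P3) := subset_convexHull ℝ _ (by simp)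
  have hm := openSegment_subset_segment ℝ _ _ h.mm
  have a4 : m ∈ convexHull ℝ ({y₁, x, y₂} : Set P3) := hc1.segment_subset a2 a3 hm
  have hxy2 : x ≠ y₂ := by
    intro e
    have h1 := h.lp.2.2.2
    have h2 := h.mx
    rw [e] at h2
    linarith
  -- disjointness from the rest
  have z1 : ∀ z, z ∈ convexHull ℝ ({y₁, x, y₂} : Set P3) → z ∉ arcSet (q :: l) := fun z hz hz' =>
    Set.disjoint_left.1 h.hull1 hz (hZ hz')
  have z2 : ∀ z, z ∈ convexHull ℝ ({x, xs, m} : Set P3) → z ∉ arcSet (q :: l) := fun z hz hz' =>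
    Set.disjoint_left.1 fs1 hz (hZ hz')
  have z3 : ∀ z, z ∈ convexHull ℝ ({x, xs, m} : Set P3) → z ∉ segment ℝ y₂ q := fun z hz hz' =>
    Set.disjoint_left.1 fs2 hz (hcs.segment_subset hy2 (right_mem_segment ℝ p q) hz')
  have z4 : ∀ z, z ∈ convexHull ℝ ({x, xs, m} : Set P3) → z ∉ segment ℝ p y₁ := fun z hz hz' =>
    Set.disjoint_left.1 fs2 hz (hcs.segment_subset (left_mem_segment ℝ p q) hy1 hz')
  have seg2q : ∀ z, z ∈ segment ℝ y₂ q → ∃ s, b ≤ s ∧ s ≤ 1 ∧ z = ND_L p q s := by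
    intro z hz
    rw [hyb] at hz
    nth_rewrite 2 [← e1] at hz
    exact ND_seg hb1.le hz
  have segp1 : ∀ z, z ∈ segment ℝ p y₁ → ∃ s, 0 ≤ s ∧ s ≤ a ∧ z = ND_L p q s := by
    intro z hz
    rw [hya] at hz
    nth_rewrite 1 [← e0] at hz
    exact ND_seg ha0.le hz
  have seg12 : ∀ z, z ∈ segment ℝ y₁ y₂ → ∃ s, a ≤ s ∧ s ≤ b ∧ z = ND_L p q s := by
    intro z hz
    rw [hya, hyb] at hz
    exact ND_seg hab.le hz
  -- hull1 and the two parts of the segment
  have k1 : ∀ z, z ∈ convexHull ℝ ({y₁, x, y₂} : Set P3) → z ∈ segment ℝ y₂ q → z = y₂ := by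
    intro z hz hz'
    obtain ⟨s, hs0, hs1', hs⟩ := seg2q z hz'
    obtain ⟨s', hs0', hs1'', hs'⟩ := seg12 z
      (h.hull2 ⟨hz, hcs.segment_subset hy2 (right_mem_segment ℝ p q) hz'⟩)
    have h3 := ND_L_inj hpq (hs.symm.trans hs')
    have h4 : s = b := by linarith
    rw [hs, h4, hyb]
  have k2 : ∀ z, z ∈ convexHull ℝ ({y₁, x, y₂} : Set P3) → z ∈ segment ℝ p y₁ → z = y₁ := by
    intro z hz hz'
    obtain ⟨s, hs0, hs1', hs⟩ := segp1 z hz'
    obtain ⟨s', hs0', hs1'', hs'⟩ := seg12 z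
      (h.hull2 ⟨hz, hcs.segment_subset (left_mem_segment ℝ p q) hy1 hz'⟩)
    have h3 := ND_L_inj hpq (hs.symm.trans hs')
    have h4 : s = a := by linarith
    rw [hs, h4, hya]
  have k3 : ∀ z, z ∈ segment ℝ p y₁ → z ∉ segment ℝ y₂ q := by
    intro z hz hz'
    obtain ⟨s, hs0, hs1', hs⟩ := segp1 z hz
    obtain ⟨s', hs0', hs1'', hs'⟩ := seg2q z hz'
    have h3 := ND_L_inj hpq (hs.symm.trans hs')
    linarith
  have k4 : ∀ z, z ∈ segment ℝ p y₁ → z ∉ arcSet (q :: l) := by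
    intro z hz hz'
    have h5 : z = q := hs1 ⟨hcs.segment_subset (left_mem_segment ℝ p q) hy1 hz, hz'⟩
    obtain ⟨s, hs0, hs1', hs⟩ := segp1 z hz
    rw [h5] at hs
    nth_rewrite 1 [← e1] at hs
    have h3 := ND_L_inj hpq hs
    linarith
  have k5 : ∀ z, z ∈ segment ℝ x m → z ∈ segment ℝ m y₂ → z = m := fun z hz hz' =>
    ND_mid h.mm hxy2 hz hz'
  have k6 : segment ℝ m y₂ ⊆ segment ℝ x y₂ :=
    (convex_segment x y₂).segment_subset hm (right_mem_segment ℝ x y₂)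
  -- linear independence
  have k7 : ∀ σ τ : ℝ, σ • (y₁ - x) = τ • (y₂ - x) → σ = 0 ∧ τ = 0 := by
    intro σ τ hst
    have hli := Fintype.linearIndependent_iff.1 h.li ![σ, -τ, 0] (by
      simp only [Fin.sum_univ_three, Matrix.cons_val_zero, Matrix.cons_val_one,
        Matrix.cons_val_two, Matrix.tail_cons, Matrix.head_cons, Matrix.cons_val]
      rw [hst]
      simp)
    have g0 := hli 0
    have g1 := hli 1
    simp at g0 g1
    exact ⟨g0, g1⟩
  have c5 : IsSimple (y₂ :: q :: l) := by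
    refine ⟨?_, ?_, hs2⟩
    · intro e
      rw [hyb] at e
      nth_rewrite 2 [← e1] at e
      have := ND_L_inj hpq e
      linarith
    · rintro z ⟨hz, hz'⟩
      exact hs1 ⟨hcs.segment_subset hy2 (right_mem_segment ℝ p q) hz, hz'⟩
  have c4 : IsSimple (m :: y₂ :: q :: l) := by
    refine ⟨?_, ?_, c5⟩
    · intro e
      have h1 := h.lp.2.2.2
      rw [e] at h1
      exact lt_irrefl _ h1
    · rintro z ⟨hz, hz' | hz'⟩
      · exact k1 z (hc1.segment_subset a4 a3 hz) hz'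
      · exact absurd hz' (z1 z (hc1.segment_subset a4 a3 hz))
  have hxsm : xs ≠ m := by
    intro e
    rw [hxs] at e
    have e' : t • S = 0 := by
      have := congrArg (fun w => w - m) e
      simpa using this
    rcases smul_eq_zero.1 e' with e2 | e2
    · exact ht.ne' e2
    · exact hS0 e2
  have c3 : IsSimple (xs :: m :: y₂ :: q :: l) := by
    refine ⟨hxsm, ?_, c4⟩
    rintro z ⟨hz, hz' | hz' | hz'⟩
    · exact k5 z (fs4 ⟨hc2.segment_subset b2 b3 hz, k6 hz'⟩) hz'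
    · exact absurd hz' (z3 z (hc2.segment_subset b2 b3 hz))
    · exact absurd hz' (z2 z (hc2.segment_subset b2 b3 hz))
  have hxxs : x ≠ xs := by
    intro e
    have h1 := h.mx
    rw [e, hxs1] at h1
    exact lt_irrefl _ h1
  have hone : ∀ z, z ∈ segment ℝ x xs → z.1 = m.1 → z = xs := by
    intro z hz hz1
    obtain ⟨r, hr0, hr1, hr2, hr3⟩ := ND_fst hz
    rw [hz1, hxs1] at hr3
    have h1 := h.mx
    have h2 : (1 - r) * (x.1 - m.1) = 0 := by linarith
    rcases mul_eq_zero.1 h2 with h3 | h3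
    · have h4 : r = 1 := by linarith
      rw [hr2, h4]
      module
    · linarith
  have c2 : IsSimple (x :: xs :: m :: y₂ :: q :: l) := by
    refine ⟨hxxs, ?_, c3⟩
    rintro z ⟨hz, hz' | hz' | hz' | hz'⟩
    · apply hone z hz
      obtain ⟨r, hr0, hr1, hr2, hr3⟩ := ND_fst hz'
      rw [hr3, hxs1]
      ring
    · exfalso
      have h1 : z = m := k5 z (fs4 ⟨hc2.segment_subset b1 b2 hz, k6 hz'⟩) hz'
      rw [h1] at hz
      exact hxsm (hone m hz rfl).symm
    · exact absurd hz' (z3 z (hc2.segment_subset b1 b2 hz))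
    · exact absurd hz' (z2 z (hc2.segment_subset b1 b2 hz))
  have c1 : IsSimple (y₁ :: x :: xs :: m :: y₂ :: q :: l) := by
    refine ⟨?_, ?_, c2⟩
    · intro e
      have h1 := h.lp.2.2.1
      have h2 := h.mx
      rw [e] at h1
      linarith
    · rintro z ⟨hz, hz' | hz' | hz' | hz' | hz'⟩
      · exact fs3 ⟨hc2.segment_subset b1 b2 hz', hz⟩
      · exact fs3 ⟨hc2.segment_subset b2 b3 hz', hz⟩
      · rw [segment_symm] at hz
        obtain ⟨r, hr0, hr1, hr2, hr3⟩ := ND_fst hz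
        obtain ⟨r', hr0', hr1', hr2', hr3'⟩ := ND_fst (k6 hz')
        have h1 : r • (y₁ - x) = r' • (y₂ - x) := by
          have h2 := hr2.symm.trans hr2'
          exact add_left_cancel h2
        have h3 := (k7 r r' h1).1
        rw [hr2, h3, zero_smul, add_zero]
        exact Set.mem_singleton x
      · exfalso
        have h1 := k1 z (hc1.segment_subset a1 a2 hz) hz'
        rw [segment_symm, h1] at hz
        obtain ⟨r, hr0, hr1, hr2, hr3⟩ := ND_fst hz
        have h2 : r • (y₁ - x) = (1 : ℝ) • (y₂ - x) := by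
          rw [one_smul, eq_sub_iff_add_eq, add_comm]
          exact hr2.symm
        have h3 := (k7 r 1 h2).2
        exact one_ne_zero h3
      · exact absurd hz' (z1 z (hc1.segment_subset a1 a2 hz))
  refine ⟨?_, ?_, c1⟩
  · intro e
    rw [hya] at e
    nth_rewrite 1 [← e0] at e
    have := ND_L_inj hpq e
    linarith
  · rintro z ⟨hz, hz' | hz' | hz' | hz' | hz' | hz'⟩
    · exact k2 z (hc1.segment_subset a1 a2 hz') hz
    · exact absurd hz (z4 z (hc2.segment_subset b1 b2 hz'))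
    · exact absurd hz (z4 z (hc2.segment_subset b2 b3 hz'))
    · exact k2 z (hc1.segment_subset a4 a3 hz') hz
    · exact absurd hz' (k3 z hz)
    · exact absurd hz' (k4 z hz)

theorem finger_upd (f : SpatialGraph G) (u v : V) (huv : G.Adj u v) {y₁ x m y₂ S : P3}
    (h : Finger (f.pt u) (nx f u v) (Zr f u v) y₁ x m y₂ S) (t : ℝ) (ht : 0 < t) :
    Upd f u v (y₁ :: x :: (m + t • S) :: m :: y₂ :: f.mid u v) := by
  obtain ⟨l, hl⟩ := rs_eq f u v
  have hlist : f.pt u :: ((y₁ :: x :: (m + t • S) :: m :: y₂ :: f.mid u v) ++ [f.pt v]) =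
      f.pt u :: y₁ :: x :: (m + t • S) :: m :: y₂ :: nx f u v :: l := by
    rw [← hl]
    rfl
  have harc : f.arc u v = f.pt u :: nx f u v :: l := by
    rw [← hl]
    rfl
  have hZ : arcSet (nx f u v :: l) ⊆ Zr f u v := by
    rw [← hl]
    intro z hz
    exact Or.inl (Or.inl hz)
  have hs : IsSimple (f.pt u :: nx f u v :: l) := by
    rw [← harc]
    exact f.simple u v huv
  have hpq : f.pt u ≠ nx f u v := hs.1
  obtain ⟨fs1, fs2, fs3, fs4⟩ := finger_star h t ht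
  have hy1 := openSegment_subset_segment ℝ _ _ h.y1
  have hy2 : y₂ ∈ segment ℝ (f.pt u) (nx f u v) := by
    have h2 := openSegment_subset_segment ℝ _ _ h.y2
    exact (convex_segment _ _).segment_subset hy1 (right_mem_segment ℝ _ _) h2
  have hm := openSegment_subset_segment ℝ _ _ h.mm
  have hsub := ND_sub (xs := m + t • S) l hy1 hy2 hm
  have key : ∀ z, z ∈ arcSet (f.pt u :: ((y₁ :: x :: (m + t • S) :: m :: y₂ :: f.mid u v) ++
      [f.pt v])) → z ∈ Zr f u v → z ∈ arcSet (f.arc u v) := by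
    intro z hz hz'
    rw [hlist] at hz
    rw [harc]
    rcases hsub hz with (h1 | h1) | h1
    · exact absurd hz' (Set.disjoint_left.1 h.hull1 h1)
    · exact absurd hz' (Set.disjoint_left.1 fs1 h1)
    · exact h1
  refine ⟨?_, ?_, ?_⟩
  · rw [hlist]
    exact ND_simple h l hZ hs t ht
  · rintro x' y' hxy' hne z ⟨hz, hz'⟩
    have h1 := key z hz (Or.inl (Or.inr ⟨x', y', hxy', hne, hz'⟩))
    exact f.disj u v x' y' huv hxy' hne.symm z ⟨h1, hz'⟩
  · intro w hw
    have h1 := key _ hw (Or.inr ⟨w, rfl⟩)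
    exact f.vert u v w huv h1

end H97G
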