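import Pool.Agent.Lib.H97G.NC
import Pool.Agent.Lib.H97G.NB3
import Pool.Agent.Lib.H97G.IH

/-!
# H97G, chunk NE: the finger and the star do not change the knot types

Let `f.mid u v ++ f.pt v :: R = q :: R'` (`q = nx f u v`), so the old polygon is `p :: q :: R'`, and
`arcSet (q :: (R' ++ [p])) ⊆ Zr f u v` (arcs: `arcSet (rs f u v)` and `arcSet (f.pt v :: (R ++ [f.pt u]))`, `arcSet_append`).
`sub_ins y₁`: `p :: y₁ :: q :: R'`; rotate to `y₁ :: q :: (R' ++ [p])`, `sub_ins y₂`: `y₁ :: y₂ :: q :: (R' ++ [p])`;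
`ins y₁ x y₂ (q :: (R' ++ [p]))`: the hull meets `[y₂, q]` only in `y₂`, `[p, y₁]` only in `y₁` (`hull2`), the rest not (`hull1`).
Rotate to `x :: y₂ :: q :: (R' ++ [p, y₁])`, `sub_ins m`: `x :: m :: y₂ :: q :: (R' ++ [p, y₁])`, `ins x (m + t S) m (y₂ :: ..)`: by
`finger_star`: `[m, y₂]` meets the hull only in `m` (a point of `[x, m]` and of `[m, y₂]`), `[y₁, x]` only in `x`, the others not. Rotate back.
-/

namespace H97G

open H46K

variable {V : Type*} {G : SimpleGraph V}

theorem ne_open {a b v : P3} (hv : v ∈ openSegment ℝ a b) :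
    segment ℝ a v ∩ segment ℝ v b ⊆ {v} := by
  obtain ⟨c, d, hc, hd, hcd, rfl⟩ := hv
  rintro X ⟨⟨s, t, hs, ht, hst, rfl⟩, ⟨s', t', hs', ht', hst', e⟩⟩
  rw [Set.mem_singleton_iff]
  have hc' : c = 1 - d := by linarith
  have hs1 : s = 1 - t := by linarith
  have hs2 : s' = 1 - t' := by linarith
  subst hc' hs1 hs2
  -- `X = a + t d (b - a) = a + (d + t' (1 - d)) (b - a)`
  have e1 : (d + t' * (1 - d) - t * d) • (b - a) = 0 := by
    have h1 : (1 - t') • ((1 - d) • a + d • b) + t' • b -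
        ((1 - t) • a + t • ((1 - d) • a + d • b)) = (d + t' * (1 - d) - t * d) • (b - a) := by
      module
    rw [← h1, e, sub_self]
  have e2 : (1 - t) • a + t • ((1 - d) • a + d • b) - ((1 - d) • a + d • b) =
      ((t - 1) * d) • (b - a) := by
    module
  rw [← sub_eq_zero, e2]
  rcases smul_eq_zero.1 e1 with h | h
  · have h2 : d * (1 - t) + t' * (1 - d) = 0 := by linear_combination h
    have h3 : 0 ≤ d * (1 - t) := mul_nonneg hd.le (by linarith)
    have h4 : 0 ≤ t' * (1 - d) := mul_nonneg ht' (by linarith)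
    have h5 : d * (1 - t) = 0 := by linarith
    have h6 : (t - 1) * d = 0 := by linear_combination -h5
    rw [h6, zero_smul]
  · rw [h, smul_zero]

/-- Two sides of a triangle with linearly independent sides. -/
theorem ne_li {a v b : P3} (h : ∀ s t : ℝ, s • (a - v) + t • (b - v) = 0 → s = 0 ∧ t = 0) :
    a ≠ v ∧ v ≠ b ∧ segment ℝ a v ∩ segment ℝ v b ⊆ {v} := by
  refine ⟨?_, ?_, ?_⟩
  · rintro rfl
    have := (h 1 0 (by simp)).1
    norm_num at this
  · rintro rfl
    have := (h 0 1 (by simp)).2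
    norm_num at this
  · rintro X ⟨⟨s, t, hs, ht, hst, rfl⟩, ⟨s', t', hs', ht', hst', e⟩⟩
    rw [Set.mem_singleton_iff]
    have hs1 : t = 1 - s := by linarith
    have hs2 : s' = 1 - t' := by linarith
    subst hs1 hs2
    have e1 : s • (a - v) + (-t') • (b - v) = 0 := by
      have h1 : s • (a - v) + (-t') • (b - v) =
          (s • a + (1 - s) • v) - ((1 - t') • v + t' • b) := by
        module
      rw [h1, e, sub_self]
    have h2 := (h _ _ e1).1
    subst h2
    simp

theorem finger_move (f : SpatialGraph G) (u v : V) (huv : G.Adj u v) {y₁ x m y₂ S : P3}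
    (h : Finger (f.pt u) (nx f u v) (Zr f u v) y₁ x m y₂ S) (t : ℝ) (ht : 0 < t) (R : List P3)
    (hR : arcSet (f.pt v :: (R ++ [f.pt u])) ⊆ Oth f u v)
    (hU : Unknot (f.pt u :: (f.mid u v ++ f.pt v :: R))) :
    Unknot (f.pt u :: ((y₁ :: x :: (m + t • S) :: m :: y₂ :: f.mid u v) ++ f.pt v :: R)) := by
  obtain ⟨l, hl⟩ := rs_eq f u v
  set p := f.pt u with hp
  set q := nx f u v with hq
  have e1 : f.mid u v ++ f.pt v :: R = q :: (l ++ R) := by
    have : f.mid u v ++ f.pt v :: R = rs f u v ++ R := by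
      unfold rs
      simp
    rw [this, hl]
    simp
  have hA : arcSet (q :: ((l ++ R) ++ [p])) ⊆ Zr f u v := by
    have e2 : q :: ((l ++ R) ++ [p]) = f.mid u v ++ f.pt v :: (R ++ [p]) := by
      have : q :: ((l ++ R) ++ [p]) = (q :: (l ++ R)) ++ [p] := rfl
      rw [this, ← e1]
      simp
    rw [e2, arcSet_append]
    rintro z (hz | hz)
    · exact Or.inl (Or.inl hz)
    · exact Or.inl (Or.inr (hR hz))
  rw [e1] at hU
  have e3 : (y₁ :: x :: (m + t • S) :: m :: y₂ :: f.mid u v) ++ f.pt v :: R =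
      y₁ :: x :: (m + t • S) :: m :: y₂ :: q :: (l ++ R) := by
    rw [← e1]
    simp
  rw [e3]
  set R' := l ++ R with hR'
  obtain ⟨st1, st2, st3, st4⟩ := finger_star h t ht
  -- step 1, 2
  have u1 : Unknot (p :: y₁ :: q :: R') := sub_ins h.y1 hU
  have u2 : Unknot (y₁ :: q :: (R' ++ [p])) := Unknot.rot _ _ ⟨1, by simp⟩ u1
  have u3 : Unknot (y₁ :: y₂ :: q :: (R' ++ [p])) := sub_ins h.y2 u2
  -- positions on the segment
  have hpy : segment ℝ p y₁ ⊆ segment ℝ p q := by
    apply (convex_segment p q).segment_subset (left_mem_segment ℝ p q)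
    exact openSegment_subset_segment ℝ p q h.y1
  have hy1 : y₁ ∈ segment ℝ p q := openSegment_subset_segment ℝ p q h.y1
  have hy2 : y₂ ∈ segment ℝ p q := by
    have h1 : segment ℝ y₁ q ⊆ segment ℝ p q :=
      (convex_segment p q).segment_subset hy1 (right_mem_segment ℝ p q)
    exact h1 (openSegment_subset_segment ℝ _ _ h.y2)
  have hyq : segment ℝ y₂ q ⊆ segment ℝ p q :=
    (convex_segment p q).segment_subset hy2 (right_mem_segment ℝ p q)
  have hy1' : y₁ ∈ openSegment ℝ p y₂ := by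
    obtain ⟨a, b, ha, hb, hab, e⟩ := h.y1
    obtain ⟨a', b', ha', hb', hab', e'⟩ := h.y2
    -- `q = (y₂ - a' y₁) / b'`, `y₁ = a p + b q`
    have hden : 0 < b' + b * a' := by positivity
    refine ⟨a * b' / (b' + b * a'), b / (b' + b * a'), by positivity, by positivity, ?_, ?_⟩
    · rw [← add_div, div_eq_one_iff_eq hden.ne']
      have : a = 1 - b := by linarith
      rw [this]
      have : a' = 1 - b' := by linarith
      rw [this]
      ring
    · have k1 : (b' + b * a') • y₁ = (a * b') • p + b • y₂ := by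
        rw [← e', ← e]
        module
      have k2 : y₁ = (b' + b * a')⁻¹ • ((a * b') • p + b • y₂) := by
        rw [← k1, smul_smul, inv_mul_cancel₀ hden.ne', one_smul]
      conv_rhs => rw [k2]
      rw [smul_add, smul_smul, smul_smul, div_eq_inv_mul, div_eq_inv_mul]
  -- step 3
  have hli1 : ∀ s t : ℝ, s • (y₁ - x) + t • (y₂ - x) = 0 → s = 0 ∧ t = 0 := by
    intro s t e
    obtain ⟨a1, a2, -⟩ := nb3_zero _ _ _ h.li s t 0 (by rw [zero_smul, add_zero]; exact e)
    exact ⟨a1, a2⟩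
  obtain ⟨c1, c2, c3⟩ := ne_li hli1
  have u4 : Unknot (y₁ :: x :: y₂ :: q :: (R' ++ [p])) := by
    refine Unknot.ins y₁ x y₂ (q :: (R' ++ [p])) c1 c2 c3 ?_ u3
    have e4 : y₂ :: ((q :: (R' ++ [p])) ++ [y₁]) = y₂ :: q :: ((R' ++ p :: [y₁])) := by simp
    rw [e4]
    rintro z ⟨hz1, hz2⟩
    rcases hz2 with hz2 | hz2
    · have h1 := h.hull2 ⟨hz1, hyq hz2⟩
      exact Or.inr (ne_open h.y2 ⟨h1, hz2⟩)
    · have e5 : q :: (R' ++ p :: [y₁]) = (q :: R') ++ p :: [y₁] := rfl
      rw [e5, arcSet_append] at hz2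
      rcases hz2 with hz2 | hz2
      · exact absurd (hA hz2) (fun h' => Set.disjoint_left.1 h.hull1 hz1 h')
      · rcases hz2 with hz2 | hz2
        · have h1 := h.hull2 ⟨hz1, hpy hz2⟩
          left
          exact ne_open hy1' ⟨hz2, h1⟩
        · left
          exact hz2
  have u5 : Unknot (x :: y₂ :: q :: ((R' ++ [p]) ++ [y₁])) := Unknot.rot _ _ ⟨1, by simp⟩ u4
  have u6 : Unknot (x :: m :: y₂ :: q :: ((R' ++ [p]) ++ [y₁])) := sub_ins h.mm u5
  -- step 5
  obtain ⟨μ', μ, hμ', hμ, hμs, hm⟩ := h.mm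
  have hli2 : ∀ s s' : ℝ, s • (x - (m + t • S)) + s' • (m - (m + t • S)) = 0 →
      s = 0 ∧ s' = 0 := by
    intro s s' e
    have hmx : m - x = μ • (y₂ - x) := by
      rw [← hm]
      have : μ' = 1 - μ := by linarith
      rw [this]
      module
    have e6 : (0 : ℝ) • (y₁ - x) + (-(s * μ)) • (y₂ - x) + (-((s + s') * t)) • S = 0 := by
      have : s • (x - (m + t • S)) + s' • (m - (m + t • S)) =
          (-s) • (m - x) + (-((s + s') * t)) • S := by
        module
      rw [this, hmx] at e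
      rw [← e]
      module
    obtain ⟨-, a2, a3⟩ := nb3_zero _ _ _ h.li _ _ _ e6
    have hs : s = 0 := by
      rcases mul_eq_zero.1 (neg_eq_zero.1 a2) with h | h
      · exact h
      · exact absurd h hμ.ne'
    subst hs
    refine ⟨rfl, ?_⟩
    rcases mul_eq_zero.1 (neg_eq_zero.1 a3) with h | h
    · linarith
    · exact absurd h ht.ne'
  obtain ⟨d1, d2, d3⟩ := ne_li hli2
  have hxm : segment ℝ m y₂ ⊆ segment ℝ x y₂ := by
    apply (convex_segment x y₂).segment_subset _ (right_mem_segment ℝ x y₂)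
    exact openSegment_subset_segment ℝ _ _ h.mm
  have u7 : Unknot (x :: (m + t • S) :: m :: y₂ :: q :: ((R' ++ [p]) ++ [y₁])) := by
    refine Unknot.ins x (m + t • S) m (y₂ :: q :: ((R' ++ [p]) ++ [y₁])) d1 d2 d3 ?_ u6
    have e7 : m :: ((y₂ :: q :: ((R' ++ [p]) ++ [y₁])) ++ [x]) =
        m :: y₂ :: q :: (R' ++ p :: y₁ :: [x]) := by simp
    rw [e7]
    rintro z ⟨hz1, hz2⟩
    rcases hz2 with hz2 | hz2
    · right
      exact ne_open h.mm ⟨st4 ⟨hz1, hxm hz2⟩, hz2⟩
    rcases hz2 with hz2 | hz2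
    · exact absurd (hyq hz2) (fun h' => Set.disjoint_left.1 st2 hz1 h')
    have e8 : q :: (R' ++ p :: y₁ :: [x]) = (q :: R') ++ p :: y₁ :: [x] := rfl
    rw [e8, arcSet_append] at hz2
    rcases hz2 with hz2 | hz2
    · exact absurd (hA hz2) (fun h' => Set.disjoint_left.1 st1 hz1 h')
    rcases hz2 with hz2 | hz2
    · exact absurd (hpy hz2) (fun h' => Set.disjoint_left.1 st2 hz1 h')
    rcases hz2 with hz2 | hz2
    · left
      exact st3 ⟨hz1, hz2⟩
    · left
      exact hz2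
  refine Unknot.rot _ _ ?_ u7
  refine ⟨(x :: (m + t • S) :: m :: y₂ :: q :: R').length, ?_⟩
  have e9 : x :: (m + t • S) :: m :: y₂ :: q :: ((R' ++ [p]) ++ [y₁]) =
      (x :: (m + t • S) :: m :: y₂ :: q :: R') ++ [p, y₁] := by simp
  rw [e9, List.rotate_append_length_eq]
  rfl

end H97G
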