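import Pool.Agent.Lib.H97G.D0

/-!
# H97G, chunk NF: normalisation by an affine map

`exists_norm`: coordinates relative to `x`: `a = X.1 - x.1`, `s` = the coordinate of `X - x` in the direction `S` (second or third), `r` = the
remaining one. `c = x.1 - m.1 > 0`; on `F`: `a ≤ -c`, `|a| ≤ A`, `|s| ≤ R`. `M = (R + 1) / c`, `t = 2 R + 1 + M A + ...` large,
`z* = s(m) + t + M c`, `η = c / (s(m) + t)`, `z = (s - M a) / z*`, `φ X = (-(a + η s), r - r(m) z, z)`.
`φ x = 0`; `X = m + t S`: `a = -c`, `s = s(m) + t`, `r = r(m)`: `φ = (0, 0, 1)`. On `F`: `-(a + η s) ≥ c - η R > 0` if `s(m) + t > R`;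
`s - M a ≥ -R + (R + 1) > 0`; `s - M a ≤ R + M A < z*`. `φ` is bijective: `a, s` are determined by `a + η s` and `s - M a`
(determinant `1 + M η > 0`), then `r`.
-/

namespace H97G

open H46K

/-- the linear part of the normalisation (`s`, `r` the two last coordinates in some order) -/
noncomputable def NF_lin (η M zs rm : ℝ) : P3 →ₗ[ℝ] P3 where
  toFun X := (-(X.1 + η * X.2.1), X.2.2 - rm * ((X.2.1 - M * X.1) / zs), (X.2.1 - M * X.1) / zs)
  map_add' X Y := by
    ext <;> simp only [Prod.fst_add, Prod.snd_add] <;> ring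
  map_smul' c X := by
    ext <;> simp only [Prod.smul_fst, Prod.smul_snd, smul_eq_mul, RingHom.id_apply] <;> ring

theorem NF_inj {η M zs rm : ℝ} (hz : zs ≠ 0) (h : 1 + M * η ≠ 0) :
    Function.Injective (NF_lin η M zs rm) := by
  rw [← LinearMap.ker_eq_bot, LinearMap.ker_eq_bot']
  rintro ⟨a, s, r⟩ hX
  simp only [NF_lin, LinearMap.coe_mk, AddHom.coe_mk, Prod.mk_eq_zero] at hX
  obtain ⟨h1, h2, h3⟩ := hX
  have h4 : s - M * a = 0 := by
    rcases div_eq_zero_iff.mp h3 with h | h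
    · exact h
    · exact absurd h hz
  have h5 : a + η * s = 0 := by linarith
  have h6 : a = 0 := by
    have : (1 + M * η) * a = 0 := by
      have e : s = M * a := by linarith
      rw [e] at h5
      linarith
    rcases mul_eq_zero.mp this with h' | h'
    · exact absurd h' h
    · exact h'
  have h7 : s = 0 := by rw [h6] at h4; linarith
  rw [h3] at h2
  have h8 : r = 0 := by linarith
  rw [h6, h7, h8]
  rfl

/-- the linear equivalence -/
noncomputable def NF_eq {η M zs rm : ℝ} (hz : zs ≠ 0) (h : 1 + M * η ≠ 0) : P3 ≃ₗ[ℝ] P3 :=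
  LinearEquiv.ofInjectiveEndo (NF_lin η M zs rm) (NF_inj hz h)

/-- exchange of the last two coordinates -/
def NF_sw : P3 ≃ₗ[ℝ] P3 where
  toFun X := (X.1, X.2.2, X.2.1)
  invFun X := (X.1, X.2.2, X.2.1)
  map_add' X Y := rfl
  map_smul' c X := rfl
  left_inv X := rfl
  right_inv X := rfl

theorem NF_main (F : Finset P3) (x m : P3) (hm : m ∈ F)
    (hF : ∀ X ∈ F, X.1 ≤ m.1) (hx : m.1 < x.1) :
    ∃ t : ℝ, 0 < t ∧ ∃ φ : P3 ≃ᵃ[ℝ] P3, φ x = pO ∧ φ (m + t • ((0, 1, 0) : P3)) = pE ∧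
      ∀ X ∈ F, Reg (φ X) := by
  obtain ⟨R, hR⟩ := (F.finite_toSet.image fun X : P3 => |X.2.1 - x.2.1|).bddAbove
  obtain ⟨A, hA⟩ := (F.finite_toSet.image fun X : P3 => |X.1 - x.1|).bddAbove
  have hR' : ∀ X ∈ F, |X.2.1 - x.2.1| ≤ R := fun X hX => hR ⟨X, hX, rfl⟩
  have hA' : ∀ X ∈ F, |X.1 - x.1| ≤ A := fun X hX => hA ⟨X, hX, rfl⟩
  have hR0 : 0 ≤ R := (abs_nonneg _).trans (hR' m hm)
  have hA0 : 0 ≤ A := (abs_nonneg _).trans (hA' m hm)
  set c : ℝ := x.1 - m.1 with hc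
  have hc0 : 0 < c := by linarith
  set M : ℝ := (R + 1) / c with hM
  have hM0 : 0 < M := by positivity
  set t : ℝ := 2 * R + 1 + M * A with ht
  have ht0 : 0 < t := by positivity
  set sm : ℝ := m.2.1 - x.2.1 with hsm
  have hsm1 : -R ≤ sm := (abs_le.mp (hR' m hm)).1
  have hst : 0 < sm + t := by
    have : 0 ≤ M * A := by positivity
    linarith
  set η : ℝ := c / (sm + t) with hη
  have hη0 : 0 < η := by positivity
  set zs : ℝ := sm + t + M * c with hzs
  have hzs0 : 0 < zs := by positivity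
  have hMη : 1 + M * η ≠ 0 := by positivity
  set φ : P3 ≃ᵃ[ℝ] P3 := (AffineEquiv.vaddConst ℝ x).symm.trans
    (NF_eq (rm := m.2.2 - x.2.2) hzs0.ne' hMη).toAffineEquiv with hφ
  have hval : ∀ X : P3, φ X = (-((X.1 - x.1) + η * (X.2.1 - x.2.1)),
      (X.2.2 - x.2.2) - (m.2.2 - x.2.2) * (((X.2.1 - x.2.1) - M * (X.1 - x.1)) / zs),
      ((X.2.1 - x.2.1) - M * (X.1 - x.1)) / zs) := by
    intro X
    rfl
  refine ⟨t, ht0, φ, ?_, ?_, ?_⟩
  · rw [hval]
    simp [pO]
  · rw [hval]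
    have e1 : (m + t • ((0, 1, 0) : P3)).1 = m.1 := by simp
    have e2 : (m + t • ((0, 1, 0) : P3)).2.1 = m.2.1 + t := by simp
    have e3 : (m + t • ((0, 1, 0) : P3)).2.2 = m.2.2 := by simp
    rw [e1, e2, e3]
    have e4 : m.1 - x.1 = -c := by linarith
    have e5 : m.2.1 + t - x.2.1 = sm + t := by linarith
    rw [e4, e5]
    have e6 : η * (sm + t) = c := by rw [hη]; field_simp
    have e7 : (sm + t - M * -c) / zs = 1 := by
      rw [hzs]
      rw [div_eq_one_iff_eq (by positivity)]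
      ring
    rw [e6, e7]
    simp [pE]
  · intro X hX
    rw [hval]
    have h1 := abs_le.mp (hR' X hX)
    have h2 := abs_le.mp (hA' X hX)
    have h3 : X.1 - x.1 ≤ -c := by linarith [hF X hX]
    have hMA : 0 ≤ M * A := by positivity
    refine ⟨?_, ?_, ?_⟩
    · show 0 < -((X.1 - x.1) + η * (X.2.1 - x.2.1))
      have h4 : η * (X.2.1 - x.2.1) ≤ η * R := mul_le_mul_of_nonneg_left h1.2 hη0.le
      have h5 : η * R < c := by
        rw [hη, div_mul_eq_mul_div, div_lt_iff₀ hst]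
        exact mul_lt_mul_of_pos_left (by linarith) hc0
      linarith
    · show 0 < ((X.2.1 - x.2.1) - M * (X.1 - x.1)) / zs
      apply div_pos _ hzs0
      have h4 : M * c = R + 1 := by rw [hM]; field_simp
      have h5 : M * (X.1 - x.1) ≤ M * (-c) := mul_le_mul_of_nonneg_left h3 hM0.le
      linarith
    · show ((X.2.1 - x.2.1) - M * (X.1 - x.1)) / zs < 1
      rw [div_lt_one hzs0]
      have h5 : M * (-A) ≤ M * (X.1 - x.1) := mul_le_mul_of_nonneg_left h2.1 hM0.le
      have h6 : 0 < M * c := by positivity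
      linarith

theorem exists_norm (F : Finset P3) (x m S : P3) (hS : S = (0, 1, 0) ∨ S = (0, 0, 1)) (hm : m ∈ F)
    (hF : ∀ X ∈ F, X.1 ≤ m.1) (hx : m.1 < x.1) :
    ∃ t : ℝ, 0 < t ∧ ∃ φ : P3 ≃ᵃ[ℝ] P3, φ x = pO ∧ φ (m + t • S) = pE ∧ ∀ X ∈ F, Reg (φ X) := by
  rcases hS with rfl | rfl
  · exact NF_main F x m hm hF hx
  · classical
    obtain ⟨t, ht, φ, h1, h2, h3⟩ := NF_main (F.image NF_sw) (NF_sw x) (NF_sw m)
      (Finset.mem_image_of_mem _ hm) (by
        intro X hX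
        obtain ⟨Y, hY, rfl⟩ := Finset.mem_image.mp hX
        exact hF Y hY) hx
    refine ⟨t, ht, NF_sw.toAffineEquiv.trans φ, ?_, ?_, ?_⟩
    · simpa using h1
    · have : NF_sw (m + t • ((0, 0, 1) : P3)) = NF_sw m + t • ((0, 1, 0) : P3) := by
        rw [map_add, map_smul]
        rfl
      simp only [AffineEquiv.coe_trans, Function.comp_apply, LinearEquiv.coe_toAffineEquiv]
      rw [this]
      exact h2
    · intro X hX
      exact h3 (NF_sw X) (Finset.mem_image_of_mem _ hX)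

end H97G
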