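import Pool.Agent.Lib.H97G.IH

/-!
# H97G, chunk NF2: affine images of embeddings

`map_emb`: all conditions of `SpatialGraph` are invariant (`arcSet_map`, `isSimple_map`), `f'.poly c = (f.poly c).map φ` (induction on the walk),
`unknot_map`.
-/

namespace H97G

open H46K

variable {V : Type*} {G : SimpleGraph V}

/-- the affine image of an embedding -/
def NF2_map (f : SpatialGraph G) (φ : P3 ≃ᵃ[ℝ] P3) : SpatialGraph G where
  pt w := φ (f.pt w)
  mid x y := (f.mid x y).map φ
  pt_inj := φ.injective.comp f.pt_inj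
  mid_symm u v h := by
    rw [f.mid_symm u v h, List.map_reverse]
  simple u v h := by
    have e : φ (f.pt u) :: ((f.mid u v).map φ ++ [φ (f.pt v)]) =
        (f.pt u :: (f.mid u v ++ [f.pt v])).map φ := by simp
    rw [e, isSimple_map]
    exact f.simple u v h
  disj u v u' v' h h' hne x hx := by
    have e : φ (f.pt u) :: ((f.mid u v).map φ ++ [φ (f.pt v)]) =
        (f.pt u :: (f.mid u v ++ [f.pt v])).map φ := by simp
    have e' : φ (f.pt u') :: ((f.mid u' v').map φ ++ [φ (f.pt v')]) =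
        (f.pt u' :: (f.mid u' v' ++ [f.pt v'])).map φ := by simp
    rw [e, e', arcSet_map, arcSet_map, ← Set.image_inter φ.injective] at hx
    obtain ⟨z, hz, rfl⟩ := hx
    obtain ⟨w, h1, h2, h3⟩ := f.disj u v u' v' h h' hne z hz
    exact ⟨w, h1, h2, by rw [h3]⟩
  vert u v w h hx := by
    have e : φ (f.pt u) :: ((f.mid u v).map φ ++ [φ (f.pt v)]) =
        (f.pt u :: (f.mid u v ++ [f.pt v])).map φ := by simp
    rw [e, arcSet_map] at hx
    obtain ⟨z, hz, hz2⟩ := hx
    rw [φ.injective hz2] at hz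
    exact f.vert u v w h hz

theorem NF2_poly (f : SpatialGraph G) (φ : P3 ≃ᵃ[ℝ] P3) {a b : V} (w : G.Walk a b) :
    (NF2_map f φ).poly w = (f.poly w).map φ := by
  induction w with
  | nil => rfl
  | cons h p ih =>
    simp only [SpatialGraph.poly, ih, List.map_cons, List.map_append]
    rfl

theorem map_emb (f : SpatialGraph G) (hf : KL f) (φ : P3 ≃ᵃ[ℝ] P3) :
    ∃ f' : SpatialGraph G, KL f' ∧ (∀ w, f'.pt w = φ (f.pt w)) ∧
      ∀ x y, f'.mid x y = (f.mid x y).map φ := by
  refine ⟨NF2_map f φ, fun v c hc => ?_, fun w => rfl, fun x y => rfl⟩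
  rw [NF2_poly]
  exact unknot_map φ (hf v c hc)

end H97G
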