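import Pool.Agent.Lib.H97G.ND
import Pool.Agent.Lib.H97G.NE
import Pool.Agent.Lib.H97G.NF
import Pool.Agent.Lib.H97G.NF2
import Pool.Agent.Lib.H97G.NB2

/-!
# H97G, chunk NG: an embedding with an exposed segment on the arc `u v`

`Zr_segments`, `Zr_disj`, `exists_finger` (`p = f.pt u`, `q = nx f u v`, `p ≠ q` since the arc is simple): a `Finger`. `F` = the finite set of the
points `f.pt w`, the bend points of all arcs (`f.mid x y`, `G.Adj x y`; finitely many pairs), `y₁`, `y₂`, `m`. They all have first coordinate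
`≤ m.1`: the points of the arcs are in `Zr f u v` (a bend point of the arc `u v` is in `arcSet (rs f u v)`, `mem_arcSet`), `lt`, `lp`.
`exists_norm` gives `t`, `φ`; `upd huv (finger_upd ..)` is `KL` by `upd_kl`, `finger_move`; then `map_emb φ`. The arc `u v` is
`φ y₁ :: pO :: pE :: φ m :: φ y₂ :: (f.mid u v).map φ`.
-/

namespace H97G

open H46K

variable {V : Type*} {G : SimpleGraph V}

/-- the edge `u v` has consecutive bend points `pO`, `pE`, all other points are in the region -/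
structure Exp (f : SpatialGraph G) (u v : V) (M₁ M₂ : List P3) : Prop where
  kl : KL f
  mid : f.mid u v = M₁ ++ pO :: pE :: M₂
  m1 : ∀ X ∈ M₁, Reg X
  m2 : ∀ X ∈ M₂, Reg X
  pt : ∀ w, Reg (f.pt w)
  oth : ∀ x y, G.Adj x y → s(x, y) ≠ s(u, v) → ∀ X ∈ f.mid x y, Reg X

theorem NG_ne (f : SpatialGraph G) (u v : V) (huv : G.Adj u v) : f.pt u ≠ nx f u v := by
  have h := f.simple u v huv
  unfold nx
  cases hm : f.mid u v with
  | nil =>
    rw [hm] at h
    exact h.1
  | cons a l =>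
    rw [hm] at h
    exact h.1

theorem NG_mid (f : SpatialGraph G) (u v : V) (huv : G.Adj u v) (a b : V) (hab : G.Adj a b)
    (X : P3) (hX : X ∈ f.mid a b) : X ∈ Zr f u v := by
  by_cases hne : s(a, b) = s(u, v)
  · have hX' : X ∈ f.mid u v := by
      rcases Sym2.eq_iff.mp hne with ⟨rfl, rfl⟩ | ⟨rfl, rfl⟩
      · exact hX
      · rw [f.mid_symm b a hab.symm] at hX
        exact List.mem_reverse.mp hX
    refine Or.inl (Or.inl (mem_arcSet ?_))
    unfold rs
    exact List.mem_append_left _ hX'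
  · refine Or.inl (Or.inr ⟨a, b, hab, hne, mem_arcSet ?_⟩)
    unfold SpatialGraph.arc
    exact List.mem_cons_of_mem _ (List.mem_append_left _ hX)

theorem exists_exp [Finite V] (f : SpatialGraph G) (hf : KL f) (u v : V) (huv : G.Adj u v) :
    ∃ (f' : SpatialGraph G) (M₁ M₂ : List P3), Exp f' u v M₁ M₂ := by
  classical
  obtain ⟨S, hS⟩ := Zr_segments f u v huv
  obtain ⟨y₁, x, m, y₂, S', hF⟩ := exists_finger (f.pt u) (nx f u v) (NG_ne f u v huv)
    (Zr f u v) S hS (Zr_disj f u v huv)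
  have hfin : (Set.range f.pt ∪ (⋃ a, ⋃ b, {X | X ∈ f.mid a b}) ∪ {y₁, y₂, m} : Set P3).Finite := by
    refine Set.Finite.union (Set.Finite.union (Set.finite_range _) ?_) (by simp)
    refine Set.finite_iUnion fun a => Set.finite_iUnion fun b => ?_
    exact (f.mid a b).finite_toSet
  set F0 : Set P3 := {X | X ∈ (Set.range f.pt ∪ (⋃ a, ⋃ b, {X | X ∈ f.mid a b}) ∪
    {y₁, y₂, m} : Set P3) ∧ X.1 ≤ m.1} with hF0
  have hfin0 : F0.Finite := hfin.subset fun X hX => hX.1
  have hm0 : m ∈ hfin0.toFinset := by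
    rw [Set.Finite.mem_toFinset]
    exact ⟨Or.inr (by simp), le_rfl⟩
  have hpt0 : ∀ w, f.pt w ∈ hfin0.toFinset := by
    intro w
    rw [Set.Finite.mem_toFinset]
    exact ⟨Or.inl (Or.inl ⟨w, rfl⟩), (hF.lt _ (Or.inr ⟨w, rfl⟩)).le⟩
  have hmid0 : ∀ a b, G.Adj a b → ∀ X ∈ f.mid a b, X ∈ hfin0.toFinset := by
    intro a b hab X hX
    rw [Set.Finite.mem_toFinset]
    exact ⟨Or.inl (Or.inr (Set.mem_iUnion.mpr ⟨a, Set.mem_iUnion.mpr ⟨b, hX⟩⟩)),
      (hF.lt _ (NG_mid f u v huv a b hab X hX)).le⟩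
  have hy1 : y₁ ∈ hfin0.toFinset := by
    rw [Set.Finite.mem_toFinset]
    exact ⟨Or.inr (by simp), hF.lp.2.2.1.le⟩
  have hy2 : y₂ ∈ hfin0.toFinset := by
    rw [Set.Finite.mem_toFinset]
    exact ⟨Or.inr (by simp), hF.lp.2.2.2.le⟩
  obtain ⟨t, ht, φ, h1, h2, h3⟩ := exists_norm hfin0.toFinset x m S' hF.hS hm0 (by
    intro X hX
    rw [Set.Finite.mem_toFinset] at hX
    exact hX.2) hF.mx
  have hU := finger_upd f u v huv hF t ht
  have hk : KL (upd huv hU) :=
    upd_kl hf huv hU (fun R hR hUn => finger_move f u v huv hF t ht R hR hUn)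
  obtain ⟨f', hk', hpt, hmid⟩ := map_emb (upd huv hU) hk φ
  refine ⟨f', [φ y₁], φ m :: φ y₂ :: (f.mid u v).map φ, hk', ?_, ?_, ?_, ?_, ?_⟩
  · rw [hmid]
    show (umid f u v _ u v).map φ = _
    unfold umid
    simp [h1, h2]
  · intro X hX
    rw [List.mem_singleton] at hX
    rw [hX]
    exact h3 _ hy1
  · intro X hX
    rcases List.mem_cons.mp hX with rfl | hX
    · exact h3 _ hm0
    · rcases List.mem_cons.mp hX with rfl | hX
      · exact h3 _ hy2
      · obtain ⟨Y, hY, rfl⟩ := List.mem_map.mp hX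
        exact h3 _ (hmid0 u v huv Y hY)
  · intro w
    rw [hpt]
    exact h3 _ (hpt0 w)
  · intro a b hab hne X hX
    rw [hmid] at hX
    obtain ⟨Y, hY, rfl⟩ := List.mem_map.mp hX
    have e : (upd huv hU).mid a b = f.mid a b := by
      show umid f u v _ a b = _
      unfold umid
      rw [if_neg, if_neg]
      · rintro ⟨rfl, rfl⟩
        exact hne Sym2.eq_swap
      · rintro ⟨rfl, rfl⟩
        exact hne rfl
    rw [e] at hY
    exact h3 _ (hmid0 a b hab Y hY)

end H97G
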