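import Pool.Agent.Lib.H97G.IH

/-!
# H97G, chunk WA: polygons of walks

All by induction on walks. `poly_append`: `f.poly (p.append q) = f.poly p ++ f.poly q`. `poly_reverse`: for a closed walk `c` from `a`:
`f.poly c ++ [f.pt a] = f.pt a :: ...`: prove `f.poly w.reverse ++ [f.pt a] = (f.poly w ++ [f.pt b]).reverse` for `w : G.Walk a b`
(`f.mid_symm`); for a closed walk the two lists differ by a rotation.
`cycle_at`: rotate the cycle to start at `u` (`Walk.rotate`, `Walk.IsCycle.rotate`); it is `cons h1 q1`, `q1` is not `nil`, so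
`q1 = q.concat h2`. `y ≠ y'` since a cycle has length at least three. `cycle_edge`: the cycle contains the edge `u v`: rotate to `u`; then
`v = y` or `v = y'`; in the second case take the reversed cycle.
-/

namespace H97G

open H46K

variable {V : Type*} {G : SimpleGraph V}

theorem WA_cons (f : SpatialGraph G) {a b c : V} (h : G.Adj a b) (p : G.Walk b c) :
    f.poly (SimpleGraph.Walk.cons h p) = f.pt a :: (f.mid a b ++ f.poly p) := rfl

theorem WA_nil (f : SpatialGraph G) {a : V} : f.poly (SimpleGraph.Walk.nil : G.Walk a a) = [] := rfl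

theorem poly_append (f : SpatialGraph G) {a b c : V} (p : G.Walk a b) (q : G.Walk b c) :
    f.poly (p.append q) = f.poly p ++ f.poly q := by
  induction p with
  | nil => rfl
  | cons h p ih =>
    rw [SimpleGraph.Walk.cons_append, WA_cons, WA_cons, ih, List.cons_append, List.append_assoc]

theorem poly_concat (f : SpatialGraph G) {a b c : V} (p : G.Walk a b) (h : G.Adj b c) :
    f.poly (p.concat h) = f.poly p ++ (f.pt b :: f.mid b c) := by
  rw [SimpleGraph.Walk.concat_eq_append, poly_append, WA_cons, WA_nil, List.append_nil]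

/-- the polygon depends only on the arcs used -/
theorem poly_congr (f g : SpatialGraph G) {a b : V} (w : G.Walk a b)
    (h : ∀ x y, s(x, y) ∈ w.edges → f.pt x = g.pt x ∧ f.mid x y = g.mid x y) :
    f.poly w = g.poly w := by
  induction w with
  | nil => rfl
  | @cons x y z hxy p ih =>
    rw [WA_cons, WA_cons]
    have h1 := h x y (by rw [SimpleGraph.Walk.edges_cons]; exact List.mem_cons_self)
    rw [h1.1, h1.2, ih (fun x' y' hx' => h x' y' (by
      rw [SimpleGraph.Walk.edges_cons]; exact List.mem_cons_of_mem _ hx'))]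

theorem WA_rev (f : SpatialGraph G) {a b : V} (w : G.Walk a b) :
    f.poly w.reverse ++ [f.pt a] = (f.poly w ++ [f.pt b]).reverse := by
  induction w with
  | nil => rfl
  | @cons x y z hxy p ih =>
    rw [SimpleGraph.Walk.reverse_cons, poly_append, WA_cons, WA_nil, List.append_nil, WA_cons,
      f.mid_symm x y hxy]
    have h1 : f.poly p.reverse ++ f.pt y :: (f.mid x y).reverse ++ [f.pt x] =
        (f.poly p.reverse ++ [f.pt y]) ++ ((f.mid x y).reverse ++ [f.pt x]) := by simp
    rw [h1, ih]
    simp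

theorem poly_reverse (f : SpatialGraph G) {a : V} (c : G.Walk a a) :
    f.poly c.reverse ~r (f.poly c).reverse := by
  have h1 := WA_rev f c
  rw [List.reverse_append] at h1
  cases hc : f.poly c with
  | nil =>
    rw [hc] at h1
    have h2 : f.poly c.reverse = [] := by
      have := congrArg List.length h1
      simp at this
      exact this
    rw [h2]
    exact List.IsRotated.refl _
  | cons x t =>
    have hx : x = f.pt a := by
      cases c with
      | nil => cases hc
      | cons h p =>
        rw [WA_cons, List.cons.injEq] at hc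
        exact hc.1.symm
    subst hx
    rw [hc] at h1
    have h2 : f.poly c.reverse = f.pt a :: t.reverse := by
      have h3 : f.poly c.reverse ++ [f.pt a] = (f.pt a :: t.reverse) ++ [f.pt a] := by
        rw [h1]
        simp
      exact List.append_cancel_right h3
    rw [h2, List.reverse_cons]
    exact List.isRotated_append (l := [f.pt a]) (l' := t.reverse)

theorem WA_head (f : SpatialGraph G) {a b : V} (p : G.Walk a b) :
    ∃ l, f.poly p ++ [f.pt b] = f.pt a :: l := by
  cases p with
  | nil => exact ⟨[], rfl⟩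
  | cons h p => exact ⟨_, rfl⟩

/-- the point set of the polygon of a walk -/
theorem mem_poly (f : SpatialGraph G) {a b : V} (w : G.Walk a b) (x : P3)
    (hx : x ∈ arcSet (f.poly w ++ [f.pt b])) :
    x = f.pt b ∨ ∃ y z, G.Adj y z ∧ s(y, z) ∈ w.edges ∧ x ∈ arcSet (f.arc y z) := by
  induction w with
  | nil => exact Or.inl hx
  | @cons a' c b' h p ih =>
    obtain ⟨l, hl⟩ := WA_head f p
    have h1 : f.poly (SimpleGraph.Walk.cons h p) ++ [f.pt b'] = (f.pt a' :: f.mid a' c) ++ f.pt c :: l := by
      rw [WA_cons, ← hl]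
      simp
    rw [h1, arcSet_append] at hx
    rcases hx with hx | hx
    · right
      exact ⟨a', c, h, by rw [SimpleGraph.Walk.edges_cons]; exact List.mem_cons_self, hx⟩
    · rw [← hl] at hx
      rcases ih hx with h2 | ⟨y, z, h2, h3, h4⟩
      · exact Or.inl h2
      · right
        exact ⟨y, z, h2, by rw [SimpleGraph.Walk.edges_cons]; exact List.mem_cons_of_mem _ h3, h4⟩

theorem cycle_at (u : V) {v₀ : V} (c : G.Walk v₀ v₀) (hc : c.IsCycle) (hu : u ∈ c.support) :
    ∃ (y y' : V) (h1 : G.Adj u y) (h2 : G.Adj y' u) (q : G.Walk y y'), q.IsPath ∧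
      u ∉ q.support ∧ y ≠ y' ∧ (SimpleGraph.Walk.cons h1 (q.concat h2)).IsCycle ∧
      (∀ e, e ∈ (SimpleGraph.Walk.cons h1 (q.concat h2)).edges ↔ e ∈ c.edges) ∧
      ∀ f : SpatialGraph G, f.poly c ~r f.poly (SimpleGraph.Walk.cons h1 (q.concat h2)) := by
  classical
  have hc' := hc.rotate hu
  have he : ∀ e, e ∈ (c.rotate u hu).edges ↔ e ∈ c.edges := fun e => (c.rotate_edges u hu).mem_iff
  have hp : ∀ f : SpatialGraph G, f.poly c ~r f.poly (c.rotate u hu) := by
    intro f
    have h1 : f.poly c = f.poly (c.takeUntil u hu) ++ f.poly (c.dropUntil u hu) := by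
      rw [← poly_append, SimpleGraph.Walk.take_spec]
    have h2 : f.poly (c.rotate u hu) = f.poly (c.dropUntil u hu) ++ f.poly (c.takeUntil u hu) := by
      unfold SimpleGraph.Walk.rotate
      rw [poly_append]
    rw [h1, h2]
    exact List.isRotated_append
  generalize c.rotate u hu = d at hc' he hp
  cases d with
  | nil => exact absurd hc' (by simp)
  | @cons _ y _ h1 q1 =>
    cases q1 with
    | nil => exact absurd h1 (G.irrefl)
    | @cons _ y1 _ h3 q2 =>
      obtain ⟨y', q, h2, hq⟩ := SimpleGraph.Walk.exists_cons_eq_concat h3 q2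
      rw [hq] at hc' he hp
      have h4 := (SimpleGraph.Walk.cons_isCycle_iff (q.concat h2) h1).1 hc'
      have h5 : q.IsPath ∧ u ∉ q.support := by
        have h6 := h4.1
        rw [SimpleGraph.Walk.concat_isPath_iff] at h6
        exact h6
      refine ⟨y, y', h1, h2, q, h5.1, h5.2, ?_, hc', he, hp⟩
      intro hyy
      apply h4.2
      rw [SimpleGraph.Walk.edges_concat, List.concat_eq_append]
      have e1 : s(u, y) = s(y', u) := by rw [hyy, Sym2.eq_swap]
      rw [e1]
      exact List.mem_append_right _ List.mem_cons_self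

theorem WA_unknot (f : SpatialGraph G) {a : V} (c : G.Walk a a) :
    Unknot (f.poly c.reverse) ↔ Unknot (f.poly c) := by
  have h1 := poly_reverse f c
  constructor
  · intro h
    have h2 := unknot_reverse (Unknot.rot _ _ h1 h)
    rwa [List.reverse_reverse] at h2
  · intro h
    exact Unknot.rot _ _ h1.symm (unknot_reverse h)

theorem WA_rot {l l' : List P3} (h : l ~r l') : Unknot l ↔ Unknot l' :=
  ⟨fun h1 => Unknot.rot _ _ h h1, fun h1 => Unknot.rot _ _ h.symm h1⟩

/-- the reversed cycle -/
theorem WA_swap {u y y' : V} (h1 : G.Adj u y) (h2 : G.Adj y' u) (q : G.Walk y y') :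
    (SimpleGraph.Walk.cons h1 (q.concat h2)).reverse =
      SimpleGraph.Walk.cons h2.symm (q.reverse.concat h1.symm) := by
  rw [SimpleGraph.Walk.reverse_cons, SimpleGraph.Walk.reverse_concat, SimpleGraph.Walk.cons_append,
    SimpleGraph.Walk.concat_eq_append]

/-- cycles through an edge -/
theorem cycle_edge (u v : V) {v₀ : V} (c : G.Walk v₀ v₀) (hc : c.IsCycle) (hu : s(u, v) ∈ c.edges) :
    ∃ (h : G.Adj u v) (q : G.Walk v u), q.IsPath ∧ s(u, v) ∉ q.edges ∧
      (SimpleGraph.Walk.cons h q).IsCycle ∧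
      ∀ f : SpatialGraph G, (Unknot (f.poly c) ↔ Unknot (f.poly (SimpleGraph.Walk.cons h q))) := by
  obtain ⟨y, y', h1, h2, q, hq, hqu, hyy, hcyc, he, hp⟩ :=
    cycle_at u c hc (c.fst_mem_support_of_mem_edges hu)
  have h3 := (he _).2 hu
  rw [SimpleGraph.Walk.edges_cons, SimpleGraph.Walk.edges_concat, List.concat_eq_append,
    List.mem_cons, List.mem_append, List.mem_singleton] at h3
  have hcase : v = y ∨ v = y' := by
    rcases h3 with h3 | h3 | h3
    · rw [Sym2.eq_iff] at h3
      rcases h3 with ⟨_, h3⟩ | ⟨h4, h5⟩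
      · exact Or.inl h3
      · exact absurd h4 h1.ne
    · exact absurd (q.fst_mem_support_of_mem_edges h3) hqu
    · rw [Sym2.eq_iff] at h3
      rcases h3 with ⟨h4, h5⟩ | ⟨_, h3⟩
      · exact absurd h4.symm h2.ne
      · exact Or.inr h3
  rcases hcase with rfl | rfl
  · have h4 := (SimpleGraph.Walk.cons_isCycle_iff (q.concat h2) h1).1 hcyc
    exact ⟨h1, q.concat h2, h4.1, h4.2, hcyc, fun f => WA_rot (hp f)⟩
  · have hcyc' := hcyc.reverse
    rw [WA_swap] at hcyc'
    have h4 := (SimpleGraph.Walk.cons_isCycle_iff _ h2.symm).1 hcyc'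
    refine ⟨h2.symm, q.reverse.concat h1.symm, h4.1, h4.2, hcyc', fun f => ?_⟩
    rw [WA_rot (hp f), ← WA_swap, WA_unknot]

/-- for a cycle through `u` one may assume that the first neighbour is not `v` -/
theorem cycle_at_ne (u v : V) {v₀ : V} (c : G.Walk v₀ v₀) (hc : c.IsCycle) (hu : u ∈ c.support) :
    ∃ (y y' : V) (h1 : G.Adj u y) (h2 : G.Adj y' u) (q : G.Walk y y'), y ≠ v ∧ q.IsPath ∧
      u ∉ q.support ∧ y ≠ y' ∧ (SimpleGraph.Walk.cons h1 (q.concat h2)).IsCycle ∧
      ∀ f : SpatialGraph G, (Unknot (f.poly c) ↔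
        Unknot (f.poly (SimpleGraph.Walk.cons h1 (q.concat h2)))) := by
  obtain ⟨y, y', h1, h2, q, hq, hqu, hyy, hcyc, he, hp⟩ := cycle_at u c hc hu
  by_cases hyv : y = v
  · have hcyc' := hcyc.reverse
    rw [WA_swap] at hcyc'
    refine ⟨y', y, h2.symm, h1.symm, q.reverse, fun h => hyy (hyv.trans h.symm), hq.reverse, ?_, hyy.symm,
      hcyc', fun f => ?_⟩
    · rw [SimpleGraph.Walk.support_reverse, List.mem_reverse]
      exact hqu
    · rw [WA_rot (hp f), ← WA_swap, WA_unknot]
  · exact ⟨y, y', h1, h2, q, hyv, hq, hqu, hyy, hcyc, fun f => WA_rot (hp f)⟩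

end H97G
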