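import Pool.Agent.Lib.H97G.IA
import Pool.Agent.Lib.H97G.WA
import Pool.Agent.Lib.H46K.A1

/-!
# H97G, module R, file RA: realizing a graph by paths in another graph; the polygons of paths
-/

namespace H97G

open H46K

/-- `H` is realized in `G` by paths: the vertices by `ι`, the edges by internally disjoint
paths `R`. -/
structure TopMin {V W : Type*} (G : SimpleGraph V) (H : SimpleGraph W) where
  /-- the vertices -/
  ι : W → V
  inj : Function.Injective ι
  /-- the paths -/
  R : ∀ x y, H.Adj x y → G.Walk (ι x) (ι y)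
  path : ∀ x y h, (R x y h).IsPath
  symm : ∀ x y (h : H.Adj x y), R y x h.symm = (R x y h).reverse
  inner : ∀ x y h z, ι z ∈ (R x y h).support → z = x ∨ z = y
  disj : ∀ x y h x' y' h', s(x, y) ≠ s(x', y') → ∀ w ∈ (R x y h).support,
    w ∈ (R x' y' h').support → ∃ z, (z = x ∨ z = y) ∧ (z = x' ∨ z = y') ∧ w = ι z

variable {V : Type*} {G : SimpleGraph V}

/-- the polygonal arc of a walk -/
def pl (f : SpatialGraph G) {a b : V} (w : G.Walk a b) : List P3 := f.poly w ++ [f.pt b]

theorem RA_pl_cons (f : SpatialGraph G) {a b c : V} (h : G.Adj a b) (p : G.Walk b c) :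
    pl f (SimpleGraph.Walk.cons h p) = (f.pt a :: f.mid a b) ++ pl f p := by
  unfold pl
  rw [WA_cons, List.cons_append, List.cons_append, List.append_assoc]

theorem RA_poly_head (f : SpatialGraph G) {a b : V} (w : G.Walk a b) (h : ¬ w.Nil) :
    f.poly w = f.pt a :: (f.poly w).tail := by
  cases w with
  | nil => exact absurd SimpleGraph.Walk.Nil.nil h
  | cons h p => rfl

theorem RA_tail_reverse (f : SpatialGraph G) {a b : V} (w : G.Walk a b) (h : ¬ w.Nil) :
    (f.poly w.reverse).tail = (f.poly w).tail.reverse := by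
  have h1 := WA_rev f w
  have h' : ¬ w.reverse.Nil := by
    intro hn
    apply h
    exact SimpleGraph.Walk.nil_reverse.1 hn
  rw [RA_poly_head f w h, RA_poly_head f w.reverse h', List.reverse_append] at h1
  simp only [List.reverse_cons, List.reverse_nil, List.nil_append, List.cons_append,
    List.cons.injEq, true_and] at h1
  exact List.append_cancel_right h1

/-- a point of the arc of a walk is on the arc of an edge -/
theorem RA_mem_pl (f : SpatialGraph G) {a b : V} (w : G.Walk a b) (hw : ¬ w.Nil) (x : P3)
    (hx : x ∈ arcSet (pl f w)) :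
    ∃ y z, G.Adj y z ∧ s(y, z) ∈ w.edges ∧ x ∈ arcSet (f.arc y z) := by
  rcases mem_poly f w x hx with h | h
  · subst h
    have h1 : b ∈ w.support := SimpleGraph.Walk.end_mem_support w
    rw [SimpleGraph.Walk.mem_support_iff_exists_mem_edges_of_not_nil hw] at h1
    obtain ⟨e, he, hb⟩ := h1
    induction e with
    | _ y z =>
      have hyz : G.Adj y z := w.adj_of_mem_edges he
      refine ⟨y, z, hyz, he, ?_⟩
      rw [Sym2.mem_iff] at hb
      rcases hb with rfl | rfl
      · exact mem_arcSet (by unfold SpatialGraph.arc; exact List.mem_cons_self)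
      · exact mem_arcSet (by
          unfold SpatialGraph.arc
          exact List.mem_cons_of_mem _ (List.mem_append_right _ (List.mem_singleton.2 rfl)))
  · exact h

/-- a vertex or bend point of the arc of a walk -/
theorem RA_mem_list (f : SpatialGraph G) {a b : V} (w : G.Walk a b) (hw : ¬ w.Nil) (x : P3)
    (hx : x ∈ pl f w) : ∃ y z, G.Adj y z ∧ x ∈ f.arc y z := by
  induction w with
  | nil => exact absurd SimpleGraph.Walk.Nil.nil hw
  | @cons a' c b' h p ih =>
    rw [RA_pl_cons, List.mem_append] at hx
    rcases hx with hx | hx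
    · refine ⟨a', c, h, ?_⟩
      unfold SpatialGraph.arc
      rw [← List.cons_append]
      exact List.mem_append_left _ hx
    · cases p with
      | nil =>
        have : x = f.pt c := by
          unfold pl at hx
          rw [WA_nil] at hx
          simpa using hx
        refine ⟨a', c, h, ?_⟩
        rw [this]
        unfold SpatialGraph.arc
        exact List.mem_cons_of_mem _ (List.mem_append_right _ (List.mem_singleton.2 rfl))
      | cons h' q => exact ih SimpleGraph.Walk.not_nil_cons hx

/-- the arc of a path is simple -/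
theorem RA_simple (f : SpatialGraph G) {a b : V} (w : G.Walk a b) (hw : w.IsPath) :
    IsSimple (pl f w) := by
  induction w with
  | nil => exact trivial
  | @cons a' c b' h p ih =>
    rw [SimpleGraph.Walk.cons_isPath_iff] at hw
    obtain ⟨hp, ha⟩ := hw
    obtain ⟨l, hl⟩ := WA_head f p
    have hl' : pl f p = f.pt c :: l := hl
    rw [RA_pl_cons, hl', isSimple_append, ← hl']
    refine ⟨f.simple a' c h, ih hp, ?_⟩
    rintro x ⟨hx1, hx2⟩
    have hx1' : x ∈ arcSet (f.pt a' :: (f.mid a' c ++ [f.pt c])) := hx1
    rcases mem_poly f p x hx2 with h3 | ⟨y, z, hyz, he, h3⟩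
    · subst h3
      rcases f.vert a' c b' h hx1' with h4 | h4
      · exfalso
        apply ha
        rw [← h4]
        exact SimpleGraph.Walk.end_mem_support p
      · rw [h4]
        exact Set.mem_singleton _
    · have hne : s(a', c) ≠ s(y, z) := by
        intro heq
        apply ha
        rw [← heq] at he
        exact p.fst_mem_support_of_mem_edges he
      obtain ⟨w, hw1, hw2, hw3⟩ := f.disj a' c y z h hyz hne x ⟨hx1', h3⟩
      rcases hw1 with rfl | rfl
      · exfalso
        apply ha
        rcases hw2 with rfl | rfl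
        · exact p.fst_mem_support_of_mem_edges he
        · exact p.snd_mem_support_of_mem_edges he
      · rw [hw3]
        exact Set.mem_singleton _

theorem RA_sym2 {W : Type*} {z z' x y x' y' : W} (h1 : z = x ∨ z = y) (h2 : z' = x ∨ z' = y)
    (h3 : z = x' ∨ z = y') (h4 : z' = x' ∨ z' = y') (hne : z ≠ z') : s(x, y) = s(x', y') := by
  have e1 : s(x, y) = s(z, z') := by
    rcases h1 with h1 | h1 <;> rcases h2 with h2 | h2
    · exact absurd (h1.trans h2.symm) hne
    · rw [h1, h2]
    · rw [h1, h2, Sym2.eq_swap]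
    · exact absurd (h1.trans h2.symm) hne
  have e2 : s(x', y') = s(z, z') := by
    rcases h3 with h1 | h1 <;> rcases h4 with h2 | h2
    · exact absurd (h1.trans h2.symm) hne
    · rw [h1, h2]
    · rw [h1, h2, Sym2.eq_swap]
    · exact absurd (h1.trans h2.symm) hne
  rw [e1, e2]

namespace TopMin

variable {W : Type*} {H : SimpleGraph W}

theorem not_nil (T : TopMin G H) {x y : W} (h : H.Adj x y) : ¬ (T.R x y h).Nil := by
  intro hn
  exact h.ne (T.inj hn.eq)

open Classical in
/-- the induced embedding of `H` -/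
noncomputable def emb (T : TopMin G H) (f : SpatialGraph G) : SpatialGraph H where
  pt x := f.pt (T.ι x)
  mid x y := if h : H.Adj x y then (f.poly (T.R x y h)).tail else []
  pt_inj := f.pt_inj.comp T.inj
  mid_symm := by
    intro x y h
    rw [dif_pos h, dif_pos h.symm, T.symm x y h]
    exact RA_tail_reverse f _ (T.not_nil h)
  simple := by
    intro x y h
    rw [dif_pos h]
    have h1 := RA_simple f (T.R x y h) (T.path x y h)
    unfold pl at h1
    rw [RA_poly_head f _ (T.not_nil h), List.cons_append] at h1
    exact h1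
  disj := by
    intro x y x' y' h h' hne t ht
    rw [dif_pos h, dif_pos h'] at ht
    have e1 : ∀ (x y : W) (h : H.Adj x y),
        f.pt (T.ι x) :: ((f.poly (T.R x y h)).tail ++ [f.pt (T.ι y)]) = pl f (T.R x y h) := by
      intro x y h
      unfold pl
      rw [← List.cons_append, ← RA_poly_head f _ (T.not_nil h)]
    rw [e1, e1] at ht
    obtain ⟨p, q, hpq, he, h1⟩ := RA_mem_pl f _ (T.not_nil h) t ht.1
    obtain ⟨p', q', hpq', he', h1'⟩ := RA_mem_pl f _ (T.not_nil h') t ht.2
    have hp := (T.R x y h).fst_mem_support_of_mem_edges he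
    have hq := (T.R x y h).snd_mem_support_of_mem_edges he
    have hp' := (T.R x' y' h').fst_mem_support_of_mem_edges he'
    have hq' := (T.R x' y' h').snd_mem_support_of_mem_edges he'
    have hne' : s(p, q) ≠ s(p', q') := by
      intro heq
      have hpp : p ∈ (T.R x' y' h').support := by
        have : p ∈ s(p', q') := by rw [← heq]; exact Sym2.mem_mk_left p q
        rcases Sym2.mem_iff.1 this with h3 | h3 <;> rw [h3] <;> assumption
      have hqq : q ∈ (T.R x' y' h').support := by
        have : q ∈ s(p', q') := by rw [← heq]; exact Sym2.mem_mk_right p q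
        rcases Sym2.mem_iff.1 this with h3 | h3 <;> rw [h3] <;> assumption
      obtain ⟨z, hz1, hz2, hz3⟩ := T.disj x y h x' y' h' hne p hp hpp
      obtain ⟨z', hz1', hz2', hz3'⟩ := T.disj x y h x' y' h' hne q hq hqq
      have hzz : z ≠ z' := by
        rintro rfl
        apply hpq.ne
        rw [hz3, hz3']
      exact hne (RA_sym2 hz1 hz1' hz2 hz2' hzz)
    obtain ⟨w, hw1, hw2, hw3⟩ := f.disj p q p' q' hpq hpq' hne' t ⟨h1, h1'⟩
    have hwR : w ∈ (T.R x y h).support := by
      rcases hw1 with rfl | rfl <;> assumption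
    have hwR' : w ∈ (T.R x' y' h').support := by
      rcases hw2 with rfl | rfl <;> assumption
    obtain ⟨z, hz1, hz2, hz3⟩ := T.disj x y h x' y' h' hne w hwR hwR'
    exact ⟨z, hz1, hz2, by rw [hw3, hz3]⟩
  vert := by
    intro x y w h hw
    rw [dif_pos h] at hw
    have e1 : f.pt (T.ι x) :: ((f.poly (T.R x y h)).tail ++ [f.pt (T.ι y)]) =
        pl f (T.R x y h) := by
      unfold pl
      rw [← List.cons_append, ← RA_poly_head f _ (T.not_nil h)]
    rw [e1] at hw
    obtain ⟨p, q, hpq, he, h1⟩ := RA_mem_pl f _ (T.not_nil h) _ hw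
    refine T.inner x y h w ?_
    rcases f.vert p q (T.ι w) hpq h1 with h2 | h2
    · rw [h2]
      exact (T.R x y h).fst_mem_support_of_mem_edges he
    · rw [h2]
      exact (T.R x y h).snd_mem_support_of_mem_edges he

theorem emb_arc (T : TopMin G H) (f : SpatialGraph G) {x y : W} (h : H.Adj x y) :
    (T.emb f).arc x y = pl f (T.R x y h) := by
  classical
  show f.pt (T.ι x) :: ((if h : H.Adj x y then (f.poly (T.R x y h)).tail else []) ++
    [f.pt (T.ι y)]) = _
  rw [dif_pos h]
  unfold pl
  rw [← List.cons_append, ← RA_poly_head f _ (T.not_nil h)]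

theorem emb_generic (T : TopMin G H) (f : SpatialGraph G) (d : P3) (hd : Generic f d) :
    Generic (T.emb f) d := by
  refine ⟨hd.1, ?_⟩
  intro u v u' v' h h' x hx s hs r hr
  rw [emb_arc T f h] at hx
  rw [emb_arc T f h'] at hs
  obtain ⟨y, z, hyz, hx'⟩ := RA_mem_list f _ (T.not_nil h) x hx
  have hs' : s ∈ osides (f.poly (T.R u' v' h') ++ [f.pt (T.ι v')]) := hs
  rw [osides_poly, List.mem_flatten] at hs'
  obtain ⟨l, hl, hsl⟩ := hs'
  rw [List.mem_map] at hl
  obtain ⟨δ, hδ, rfl⟩ := hl
  exact hd.2 y z δ.fst δ.snd hyz δ.adj x hx' s hsl r hr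

end TopMin

end H97G
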