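import Pool.Agent.Lib.H97G.RA

/-!
# H97G, module R, file RB: lifts of walks
-/

namespace H97G

open H46K

/-- two paths with only one common vertex -/
theorem RB_append_isPath {V : Type*} {G : SimpleGraph V} {a b c : V} (p : G.Walk a b)
    (q : G.Walk b c) (hp : p.IsPath) (hq : q.IsPath)
    (h : ∀ w ∈ p.support, w ∈ q.support → w = b) : (p.append q).IsPath := by
  rw [SimpleGraph.Walk.isPath_def, SimpleGraph.Walk.support_append, List.nodup_append]
  have hq' := hq.support_nodup
  rw [SimpleGraph.Walk.support_eq_cons, List.nodup_cons] at hq'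
  refine ⟨hp.support_nodup, hq'.2, ?_⟩
  intro x hx y hy hxy
  subst hxy
  have h1 := h x hx (List.mem_of_mem_tail hy)
  subst h1
  exact hq'.1 hy

/-- two paths with the same ends form a cycle -/
theorem RB_cycle {V : Type*} {G : SimpleGraph V} {a b : V} (r : G.Walk a b) (p : G.Walk b a)
    (hab : a ≠ b) (hr : r.IsPath) (hp : p.IsPath)
    (hcom : ∀ w ∈ r.support, w ∈ p.support → w = a ∨ w = b)
    (hedge : ∀ e ∈ r.edges, e ∉ p.edges) : (r.append p).IsCycle := by
  cases r with
  | nil => exact absurd rfl hab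
  | @cons _ c _ h' q =>
    rw [SimpleGraph.Walk.cons_isPath_iff] at hr
    rw [SimpleGraph.Walk.cons_append, SimpleGraph.Walk.cons_isCycle_iff]
    constructor
    · refine RB_append_isPath _ _ hr.1 hp ?_
      intro z hz hz'
      rcases hcom z (by rw [SimpleGraph.Walk.support_cons]; exact List.mem_cons_of_mem _ hz) hz'
        with h1 | h1
      · exfalso
        rw [h1] at hz
        exact hr.2 hz
      · exact h1
    · intro hmem
      rw [SimpleGraph.Walk.edges_append, List.mem_append] at hmem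
      rcases hmem with hmem | hmem
      · exact hr.2 (q.fst_mem_support_of_mem_edges hmem)
      · exact hedge s(a, c) (by rw [SimpleGraph.Walk.edges_cons]; exact List.mem_cons_self) hmem

namespace TopMin

variable {V : Type*} {G : SimpleGraph V} {W : Type*} {H : SimpleGraph W}

/-- the lift of a walk -/
def lift (T : TopMin G H) : ∀ {x y : W}, H.Walk x y → G.Walk (T.ι x) (T.ι y)
  | _, _, .nil => .nil
  | _, _, .cons (u := a) (v := b) h p => (T.R a b h).append (T.lift p)

theorem lift_nil (T : TopMin G H) {x : W} :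
    T.lift (SimpleGraph.Walk.nil : H.Walk x x) = SimpleGraph.Walk.nil := rfl

theorem lift_cons (T : TopMin G H) {a b c : W} (h : H.Adj a b) (p : H.Walk b c) :
    T.lift (SimpleGraph.Walk.cons h p) = (T.R a b h).append (T.lift p) := rfl

theorem poly_lift (T : TopMin G H) (f : SpatialGraph G) {x y : W} (w : H.Walk x y) :
    f.poly (T.lift w) = (T.emb f).poly w := by
  classical
  induction w with
  | nil => rfl
  | @cons a b c h p ih =>
    rw [lift_cons, poly_append, WA_cons, ih]
    show f.poly (T.R a b h) ++ _ = f.pt (T.ι a) ::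
      ((if h : H.Adj a b then (f.poly (T.R a b h)).tail else []) ++ _)
    rw [dif_pos h, ← List.cons_append, ← RA_poly_head f _ (T.not_nil h)]

theorem mem_edges_lift (T : TopMin G H) {x y : W} (w : H.Walk x y) (e : Sym2 V) :
    e ∈ (T.lift w).edges ↔ ∃ δ ∈ w.darts, e ∈ (T.R δ.fst δ.snd δ.adj).edges := by
  induction w with
  | nil => simp [lift_nil]
  | @cons a b c h p ih =>
    rw [lift_cons, SimpleGraph.Walk.edges_append, List.mem_append, ih,
      SimpleGraph.Walk.darts_cons]
    constructor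
    · rintro (h1 | ⟨δ, hδ, h1⟩)
      · exact ⟨_, List.mem_cons_self, h1⟩
      · exact ⟨δ, List.mem_cons_of_mem _ hδ, h1⟩
    · rintro ⟨δ, hδ, h1⟩
      rcases List.mem_cons.1 hδ with rfl | hδ
      · exact Or.inl h1
      · exact Or.inr ⟨δ, hδ, h1⟩

theorem mem_support_lift (T : TopMin G H) {x y : W} (w : H.Walk x y) (z : V)
    (hz : z ∈ (T.lift w).support) :
    z = T.ι x ∨ ∃ δ ∈ w.darts, z ∈ (T.R δ.fst δ.snd δ.adj).support := by
  induction w with
  | nil =>
    rw [lift_nil, SimpleGraph.Walk.support_nil, List.mem_singleton] at hz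
    exact Or.inl hz
  | @cons a b c h p ih =>
    rw [lift_cons, SimpleGraph.Walk.mem_support_append_iff] at hz
    right
    rw [SimpleGraph.Walk.darts_cons]
    rcases hz with h1 | h1
    · exact ⟨_, List.mem_cons_self, h1⟩
    · rcases ih h1 with h2 | ⟨δ, hδ, h2⟩
      · refine ⟨_, List.mem_cons_self, ?_⟩
        rw [h2]
        exact SimpleGraph.Walk.end_mem_support _
      · exact ⟨δ, List.mem_cons_of_mem _ hδ, h2⟩

theorem mem_support_lift' (T : TopMin G H) {x y : W} (w : H.Walk x y) (hw : ¬ w.Nil) (z : V)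
    (hz : z ∈ (T.lift w).support) :
    ∃ δ ∈ w.darts, z ∈ (T.R δ.fst δ.snd δ.adj).support := by
  cases w with
  | nil => exact absurd SimpleGraph.Walk.Nil.nil hw
  | @cons a b c h p =>
    rcases T.mem_support_lift _ z hz with h1 | h1
    · refine ⟨_, by rw [SimpleGraph.Walk.darts_cons]; exact List.mem_cons_self, ?_⟩
      rw [h1]
      exact SimpleGraph.Walk.start_mem_support _
    · exact h1

/-- ends of darts are on the walk -/
theorem RB_fst {x y : W} (w : H.Walk x y) (δ : H.Dart) (h : δ ∈ w.darts) : δ.fst ∈ w.support :=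
  w.dart_fst_mem_support_of_mem_darts h

theorem RB_snd {x y : W} (w : H.Walk x y) (δ : H.Dart) (h : δ ∈ w.darts) : δ.snd ∈ w.support :=
  w.dart_snd_mem_support_of_mem_darts h

theorem RB_edge {x y : W} (w : H.Walk x y) (δ : H.Dart) (h : δ ∈ w.darts) :
    s(δ.fst, δ.snd) ∈ w.edges := by
  unfold SimpleGraph.Walk.edges
  exact List.mem_map_of_mem h

/-- common vertices of the path of an edge and of a lift which does not use the edge -/
theorem common (T : TopMin G H) {a b x y : W} (h : H.Adj a b) (p : H.Walk x y)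
    (hp : s(a, b) ∉ p.edges) (z : V) (hz : z ∈ (T.R a b h).support)
    (hz' : z ∈ (T.lift p).support) : ∃ t, (t = a ∨ t = b) ∧ t ∈ p.support ∧ z = T.ι t := by
  rcases T.mem_support_lift p z hz' with h1 | ⟨δ, hδ, h1⟩
  · subst h1
    exact ⟨x, T.inner a b h x hz, SimpleGraph.Walk.start_mem_support _, rfl⟩
  · have hne : s(a, b) ≠ s(δ.fst, δ.snd) := by
      intro heq
      exact hp (heq ▸ RB_edge p δ hδ)
    obtain ⟨t, ht1, ht2, ht3⟩ := T.disj a b h δ.fst δ.snd δ.adj hne z hz h1
    refine ⟨t, ht1, ?_, ht3⟩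
    rcases ht2 with rfl | rfl
    · exact RB_fst p δ hδ
    · exact RB_snd p δ hδ

theorem lift_isPath (T : TopMin G H) {x y : W} (w : H.Walk x y) (hw : w.IsPath) :
    (T.lift w).IsPath := by
  induction w with
  | nil => exact SimpleGraph.Walk.IsPath.nil
  | @cons a b c h p ih =>
    rw [SimpleGraph.Walk.cons_isPath_iff] at hw
    obtain ⟨hp, ha⟩ := hw
    rw [lift_cons]
    refine RB_append_isPath _ _ (T.path a b h) (ih hp) ?_
    intro z hz hz'
    have hab : s(a, b) ∉ p.edges := fun he => ha (p.fst_mem_support_of_mem_edges he)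
    obtain ⟨t, ht1, ht2, ht3⟩ := T.common h p hab z hz hz'
    rcases ht1 with rfl | rfl
    · exact absurd ht2 ha
    · exact ht3

/-- an edge of the path of `s(a, b)` determines `s(a, b)` -/
theorem edge_unique (T : TopMin G H) {a b a' b' : W} (h : H.Adj a b) (h' : H.Adj a' b')
    (e : Sym2 V) (he : e ∈ (T.R a b h).edges) (he' : e ∈ (T.R a' b' h').edges) :
    s(a, b) = s(a', b') := by
  by_contra hne
  induction e with
  | _ p q =>
    have hpq : G.Adj p q := (T.R a b h).adj_of_mem_edges he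
    obtain ⟨t, ht1, ht2, ht3⟩ := T.disj a b h a' b' h' hne p
      (SimpleGraph.Walk.fst_mem_support_of_mem_edges _ he)
      (SimpleGraph.Walk.fst_mem_support_of_mem_edges _ he')
    obtain ⟨t', ht1', ht2', ht3'⟩ := T.disj a b h a' b' h' hne q
      (SimpleGraph.Walk.snd_mem_support_of_mem_edges _ he)
      (SimpleGraph.Walk.snd_mem_support_of_mem_edges _ he')
    have hne' : t ≠ t' := by
      rintro rfl
      apply hpq.ne
      rw [ht3, ht3']
    exact hne (RA_sym2 ht1 ht1' ht2 ht2' hne')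

theorem lift_isCycle (T : TopMin G H) {x : W} (c : H.Walk x x) (hc : c.IsCycle) :
    (T.lift c).IsCycle := by
  cases c with
  | nil => exact absurd hc SimpleGraph.Walk.not_isCycle_nil
  | @cons _ b _ h p =>
    rw [SimpleGraph.Walk.cons_isCycle_iff] at hc
    obtain ⟨hp, he⟩ := hc
    rw [lift_cons]
    refine RB_cycle _ _ (fun h' => h.ne (T.inj h')) (T.path x b h) (T.lift_isPath p hp) ?_ ?_
    · intro w hw hw'
      obtain ⟨t, ht1, ht2, ht3⟩ := T.common h p he w hw hw'
      rcases ht1 with rfl | rfl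
      · exact Or.inl ht3
      · exact Or.inr ht3
    · intro e h1 h2
      rw [T.mem_edges_lift] at h2
      obtain ⟨δ, hδ, h2⟩ := h2
      apply he
      rw [T.edge_unique h δ.adj e h1 h2]
      exact RB_edge p δ hδ

/-- lifts of disjoint cycles are disjoint -/
theorem lift_disjoint (T : TopMin G H) {x y : W} (c : H.Walk x x) (c' : H.Walk y y)
    (hc : ¬ c.Nil) (hc' : ¬ c'.Nil) (h : List.Disjoint c.support c'.support) :
    List.Disjoint (T.lift c).support (T.lift c').support := by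
  intro z hz hz'
  obtain ⟨δ, hδ, h1⟩ := T.mem_support_lift' c hc z hz
  obtain ⟨δ', hδ', h1'⟩ := T.mem_support_lift' c' hc' z hz'
  have hne : s(δ.fst, δ.snd) ≠ s(δ'.fst, δ'.snd) := by
    intro heq
    have h2 : δ.fst ∈ s(δ'.fst, δ'.snd) := by rw [← heq]; exact Sym2.mem_mk_left _ _
    rcases Sym2.mem_iff.1 h2 with h3 | h3
    · exact h (RB_fst c δ hδ) (h3 ▸ RB_fst c' δ' hδ')
    · exact h (RB_fst c δ hδ) (h3 ▸ RB_snd c' δ' hδ')
  obtain ⟨t, ht1, ht2, ht3⟩ := T.disj _ _ δ.adj _ _ δ'.adj hne z h1 h1'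
  have e1 : t ∈ c.support := by
    rcases ht1 with rfl | rfl
    · exact RB_fst c δ hδ
    · exact RB_snd c δ hδ
  have e2 : t ∈ c'.support := by
    rcases ht2 with rfl | rfl
    · exact RB_fst c' δ' hδ'
    · exact RB_snd c' δ' hδ'
  exact h e1 e2

theorem lift_edges_subset (T : TopMin G H) {x y x' y' : W} (c : H.Walk x y) (c' : H.Walk x' y')
    (h : ∀ e ∈ (T.lift c).edges, e ∈ (T.lift c').edges) : ∀ e ∈ c.edges, e ∈ c'.edges := by
  intro e he
  unfold SimpleGraph.Walk.edges at he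
  rw [List.mem_map] at he
  obtain ⟨δ, hδ, rfl⟩ := he
  obtain ⟨e', he'⟩ : ∃ e', e' ∈ (T.R δ.fst δ.snd δ.adj).edges := by
    have h1 : T.ι δ.fst ∈ (T.R δ.fst δ.snd δ.adj).support := SimpleGraph.Walk.start_mem_support _
    rw [SimpleGraph.Walk.mem_support_iff_exists_mem_edges_of_not_nil (T.not_nil δ.adj)] at h1
    obtain ⟨e', he', _⟩ := h1
    exact ⟨e', he'⟩
  have h2 := h e' ((T.mem_edges_lift c e').2 ⟨δ, hδ, he'⟩)
  rw [T.mem_edges_lift] at h2
  obtain ⟨δ', hδ', h3⟩ := h2
  have h4 := T.edge_unique δ.adj δ'.adj e' he' h3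
  show s(δ.fst, δ.snd) ∈ c'.edges
  rw [h4]
  exact RB_edge c' δ' hδ'

theorem RB_toSubgraph_eq {x y : W} (c : H.Walk x x) (c' : H.Walk y y) (hc : ¬ c.Nil)
    (hc' : ¬ c'.Nil) (h : ∀ e ∈ c.edges, e ∈ c'.edges) (h' : ∀ e ∈ c'.edges, e ∈ c.edges) :
    c.toSubgraph = c'.toSubgraph := by
  apply le_antisymm
  · rw [SimpleGraph.Walk.toSubgraph_le_iff hc]
    intro e he
    exact c'.mem_edges_toSubgraph.2 (h e he)
  · rw [SimpleGraph.Walk.toSubgraph_le_iff hc']
    intro e he
    exact c.mem_edges_toSubgraph.2 (h' e he)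

theorem lift_toSubgraph (T : TopMin G H) {x y : W} (c : H.Walk x x) (c' : H.Walk y y)
    (hc : ¬ c.Nil) (hc' : ¬ c'.Nil) (h : (T.lift c).toSubgraph = (T.lift c').toSubgraph) :
    c.toSubgraph = c'.toSubgraph := by
  refine RB_toSubgraph_eq c c' hc hc' (T.lift_edges_subset c c' ?_) (T.lift_edges_subset c' c ?_)
  · intro e he
    rw [← SimpleGraph.Walk.mem_edges_toSubgraph] at he ⊢
    rw [← h]
    exact he
  · intro e he
    rw [← SimpleGraph.Walk.mem_edges_toSubgraph] at he ⊢
    rw [h]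
    exact he

theorem lift_oddPair (T : TopMin G H) (f : SpatialGraph G) (d : P3) {x y : W} (c : H.Walk x x)
    (c' : H.Walk y y) (h : OddPair (T.emb f) d c c') : OddPair f d (T.lift c) (T.lift c') := by
  obtain ⟨h1, h2, h3, h4⟩ := h
  refine ⟨T.lift_isCycle c h1, T.lift_isCycle c' h2,
    T.lift_disjoint c c' h1.not_nil h2.not_nil h3, ?_⟩
  rw [T.poly_lift, T.poly_lift]
  exact h4

theorem emb_hasOdd (T : TopMin G H) (f : SpatialGraph G) (d : P3) (h : HasOdd (T.emb f) d) :
    HasOdd f d := by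
  obtain ⟨a, c₁, b, c₂, h⟩ := h
  exact ⟨_, _, _, _, T.lift_oddPair f d c₁ c₂ h⟩

theorem emb_atMostOne (T : TopMin G H) (f : SpatialGraph G) (d : P3) (h1 : AtMostOne f d) :
    AtMostOne (T.emb f) d := by
  intro a c₁ b c₂ a' c₁' b' c₂' h h'
  have h2 := h1 _ _ _ _ _ _ _ _ (T.lift_oddPair f d c₁ c₂ h) (T.lift_oddPair f d c₁' c₂' h')
  have n1 := h.1.not_nil
  have n2 := h.2.1.not_nil
  have n1' := h'.1.not_nil
  have n2' := h'.2.1.not_nil
  rcases h2 with ⟨e1, e2⟩ | ⟨e1, e2⟩
  · exact Or.inl ⟨T.lift_toSubgraph _ _ n1' n1 e1, T.lift_toSubgraph _ _ n2' n2 e2⟩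
  · exact Or.inr ⟨T.lift_toSubgraph _ _ n1' n2 e1, T.lift_toSubgraph _ _ n2' n1 e2⟩

end TopMin

end H97G
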