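import Pool.Agent.Lib.H97G.D0

/-!
# H97G, module S (connected sums): definitions

`mids` is a passive pattern: an arc `pO :: (mids ++ [pE])` with all its inner vertices in `Reg`. The
affine map `plc c d k₁ k₂ r` puts it on the segment `[c, d]`, with thickness `r`. `dec` is the
polygon `a :: b :: l` with the pattern on the subsegment from `lin a b p` to `lin a b q` of its side
`[a, b]`. `Gd`: every such polygon is trivial if `r` is small.
-/

namespace H97G

open H46K

/-- determinant -/
def det3 (u v w : P3) : ℝ :=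
  u.1 * (v.2.1 * w.2.2 - v.2.2 * w.2.1) - u.2.1 * (v.1 * w.2.2 - v.2.2 * w.1) +
    u.2.2 * (v.1 * w.2.1 - v.2.1 * w.1)

/-- the affine map which places the pattern: `(0,0,0)` to `c`, `(0,0,1)` to `d` -/
def plc (c d k₁ k₂ : P3) (r : ℝ) (X : P3) : P3 :=
  c + X.2.2 • (d - c) + (r * X.1) • k₁ + (r * X.2.1) • k₂

/-- the point `a + p (b - a)` -/
def lin (a b : P3) (p : ℝ) : P3 := a + p • (b - a)

/-- the polygon `a :: b :: l` with the pattern on its side `[a, b]` -/
def dec (mids : List P3) (a b : P3) (l : List P3) (p q : ℝ) (k₁ k₂ : P3) (r : ℝ) : List P3 :=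
  a :: lin a b p :: (mids.map (plc (lin a b p) (lin a b q) k₁ k₂ r) ++ lin a b q :: b :: l)

/-- the decorated polygon is trivial for small `r` -/
def GdAt (mids : List P3) (a b : P3) (l : List P3) (p q : ℝ) (k₁ k₂ : P3) : Prop :=
  ∃ r0 : ℝ, 0 < r0 ∧ ∀ r, 0 < r → r ≤ r0 → Unknot (dec mids a b l p q k₁ k₂ r)

/-- the side `[a, b]` of `a :: b :: l` is good -/
def Gd (mids : List P3) (a b : P3) (l : List P3) : Prop :=
  ∀ (p q : ℝ) (k₁ k₂ : P3), 0 < p → p < q → q < 1 → det3 k₁ k₂ (b - a) ≠ 0 →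
    GdAt mids a b l p q k₁ k₂

/-- admissible patterns -/
def Pat (mids : List P3) : Prop := (∀ X ∈ mids, Reg X) ∧ Unknot (pO :: (mids ++ [pE]))

/-- `a v b` is a triangle which meets the polygon `a :: b :: l` only in the side `[a, b]`
(the conditions of `Unknot.ins` and `Unknot.del`) -/
structure Tri (a v b : P3) (l : List P3) : Prop where
  av : a ≠ v
  vb : v ≠ b
  seg : segment ℝ a v ∩ segment ℝ v b ⊆ {v}
  hull : convexHull ℝ {a, v, b} ∩ arcSet (b :: (l ++ [a])) ⊆ {a, b}
  simple : SimpleC (a :: b :: l)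

end H97G
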