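import Pool.Agent.Lib.H97G.S0
import Pool.Agent.Lib.H97G.IH
import Pool.Agent.Lib.H97G.ID

/-!
# H97G, chunk SA: the placing map and the pattern in normal form

`plc_equiv`: the map is `X ↦ c + M X` with the matrix `M` with columns `r k₁`, `r k₂`, `d - c` and
determinant `r² det3 k₁ k₂ (d - c) ≠ 0`. E.g. `LinearEquiv.ofIsUnitDet`, or write the inverse by
Cramer's rule (`det3`), or `LinearEquiv.ofInjectiveEndo`: injective because
`z (d - c) + r x k₁ + r y k₂ = 0` implies, taking `det3 · k₂ (d - c)`, `det3 k₁ · (d - c)`, `det3 k₁ k₂ ·`, that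
`x = y = z = 0`.
`arc_reg`: `mids ≠ []` (otherwise `unknot_simpleC` fails: a polygon has three vertices); by induction on the
list: a segment from `pO` (or `pE`) to a point of `Reg` is in `Reg` except for this end, a segment with both
ends in `Reg` is in `Reg` (`Reg` is convex).
`xi` below is the first coordinate with respect to the placing map; `xi_side`: it is zero on the line.
-/

namespace H97G

open H46K

/-- the linear part of `plc` -/
noncomputable def SA_lin (n k₁ k₂ : P3) (r : ℝ) : P3 →ₗ[ℝ] P3 where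
  toFun X := X.2.2 • n + (r * X.1) • k₁ + (r * X.2.1) • k₂
  map_add' X Y := by
    simp only [Prod.fst_add, Prod.snd_add]
    module
  map_smul' t X := by
    simp only [Prod.smul_fst, Prod.smul_snd, RingHom.id_apply, smul_eq_mul]
    module

theorem SA_det1 (n k₁ k₂ : P3) (r : ℝ) (X : P3) :
    det3 (SA_lin n k₁ k₂ r X) k₂ n = r * X.1 * det3 k₁ k₂ n := by
  simp only [SA_lin, det3, LinearMap.coe_mk, AddHom.coe_mk, Prod.fst_add, Prod.snd_add,
    Prod.smul_fst, Prod.smul_snd, smul_eq_mul]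
  ring

theorem SA_det2 (n k₁ k₂ : P3) (r : ℝ) (X : P3) :
    det3 k₁ (SA_lin n k₁ k₂ r X) n = r * X.2.1 * det3 k₁ k₂ n := by
  simp only [SA_lin, det3, LinearMap.coe_mk, AddHom.coe_mk, Prod.fst_add, Prod.snd_add,
    Prod.smul_fst, Prod.smul_snd, smul_eq_mul]
  ring

theorem SA_det3 (n k₁ k₂ : P3) (r : ℝ) (X : P3) :
    det3 k₁ k₂ (SA_lin n k₁ k₂ r X) = X.2.2 * det3 k₁ k₂ n := by
  simp only [SA_lin, det3, LinearMap.coe_mk, AddHom.coe_mk, Prod.fst_add, Prod.snd_add,
    Prod.smul_fst, Prod.smul_snd, smul_eq_mul]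
  ring

theorem SA_plc (c d k₁ k₂ : P3) (r : ℝ) (X : P3) :
    plc c d k₁ k₂ r X = c + SA_lin (d - c) k₁ k₂ r X := by
  simp only [SA_lin, plc, LinearMap.coe_mk, AddHom.coe_mk]
  module

theorem plc_equiv (c d k₁ k₂ : P3) (r : ℝ) (hr : r ≠ 0) (h : det3 k₁ k₂ (d - c) ≠ 0) :
    ∃ φ : P3 ≃ᵃ[ℝ] P3, ∀ X, φ X = plc c d k₁ k₂ r X := by
  have hinj : Function.Injective (SA_lin (d - c) k₁ k₂ r) := by
    rw [injective_iff_map_eq_zero]
    intro X hX
    have h1 := SA_det1 (d - c) k₁ k₂ r X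
    have h2 := SA_det2 (d - c) k₁ k₂ r X
    have h3 := SA_det3 (d - c) k₁ k₂ r X
    rw [hX] at h1 h2 h3
    have z1 : det3 0 k₂ (d - c) = 0 := by simp [det3]
    have z2 : det3 k₁ 0 (d - c) = 0 := by simp [det3]
    have z3 : det3 k₁ k₂ 0 = 0 := by simp [det3]
    rw [z1] at h1
    rw [z2] at h2
    rw [z3] at h3
    have e1 : X.1 = 0 := by
      rcases mul_eq_zero.1 h1.symm with g | g
      · exact (mul_eq_zero.1 g).resolve_left hr
      · exact absurd g h
    have e2 : X.2.1 = 0 := by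
      rcases mul_eq_zero.1 h2.symm with g | g
      · exact (mul_eq_zero.1 g).resolve_left hr
      · exact absurd g h
    have e3 : X.2.2 = 0 := (mul_eq_zero.1 h3.symm).resolve_right h
    exact Prod.ext e1 (Prod.ext e2 e3)
  refine ⟨(LinearEquiv.ofInjectiveEndo _ hinj).toAffineEquiv.trans (AffineEquiv.constVAdd ℝ P3 c),
    fun X => ?_⟩
  rw [SA_plc]
  rfl

theorem plc_pO (c d k₁ k₂ : P3) (r : ℝ) : plc c d k₁ k₂ r pO = c := by
  simp [plc, pO]

theorem plc_pE (c d k₁ k₂ : P3) (r : ℝ) : plc c d k₁ k₂ r pE = d := by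
  simp [plc, pE]

theorem reg_convex : Convex ℝ {X : P3 | Reg X} := by
  rw [convex_iff_forall_pos]
  rintro x ⟨hx1, hx2, hx3⟩ y ⟨hy1, hy2, hy3⟩ a b ha hb hab
  refine ⟨?_, ?_, ?_⟩
  · simp only [Prod.fst_add, Prod.smul_fst, smul_eq_mul]
    positivity
  · simp only [Prod.snd_add, Prod.smul_snd, smul_eq_mul]
    positivity
  · simp only [Prod.snd_add, Prod.smul_snd, smul_eq_mul]
    nlinarith [mul_lt_mul_of_pos_left hx3 ha, mul_lt_mul_of_pos_left hy3 hb]

theorem pat_ne_nil {mids : List P3} (h : Pat mids) : mids ≠ [] := by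
  rintro rfl
  exact ID_two _ _ (unknot_simpleC h.2)

theorem SA_left {m : P3} (hm : Reg m) : segment ℝ pO m ⊆ {pO, pE} ∪ {X | Reg X} := by
  rintro x ⟨a, b, ha, hb, hab, rfl⟩
  rcases hb.eq_or_lt with h | h
  · left
    left
    rw [← h] at hab ⊢
    have : a = 1 := by linarith
    rw [this]
    simp
  · right
    obtain ⟨h1, h2, h3⟩ := hm
    refine ⟨?_, ?_, ?_⟩
    · simp only [Prod.fst_add, Prod.smul_fst, smul_eq_mul, pO]
      have := mul_pos h h1
      linarith
    · simp only [Prod.snd_add, Prod.smul_snd, smul_eq_mul, pO]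
      have := mul_pos h h2
      linarith
    · simp only [Prod.snd_add, Prod.smul_snd, smul_eq_mul, pO]
      nlinarith

theorem SA_right {m : P3} (hm : Reg m) : segment ℝ m pE ⊆ {pO, pE} ∪ {X | Reg X} := by
  rintro x ⟨a, b, ha, hb, hab, rfl⟩
  rcases ha.eq_or_lt with h | h
  · left
    right
    rw [← h] at hab ⊢
    have : b = 1 := by linarith
    rw [this]
    simp
  · right
    obtain ⟨h1, h2, h3⟩ := hm
    refine ⟨?_, ?_, ?_⟩
    · simp only [Prod.fst_add, Prod.smul_fst, smul_eq_mul, pE]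
      have := mul_pos h h1
      linarith
    · simp only [Prod.snd_add, Prod.smul_snd, smul_eq_mul, pE]
      have := mul_pos h h2
      linarith
    · simp only [Prod.snd_add, Prod.smul_snd, smul_eq_mul, pE]
      nlinarith

theorem SA_arc {l : List P3} : ∀ {m : P3}, Reg m → (∀ X ∈ l, Reg X) →
    arcSet (m :: (l ++ [pE])) ⊆ {pO, pE} ∪ {X | Reg X} := by
  induction l with
  | nil =>
    intro m hm _
    rw [List.nil_append, IB_seg]
    exact SA_right hm
  | cons a l ih =>
    intro m hm hl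
    have ha : Reg a := hl a List.mem_cons_self
    change segment ℝ m a ∪ arcSet (a :: (l ++ [pE])) ⊆ _
    refine Set.union_subset ?_ (ih ha fun X hX => hl X (List.mem_cons_of_mem _ hX))
    exact (reg_convex.segment_subset hm ha).trans Set.subset_union_right

/-- the pattern is in `Reg` except for its ends -/
theorem arc_reg {mids : List P3} (h : Pat mids) :
    arcSet (pO :: (mids ++ [pE])) ⊆ {pO, pE} ∪ {X | Reg X} := by
  have h0 := pat_ne_nil h
  obtain ⟨h1, -⟩ := h
  cases mids with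
  | nil => exact absurd rfl h0
  | cons m l =>
    have hm : Reg m := h1 m List.mem_cons_self
    change segment ℝ pO m ∪ arcSet (m :: (l ++ [pE])) ⊆ _
    exact Set.union_subset (SA_left hm) (SA_arc hm fun X hX => h1 X (List.mem_cons_of_mem _ hX))

/-- the pattern is a simple arc -/
theorem pat_simple {mids : List P3} (h : Pat mids) : IsSimple (pO :: (mids ++ [pE])) := by
  obtain ⟨a, m, z, -, h1, -⟩ := unknot_simpleC h.2
  exact h1

/-- the first coordinate with respect to the placing map (up to a positive factor, if `k₁, k₂, n` is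
positively oriented) -/
def xi (k₁ k₂ n X : P3) : ℝ := det3 X k₂ n * det3 k₁ k₂ n

theorem xi_plc (c d k₁ k₂ : P3) (r : ℝ) (X : P3) (hr : 0 < r) (h : det3 k₁ k₂ (d - c) ≠ 0)
    (hX : 0 < X.1) : 0 < xi k₁ k₂ (d - c) (plc c d k₁ k₂ r X - c) := by
  rw [SA_plc, add_sub_cancel_left, xi, SA_det1]
  have h1 := mul_pos (mul_pos hr hX) (mul_self_pos.2 h)
  rw [mul_assoc]
  exact h1

theorem xi_side (k₁ k₂ n : P3) (t : ℝ) : xi k₁ k₂ n (t • n) = 0 := by
  simp only [xi, det3, Prod.smul_fst, Prod.smul_snd, smul_eq_mul]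
  ring

theorem SA_map (mids : List P3) (c d k₁ k₂ : P3) (r : ℝ) (φ : P3 ≃ᵃ[ℝ] P3)
    (hφ : ∀ X, φ X = plc c d k₁ k₂ r X) :
    c :: (mids.map (plc c d k₁ k₂ r) ++ [d]) = (pO :: (mids ++ [pE])).map φ := by
  have h : (φ : P3 → P3) = plc c d k₁ k₂ r := funext hφ
  rw [List.map_cons, List.map_append, List.map_cons, List.map_nil, h, plc_pO, plc_pE]

/-- the placed pattern as a set -/
theorem arc_plc (mids : List P3) (c d k₁ k₂ : P3) (r : ℝ) (hr : r ≠ 0)
    (h : det3 k₁ k₂ (d - c) ≠ 0) :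
    arcSet (c :: (mids.map (plc c d k₁ k₂ r) ++ [d])) =
      plc c d k₁ k₂ r '' arcSet (pO :: (mids ++ [pE])) := by
  obtain ⟨φ, hφ⟩ := plc_equiv c d k₁ k₂ r hr h
  rw [SA_map mids c d k₁ k₂ r φ hφ, arcSet_map]
  exact congrArg (fun f : P3 → P3 => f '' arcSet (pO :: (mids ++ [pE]))) (funext hφ)

/-- the placed pattern is a simple arc -/
theorem simple_plc {mids : List P3} (hP : Pat mids) (c d k₁ k₂ : P3) (r : ℝ) (hr : r ≠ 0)
    (h : det3 k₁ k₂ (d - c) ≠ 0) : IsSimple (c :: (mids.map (plc c d k₁ k₂ r) ++ [d])) := by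
  obtain ⟨φ, hφ⟩ := plc_equiv c d k₁ k₂ r hr h
  rw [SA_map mids c d k₁ k₂ r φ hφ, isSimple_map]
  exact pat_simple hP

end H97G
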