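import Pool.Agent.Lib.H97G.SA
import Pool.Agent.Lib.H97G.ID

/-!
# H97G, chunk SB: thin patterns avoid the rest

`arcArc_open`: induction on `L` from `arcDisj_open` (`L = []`, `L = [i]`: the segment `[F i, F i]`;
`L = i :: j :: L'`: `arcSet` is a union).
`thin_open`: `arcSet (c :: (mids.map (plc c d k₁ k₂ r) ++ [d]))` is in `segment c d` for `r = 0` (`arcSet_subset`,
since `0 < X.2.2 < 1` for `X` in `mids`), and every point `plc c d k₁ k₂ r X` is at distance at most
`|r| (|X.1| ‖k₁‖ + |X.2.1| ‖k₂‖)` from `plc c d k₁ k₂ 0 X`. `segment c d` is compact, so `Metric.thickening δ (segment c d) ⊆ U` for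
some `δ > 0` (`IsCompact.exists_thickening_subset_open`), the thickening of a convex set is convex
(`Convex.thickening`), and contains all the vertices of the arc for small `r`: `arcSet_subset`.
`thin_family`: names `ι = Fin N` or `ℕ`; the function
`F : ℝ × ℝ → (ι → P3)`, `F (s, r)` = the vertices `c s`, `plc (c s) (d s) (k₁ s) (k₂ s) r X` (`X` in `mids`), `d s` and
`b s`, the `g s` (`g` in `l`), `a s`, is continuous, and for `r = 0`, `s ∈ [0,1]` the two arcs are disjoint: the first one is in
`segment (c s) (d s)`. By `arcArc_open` the set of `(s, r)` with disjoint arcs is open and contains `[0,1] × {0}`;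
`IsCompact.eventually_forall_of_forall_eventually` (or `generalized_tube_lemma`).
(Here `g` runs through the list `b :: (l ++ [a])` of functions, called `ρ`.)
-/

namespace H97G

open H46K

theorem arcArc_open {ι : Type*} (L L' : List ι) :
    IsOpen {F : ι → P3 | Disjoint (arcSet (L.map F)) (arcSet (L'.map F))} := by
  induction L with
  | nil =>
    have h : {F : ι → P3 | Disjoint (arcSet (([] : List ι).map F)) (arcSet (L'.map F))} =
        Set.univ := by
      ext F
      simp [arcSet]
    rw [h]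
    exact isOpen_univ
  | cons a L ih =>
    cases L with
    | nil =>
      have h : {F : ι → P3 | Disjoint (arcSet ([a].map F)) (arcSet (L'.map F))} =
          {F : ι → P3 | Disjoint (segment ℝ (F a) (F a)) (arcSet (L'.map F))} := by
        ext F
        simp [arcSet, segment_same]
      rw [h]
      exact arcDisj_open a a L'
    | cons b L =>
      have h : {F : ι → P3 | Disjoint (arcSet ((a :: b :: L).map F)) (arcSet (L'.map F))} =
          {F : ι → P3 | Disjoint (segment ℝ (F a) (F b)) (arcSet (L'.map F))} ∩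
          {F : ι → P3 | Disjoint (arcSet ((b :: L).map F)) (arcSet (L'.map F))} := by
        ext F
        simp [arcSet, Set.disjoint_union_left]
      rw [h]
      exact (arcDisj_open a b L').inter ih

theorem SB_cont (c d k₁ k₂ X : P3) : Continuous fun r : ℝ => plc c d k₁ k₂ r X := by
  unfold plc
  fun_prop

theorem SB_base (c d k₁ k₂ : P3) {X : P3} (hX : Reg X) :
    plc c d k₁ k₂ 0 X ∈ segment ℝ c d := by
  unfold plc
  rw [segment_eq_image']
  refine ⟨X.2.2, ⟨hX.2.1.le, hX.2.2.le⟩, ?_⟩
  simp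

/-- a thin pattern is in a neighbourhood of its segment -/
theorem thin_open {mids : List P3} (hP : Pat mids) (c d k₁ k₂ : P3) (U : Set P3) (hU : IsOpen U)
    (h : segment ℝ c d ⊆ U) : ∃ r0 : ℝ, 0 < r0 ∧ ∀ r, 0 < r → r ≤ r0 →
      arcSet (c :: (mids.map (plc c d k₁ k₂ r) ++ [d])) ⊆ U := by
  have hK : IsCompact (segment ℝ c d) := by
    rw [segment_eq_image']
    exact isCompact_Icc.image (by fun_prop)
  obtain ⟨δ, hδ, hδU⟩ := hK.exists_thickening_subset_open hU h
  have hself : segment ℝ c d ⊆ Metric.thickening δ (segment ℝ c d) :=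
    Metric.self_subset_thickening hδ _
  have hev : ∀ᶠ r : ℝ in nhds 0, ∀ X ∈ {X : P3 | X ∈ mids},
      plc c d k₁ k₂ r X ∈ Metric.thickening δ (segment ℝ c d) := by
    rw [Filter.eventually_all_finite (List.finite_toSet mids)]
    intro X hX
    have hopen : IsOpen (Metric.thickening δ (segment ℝ c d)) := Metric.isOpen_thickening
    exact (SB_cont c d k₁ k₂ X).continuousAt.eventually_mem
      (hopen.mem_nhds (hself (SB_base c d k₁ k₂ (hP.1 X hX))))
  obtain ⟨ε, hε, h2⟩ := Metric.eventually_nhds_iff.1 hev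
  refine ⟨ε / 2, by positivity, ?_⟩
  intro r hr hr'
  refine Set.Subset.trans (arcSet_subset ((convex_segment c d).thickening δ) ?_) hδU
  intro x hx
  rcases List.mem_cons.1 hx with hx | hx
  · rw [hx]
    exact hself (left_mem_segment ℝ c d)
  · rcases List.mem_append.1 hx with hx | hx
    · obtain ⟨X, hX, rfl⟩ := List.mem_map.1 hx
      apply h2 _ X hX
      rw [Real.dist_eq, sub_zero, abs_of_pos hr]
      linarith
    · rw [List.mem_singleton.1 hx]
      exact hself (right_mem_segment ℝ c d)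

/-- thin patterns on segments disjoint from an arc, uniformly in a compact family -/
theorem thin_family {mids : List P3} (hP : Pat mids) (c d k₁ k₂ : ℝ → P3) (ρ : List (ℝ → P3))
    (hc : Continuous c) (hd : Continuous d) (hk₁ : Continuous k₁) (hk₂ : Continuous k₂)
    (hρ : ∀ g ∈ ρ, Continuous g)
    (h : ∀ s, 0 ≤ s → s ≤ 1 → Disjoint (segment ℝ (c s) (d s)) (arcSet (ρ.map fun g => g s))) :
    ∃ r0 : ℝ, 0 < r0 ∧ ∀ r, 0 < r → r ≤ r0 → ∀ s, 0 ≤ s → s ≤ 1 →
      Disjoint (arcSet (c s :: (mids.map (plc (c s) (d s) (k₁ s) (k₂ s) r) ++ [d s])))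
        (arcSet (ρ.map fun g => g s)) := by
  have hcq : Continuous fun q : ℝ × ℝ => c q.1 := hc.comp continuous_fst
  have hdq : Continuous fun q : ℝ × ℝ => d q.1 := hd.comp continuous_fst
  have hk₁q : Continuous fun q : ℝ × ℝ => k₁ q.1 := hk₁.comp continuous_fst
  have hk₂q : Continuous fun q : ℝ × ℝ => k₂ q.1 := hk₂.comp continuous_fst
  have hpl : ∀ X : P3, Continuous fun q : ℝ × ℝ => plc (c q.1) (d q.1) (k₁ q.1) (k₂ q.1) q.2 X := by
    intro X
    unfold plc
    fun_prop
  let L : List C(ℝ × ℝ, P3) := ⟨_, hcq⟩ :: (mids.map (fun X => ⟨_, hpl X⟩) ++ [⟨_, hdq⟩])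
  let L' : List C(ℝ × ℝ, P3) :=
    ρ.pmap (fun g hg => ⟨fun q : ℝ × ℝ => g q.1, Continuous.comp hg continuous_fst⟩) hρ
  have hev : Continuous fun q : ℝ × ℝ => fun g : C(ℝ × ℝ, P3) => g q :=
    continuous_pi fun g => g.continuous
  have hopen := (arcArc_open L L').preimage hev
  have hL : ∀ q : ℝ × ℝ, L.map (fun g => g q) =
      c q.1 :: (mids.map (plc (c q.1) (d q.1) (k₁ q.1) (k₂ q.1) q.2) ++ [d q.1]) := by
    intro q
    simp [L, Function.comp_def]
  have hL' : ∀ q : ℝ × ℝ, L'.map (fun g => g q) = ρ.map fun g => g q.1 := by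
    intro q
    simp only [L', List.map_pmap]
    simp
  have hsub : Set.Icc (0 : ℝ) 1 ×ˢ {(0 : ℝ)} ⊆ (fun q : ℝ × ℝ => fun g : C(ℝ × ℝ, P3) => g q) ⁻¹'
      {F : C(ℝ × ℝ, P3) → P3 | Disjoint (arcSet (L.map F)) (arcSet (L'.map F))} := by
    rintro ⟨s, r⟩ ⟨hs, hr⟩
    have hr0 : r = 0 := hr
    subst hr0
    show Disjoint (arcSet (L.map fun g => g (s, 0))) (arcSet (L'.map fun g => g (s, 0)))
    rw [hL, hL']
    refine (h s hs.1 hs.2).mono_left ?_
    apply arcSet_subset (convex_segment _ _)
    intro x hx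
    rcases List.mem_cons.1 hx with hx | hx
    · rw [hx]
      exact left_mem_segment ℝ _ _
    · rcases List.mem_append.1 hx with hx | hx
      · obtain ⟨X, hX, rfl⟩ := List.mem_map.1 hx
        exact SB_base _ _ _ _ (hP.1 X hX)
      · rw [List.mem_singleton.1 hx]
        exact right_mem_segment ℝ _ _
  obtain ⟨u, v, hu, hv, hsu, htv, huv⟩ :=
    generalized_tube_lemma isCompact_Icc isCompact_singleton hopen hsub
  obtain ⟨ε, hε, hball⟩ := Metric.isOpen_iff.1 hv 0 (htv rfl)
  refine ⟨ε / 2, by positivity, ?_⟩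
  intro r hr hr' s hs0 hs1
  have hmem : (s, r) ∈ u ×ˢ v := by
    refine ⟨hsu ⟨hs0, hs1⟩, hball ?_⟩
    rw [Metric.mem_ball, Real.dist_eq, sub_zero, abs_of_pos hr]
    linarith
  have hfin := huv hmem
  have hfin' : Disjoint (arcSet (L.map fun g => g (s, r))) (arcSet (L'.map fun g => g (s, r))) :=
    hfin
  rw [hL, hL'] at hfin'
  exact hfin'

end H97G
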