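import Pool.Agent.Lib.H97G.SA
import Pool.Agent.Lib.H97G.IB

/-!
# H97G, chunk SC: the decorated polygon is simple

`c = lin a b p`, `d = lin a b q`, `d - c = (q - p) (b - a)`. `sub_disj`: a point of `[c, d]` is in the open segment
`(a, b)`; if it is in `arcSet (b :: (l ++ [a]))` it is `a` or `b` (`simpleC_two` with `β = []`).
`dec_simple`: `simpleC_two` with `p = a`, `q = b`, `β = c :: (mids' ++ [d])`. The arc
`a :: c :: (mids' ++ [d, b])` is simple: `isSimple_append` (IA) at `c` and at `d`: the middle part is simple by `simple_plc`, and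
it meets `[a, c]` only in `c` and `[d, b]` only in `d`: the points of `[a, c]` and `[d, b]` are `c + t n`,
`n = d - c`, with `t ≤ 0` resp. `t ≥ 1`, so `xi = 0` on them, and `xi (X - c) > 0` on the middle part except for its ends (`arc_plc`,
`arc_reg`, `xi_plc`). As a set the arc is contained in `[a, b] ∪ (middle part)`; `[a, b]` meets
`arcSet (b :: (l ++ [a]))` only in `a`, `b`, the middle part does not meet it (hypothesis `h`).
-/

namespace H97G

open H46K

theorem lin_mem {a b : P3} {p : ℝ} (h0 : 0 ≤ p) (h1 : p ≤ 1) : lin a b p ∈ segment ℝ a b := by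
  rw [segment_eq_image']
  exact ⟨p, ⟨h0, h1⟩, rfl⟩

theorem lin_sub (a b : P3) (p q : ℝ) : lin a b q - lin a b p = (q - p) • (b - a) := by
  unfold lin
  rw [sub_smul]
  abel

theorem lin_lin (a b : P3) (p q t : ℝ) : lin (lin a b p) (lin a b q) t = lin a b (p + t * (q - p)) := by
  change lin a b p + t • (lin a b q - lin a b p) = _
  rw [lin_sub]
  unfold lin
  rw [add_smul, smul_smul]
  abel

theorem det3_smul (k₁ k₂ n : P3) (t : ℝ) : det3 k₁ k₂ (t • n) = t * det3 k₁ k₂ n := by
  unfold det3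
  simp only [Prod.smul_fst, Prod.smul_snd, smul_eq_mul]
  ring

theorem SC_inj {a b : P3} (hab : a ≠ b) {s t : ℝ} (h : lin a b s = lin a b t) : s = t := by
  have h1 := lin_sub a b t s
  rw [h, sub_self] at h1
  have h2 : b - a ≠ 0 := sub_ne_zero.2 hab.symm
  rcases smul_eq_zero.1 h1.symm with h3 | h3
  · linarith
  · exact absurd h3 h2

theorem SC_zero (a b : P3) : lin a b 0 = a := by simp [lin]

theorem SC_one (a b : P3) : lin a b 1 = b := by simp [lin]

theorem SC_seg {a b : P3} {s t : ℝ} (hst : s ≤ t) {x : P3}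
    (hx : x ∈ segment ℝ (lin a b s) (lin a b t)) : ∃ u, s ≤ u ∧ u ≤ t ∧ x = lin a b u := by
  rw [segment_eq_image'] at hx
  obtain ⟨θ, ⟨h0, h1⟩, hθ⟩ := hx
  refine ⟨s + θ * (t - s), ?_, ?_, ?_⟩
  · nlinarith
  · nlinarith
  · rw [← lin_lin]
    exact hθ.symm

theorem sub_disj {a b : P3} {l : List P3} (hS : SimpleC (a :: b :: l)) {p q : ℝ} (hp : 0 < p)
    (hpq : p < q) (hq : q < 1) :
    Disjoint (segment ℝ (lin a b p) (lin a b q)) (arcSet (b :: (l ++ [a]))) := by
  have h1 := (simpleC_two a b [] l).1 hS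
  rw [Set.disjoint_left]
  intro x hx hx2
  obtain ⟨u, hu1, hu2, rfl⟩ := SC_seg hpq.le hx
  have h2 : lin a b u ∈ segment ℝ a b := lin_mem (by linarith) (by linarith)
  have h3 : lin a b u ∈ arcSet (a :: ([] ++ [b])) := by
    rw [List.nil_append, IB_seg]
    exact h2
  rcases h1.2.2.2 ⟨h3, hx2⟩ with h | h
  · have : u = 0 := SC_inj h1.2.2.1 (h.trans (SC_zero a b).symm)
    linarith
  · rw [Set.mem_singleton_iff] at h
    have : u = 1 := SC_inj h1.2.2.1 (h.trans (SC_one a b).symm)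
    linarith

theorem SC_mid {mids : List P3} (hP : Pat mids) {a b : P3} (hab : a ≠ b) {p q : ℝ}
    (hpq : p < q) {k₁ k₂ : P3} (hk : det3 k₁ k₂ (b - a) ≠ 0) {r : ℝ} (hr : 0 < r) {t : ℝ}
    (ht : lin a b t ∈ arcSet (lin a b p :: (mids.map (plc (lin a b p) (lin a b q) k₁ k₂ r) ++
      [lin a b q]))) : t = p ∨ t = q := by
  have hk' : det3 k₁ k₂ (lin a b q - lin a b p) ≠ 0 := by
    rw [lin_sub, det3_smul]
    exact mul_ne_zero (by linarith) hk
  rw [arc_plc mids _ _ _ _ r hr.ne' hk'] at ht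
  obtain ⟨X, hX, hX2⟩ := ht
  rcases arc_reg hP hX with (h | h) | h
  · left
    rw [h, plc_pO] at hX2
    exact (SC_inj hab hX2).symm
  · right
    rw [Set.mem_singleton_iff] at h
    rw [h, plc_pE] at hX2
    exact (SC_inj hab hX2).symm
  · exfalso
    have h1 := xi_plc (lin a b p) (lin a b q) k₁ k₂ r X hr hk' h.1
    rw [hX2] at h1
    have h2 : lin a b t - lin a b p = ((t - p) / (q - p)) • (lin a b q - lin a b p) := by
      rw [lin_sub, lin_sub, smul_smul, div_mul_cancel₀ _ (by linarith : q - p ≠ 0)]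
    rw [h2, xi_side] at h1
    exact lt_irrefl _ h1

theorem dec_simple {mids : List P3} (hP : Pat mids) {a b : P3} {l : List P3}
    (hS : SimpleC (a :: b :: l)) {p q : ℝ} (hp : 0 < p) (hpq : p < q) (hq : q < 1) {k₁ k₂ : P3}
    (hk : det3 k₁ k₂ (b - a) ≠ 0) {r : ℝ} (hr : 0 < r)
    (h : Disjoint (arcSet (lin a b p :: (mids.map (plc (lin a b p) (lin a b q) k₁ k₂ r) ++
      [lin a b q]))) (arcSet (b :: (l ++ [a])))) :
    SimpleC (dec mids a b l p q k₁ k₂ r) := by
  have h1 := (simpleC_two a b [] l).1 hS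
  have hab : a ≠ b := h1.2.2.1
  have hseg : segment ℝ a b ∩ arcSet (b :: (l ++ [a])) ⊆ {a, b} := by
    have h2 := h1.2.2.2
    rwa [List.nil_append, IB_seg] at h2
  have hk' : det3 k₁ k₂ (lin a b q - lin a b p) ≠ 0 := by
    rw [lin_sub, det3_smul]
    exact mul_ne_zero (by linarith) hk
  set M := mids.map (plc (lin a b p) (lin a b q) k₁ k₂ r) with hM
  have hmid : ∀ t, lin a b t ∈ arcSet (lin a b p :: (M ++ [lin a b q])) → t = p ∨ t = q :=
    fun t ht => SC_mid hP hab hpq hk hr ht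
  have e0 : dec mids a b l p q k₁ k₂ r =
      a :: ((lin a b p :: (M ++ [lin a b q])) ++ b :: l) := by
    unfold dec
    simp [hM]
  have e1 : a :: ((lin a b p :: (M ++ [lin a b q])) ++ [b]) =
      [a] ++ lin a b p :: (M ++ lin a b q :: [b]) := by simp
  have e2 : lin a b p :: (M ++ lin a b q :: [b]) = (lin a b p :: M) ++ lin a b q :: [b] := by simp
  have e3 : (lin a b p :: M) ++ [lin a b q] = lin a b p :: (M ++ [lin a b q]) := by simp
  -- the two outer segments
  have hac : ∀ x ∈ segment ℝ a (lin a b p), ∃ u, 0 ≤ u ∧ u ≤ p ∧ x = lin a b u := by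
    intro x hx
    have hx' : x ∈ segment ℝ (lin a b 0) (lin a b p) := by rwa [SC_zero]
    exact SC_seg hp.le hx'
  have hdb : ∀ x ∈ segment ℝ (lin a b q) b, ∃ u, q ≤ u ∧ u ≤ 1 ∧ x = lin a b u := by
    intro x hx
    have hx' : x ∈ segment ℝ (lin a b q) (lin a b 1) := by rwa [SC_one]
    exact SC_seg hq.le hx'
  have hmdb : arcSet (lin a b p :: (M ++ lin a b q :: [b])) =
      arcSet (lin a b p :: (M ++ [lin a b q])) ∪ segment ℝ (lin a b q) b := by
    rw [e2, arcSet_append, IB_seg, e3]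
  have hall : arcSet (a :: ((lin a b p :: (M ++ [lin a b q])) ++ [b])) =
      segment ℝ a (lin a b p) ∪ (arcSet (lin a b p :: (M ++ [lin a b q])) ∪
        segment ℝ (lin a b q) b) := by
    rw [e1, arcSet_append, hmdb]
    have : arcSet ([a] ++ [lin a b p]) = segment ℝ a (lin a b p) := IB_seg a (lin a b p)
    rw [this]
  have hs2 : IsSimple (lin a b p :: (M ++ lin a b q :: [b])) := by
    rw [e2, isSimple_append]
    refine ⟨?_, ?_, ?_⟩
    · rw [e3]
      exact simple_plc hP _ _ _ _ r hr.ne' hk'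
    · rw [IB_simple]
      intro hc
      have : q = 1 := SC_inj hab (hc.trans (SC_one a b).symm)
      linarith
    · rw [e3, IB_seg]
      rintro x ⟨hx1, hx2⟩
      obtain ⟨u, hu1, hu2, rfl⟩ := hdb x hx2
      rcases hmid u hx1 with hu | hu
      · linarith
      · rw [hu]
        rfl
  rw [e0]
  refine (simpleC_two a b _ l).2 ⟨?_, h1.2.1, hab, ?_⟩
  · rw [e1, isSimple_append]
    refine ⟨?_, hs2, ?_⟩
    · change IsSimple [a, lin a b p]
      rw [IB_simple]
      intro hc
      have : 0 = p := SC_inj hab ((SC_zero a b).trans hc)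
      linarith
    · change arcSet [a, lin a b p] ∩ _ ⊆ _
      rw [IB_seg, hmdb]
      rintro x ⟨hx1, hx2⟩
      obtain ⟨u, hu1, hu2, rfl⟩ := hac x hx1
      rcases hx2 with hx2 | hx2
      · rcases hmid u hx2 with hu | hu
        · rw [hu]
          rfl
        · linarith
      · obtain ⟨v, hv1, hv2, hv3⟩ := hdb _ hx2
        have : u = v := SC_inj hab hv3
        linarith
  · rw [hall]
    rintro x ⟨hx1, hx2⟩
    rcases hx1 with hx1 | hx1 | hx1
    · obtain ⟨u, hu1, hu2, rfl⟩ := hac x hx1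
      exact hseg ⟨lin_mem hu1 (by linarith), hx2⟩
    · exact absurd hx2 (Set.disjoint_left.1 h hx1)
    · obtain ⟨u, hu1, hu2, rfl⟩ := hdb x hx1
      exact hseg ⟨lin_mem (by linarith) hu2, hx2⟩

end H97G
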