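import Pool.Agent.Lib.H97G.SB
import Pool.Agent.Lib.H97G.SC
import Pool.Agent.Lib.H97G.IG

/-!
# H97G, chunk SD: decorations are carried along by isotopies

By `sub_disj` and `thin_family` (with `c s = lin (a s) (b s) (p s)`, `d s = lin (a s) (b s) (q s)`, `ρ = b :: (l ++ [a])`) there is `r0`
such that for `0 < r ≤ r0` and all `s ∈ [0,1]` the decorated polygon is simple (`dec_simple`). For such `r` apply
`iso` (IG) to the list of the functions `s ↦` vertex of `dec` (the list
`a :: c :: (mids.map (fun X s => plc (c s) (d s) (k₁ s) (k₂ s) r X) ++ d :: b :: l)`), in both directions (`s ↦ 1 - s` for the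
second one).
-/

namespace H97G

open H46K

theorem SD_one {mids : List P3} (hP : Pat mids) (a b : ℝ → P3) (l : List (ℝ → P3))
    (p q : ℝ → ℝ) (k₁ k₂ : ℝ → P3) (ha : Continuous a) (hb : Continuous b)
    (hl : ∀ g ∈ l, Continuous g) (hp : Continuous p) (hq : Continuous q) (hk₁ : Continuous k₁)
    (hk₂ : Continuous k₂)
    (hS : ∀ s, 0 ≤ s → s ≤ 1 → SimpleC (a s :: b s :: l.map fun g => g s))
    (hpq : ∀ s, 0 ≤ s → s ≤ 1 → 0 < p s ∧ p s < q s ∧ q s < 1)
    (hk : ∀ s, 0 ≤ s → s ≤ 1 → det3 (k₁ s) (k₂ s) (b s - a s) ≠ 0)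
    (h : GdAt mids (a 0) (b 0) (l.map fun g => g 0) (p 0) (q 0) (k₁ 0) (k₂ 0)) :
    GdAt mids (a 1) (b 1) (l.map fun g => g 1) (p 1) (q 1) (k₁ 1) (k₂ 1) := by
  have hc : Continuous fun s => lin (a s) (b s) (p s) := by
    unfold lin
    fun_prop
  have hd : Continuous fun s => lin (a s) (b s) (q s) := by
    unfold lin
    fun_prop
  have hρ : ∀ g ∈ b :: (l ++ [a]), Continuous g := by
    intro g hg
    rw [List.mem_cons, List.mem_append, List.mem_singleton] at hg
    rcases hg with rfl | hg | rfl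
    · exact hb
    · exact hl g hg
    · exact ha
  have hmap : ∀ s, ((b :: (l ++ [a])).map fun g => g s) = b s :: ((l.map fun g => g s) ++ [a s]) := by
    intro s
    simp
  obtain ⟨r0, hr0, h0⟩ := thin_family hP (fun s => lin (a s) (b s) (p s))
    (fun s => lin (a s) (b s) (q s)) k₁ k₂ (b :: (l ++ [a])) hc hd hk₁ hk₂ hρ (by
      intro s hs0 hs1
      rw [hmap]
      exact sub_disj (hS s hs0 hs1) (hpq s hs0 hs1).1 (hpq s hs0 hs1).2.1 (hpq s hs0 hs1).2.2)
  obtain ⟨r1, hr1, h1⟩ := h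
  refine ⟨min r0 r1, lt_min hr0 hr1, fun r hr hr' => ?_⟩
  have hsim : ∀ s, 0 ≤ s → s ≤ 1 → SimpleC (dec mids (a s) (b s) (l.map fun g => g s) (p s) (q s)
      (k₁ s) (k₂ s) r) := by
    intro s hs0 hs1
    refine dec_simple hP (hS s hs0 hs1) (hpq s hs0 hs1).1 (hpq s hs0 hs1).2.1 (hpq s hs0 hs1).2.2
      (hk s hs0 hs1) hr ?_
    have h2 := h0 r hr (hr'.trans (min_le_left _ _)) s hs0 hs1
    rw [hmap] at h2
    exact h2
  let fs : List (ℝ → P3) := a :: (fun s => lin (a s) (b s) (p s)) ::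
    (mids.map (fun X s => plc (lin (a s) (b s) (p s)) (lin (a s) (b s) (q s)) (k₁ s) (k₂ s) r X) ++
      (fun s => lin (a s) (b s) (q s)) :: b :: l)
  have hfs : ∀ s, (fs.map fun g => g s) = dec mids (a s) (b s) (l.map fun g => g s) (p s) (q s)
      (k₁ s) (k₂ s) r := by
    intro s
    simp only [fs, dec, List.map_cons, List.map_append, List.map_map]
    rfl
  have hfc : ∀ g ∈ fs, Continuous g := by
    intro g hg
    simp only [fs, List.mem_cons, List.mem_append, List.mem_map] at hg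
    rcases hg with rfl | rfl | ⟨X, -, rfl⟩ | rfl | rfl | hg
    · exact ha
    · exact hc
    · unfold plc
      fun_prop
    · exact hd
    · exact hb
    · exact hl g hg
  have h3 := iso fs hfc (fun s hs0 hs1 => by rw [hfs]; exact hsim s hs0 hs1)
    (by rw [hfs]; exact h1 r hr (hr'.trans (min_le_right _ _)))
  rw [hfs] at h3
  exact h3

theorem dec_family {mids : List P3} (hP : Pat mids) (a b : ℝ → P3) (l : List (ℝ → P3))
    (p q : ℝ → ℝ) (k₁ k₂ : ℝ → P3) (ha : Continuous a) (hb : Continuous b)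
    (hl : ∀ g ∈ l, Continuous g) (hp : Continuous p) (hq : Continuous q) (hk₁ : Continuous k₁)
    (hk₂ : Continuous k₂)
    (hS : ∀ s, 0 ≤ s → s ≤ 1 → SimpleC (a s :: b s :: l.map fun g => g s))
    (hpq : ∀ s, 0 ≤ s → s ≤ 1 → 0 < p s ∧ p s < q s ∧ q s < 1)
    (hk : ∀ s, 0 ≤ s → s ≤ 1 → det3 (k₁ s) (k₂ s) (b s - a s) ≠ 0) :
    GdAt mids (a 0) (b 0) (l.map fun g => g 0) (p 0) (q 0) (k₁ 0) (k₂ 0) ↔
      GdAt mids (a 1) (b 1) (l.map fun g => g 1) (p 1) (q 1) (k₁ 1) (k₂ 1) := by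
  refine ⟨SD_one hP a b l p q k₁ k₂ ha hb hl hp hq hk₁ hk₂ hS hpq hk, fun h => ?_⟩
  have hl' : ∀ s, ((l.map fun (g : ℝ → P3) (s : ℝ) => g (1 - s)).map fun g => g s) =
      l.map fun g => g (1 - s) := by
    intro s
    rw [List.map_map]
    rfl
  have h1 := SD_one hP (fun s => a (1 - s)) (fun s => b (1 - s))
    (l.map fun (g : ℝ → P3) (s : ℝ) => g (1 - s)) (fun s => p (1 - s)) (fun s => q (1 - s))
    (fun s => k₁ (1 - s)) (fun s => k₂ (1 - s)) (by fun_prop) (by fun_prop) (by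
      intro g hg
      rw [List.mem_map] at hg
      obtain ⟨g', hg', rfl⟩ := hg
      have := hl g' hg'
      fun_prop) (by fun_prop) (by fun_prop) (by fun_prop) (by fun_prop) (by
      intro s hs0 hs1
      rw [hl']
      exact hS (1 - s) (by linarith) (by linarith)) (by
      intro s hs0 hs1
      exact hpq (1 - s) (by linarith) (by linarith)) (by
      intro s hs0 hs1
      exact hk (1 - s) (by linarith) (by linarith)) (by
      rw [hl']
      simp only [sub_zero]
      exact h)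
  rw [hl'] at h1
  simp only [sub_self] at h1
  exact h1

end H97G
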