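import Pool.Agent.Lib.H97G.SD

/-!
# H97G, chunk SE: changing the position and the frame of the pattern

All from `dec_family` with `a`, `b`, `l` constant (`l.map fun x _ => x`; `List.map_map`).
`ch_pq`: `p s = (1 - s) p + s p'`, `q s = (1 - s) q + s q'` (differences of convex combinations), `k` constant.
`ch_k1`: `k₁ s = (1 - s) k₁ + s x`: `det3 (k₁ s) k₂ n = (1 - s) det3 k₁ k₂ n + s det3 x k₂ n`, both terms of the same sign.
`ch_k2`: the same for `k₂`.
`rot90`: `(k₁, k₂) → (k₁ + k₂, k₂) → (k₁ + k₂, -k₁) → (k₂, -k₁)`; write `ω (u, v) = det3 u v n`: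
`ω (k₁ + k₂, k₂) = ω (k₁ + k₂, -k₁) = ω (k₂, -k₁) = ω (k₁, k₂)`.
`ch_k`: by `rot90` we may replace `(k₁, k₂)` by `(k₂, -k₁)`, `(-k₁, -k₂)`, `(-k₂, k₁)`. If `ω (k₁', y) · ω (k₁, k₂) > 0` for the second
vector `y` of one of the four frames `(x, y)`, then `(x, y) → (k₁', y) → (k₁', k₂')` by `ch_k1`, `ch_k2`. Otherwise
`ω (k₁', k₁) = ω (k₁', k₂) = 0`, and `ω (k₁', ·) = 0` follows (`k₁, k₂, n` is a basis; or use the identity
`ω (k₁, k₂) ω (k₁', k₂') = ω (k₁', k₂) ω (k₁, k₂') - ω (k₁', k₁) ω (k₂, k₂')` (Pluecker, `ring`)): contradiction with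
`ω (k₁', k₂') ≠ 0`.
-/

namespace H97G

open H46K

theorem SE_fam {mids : List P3} (hP : Pat mids) {a b : P3} {l : List P3}
    (hS : SimpleC (a :: b :: l)) (p q : ℝ → ℝ) (k₁ k₂ : ℝ → P3) (hp : Continuous p)
    (hq : Continuous q) (hk₁ : Continuous k₁) (hk₂ : Continuous k₂)
    (hpq : ∀ s, 0 ≤ s → s ≤ 1 → 0 < p s ∧ p s < q s ∧ q s < 1)
    (hk : ∀ s, 0 ≤ s → s ≤ 1 → det3 (k₁ s) (k₂ s) (b - a) ≠ 0) :
    GdAt mids a b l (p 0) (q 0) (k₁ 0) (k₂ 0) ↔ GdAt mids a b l (p 1) (q 1) (k₁ 1) (k₂ 1) := by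
  have hl : ∀ s : ℝ, ((l.map fun (x : P3) (_ : ℝ) => x).map fun g => g s) = l := by
    intro s
    rw [List.map_map]
    exact List.map_id' l
  have h := dec_family hP (fun _ => a) (fun _ => b) (l.map fun (x : P3) (_ : ℝ) => x) p q k₁ k₂
    continuous_const continuous_const
    (by
      intro g hg
      obtain ⟨x, -, rfl⟩ := List.mem_map.1 hg
      exact continuous_const)
    hp hq hk₁ hk₂
    (by
      intro s _ _
      rw [hl]
      exact hS)
    hpq hk
  rw [hl, hl] at h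
  exact h

theorem SE_det1 (k₁ x k₂ n : P3) (s : ℝ) :
    det3 ((1 - s) • k₁ + s • x) k₂ n = (1 - s) * det3 k₁ k₂ n + s * det3 x k₂ n := by
  simp only [det3, Prod.fst_add, Prod.snd_add, Prod.smul_fst, Prod.smul_snd, smul_eq_mul]
  ring

theorem SE_det2 (k₁ k₂ x n : P3) (s : ℝ) :
    det3 k₁ ((1 - s) • k₂ + s • x) n = (1 - s) * det3 k₁ k₂ n + s * det3 k₁ x n := by
  simp only [det3, Prod.fst_add, Prod.snd_add, Prod.smul_fst, Prod.smul_snd, smul_eq_mul]
  ring

theorem SE_sign {A B s : ℝ} (h : 0 < A * B) (h0 : 0 ≤ s) (h1 : s ≤ 1) :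
    (1 - s) * A + s * B ≠ 0 := by
  rcases pos_and_pos_or_neg_and_neg_of_mul_pos h with ⟨hA, hB⟩ | ⟨hA, hB⟩
  · rcases eq_or_lt_of_le h0 with h2 | h2
    · rw [← h2]
      have : (1 - 0) * A + 0 * B = A := by ring
      rw [this]
      exact hA.ne'
    · have h3 : 0 ≤ (1 - s) * A := mul_nonneg (by linarith) hA.le
      have h4 : 0 < s * B := mul_pos h2 hB
      linarith
  · rcases eq_or_lt_of_le h0 with h2 | h2
    · rw [← h2]
      have : (1 - 0) * A + 0 * B = A := by ring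
      rw [this]
      exact hA.ne
    · have h3 : (1 - s) * A ≤ 0 := mul_nonpos_of_nonneg_of_nonpos (by linarith) hA.le
      have h4 : s * B < 0 := mul_neg_of_pos_of_neg h2 hB
      linarith

theorem ch_pq {mids : List P3} (hP : Pat mids) {a b : P3} {l : List P3}
    (hS : SimpleC (a :: b :: l)) {p q p' q' : ℝ} {k₁ k₂ : P3} (hp : 0 < p) (hpq : p < q)
    (hq : q < 1) (hp' : 0 < p') (hpq' : p' < q') (hq' : q' < 1) (hk : det3 k₁ k₂ (b - a) ≠ 0)
    (h : GdAt mids a b l p q k₁ k₂) : GdAt mids a b l p' q' k₁ k₂ := by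
  have h1 := SE_fam hP hS (fun s => (1 - s) * p + s * p') (fun s => (1 - s) * q + s * q')
    (fun _ => k₁) (fun _ => k₂) (by fun_prop) (by fun_prop) continuous_const continuous_const
    (by
      intro s h0 h1
      have hs : 0 ≤ 1 - s := by linarith
      refine ⟨?_, ?_, ?_⟩
      · show 0 < (1 - s) * p + s * p'
        rcases eq_or_lt_of_le h0 with h2 | h2
        · rw [← h2]; linarith
        · have := mul_nonneg hs hp.le
          have := mul_pos h2 hp'
          linarith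
      · show (1 - s) * p + s * p' < (1 - s) * q + s * q'
        rcases eq_or_lt_of_le h0 with h2 | h2
        · rw [← h2]; linarith
        · have := mul_le_mul_of_nonneg_left hpq.le hs
          have := mul_lt_mul_of_pos_left hpq' h2
          linarith
      · show (1 - s) * q + s * q' < 1
        rcases eq_or_lt_of_le h0 with h2 | h2
        · rw [← h2]; linarith
        · have := mul_le_mul_of_nonneg_left hq.le hs
          have := mul_lt_mul_of_pos_left hq' h2
          linarith)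
    (fun _ _ _ => hk)
  have e1 : (1 - 0) * p + 0 * p' = p := by ring
  have e2 : (1 - 0) * q + 0 * q' = q := by ring
  have e3 : (1 - 1) * p + 1 * p' = p' := by ring
  have e4 : (1 - 1) * q + 1 * q' = q' := by ring
  simp only [e1, e2, e3, e4] at h1
  exact h1.1 h

theorem ch_k1 {mids : List P3} (hP : Pat mids) {a b : P3} {l : List P3}
    (hS : SimpleC (a :: b :: l)) {p q : ℝ} {k₁ k₂ x : P3} (hp : 0 < p) (hpq : p < q)
    (hq : q < 1) (hk : 0 < det3 k₁ k₂ (b - a) * det3 x k₂ (b - a))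
    (h : GdAt mids a b l p q k₁ k₂) : GdAt mids a b l p q x k₂ := by
  have h1 := SE_fam hP hS (fun _ => p) (fun _ => q)
    (fun s => (1 - s) • k₁ + s • x) (fun _ => k₂) continuous_const continuous_const
    (by fun_prop) continuous_const (fun _ _ _ => ⟨hp, hpq, hq⟩)
    (by
      intro s h0 h1
      show det3 ((1 - s) • k₁ + s • x) k₂ (b - a) ≠ 0
      rw [SE_det1]
      exact SE_sign hk h0 h1)
  have e1 : (1 - (0 : ℝ)) • k₁ + (0 : ℝ) • x = k₁ := by rw [sub_zero, one_smul, zero_smul, add_zero]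
  have e2 : (1 - (1 : ℝ)) • k₁ + (1 : ℝ) • x = x := by rw [sub_self, one_smul, zero_smul, zero_add]
  simp only [e1, e2] at h1
  exact h1.1 h

theorem ch_k2 {mids : List P3} (hP : Pat mids) {a b : P3} {l : List P3}
    (hS : SimpleC (a :: b :: l)) {p q : ℝ} {k₁ k₂ x : P3} (hp : 0 < p) (hpq : p < q)
    (hq : q < 1) (hk : 0 < det3 k₁ k₂ (b - a) * det3 k₁ x (b - a))
    (h : GdAt mids a b l p q k₁ k₂) : GdAt mids a b l p q k₁ x := by
  have h1 := SE_fam hP hS (fun _ => p) (fun _ => q) (fun _ => k₁)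
    (fun s => (1 - s) • k₂ + s • x) continuous_const continuous_const
    continuous_const (by fun_prop) (fun _ _ _ => ⟨hp, hpq, hq⟩)
    (by
      intro s h0 h1
      show det3 k₁ ((1 - s) • k₂ + s • x) (b - a) ≠ 0
      rw [SE_det2]
      exact SE_sign hk h0 h1)
  have e1 : (1 - (0 : ℝ)) • k₂ + (0 : ℝ) • x = k₂ := by rw [sub_zero, one_smul, zero_smul, add_zero]
  have e2 : (1 - (1 : ℝ)) • k₂ + (1 : ℝ) • x = x := by rw [sub_self, one_smul, zero_smul, zero_add]
  simp only [e1, e2] at h1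
  exact h1.1 h

theorem SE_sq {A B : ℝ} (h : A ≠ 0) (e : B = A) : 0 < A * B := by
  rw [e]
  exact mul_self_pos.2 h

theorem rot90 {mids : List P3} (hP : Pat mids) {a b : P3} {l : List P3}
    (hS : SimpleC (a :: b :: l)) {p q : ℝ} {k₁ k₂ : P3} (hp : 0 < p) (hpq : p < q)
    (hq : q < 1) (hk : det3 k₁ k₂ (b - a) ≠ 0)
    (h : GdAt mids a b l p q k₁ k₂) : GdAt mids a b l p q k₂ (-k₁) := by
  have e1 : det3 (k₁ + k₂) k₂ (b - a) = det3 k₁ k₂ (b - a) := by
    simp only [det3, Prod.fst_add, Prod.snd_add]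
    ring
  have e2 : det3 (k₁ + k₂) (-k₁) (b - a) = det3 k₁ k₂ (b - a) := by
    simp only [det3, Prod.fst_add, Prod.snd_add, Prod.fst_neg, Prod.snd_neg]
    ring
  have e3 : det3 k₂ (-k₁) (b - a) = det3 k₁ k₂ (b - a) := by
    simp only [det3, Prod.fst_neg, Prod.snd_neg]
    ring
  have h1 := ch_k1 hP hS hp hpq hq (x := k₁ + k₂) (SE_sq hk e1) h
  have h2 := ch_k2 hP hS hp hpq hq (x := -k₁) (SE_sq (by rw [e1]; exact hk) (e2.trans e1.symm)) h1
  exact ch_k1 hP hS hp hpq hq (x := k₂) (SE_sq (by rw [e2]; exact hk) (e3.trans e2.symm)) h2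

theorem SE_step {mids : List P3} (hP : Pat mids) {a b : P3} {l : List P3}
    (hS : SimpleC (a :: b :: l)) {p q : ℝ} {x y k₁' k₂' : P3} (hp : 0 < p) (hpq : p < q)
    (hq : q < 1) (h1 : 0 < det3 x y (b - a) * det3 k₁' y (b - a))
    (h2 : 0 < det3 x y (b - a) * det3 k₁' k₂' (b - a))
    (h : GdAt mids a b l p q x y) : GdAt mids a b l p q k₁' k₂' := by
  have h3 := ch_k1 hP hS hp hpq hq (x := k₁') h1 h
  refine ch_k2 hP hS hp hpq hq (x := k₂') ?_ h3
  rcases pos_and_pos_or_neg_and_neg_of_mul_pos h1 with ⟨hA, hB⟩ | ⟨hA, hB⟩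
  · exact mul_pos hB ((mul_pos_iff_of_pos_left hA).1 h2)
  · have hC : det3 k₁' k₂' (b - a) < 0 := by
      by_contra hcon
      push Not at hcon
      have := mul_nonpos_of_nonpos_of_nonneg hA.le hcon
      linarith
    exact mul_pos_of_neg_of_neg hB hC

/-- the frame can be changed to any other one with the same orientation -/
theorem ch_k {mids : List P3} (hP : Pat mids) {a b : P3} {l : List P3}
    (hS : SimpleC (a :: b :: l)) {p q : ℝ} {k₁ k₂ k₁' k₂' : P3} (hp : 0 < p) (hpq : p < q)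
    (hq : q < 1) (hk : 0 < det3 k₁ k₂ (b - a) * det3 k₁' k₂' (b - a))
    (h : GdAt mids a b l p q k₁ k₂) : GdAt mids a b l p q k₁' k₂' := by
  have hk0 : det3 k₁ k₂ (b - a) ≠ 0 := left_ne_zero_of_mul hk.ne'
  have e1 : det3 k₂ (-k₁) (b - a) = det3 k₁ k₂ (b - a) := by
    simp only [det3, Prod.fst_neg, Prod.snd_neg]
    ring
  have e2 : det3 (-k₁) (-k₂) (b - a) = det3 k₁ k₂ (b - a) := by
    simp only [det3, Prod.fst_neg, Prod.snd_neg]
    ring
  have e3 : det3 (-k₂) k₁ (b - a) = det3 k₁ k₂ (b - a) := by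
    simp only [det3, Prod.fst_neg, Prod.snd_neg]
    ring
  have n1 : det3 k₁' (-k₁) (b - a) = -det3 k₁' k₁ (b - a) := by
    simp only [det3, Prod.fst_neg, Prod.snd_neg]
    ring
  have n2 : det3 k₁' (-k₂) (b - a) = -det3 k₁' k₂ (b - a) := by
    simp only [det3, Prod.fst_neg, Prod.snd_neg]
    ring
  have g1 := rot90 hP hS hp hpq hq hk0 h
  have g2 := rot90 hP hS hp hpq hq (by rw [e1]; exact hk0) g1
  have g3 := rot90 hP hS hp hpq hq (by rw [e2]; exact hk0) g2
  rw [neg_neg] at g3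
  by_cases c2 : det3 k₁' k₂ (b - a) = 0
  · by_cases c1 : det3 k₁' k₁ (b - a) = 0
    · exfalso
      have pl : det3 k₁ k₂ (b - a) * det3 k₁' k₂' (b - a) =
          det3 k₁' k₂ (b - a) * det3 k₁ k₂' (b - a) -
            det3 k₁' k₁ (b - a) * det3 k₂ k₂' (b - a) := by
        simp only [det3]
        ring
      rw [c1, c2, zero_mul, zero_mul, sub_zero] at pl
      linarith
    · rcases lt_or_gt_of_ne (mul_ne_zero hk0 c1) with h1 | h1
      · exact SE_step hP hS hp hpq hq (by rw [e1, n1]; linarith) (by rw [e1]; exact hk) g1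
      · exact SE_step hP hS hp hpq hq (by rw [e3]; exact h1) (by rw [e3]; exact hk) g3
  · rcases lt_or_gt_of_ne (mul_ne_zero hk0 c2) with h1 | h1
    · exact SE_step hP hS hp hpq hq (by rw [e2, n2]; linarith) (by rw [e2]; exact hk) g2
    · exact SE_step hP hS hp hpq hq h1 hk h

end H97G
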