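import Pool.Agent.Lib.H97G.SA
import Pool.Agent.Lib.H97G.IH
import Pool.Agent.Lib.H46K.TG1

/-!
# H97G, chunk SF: the pattern on a side of a triangle, standard coordinates

The points `(0,0,-α)`, `pO`, `pE`, `(0,0,1+β)` are on the axis, `(-κ,0,γ)` is in the plane `y = 0`, `x < 0`.
Start: `Unknot (pO :: (mids ++ [pE]))`, rotated: `Unknot (pE :: pO :: mids)`. Let `C = (-κ,0,γ)`, `B = (0,0,1+β)`, `A = (0,0,-α)`.
1. `ins pE C pO mids`: `hull {pE, C, pO}` has `x ≤ 0`, and `x = 0` only on `[pO, pE]`; `arcSet (pO :: (mids ++ [pE]))` is in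
`{pO, pE} ∪ Reg` (`arc_reg`), so the intersection is contained in `{pE, pO}`.
2. `Unknot (pE :: C :: pO :: mids)`, `ins pE B C (pO :: mids)`: `hull {pE, B, C}` is in `x ≤ 0` and meets `x = 0` only in `[pE, B]`; it meets
`arcSet (C :: pO :: (mids ++ [pE])) = [C, pO] ∪ arcSet (pO :: (mids ++ [pE]))` only in `C` and `pE`: a point of the
triangle and of `[C, pO]`: `λ pE + μ B + ν C = (1 - t) pO + t C` gives (first coordinate) `ν = t`, (third coordinate)
`λ + μ (1 + β) = 0`, so `λ = μ = 0`.
3. rotate to `C :: pO :: (mids ++ [pE, B])`, `ins C A pO (mids ++ [pE, B])`: `hull {C, A, pO}`, `arcSet (pO :: (mids ++ [pE, B, C]))`: the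
pattern: only `pO`; `[pE, B]`: `x = 0`, third coordinate `≥ 1`, the hull has third coordinate `≤ 0` there; `[B, C]`: only `C`
(as in 2: `λ C + μ A + ν pO = (1 - t) B + t C`: `λ = t`, `-μ α = (1 - t)(1 + β)`, so `t = 1`).
Rotate: `Unknot (A :: pO :: (mids ++ pE :: B :: [C]))`.
-/

namespace H97G

open H46K

theorem SF_seg {a b x : P3} (h : x ∈ segment ℝ a b) : ∃ s t : ℝ, 0 ≤ s ∧ 0 ≤ t ∧ s + t = 1 ∧
    x.1 = s * a.1 + t * b.1 ∧ x.2.1 = s * a.2.1 + t * b.2.1 ∧ x.2.2 = s * a.2.2 + t * b.2.2 := by
  obtain ⟨s, t, hs, ht, hst, rfl⟩ := h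
  exact ⟨s, t, hs, ht, hst, rfl, rfl, rfl⟩

theorem SF_hull {a b c x : P3} (h : x ∈ convexHull ℝ {a, b, c}) : ∃ s t r : ℝ, 0 ≤ s ∧ 0 ≤ t ∧
    0 ≤ r ∧ s + t + r = 1 ∧ x.1 = s * a.1 + t * b.1 + r * c.1 ∧
    x.2.1 = s * a.2.1 + t * b.2.1 + r * c.2.1 ∧ x.2.2 = s * a.2.2 + t * b.2.2 + r * c.2.2 := by
  obtain ⟨s, t, r, hs, ht, hr, hst, rfl⟩ := (mem_hull3 a b c x).1 h
  exact ⟨s, t, r, hs, ht, hr, hst, rfl, rfl, rfl⟩

theorem SF_pat {mids : List P3} (hP : Pat mids) {x : P3}
    (h : x ∈ arcSet (pO :: (mids ++ [pE]))) : x = pO ∨ x = pE ∨ 0 < x.1 := by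
  rcases arc_reg hP h with (h1 | h1) | h1
  · exact Or.inl h1
  · exact Or.inr (Or.inl h1)
  · exact Or.inr (Or.inr h1.1)

theorem base_std {mids : List P3} (hP : Pat mids) (α β κ γ : ℝ) (hα : 0 < α) (hβ : 0 < β)
    (hκ : 0 < κ) :
    Unknot ((0, 0, -α) :: pO :: (mids ++ pE :: (0, 0, 1 + β) :: [(-κ, 0, γ)])) := by
  set C : P3 := (-κ, 0, γ) with hC
  set B : P3 := (0, 0, 1 + β) with hB
  set A : P3 := (0, 0, -α) with hA
  have hC1 : C.1 = -κ := rfl
  have hC2 : C.2.1 = 0 := rfl
  have hC3 : C.2.2 = γ := rfl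
  have hB1 : B.1 = 0 := rfl
  have hB2 : B.2.1 = 0 := rfl
  have hB3 : B.2.2 = 1 + β := rfl
  have hA1 : A.1 = 0 := rfl
  have hA2 : A.2.1 = 0 := rfl
  have hA3 : A.2.2 = -α := rfl
  have hO1 : pO.1 = 0 := rfl
  have hO2 : pO.2.1 = 0 := rfl
  have hO3 : pO.2.2 = 0 := rfl
  have hE1 : pE.1 = 0 := rfl
  have hE2 : pE.2.1 = 0 := rfl
  have hE3 : pE.2.2 = 1 := rfl
  have hext : ∀ x y : P3, x.1 = y.1 → x.2.1 = y.2.1 → x.2.2 = y.2.2 → x = y :=
    fun x y h1 h2 h3 => Prod.ext h1 (Prod.ext h2 h3)
  have hκ' : ∀ t : ℝ, κ * t = 0 → t = 0 := fun t ht => (mul_eq_zero.1 ht).resolve_left hκ.ne'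
  have h0 : Unknot (pE :: pO :: mids) := by
    refine Unknot.rot _ _ ?_ hP.2
    exact List.isRotated_append (l := pO :: mids) (l' := [pE])
  -- first move
  have h1 : Unknot (pE :: C :: pO :: mids) := by
    refine Unknot.ins pE C pO mids ?_ ?_ ?_ ?_ h0
    · intro h
      have := congrArg Prod.fst h
      rw [hE1, hC1] at this
      linarith
    · intro h
      have := congrArg Prod.fst h
      rw [hO1, hC1] at this
      linarith
    · rintro x ⟨hx1, hx2⟩
      obtain ⟨s, t, hs, ht, hst, a1, a2, a3⟩ := SF_seg hx1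
      obtain ⟨s', t', hs', ht', hst', b1, b2, b3⟩ := SF_seg hx2
      rw [hE1, hC1] at a1
      rw [hE3, hC3] at a3
      rw [hC1, hO1] at b1
      rw [hC3, hO3] at b3
      simp only [hE2, hC2, mul_zero, add_zero] at a2
      have e1 : t - s' = 0 := hκ' _ (by linarith)
      have e2 : s = 0 := by
        have : s' = t := by linarith
        rw [this] at b3
        linarith
      have e3 : t = 1 := by linarith
      rw [e2, e3] at a1 a3
      exact hext _ _ (by rw [a1, hC1]; ring) (by rw [a2, hC2]) (by rw [a3, hC3]; ring)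
    · rintro x ⟨hx1, hx2⟩
      rcases SF_pat hP hx2 with h | h | h
      · exact Or.inr h
      · exact Or.inl h
      · exfalso
        obtain ⟨s, t, r, hs, ht, hr, hst, a1, a2, a3⟩ := SF_hull hx1
        rw [hE1, hC1, hO1] at a1
        nlinarith
  -- second move
  have h2 : Unknot (pE :: B :: C :: pO :: mids) := by
    refine Unknot.ins pE B C (pO :: mids) ?_ ?_ ?_ ?_ h1
    · intro h
      have := congrArg (fun x : P3 => x.2.2) h
      simp only [hE3, hB3] at this
      linarith
    · intro h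
      have := congrArg Prod.fst h
      rw [hB1, hC1] at this
      linarith
    · rintro x ⟨hx1, hx2⟩
      obtain ⟨s, t, hs, ht, hst, a1, a2, a3⟩ := SF_seg hx1
      obtain ⟨s', t', hs', ht', hst', b1, b2, b3⟩ := SF_seg hx2
      rw [hE1, hB1] at a1
      rw [hB1, hC1] at b1
      simp only [hB2, hC2, mul_zero, add_zero] at b2
      rw [hB3, hC3] at b3
      have e1 : t' = 0 := hκ' _ (by linarith)
      have e2 : s' = 1 := by linarith
      rw [e1, e2] at b1 b3
      exact hext _ _ (by rw [b1, hB1]; ring) (by rw [b2, hB2]) (by rw [b3, hB3]; ring)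
    · have harc : arcSet (C :: ((pO :: mids) ++ [pE])) =
          segment ℝ C pO ∪ arcSet (pO :: (mids ++ [pE])) := rfl
      rw [harc]
      rintro x ⟨hx1, hx2⟩
      obtain ⟨s, t, r, hs, ht, hr, hst, a1, a2, a3⟩ := SF_hull hx1
      rw [hE1, hB1, hC1] at a1
      simp only [hE2, hB2, hC2, mul_zero, add_zero] at a2
      rw [hE3, hB3, hC3] at a3
      rcases hx2 with hx2 | hx2
      · obtain ⟨s', t', hs', ht', hst', b1, b2, b3⟩ := SF_seg hx2
        rw [hC1, hO1] at b1
        rw [hC3, hO3] at b3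
        have e1 : r - s' = 0 := hκ' _ (by linarith)
        have e2 : s' = r := by linarith
        rw [e2] at b3
        have e3 : s + t * (1 + β) = 0 := by linarith
        have e4 : 0 ≤ t * (1 + β) := mul_nonneg ht (by linarith)
        have e5 : s = 0 := by linarith
        have e6 : t = 0 := by
          rcases mul_eq_zero.1 (by linarith : t * (1 + β) = 0) with h | h
          · exact h
          · linarith
        have e7 : r = 1 := by linarith
        rw [e5, e6, e7] at a1 a3
        exact Or.inr (hext _ _ (by rw [a1, hC1]; ring) (by rw [a2, hC2])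
          (by rw [a3, hC3]; ring))
      · rcases SF_pat hP hx2 with h | h | h
        · exfalso
          rw [h, hO1] at a1
          rw [h, hO3] at a3
          have e1 : r = 0 := hκ' _ (by linarith)
          rw [e1] at a3
          have e4 : 0 ≤ t * (1 + β) := mul_nonneg ht (by linarith)
          have e5 : s = 0 := by linarith
          have e6 : t = 0 := by
            rcases mul_eq_zero.1 (by linarith : t * (1 + β) = 0) with h | h
            · exact h
            · linarith
          linarith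
        · exact Or.inl h
        · exfalso
          nlinarith
  -- third move
  have h3 : Unknot (C :: pO :: (mids ++ [pE, B])) := by
    refine Unknot.rot _ _ ?_ h2
    have e : C :: pO :: (mids ++ [pE, B]) = (C :: pO :: mids) ++ [pE, B] := rfl
    rw [e]
    exact List.isRotated_append (l := [pE, B]) (l' := C :: pO :: mids)
  have h4 : Unknot (C :: A :: pO :: (mids ++ [pE, B])) := by
    refine Unknot.ins C A pO (mids ++ [pE, B]) ?_ ?_ ?_ ?_ h3
    · intro h
      have := congrArg Prod.fst h
      rw [hC1, hA1] at this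
      linarith
    · intro h
      have := congrArg (fun x : P3 => x.2.2) h
      simp only [hA3, hO3] at this
      linarith
    · rintro x ⟨hx1, hx2⟩
      obtain ⟨s, t, hs, ht, hst, a1, a2, a3⟩ := SF_seg hx1
      obtain ⟨s', t', hs', ht', hst', b1, b2, b3⟩ := SF_seg hx2
      rw [hC1, hA1] at a1
      simp only [hC2, hA2, mul_zero, add_zero] at a2
      rw [hC3, hA3] at a3
      rw [hA1, hO1] at b1
      have e1 : s = 0 := hκ' _ (by linarith)
      have e2 : t = 1 := by linarith
      rw [e1, e2] at a1 a3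
      exact hext _ _ (by rw [a1, hA1]; ring) (by rw [a2, hA2]) (by rw [a3, hA3]; ring)
    · have e : pO :: ((mids ++ [pE, B]) ++ [C]) = (pO :: mids) ++ pE :: [B, C] := by simp
      have harc : arcSet [pE, B, C] = segment ℝ pE B ∪ segment ℝ B C := by
        change segment ℝ pE B ∪ arcSet [B, C] = _
        rw [IB_seg]
      rw [e, arcSet_append, harc]
      rintro x ⟨hx1, hx2⟩
      obtain ⟨s, t, r, hs, ht, hr, hst, a1, a2, a3⟩ := SF_hull hx1
      rw [hC1, hA1, hO1] at a1
      simp only [hC2, hA2, hO2, mul_zero, add_zero] at a2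
      rw [hC3, hA3, hO3] at a3
      have htα : 0 ≤ t * α := mul_nonneg ht hα.le
      rcases hx2 with hx2 | hx2 | hx2
      · rcases SF_pat hP hx2 with h | h | h
        · exact Or.inr h
        · exfalso
          rw [h, hE1] at a1
          rw [h, hE3] at a3
          have e1 : s = 0 := hκ' _ (by linarith)
          rw [e1] at a3
          linarith
        · exfalso
          nlinarith
      · exfalso
        obtain ⟨s', t', hs', ht', hst', b1, b2, b3⟩ := SF_seg hx2
        rw [hE1, hB1] at b1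
        rw [hE3, hB3] at b3
        have e1 : s = 0 := hκ' _ (by linarith)
        rw [e1] at a3
        have e2 : 0 ≤ t' * (1 + β) := mul_nonneg ht' (by linarith)
        have e3 : 0 ≤ t' * β := mul_nonneg ht' hβ.le
        nlinarith
      · obtain ⟨s', t', hs', ht', hst', b1, b2, b3⟩ := SF_seg hx2
        rw [hB1, hC1] at b1
        simp only [hB2, hC2, mul_zero, add_zero] at b2
        rw [hB3, hC3] at b3
        have e1 : s - t' = 0 := hκ' _ (by linarith)
        have e2 : s = t' := by linarith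
        rw [e2] at a3
        have e3 : s' * (1 + β) = -(t * α) := by linarith
        have e4 : 0 ≤ s' * (1 + β) := mul_nonneg hs' (by linarith)
        have e5 : s' = 0 := by
          rcases mul_eq_zero.1 (by linarith : s' * (1 + β) = 0) with h | h
          · exact h
          · linarith
        have e6 : t' = 1 := by linarith
        rw [e5, e6] at b1 b3
        exact Or.inl (hext _ _ (by rw [b1, hC1]; ring) (by rw [b2, hC2])
          (by rw [b3, hC3]; ring))
  refine Unknot.rot _ _ ?_ h4
  have e : A :: pO :: (mids ++ pE :: B :: [C]) = (A :: pO :: (mids ++ [pE, B])) ++ [C] := by simp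
  rw [e]
  exact List.isRotated_append (l := [C]) (l' := A :: pO :: (mids ++ [pE, B]))

end H97G
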