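import Pool.Agent.Lib.H97G.SE
import Pool.Agent.Lib.H97G.SF
import Pool.Agent.Lib.H46K.TU3

/-!
# H97G, chunk SG: all sides of a triangle are good

Let `n = b - a`, `h = a - c`. `base_std'`: for `det3 h k₂ n ≠ 0` and every `r > 0` the decorated polygon with the frame `(h, k₂)` is
the image under `plc (lin a b p) (lin a b q) h k₂ r` (`plc_equiv`, `unknot_map`) of the polygon of `base_std` with
`α = p / (q - p)`, `β = (1 - q) / (q - p)`, `κ = 1 / r`, `γ = -p / (q - p)`: indeed
`c = a - h = lin a b p - p (b - a) - h` and `lin a b q - lin a b p = (q - p) (b - a)`.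
`gd_tri`: given `k₁`, `k₂`, choose `k₂'` with `det3 h k₂' n` of the same sign as `det3 k₁ k₂ n`: there is `m` with
`det3 h m n ≠ 0` (otherwise `h`, `n` are dependent; explicitly: `det3 h m n` for the cross product `m` of `n` and `h` is
a sum of squares, nonzero by `AffineIndependent`; see `tu3_iff` in H46K.TU3 for a criterion), take `k₂' = ± m`. Then `base_std'` and
`ch_k` (with `simpleC_tri`).
-/

namespace H97G

open H46K

theorem SG_plc (a b h k₂ : P3) (p q r x z : ℝ) :
    plc (lin a b p) (lin a b q) h k₂ r (x, 0, z) =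
      a + (p + z * (q - p)) • (b - a) + (r * x) • h := by
  obtain ⟨a1, a2, a3⟩ := a
  obtain ⟨b1, b2, b3⟩ := b
  obtain ⟨h1, h2, h3⟩ := h
  obtain ⟨k1, k2, k3⟩ := k₂
  simp only [plc, lin, Prod.smul_mk, smul_eq_mul, Prod.mk_add_mk, Prod.mk_sub_mk, Prod.mk.injEq]
  refine ⟨by ring, by ring, by ring⟩

theorem base_tri {mids : List P3} (hP : Pat mids) (a b c k₂ : P3) (p q r : ℝ) (hp : 0 < p)
    (hpq : p < q) (hq : q < 1) (hr : 0 < r) (hk : det3 (a - c) k₂ (b - a) ≠ 0) :
    Unknot (dec mids a b [c] p q (a - c) k₂ r) := by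
  have hqp : 0 < q - p := by linarith
  have hd : det3 (a - c) k₂ (lin a b q - lin a b p) ≠ 0 := by
    rw [lin_sub, det3_smul]
    exact mul_ne_zero hqp.ne' hk
  obtain ⟨φ, hφ⟩ := plc_equiv (lin a b p) (lin a b q) (a - c) k₂ r hr.ne' hd
  have h1 := unknot_map φ (base_std hP (p / (q - p)) ((1 - q) / (q - p)) (1 / r) (-p / (q - p))
    (by positivity) (div_pos (by linarith) hqp) (by positivity))
  have e0 : φ (0, 0, -(p / (q - p))) = a := by
    rw [hφ, SG_plc]
    have : p + -(p / (q - p)) * (q - p) = 0 := by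
      field_simp
      ring
    rw [this, mul_zero, zero_smul, zero_smul, add_zero, add_zero]
  have e1 : φ (0, 0, 1 + (1 - q) / (q - p)) = b := by
    rw [hφ, SG_plc]
    have : p + (1 + (1 - q) / (q - p)) * (q - p) = 1 := by
      field_simp
      ring
    rw [this, mul_zero, zero_smul, one_smul, add_zero, add_sub_cancel]
  have e2 : φ (-(1 / r), 0, -p / (q - p)) = c := by
    rw [hφ, SG_plc]
    have h1 : p + -p / (q - p) * (q - p) = 0 := by
      field_simp
      ring
    have h2 : r * -(1 / r) = -1 := by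
      field_simp
    rw [h1, h2, zero_smul, add_zero, neg_smul, one_smul, neg_sub, add_sub_cancel]
  have e3 : φ pO = lin a b p := by rw [hφ, plc_pO]
  have e4 : φ pE = lin a b q := by rw [hφ, plc_pE]
  have e5 : mids.map φ = mids.map (plc (lin a b p) (lin a b q) (a - c) k₂ r) :=
    List.map_congr_left fun X _ => hφ X
  rw [List.map_cons, List.map_cons, List.map_append, List.map_cons, List.map_cons, List.map_cons,
    List.map_nil, e0, e1, e2, e3, e4, e5] at h1
  exact h1

theorem SG_cross (a b c : P3) (h : AffineIndependent ℝ ![a, b, c]) :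
    0 < ((b - a).2.1 * (a - c).2.2 - (b - a).2.2 * (a - c).2.1) ^ 2 +
      ((b - a).2.2 * (a - c).1 - (b - a).1 * (a - c).2.2) ^ 2 +
      ((b - a).1 * (a - c).2.1 - (b - a).2.1 * (a - c).1) ^ 2 := by
  rw [tu3_iff] at h
  obtain ⟨a1, a2, a3⟩ := a
  obtain ⟨b1, b2, b3⟩ := b
  obtain ⟨c1, c2, c3⟩ := c
  simp only [Prod.mk_sub_mk]
  by_contra hn
  push Not at hn
  have s1 := sq_nonneg ((b2 - a2) * (a3 - c3) - (b3 - a3) * (a2 - c2))
  have s2 := sq_nonneg ((b3 - a3) * (a1 - c1) - (b1 - a1) * (a3 - c3))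
  have s3 := sq_nonneg ((b1 - a1) * (a2 - c2) - (b2 - a2) * (a1 - c1))
  have z1 : (b2 - a2) * (a3 - c3) - (b3 - a3) * (a2 - c2) = 0 := pow_eq_zero_iff two_ne_zero |>.1 (by linarith)
  have z2 : (b3 - a3) * (a1 - c1) - (b1 - a1) * (a3 - c3) = 0 := pow_eq_zero_iff two_ne_zero |>.1 (by linarith)
  have z3 : (b1 - a1) * (a2 - c2) - (b2 - a2) * (a1 - c1) = 0 := pow_eq_zero_iff two_ne_zero |>.1 (by linarith)
  have g1 := h (-(a1 - c1) - (b1 - a1)) (a1 - c1) (b1 - a1) (by ring) (by
    simp only [Prod.smul_mk, smul_eq_mul, Prod.mk_add_mk, Prod.mk_eq_zero]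
    refine ⟨by ring, by linear_combination -z3, by linear_combination z2⟩)
  have g2 := h (-(a2 - c2) - (b2 - a2)) (a2 - c2) (b2 - a2) (by ring) (by
    simp only [Prod.smul_mk, smul_eq_mul, Prod.mk_add_mk, Prod.mk_eq_zero]
    refine ⟨by linear_combination z3, by ring, by linear_combination -z1⟩)
  have g3 := h (-(a3 - c3) - (b3 - a3)) (a3 - c3) (b3 - a3) (by ring) (by
    simp only [Prod.smul_mk, smul_eq_mul, Prod.mk_add_mk, Prod.mk_eq_zero]
    refine ⟨by linear_combination -z2, by linear_combination z1, by ring⟩)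
  have g4 := h (-1) 1 0 (by ring) (by
    simp only [Prod.smul_mk, smul_eq_mul, Prod.mk_add_mk, Prod.mk_eq_zero]
    refine ⟨by linarith [g1.2.2], by linarith [g2.2.2], by linarith [g3.2.2]⟩)
  exact one_ne_zero g4.2.1

theorem gd_tri {mids : List P3} (hP : Pat mids) (a b c : P3) (h : AffineIndependent ℝ ![a, b, c]) :
    Gd mids a b [c] := by
  intro p q k₁ k₂ hp hpq hq hk
  have hc := SG_cross a b c h
  have hS : SimpleC (a :: b :: [c]) := simpleC_tri a b c h
  obtain ⟨m, hm⟩ : ∃ m : P3, 0 < det3 (a - c) m (b - a) * det3 k₁ k₂ (b - a) := by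
    generalize a - c = u at *
    generalize b - a = n at *
    obtain ⟨u1, u2, u3⟩ := u
    obtain ⟨n1, n2, n3⟩ := n
    have hs : 0 < (det3 k₁ k₂ (n1, n2, n3)) ^ 2 := by positivity
    refine ⟨(det3 k₁ k₂ (n1, n2, n3)) • (n2 * u3 - n3 * u2, n3 * u1 - n1 * u3, n1 * u2 - n2 * u1), ?_⟩
    have h1 := mul_pos hs hc
    generalize det3 k₁ k₂ (n1, n2, n3) = s at *
    simp only [det3, Prod.smul_mk, smul_eq_mul] at h1 ⊢
    nlinarith [h1]
  have hm0 : det3 (a - c) m (b - a) ≠ 0 := by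
    intro h0
    rw [h0, zero_mul] at hm
    exact lt_irrefl _ hm
  exact ch_k hP hS hp hpq hq hm ⟨1, one_pos, fun r hr _ => base_tri hP a b c m p q r hp hpq hq hr hm0⟩

end H97G
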