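import Pool.Agent.Lib.H97G.SB
import Pool.Agent.Lib.H97G.SC
import Pool.Agent.Lib.H97G.IH

/-!
# H97G, chunk SH: untouched sides

`b :: (l ++ [a]) = X ++ x :: y :: Y` is the rest of the polygon outside of the side `[a, b]`, with a side `[x, y]`. The decorated
polygon `dec mids x y (Y ++ X) ...` is a rotation of `X ++ x :: P :: (m' ++ Q :: y :: Y)` (`P`, `Q` the ends of the pattern, `m'` the
placed pattern), which begins with `b` and ends with `a`: it is of the form `b :: (l' ++ [a])`, so it is a rotation of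
`a :: b :: l'`; in the same way `dec mids x y (Y ++ v :: X) ...` is a rotation of `a :: v :: b :: l'`. So we have to apply
`Unknot.ins`, `Unknot.del` for `a v b l'`; the condition on the hull: `arcSet (b :: (l' ++ [a]))` is contained in
`arcSet (b :: (l ++ [a])) ∪ arcSet (P :: (m' ++ [Q]))` (`arcSet_append`; `[x, P]`, `[Q, y]` are in `[x, y]`), so it suffices that
the placed pattern does not meet `hull {a, v, b}`. By `thin_open` (`U` = complement of the hull, which is
compact: `Set.Finite.isCompact_convexHull`) it suffices that `segment P Q` does not meet the hull. `segment P Q ⊆ segment x y`; a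
point `X` of `segment P Q` and the hull is `a` or `b` by `Tri.hull`; but `a`, `b` are not in the open segment `(x, y)`: this is in
`unt_open` (from `SimpleC (a :: b :: l)`, rotated to `x :: y :: (Y ++ X)`: by `simpleC_two` a point of `[x, y]` which is a vertex of
the rest is `x` or `y`, and `a`, `b` are vertices of `y :: (Y ++ X ++ [x])`, `mem_arcSet`).
The number `r0` for the new statement is the minimum of the old one and the one of `thin_open`. (`x ≠ y` and `0 < q - p` give
what is needed for `openSegment`.)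
-/

namespace H97G

open H46K

theorem SH_simple {a v b : P3} {l : List P3} (h : Tri a v b l) {X Y : List P3} {x y : P3}
    (hXY : b :: (l ++ [a]) = X ++ x :: y :: Y) : SimpleC (x :: y :: (Y ++ X)) := by
  refine simpleC_rot ?_ h.simple
  have h1 : (a :: b :: l) ~r (b :: l ++ [a]) := List.isRotated_append (l := [a])
  have h2 : (X ++ x :: y :: Y) ~r (x :: y :: Y ++ X) := List.isRotated_append
  rw [List.cons_append, hXY] at h1
  exact h1.trans h2

theorem unt_open {a v b : P3} {l : List P3} (h : Tri a v b l) {X Y : List P3} {x y : P3}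
    (hXY : b :: (l ++ [a]) = X ++ x :: y :: Y) :
    Disjoint (openSegment ℝ x y) (convexHull ℝ {a, v, b}) := by
  rw [Set.disjoint_left]
  intro z hz hz2
  have hS := (simpleC_two x y [] (Y ++ X)).1 (SH_simple h hXY)
  have hzs : z ∈ segment ℝ x y := openSegment_subset_segment ℝ x y hz
  have h1 : z ∈ arcSet (b :: (l ++ [a])) := by
    rw [hXY, arcSet_append, IA_cons]
    exact Or.inr (Or.inl hzs)
  have h2 : z ∈ ({a, b} : Set P3) := h.hull ⟨hz2, h1⟩
  have h3 : z ∈ b :: (l ++ [a]) := by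
    rcases h2 with h2 | h2
    · rw [h2]
      simp
    · rw [Set.mem_singleton_iff] at h2
      rw [h2]
      simp
  have h4 : z ∈ y :: (Y ++ X ++ [x]) := by
    rw [hXY] at h3
    simp only [List.mem_append, List.mem_cons, List.not_mem_nil, or_false] at h3 ⊢
    tauto
  have h5 : z ∈ ({x, y} : Set P3) := by
    refine hS.2.2.2 ⟨?_, mem_arcSet h4⟩
    rw [List.nil_append, IB_seg]
    exact hzs
  rcases h5 with h5 | h5
  · rw [h5, left_mem_openSegment_iff] at hz
    exact hS.2.2.1 hz
  · rw [Set.mem_singleton_iff] at h5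
    rw [h5, right_mem_openSegment_iff] at hz
    exact hS.2.2.1 hz

theorem SH_split {a b x y : P3} {l X Y : List P3} (hXY : b :: (l ++ [a]) = X ++ x :: y :: Y) :
    ∃ X' Y' : List P3, X ++ [x] = b :: X' ∧ y :: Y = Y' ++ [a] := by
  have hY : y :: Y = (y :: Y).dropLast ++ [(y :: Y).getLast (List.cons_ne_nil y Y)] :=
    (List.dropLast_append_getLast (List.cons_ne_nil y Y)).symm
  have h1 : (b :: l) ++ [a] =
      (X ++ x :: (y :: Y).dropLast) ++ [(y :: Y).getLast (List.cons_ne_nil y Y)] := by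
    rw [List.cons_append, hXY, List.append_assoc, List.cons_append, ← hY]
  have h2 := List.append_inj' h1 rfl
  have h3 : a = (y :: Y).getLast (List.cons_ne_nil y Y) := List.head_eq_of_cons_eq h2.2
  rw [← h3] at hY
  cases X with
  | nil =>
    rw [List.nil_append] at hXY
    exact ⟨[], _, by rw [List.nil_append, List.head_eq_of_cons_eq hXY], hY⟩
  | cons c X =>
    rw [List.cons_append] at hXY
    exact ⟨X ++ [x], _, by rw [List.cons_append, List.head_eq_of_cons_eq hXY], hY⟩

theorem SH_common {mids : List P3} (hP : Pat mids) {a v b : P3} {l : List P3} (h : Tri a v b l)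
    {X Y : List P3} {x y : P3} (hXY : b :: (l ++ [a]) = X ++ x :: y :: Y) (p q : ℝ) (k₁ k₂ : P3)
    (hp : 0 < p) (hpq : p < q) (hq : q < 1) : ∃ r1 : ℝ, 0 < r1 ∧ ∀ r, 0 < r → r ≤ r1 →
      ∃ l' : List P3, (dec mids x y (Y ++ X) p q k₁ k₂ r) ~r (a :: b :: l') ∧
        (dec mids x y (Y ++ v :: X) p q k₁ k₂ r) ~r (a :: v :: b :: l') ∧
        convexHull ℝ {a, v, b} ∩ arcSet (b :: (l' ++ [a])) ⊆ {a, b} := by
  have hopen := unt_open h hXY
  have hmem : ∀ t : ℝ, 0 < t → t < 1 → lin x y t ∈ openSegment ℝ x y := by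
    intro t h0 h1
    rw [openSegment_eq_image']
    exact ⟨t, ⟨h0, h1⟩, rfl⟩
  have hPm := hmem p hp (hpq.trans hq)
  have hQm := hmem q (hp.trans hpq) hq
  have hseg : segment ℝ (lin x y p) (lin x y q) ⊆ openSegment ℝ x y :=
    (convex_openSegment x y).segment_subset hPm hQm
  have hcl : IsClosed (convexHull ℝ ({a, v, b} : Set P3)) :=
    (Set.Finite.isCompact_convexHull (𝕜 := ℝ) (Set.toFinite _)).isClosed
  obtain ⟨r1, hr1, hr⟩ := thin_open hP (lin x y p) (lin x y q) k₁ k₂ (convexHull ℝ {a, v, b})ᶜ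
    hcl.isOpen_compl (fun z hz => Set.disjoint_left.1 hopen (hseg hz))
  refine ⟨r1, hr1, fun r h0 h1 => ?_⟩
  have hthin := hr r h0 h1
  obtain ⟨X', Y', hX, hY⟩ := SH_split hXY
  set P := lin x y p with hPdef
  set Q := lin x y q with hQdef
  set m' := mids.map (plc P Q k₁ k₂ r) with hm'
  have hbig : b :: ((X' ++ P :: (m' ++ Q :: Y')) ++ [a]) = X ++ x :: P :: (m' ++ Q :: y :: Y) := by
    rw [hY]
    have e1 : X ++ x :: P :: (m' ++ Q :: (Y' ++ [a])) =
        (X ++ [x]) ++ (P :: (m' ++ Q :: (Y' ++ [a]))) := by simp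
    rw [e1, hX]
    simp
  refine ⟨X' ++ P :: (m' ++ Q :: Y'), ?_, ?_, ?_⟩
  · have e1 : dec mids x y (Y ++ X) p q k₁ k₂ r = (x :: P :: (m' ++ Q :: y :: Y)) ++ X := by
      unfold dec
      simp [hm', hPdef, hQdef]
    have e2 : a :: b :: (X' ++ P :: (m' ++ Q :: Y')) = [a] ++ (b :: (X' ++ P :: (m' ++ Q :: Y'))) :=
      rfl
    rw [e1, e2]
    refine List.isRotated_append.trans ?_
    rw [← hbig]
    exact (List.isRotated_append (l := b :: (X' ++ P :: (m' ++ Q :: Y'))) (l' := [a]))
  · have e1 : dec mids x y (Y ++ v :: X) p q k₁ k₂ r =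
        (x :: P :: (m' ++ Q :: y :: Y)) ++ (v :: X) := by
      unfold dec
      simp [hm', hPdef, hQdef]
    have e2 : a :: v :: b :: (X' ++ P :: (m' ++ Q :: Y')) =
        [a] ++ (v :: b :: (X' ++ P :: (m' ++ Q :: Y'))) := rfl
    rw [e1, e2]
    refine List.isRotated_append.trans ?_
    rw [List.cons_append, ← hbig]
    exact (List.isRotated_append (l := v :: b :: (X' ++ P :: (m' ++ Q :: Y'))) (l' := [a]))
  · rintro z ⟨hz, hz2⟩
    rw [hbig, arcSet_append, IA_cons] at hz2
    have e3 : P :: (m' ++ Q :: y :: Y) = (P :: m') ++ Q :: (y :: Y) := rfl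
    rw [e3, arcSet_append (P :: m') Q (y :: Y), IA_cons Q y Y, List.cons_append] at hz2
    have hPs : P ∈ segment ℝ x y := openSegment_subset_segment ℝ x y hPm
    have hQs : Q ∈ segment ℝ x y := openSegment_subset_segment ℝ x y hQm
    refine h.hull ⟨hz, ?_⟩
    rw [hXY, arcSet_append, IA_cons]
    rcases hz2 with hz2 | hz2 | hz2 | hz2 | hz2
    · exact Or.inl hz2
    · exact Or.inr (Or.inl ((convex_segment x y).segment_subset (left_mem_segment ℝ x y) hPs hz2))
    · exact absurd hz (hthin hz2)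
    · exact Or.inr (Or.inl ((convex_segment x y).segment_subset hQs (right_mem_segment ℝ x y) hz2))
    · exact Or.inr (Or.inr hz2)

theorem unt_ins {mids : List P3} (hP : Pat mids) {a v b : P3} {l : List P3} (h : Tri a v b l)
    {X Y : List P3} {x y : P3} (hXY : b :: (l ++ [a]) = X ++ x :: y :: Y)
    (hG : Gd mids x y (Y ++ X)) : Gd mids x y (Y ++ v :: X) := by
  intro p q k₁ k₂ hp hpq hq hdet
  obtain ⟨r0, hr0, h0⟩ := hG p q k₁ k₂ hp hpq hq hdet
  obtain ⟨r1, hr1, h1⟩ := SH_common hP h hXY p q k₁ k₂ hp hpq hq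
  refine ⟨min r0 r1, lt_min hr0 hr1, fun r hr hr' => ?_⟩
  obtain ⟨l', e1, e2, e3⟩ := h1 r hr (hr'.trans (min_le_right _ _))
  have hu := h0 r hr (hr'.trans (min_le_left _ _))
  exact Unknot.rot _ _ e2.symm (Unknot.ins a v b l' h.av h.vb h.seg e3 (Unknot.rot _ _ e1 hu))

theorem unt_del {mids : List P3} (hP : Pat mids) {a v b : P3} {l : List P3} (h : Tri a v b l)
    {X Y : List P3} {x y : P3} (hXY : b :: (l ++ [a]) = X ++ x :: y :: Y)
    (hG : Gd mids x y (Y ++ v :: X)) : Gd mids x y (Y ++ X) := by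
  intro p q k₁ k₂ hp hpq hq hdet
  obtain ⟨r0, hr0, h0⟩ := hG p q k₁ k₂ hp hpq hq hdet
  obtain ⟨r1, hr1, h1⟩ := SH_common hP h hXY p q k₁ k₂ hp hpq hq
  refine ⟨min r0 r1, lt_min hr0 hr1, fun r hr hr' => ?_⟩
  obtain ⟨l', e1, e2, e3⟩ := h1 r hr (hr'.trans (min_le_right _ _))
  have hu := h0 r hr (hr'.trans (min_le_left _ _))
  exact Unknot.rot _ _ e1.symm (Unknot.del a v b l' h.av h.vb h.seg e3 (Unknot.rot _ _ e2 hu))

end H97G
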