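import Pool.Agent.Lib.H97G.S0
import Pool.Agent.Lib.H97G.IB
import Pool.Agent.Lib.H97G.IC

/-!
# H97G, chunk SI: moving the vertex of a triangle to a side

`mv a v b s` is the point between the midpoint of `[a, b]` (`s = 0`) and `v` (`s = 1`).
`mv_simple`: for `0 ≤ s ≤ 1` let `w = mv a v b s`. `simpleC_two` with `p = a`, `q = b`, `β = [w]`: the arc `[a, w, b]` is in the hull of
`a, v, b` (convexity), which gives the intersection with `arcSet (b :: (l ++ [a]))`; the arc `b :: (l ++ [a])` is simple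
and `a ≠ b` by `Tri.simple`. It remains: `a ≠ w`, `w ≠ b`, `[a, w] ∩ [w, b] ⊆ {w}`. For `s = 1` this is `Tri`. In general: by `Tri`, the vectors
`v - a` and `b - a` are nonzero and `v - a` is not a multiple `κ (b - a)` with `κ ≤ 0` or `κ ≥ 1`
(if `v = a + κ (b - a)`: `κ < 0`: `a` is in `[v, b]` and in `[a, v]`, so `a = v`; `κ ≥ 1`: `b ∈ [a, v] ∩ [v, b]`). If `v - a`
and `b - a` are linearly independent, so are `w - a` and `b - a` or `s = 0`; otherwise `w` is strictly between `a` and `b`.
If `a + t (w - a) = w + u (b - w)`, i.e. `(1 - t) (a - w) = u (b - w)`, `t, u ∈ [0,1]`, `t < 1`: `a - w` is a nonnegative multiple of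
`b - w`: impossible in both cases.
`functional_a`, `functional_b`: `v - a` and `-(b - a)` (both nonzero) are not positively proportional (they are the cases
`κ < 0`), so there is a linear functional which is positive at `v - a` and negative at `-(b - a)`: with the dot
product, `x = |n| u + |u| n` (`u = v - a`, `n = b - a`, Euclidean lengths): `x · u = |u| (|n| |u| + u · n) > 0`,
`x · n = |n| (u · n + |u| |n|) > 0` (Cauchy-Schwarz, equality only if `u` is a nonpositive multiple of `n`). Scale it so that its value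
is `1` at `v - a`. The functional is `X ↦ f.1 X.1 + f.2.1 X.2.1 + f.2.2 X.2.2`. For `functional_b` use `Tri` for `b`.
-/

namespace H97G

open H46K

/-- the vertex at time `s` -/
noncomputable def mv (a v b : P3) (s : ℝ) : P3 := (1 - s) • lin a b (1 / 2) + s • v

/-- the value of the functional `f` at `X` -/
def dt (f X : P3) : ℝ := f.1 * X.1 + f.2.1 * X.2.1 + f.2.2 * X.2.2

theorem SI_nr {a v b : P3} {l : List P3} (h : Tri a v b l) : ¬ SameRay ℝ (a - v) (b - v) := by
  have h1 := ((IC_corner a v b).1 ⟨h.av, h.vb, h.seg⟩).2.2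
  rw [sameRay_iff_norm_smul_eq]
  exact h1

/-- if `b - v` and `a - v` are proportional with nonnegative coefficients there is a contradiction -/
theorem SI_contra {a v b : P3} {l : List P3} (h : Tri a v b l) {α β : ℝ} (hα : 0 < α) (hβ : 0 ≤ β)
    (he : α • (b - v) = β • (a - v)) : False := by
  refine SI_nr h ?_
  rcases hβ.eq_or_lt with rfl | hβ
  · rw [zero_smul, smul_eq_zero] at he
    rcases he with he | he
    · exact absurd he hα.ne'
    · rw [he]
      exact SameRay.zero_right _
  · exact Or.inr (Or.inr ⟨β, α, hβ, hα, he.symm⟩)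

theorem SI_mv {a v b : P3} {l : List P3} (h : Tri a v b l) (hab : a ≠ b) {s : ℝ} (h0 : 0 ≤ s)
    (h1 : s ≤ 1) : ¬ SameRay ℝ (a - mv a v b s) (b - mv a v b s) := by
  intro hr
  have key : ∃ α β : ℝ, 0 ≤ α ∧ 0 ≤ β ∧ 0 < α + β ∧
      α • (a - mv a v b s) = β • (b - mv a v b s) := by
    rcases hr with hr | hr | ⟨α, β, hα, hβ, he⟩
    · exact ⟨1, 0, zero_le_one, le_refl _, by norm_num, by rw [hr, smul_zero, zero_smul]⟩
    · exact ⟨0, 1, le_refl _, zero_le_one, by norm_num, by rw [hr, smul_zero, zero_smul]⟩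
    · exact ⟨α, β, hα.le, hβ.le, by positivity, he⟩
  obtain ⟨α, β, hα, hβ, hαβ, he⟩ := key
  have e1 : (α * (1 - s) + β * (1 + s)) • (b - a) = (2 * s * (β - α)) • (v - a) := by
    have e2 : (2 : ℝ) • (α • (a - mv a v b s)) = (2 : ℝ) • (β • (b - mv a v b s)) := by rw [he]
    have e3 : (2 : ℝ) • (α • (a - mv a v b s)) =
        (-(α * (1 - s))) • (b - a) - (2 * s * α) • (v - a) := by
      unfold mv lin
      module
    have e4 : (2 : ℝ) • (β • (b - mv a v b s)) =
        (β * (1 + s)) • (b - a) - (2 * s * β) • (v - a) := by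
      unfold mv lin
      module
    rw [e3, e4] at e2
    have e5 : (α * (1 - s) + β * (1 + s)) • (b - a) - (2 * s * (β - α)) • (v - a) =
        ((β * (1 + s)) • (b - a) - (2 * s * β) • (v - a)) -
        ((-(α * (1 - s))) • (b - a) - (2 * s * α) • (v - a)) := by module
    rw [← e2, sub_self] at e5
    exact sub_eq_zero.1 e5
  have hA0 : 0 ≤ α * (1 - s) + β * (1 + s) :=
    add_nonneg (mul_nonneg hα (by linarith)) (mul_nonneg hβ (by linarith))
  rcases hA0.eq_or_lt with hA | hA
  · have g1 : α * (1 - s) = 0 := by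
      have := mul_nonneg hα (sub_nonneg.2 h1)
      have := mul_nonneg hβ (show (0 : ℝ) ≤ 1 + s by linarith)
      linarith
    have g2 : β * (1 + s) = 0 := by linarith
    have g3 : β = 0 := by
      rcases mul_eq_zero.1 g2 with g | g
      · exact g
      · linarith
    have g4 : 0 < α := by linarith
    have g5 : s = 1 := by
      rcases mul_eq_zero.1 g1 with g | g
      · linarith
      · linarith
    rw [← hA, zero_smul] at e1
    rcases smul_eq_zero.1 e1.symm with g | g
    · rw [g5, g3] at g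
      linarith
    · exact h.av (sub_eq_zero.1 g).symm
  · refine SI_contra h hA (β := α * (1 + s) + β * (1 - s))
      (add_nonneg (mul_nonneg hα (by linarith)) (mul_nonneg hβ (by linarith))) ?_
    have e6 : (α * (1 - s) + β * (1 + s)) • (b - v) =
        (α * (1 - s) + β * (1 + s)) • (b - a) - (α * (1 - s) + β * (1 + s)) • (v - a) := by module
    rw [e6, e1]
    module

theorem mv_simple {a v b : P3} {l : List P3} (h : Tri a v b l) (s : ℝ) (h0 : 0 ≤ s) (h1 : s ≤ 1) :
    SimpleC (a :: mv a v b s :: b :: l) := by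
  have g := (simpleC_two a b [] l).1 h.simple
  obtain ⟨-, g2, hab, -⟩ := g
  have hnr := SI_mv h hab h0 h1
  have haw : a ≠ mv a v b s := by
    intro hh
    refine hnr ?_
    rw [sub_eq_zero.2 hh]
    exact SameRay.zero_left _
  have hwb : mv a v b s ≠ b := by
    intro hh
    refine hnr ?_
    rw [sub_eq_zero.2 hh.symm]
    exact SameRay.zero_right _
  have hc : Corner a (mv a v b s) b := by
    rw [IC_corner]
    refine ⟨haw, hwb, ?_⟩
    rw [sameRay_iff_norm_smul_eq] at hnr
    exact hnr
  have hw : mv a v b s ∈ convexHull ℝ ({a, v, b} : Set P3) := by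
    have hcv := convex_convexHull ℝ ({a, v, b} : Set P3)
    have ha : a ∈ convexHull ℝ ({a, v, b} : Set P3) := subset_convexHull ℝ _ (by simp)
    have hv : v ∈ convexHull ℝ ({a, v, b} : Set P3) := subset_convexHull ℝ _ (by simp)
    have hb : b ∈ convexHull ℝ ({a, v, b} : Set P3) := subset_convexHull ℝ _ (by simp)
    have hm : lin a b (1 / 2) ∈ convexHull ℝ ({a, v, b} : Set P3) := by
      have := hcv ha hb (show (0 : ℝ) ≤ 1 / 2 by norm_num) (show (0 : ℝ) ≤ 1 / 2 by norm_num)
        (by norm_num)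
      have e : lin a b (1 / 2) = (1 / 2 : ℝ) • a + (1 / 2 : ℝ) • b := by
        unfold lin
        module
      rw [e]
      exact this
    exact hcv hm hv (sub_nonneg.2 h1) h0 (by ring)
  have hsub : arcSet (a :: ([mv a v b s] ++ [b])) ⊆ convexHull ℝ ({a, v, b} : Set P3) := by
    refine arcSet_subset (convex_convexHull ℝ _) ?_
    intro x hx
    rw [List.singleton_append, List.mem_cons, List.mem_cons, List.mem_singleton] at hx
    rcases hx with rfl | rfl | rfl
    · exact subset_convexHull ℝ _ (by simp)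
    · exact hw
    · exact subset_convexHull ℝ _ (by simp)
  refine (simpleC_two a b [mv a v b s] l).2 ⟨?_, g2, hab, ?_⟩
  · rw [List.singleton_append, IA_simple_cons, IB_seg, IB_simple]
    exact ⟨haw, hc.2.2, hwb⟩
  · exact fun x hx => h.hull ⟨hsub hx.1, hx.2⟩

/-- a linear functional with value `1` at `x` and positive at `y` -/
theorem SI_fun (x y : P3) (hx : x ≠ 0) (hy : y ≠ 0) (hn : ∀ c : ℝ, 0 < c → y ≠ (-c) • x) :
    ∃ f : P3, dt f x = 1 ∧ 0 < dt f y := by
  have hX : 0 < dt x x := by
    unfold dt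
    have h1 : x.1 ≠ 0 ∨ x.2.1 ≠ 0 ∨ x.2.2 ≠ 0 := by
      by_contra hcon
      push Not at hcon
      exact hx (Prod.ext hcon.1 (Prod.ext hcon.2.1 hcon.2.2))
    rcases h1 with h1 | h1 | h1
    · have := mul_self_pos.2 h1
      nlinarith [mul_self_nonneg x.2.1, mul_self_nonneg x.2.2]
    · have := mul_self_pos.2 h1
      nlinarith [mul_self_nonneg x.1, mul_self_nonneg x.2.2]
    · have := mul_self_pos.2 h1
      nlinarith [mul_self_nonneg x.1, mul_self_nonneg x.2.1]
  have hD : 0 ≤ dt x x * dt y y - dt x y * dt x y := by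
    have e : dt x x * dt y y - dt x y * dt x y = (x.1 * y.2.1 - x.2.1 * y.1) ^ 2 +
        (x.1 * y.2.2 - x.2.2 * y.1) ^ 2 + (x.2.1 * y.2.2 - x.2.2 * y.2.1) ^ 2 := by
      unfold dt
      ring
    rw [e]
    positivity
  rcases hD.eq_or_lt with hD | hD
  · have e : dt x x * dt y y - dt x y * dt x y = (x.1 * y.2.1 - x.2.1 * y.1) ^ 2 +
        (x.1 * y.2.2 - x.2.2 * y.1) ^ 2 + (x.2.1 * y.2.2 - x.2.2 * y.2.1) ^ 2 := by
      unfold dt
      ring
    rw [← hD] at e
    have q1 : x.1 * y.2.1 - x.2.1 * y.1 = 0 := by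
      have : (x.1 * y.2.1 - x.2.1 * y.1) ^ 2 = 0 := by
        nlinarith [sq_nonneg (x.1 * y.2.1 - x.2.1 * y.1), sq_nonneg (x.1 * y.2.2 - x.2.2 * y.1),
          sq_nonneg (x.2.1 * y.2.2 - x.2.2 * y.2.1)]
      exact pow_eq_zero_iff (two_ne_zero) |>.1 this
    have q2 : x.1 * y.2.2 - x.2.2 * y.1 = 0 := by
      have : (x.1 * y.2.2 - x.2.2 * y.1) ^ 2 = 0 := by
        nlinarith [sq_nonneg (x.1 * y.2.1 - x.2.1 * y.1), sq_nonneg (x.1 * y.2.2 - x.2.2 * y.1),
          sq_nonneg (x.2.1 * y.2.2 - x.2.2 * y.2.1)]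
      exact pow_eq_zero_iff (two_ne_zero) |>.1 this
    have q3 : x.2.1 * y.2.2 - x.2.2 * y.2.1 = 0 := by
      have : (x.2.1 * y.2.2 - x.2.2 * y.2.1) ^ 2 = 0 := by
        nlinarith [sq_nonneg (x.1 * y.2.1 - x.2.1 * y.1), sq_nonneg (x.1 * y.2.2 - x.2.2 * y.1),
          sq_nonneg (x.2.1 * y.2.2 - x.2.2 * y.2.1)]
      exact pow_eq_zero_iff (two_ne_zero) |>.1 this
    have hpar : y = (dt x y / dt x x) • x := by
      have e1 : dt x x * y.1 = dt x y * x.1 := by
        unfold dt
        linear_combination (-x.2.1) * q1 - x.2.2 * q2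
      have e2 : dt x x * y.2.1 = dt x y * x.2.1 := by
        unfold dt
        linear_combination x.1 * q1 - x.2.2 * q3
      have e3 : dt x x * y.2.2 = dt x y * x.2.2 := by
        unfold dt
        linear_combination x.1 * q2 + x.2.1 * q3
      refine Prod.ext ?_ (Prod.ext ?_ ?_)
      · change y.1 = dt x y / dt x x * x.1
        rw [div_mul_eq_mul_div, eq_div_iff hX.ne', mul_comm]
        exact e1
      · change y.2.1 = dt x y / dt x x * x.2.1
        rw [div_mul_eq_mul_div, eq_div_iff hX.ne', mul_comm]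
        exact e2
      · change y.2.2 = dt x y / dt x x * x.2.2
        rw [div_mul_eq_mul_div, eq_div_iff hX.ne', mul_comm]
        exact e3
    have hp : 0 < dt x y := by
      by_contra hcon
      rw [not_lt] at hcon
      rcases hcon.eq_or_lt with hc | hc
      · rw [hc, zero_div, zero_smul] at hpar
        exact hy hpar
      · refine hn (-(dt x y / dt x x)) ?_ ?_
        · rw [neg_pos]
          exact div_neg_of_neg_of_pos hc hX
        · rw [neg_neg]
          exact hpar
    refine ⟨(dt x x)⁻¹ • x, ?_, ?_⟩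
    · have e1 : dt ((dt x x)⁻¹ • x) x = (dt x x)⁻¹ * dt x x := by
        simp only [dt, Prod.smul_fst, Prod.smul_snd, smul_eq_mul]
        ring
      rw [e1, inv_mul_cancel₀ hX.ne']
    · have e1 : dt ((dt x x)⁻¹ • x) y = (dt x x)⁻¹ * dt x y := by
        simp only [dt, Prod.smul_fst, Prod.smul_snd, smul_eq_mul]
        ring
      rw [e1]
      positivity
  · set D := dt x x * dt y y - dt x y * dt x y with hDdef
    refine ⟨D⁻¹ • ((dt y y - dt x y) • x + (dt x x - dt x y) • y), ?_, ?_⟩
    · have e1 : dt (D⁻¹ • ((dt y y - dt x y) • x + (dt x x - dt x y) • y)) x = D⁻¹ * D := by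
        rw [hDdef]
        simp only [dt, Prod.smul_fst, Prod.smul_snd, Prod.fst_add, Prod.snd_add, smul_eq_mul]
        ring
      rw [e1, inv_mul_cancel₀ hD.ne']
    · have e1 : dt (D⁻¹ • ((dt y y - dt x y) • x + (dt x x - dt x y) • y)) y = D⁻¹ * D := by
        rw [hDdef]
        simp only [dt, Prod.smul_fst, Prod.smul_snd, Prod.fst_add, Prod.snd_add, smul_eq_mul]
        ring
      rw [e1, inv_mul_cancel₀ hD.ne']
      exact one_pos

theorem functional_a {a v b : P3} {l : List P3} (h : Tri a v b l) :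
    ∃ f : P3, dt f (v - a) = 1 ∧ 0 < dt f (b - a) := by
  have g := (simpleC_two a b [] l).1 h.simple
  obtain ⟨-, -, hab, -⟩ := g
  refine SI_fun _ _ (sub_ne_zero.2 h.av.symm) (sub_ne_zero.2 hab.symm) ?_
  intro c hc he
  refine SI_contra h one_pos (β := 1 + c) (by positivity) ?_
  have e : (1 : ℝ) • (b - v) = (b - a) - (v - a) := by module
  rw [e, he]
  module

theorem functional_b {a v b : P3} {l : List P3} (h : Tri a v b l) :
    ∃ f : P3, dt f (b - v) = 1 ∧ 0 < dt f (b - a) := by
  have g := (simpleC_two a b [] l).1 h.simple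
  obtain ⟨-, -, hab, -⟩ := g
  refine SI_fun _ _ (sub_ne_zero.2 h.vb.symm) (sub_ne_zero.2 hab.symm) ?_
  intro c hc he
  refine SI_contra h (α := 1 + c) (β := 1) (by positivity) zero_le_one ?_
  have e : (1 : ℝ) • (a - v) = (b - v) - (b - a) := by module
  rw [e, he]
  module

/-- the determinant of `id + e ⊗ f` -/
theorem det3_trans (f e u v w : P3) :
    det3 (u + dt f u • e) (v + dt f v • e) (w + dt f w • e) = (1 + dt f e) * det3 u v w := by
  simp only [det3, dt, Prod.smul_fst, Prod.smul_snd, Prod.fst_add, Prod.snd_add, smul_eq_mul]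
  ring

end H97G
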