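import Pool.Agent.Lib.H97G.SE
import Pool.Agent.Lib.H97G.SI

/-!
# H97G, chunk SJ: the side `[a, v]`

`half_a`: `lin a m p = lin a b (p / 2)` for `m = lin a b (1 / 2)`, so `dec mids a m (b :: l) p q k₁ k₂ r` is the list
`a :: P :: (m' ++ Q :: m :: b :: l)` and `dec mids a b l (p / 2) (q / 2) k₁ k₂ r` is `a :: P :: (m' ++ Q :: b :: l)` with the same `P`, `Q`,
`m'`; `m` is in `openSegment Q b`. Rotate to `Q :: m :: b :: (l ++ ...)` and use `sub_ins`, `sub_del`.
`move_a`: `dec_family` with `a`, `p`, `q` constant, `b s := mv a v b s`, the rest `b :: l` constant,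
`k_i s = k_i + dt f k_i • (mv a v b s - v)`, `f` from `functional_a`: at `s = 1` this is `k_i`. With `e = mv a v b s - v`:
`mv a v b s - a = (v - a) + dt f (v - a) • e`, so by `det3_trans` the determinant is `(1 + dt f e) det3 k₁ k₂ (v - a)`, and
`1 + dt f e = dt f (mv a v b s - a) = (1 - s) / 2 * dt f (b - a) + s > 0`. Simple by `mv_simple`.
`touch_a_ins`: given `p, q, k₁, k₂` for `[a, v]`, by `move_a` it suffices to treat `[a, m]` with the frame `k_i 0`,
and by `half_a` this is `Gd` for `[a, b]` at `p / 2`, `q / 2` (the determinant is not zero: `m - a = (b - a) / 2`).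
`touch_a_del`: given `p, q, k₁, k₂` for `[a, b]`; by `ch_pq` we may assume `p = p' / 2`, `q = q' / 2` with `0 < p' < q' < 1` (e.g. `1/4`, `3/8`); by `half_a`
it suffices to treat `[a, m]` at `p'`, `q'`, and by `move_a` `[a, v]` with the frame `k_i'` for which `k_i' + dt f k_i' • (m - v) = k_i`, i.e.
`k_i' = k_i + dt f k_i / (1 + dt f (m - v)) • (v - m)`.
-/

namespace H97G

open H46K

theorem SJ_rot (pre : List P3) {Q m b : P3} {l : List P3} (hm : m ∈ openSegment ℝ Q b) :
    Unknot (pre ++ Q :: m :: b :: l) ↔ Unknot (pre ++ Q :: b :: l) := by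
  constructor
  · intro h
    have h1 : Unknot (Q :: m :: b :: (l ++ pre)) :=
      Unknot.rot _ _ (List.isRotated_append (l := pre) (l' := Q :: m :: b :: l)) h
    have h2 := sub_del hm h1
    exact Unknot.rot _ _ (List.isRotated_append (l := Q :: b :: l) (l' := pre)) h2
  · intro h
    have h1 : Unknot (Q :: b :: (l ++ pre)) :=
      Unknot.rot _ _ (List.isRotated_append (l := pre) (l' := Q :: b :: l)) h
    have h2 := sub_ins hm h1
    exact Unknot.rot _ _ (List.isRotated_append (l := Q :: m :: b :: l) (l' := pre)) h2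

theorem SJ_lin (a b : P3) (p : ℝ) : lin a (lin a b (1 / 2)) p = lin a b (p / 2) := by
  unfold lin
  rw [add_sub_cancel_left, smul_smul]
  congr 2
  ring

theorem SJ_open (a b : P3) {q : ℝ} (hq : q < 1) :
    lin a b (1 / 2) ∈ openSegment ℝ (lin a b (q / 2)) b := by
  have h2 : 0 < 2 - q := by linarith
  refine ⟨1 / (2 - q), (1 - q) / (2 - q), by positivity, div_pos (by linarith) h2, ?_, ?_⟩
  · rw [← add_div, div_eq_one_iff_eq h2.ne']
    ring
  · have e : (1 / (2 - q)) • lin a b (q / 2) + ((1 - q) / (2 - q)) • b =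
        (1 / (2 - q) * (1 - q / 2)) • a + (1 / (2 - q) * (q / 2) + (1 - q) / (2 - q)) • b := by
      unfold lin
      module
    have e1 : 1 / (2 - q) * (1 - q / 2) = 1 / 2 := by
      field_simp
    have e2 : 1 / (2 - q) * (q / 2) + (1 - q) / (2 - q) = 1 / 2 := by
      field_simp
      ring
    rw [e, e1, e2]
    unfold lin
    module

theorem half_a {mids : List P3} {a b : P3} {l : List P3} {p q : ℝ} {k₁ k₂ : P3} (hp : 0 < p)
    (hpq : p < q) (hq : q < 1) (hab : a ≠ b) :
    GdAt mids a (lin a b (1 / 2)) (b :: l) p q k₁ k₂ ↔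
      GdAt mids a b l (p / 2) (q / 2) k₁ k₂ := by
  have key : ∀ r : ℝ, Unknot (dec mids a (lin a b (1 / 2)) (b :: l) p q k₁ k₂ r) ↔
      Unknot (dec mids a b l (p / 2) (q / 2) k₁ k₂ r) := by
    intro r
    unfold dec
    rw [SJ_lin, SJ_lin]
    exact SJ_rot (a :: lin a b (p / 2) :: mids.map (plc (lin a b (p / 2)) (lin a b (q / 2)) k₁ k₂ r))
      (SJ_open a b hq)
  unfold GdAt
  simp only [key]

theorem SJ_mv0 (a v b : P3) : mv a v b 0 = lin a b (1 / 2) := by
  unfold mv
  rw [sub_zero, one_smul, zero_smul, add_zero]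

theorem SJ_mv1 (a v b : P3) : mv a v b 1 = v := by
  unfold mv
  rw [sub_self, one_smul, zero_smul, zero_add]

theorem SJ_dt {a v b f : P3} (hf : dt f (v - a) = 1) (s : ℝ) :
    1 + dt f (mv a v b s - v) = s + (1 - s) / 2 * dt f (b - a) := by
  unfold dt mv lin at *
  simp only [Prod.fst_add, Prod.snd_add, Prod.fst_sub, Prod.snd_sub, Prod.smul_fst, Prod.smul_snd,
    smul_eq_mul] at *
  linear_combination (s - 1) * hf

theorem SJ_pos {a v b f : P3} (hf : dt f (v - a) = 1) (hf' : 0 < dt f (b - a)) {s : ℝ}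
    (h0 : 0 ≤ s) (h1 : s ≤ 1) : 0 < 1 + dt f (mv a v b s - v) := by
  rw [SJ_dt hf]
  rcases h0.lt_or_eq with h | h
  · have : 0 ≤ (1 - s) / 2 * dt f (b - a) := mul_nonneg (by linarith) hf'.le
    linarith
  · rw [← h]
    linarith

theorem SJ_det {a v b f : P3} (hf : dt f (v - a) = 1) (k₁ k₂ : P3) (s : ℝ) :
    det3 (k₁ + dt f k₁ • (mv a v b s - v)) (k₂ + dt f k₂ • (mv a v b s - v)) (mv a v b s - a) =
      (1 + dt f (mv a v b s - v)) * det3 k₁ k₂ (v - a) := by
  have h := det3_trans f (mv a v b s - v) k₁ k₂ (v - a)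
  have e : v - a + dt f (v - a) • (mv a v b s - v) = mv a v b s - a := by
    rw [hf, one_smul]
    abel
  rw [e] at h
  exact h

theorem move_a {mids : List P3} (hP : Pat mids) {a v b : P3} {l : List P3} (h : Tri a v b l)
    {p q : ℝ} {k₁ k₂ f : P3} (hp : 0 < p) (hpq : p < q) (hq : q < 1)
    (hk : det3 k₁ k₂ (v - a) ≠ 0) (hf : dt f (v - a) = 1) (hf' : 0 < dt f (b - a)) :
    GdAt mids a (lin a b (1 / 2)) (b :: l) p q (k₁ + dt f k₁ • (lin a b (1 / 2) - v))
      (k₂ + dt f k₂ • (lin a b (1 / 2) - v)) ↔ GdAt mids a v (b :: l) p q k₁ k₂ := by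
  have hmvc : Continuous (mv a v b) := by
    unfold mv
    fun_prop
  have hmap : ∀ s : ℝ, ((((b :: l).map fun x => (fun _ : ℝ => x)) : List (ℝ → P3)).map
      fun g => g s) = b :: l := by
    intro s
    rw [List.map_map]
    have : ((fun g : ℝ → P3 => g s) ∘ fun x : P3 => fun _ : ℝ => x) = id := rfl
    rw [this, List.map_id]
  have key := dec_family hP (fun _ => a) (mv a v b) ((b :: l).map fun x => (fun _ : ℝ => x))
    (fun _ => p) (fun _ => q) (fun s => k₁ + dt f k₁ • (mv a v b s - v))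
    (fun s => k₂ + dt f k₂ • (mv a v b s - v)) continuous_const hmvc
    (by
      intro g hg
      obtain ⟨x, -, rfl⟩ := List.mem_map.1 hg
      exact continuous_const)
    continuous_const continuous_const (by fun_prop) (by fun_prop)
    (by
      intro s h0 h1
      rw [hmap]
      exact mv_simple h s h0 h1)
    (fun s _ _ => ⟨hp, hpq, hq⟩)
    (by
      intro s h0 h1
      rw [SJ_det hf]
      exact mul_ne_zero (SJ_pos hf hf' h0 h1).ne' hk)
  simp only [hmap, SJ_mv0, SJ_mv1, sub_self, smul_zero, add_zero] at key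
  exact key

theorem SJ_ne {a v b : P3} {l : List P3} (h : Tri a v b l) : a ≠ b :=
  ((simpleC_two a b [] l).1 h.simple).2.2.1

theorem SJ_half (a b : P3) : lin a b (1 / 2) - a = (1 / 2 : ℝ) • (b - a) := by
  unfold lin
  rw [add_sub_cancel_left]

theorem touch_a_ins {mids : List P3} (hP : Pat mids) {a v b : P3} {l : List P3}
    (h : Tri a v b l) (hG : Gd mids a b l) : Gd mids a v (b :: l) := by
  intro p q k₁ k₂ hp hpq hq hk
  obtain ⟨f, hf, hf'⟩ := functional_a h
  refine (move_a hP h hp hpq hq hk hf hf').1 ?_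
  refine (half_a hp hpq hq (SJ_ne h)).2 ?_
  refine hG (p / 2) (q / 2) _ _ (by linarith) (by linarith) (by linarith) ?_
  have h1 := SJ_det (b := b) hf k₁ k₂ 0
  rw [SJ_mv0, SJ_half, det3_smul] at h1
  intro h0
  rw [h0, mul_zero] at h1
  have h2 := SJ_pos (b := b) hf hf' le_rfl zero_le_one
  rw [SJ_mv0] at h2
  exact mul_ne_zero h2.ne' hk h1.symm

theorem SJ_inv (f e k : P3) (h : 1 + dt f e ≠ 0) :
    (k + (dt f k / (1 + dt f e)) • (-e)) + dt f (k + (dt f k / (1 + dt f e)) • (-e)) • e = k := by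
  have h1 : dt f (k + (dt f k / (1 + dt f e)) • (-e)) = dt f k / (1 + dt f e) := by
    have h2 : dt f (k + (dt f k / (1 + dt f e)) • (-e)) =
        dt f k - dt f k / (1 + dt f e) * dt f e := by
      generalize dt f k / (1 + dt f e) = t
      unfold dt
      simp only [Prod.fst_add, Prod.snd_add, Prod.smul_fst, Prod.smul_snd, Prod.fst_neg,
        Prod.snd_neg, smul_eq_mul]
      ring
    rw [h2]
    field_simp
    ring
  rw [h1, smul_neg, neg_add_cancel_right]

theorem touch_a_del {mids : List P3} (hP : Pat mids) {a v b : P3} {l : List P3}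
    (h : Tri a v b l) (hG : Gd mids a v (b :: l)) : Gd mids a b l := by
  intro p q k₁ k₂ hp hpq hq hk
  obtain ⟨f, hf, hf'⟩ := functional_a h
  have hD := SJ_pos (b := b) hf hf' le_rfl zero_le_one
  rw [SJ_mv0] at hD
  set e : P3 := lin a b (1 / 2) - v with he
  refine ch_pq hP h.simple (p := 1 / 4 / 2) (q := 1 / 2 / 2) (by norm_num) (by norm_num)
    (by norm_num) hp hpq hq hk ?_
  refine (half_a (by norm_num) (by norm_num) (by norm_num) (SJ_ne h)).1 ?_
  set k₁' : P3 := k₁ + (dt f k₁ / (1 + dt f e)) • (-e) with hk₁'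
  set k₂' : P3 := k₂ + (dt f k₂ / (1 + dt f e)) • (-e) with hk₂'
  have e1 : k₁' + dt f k₁' • e = k₁ := SJ_inv f e k₁ hD.ne'
  have e2 : k₂' + dt f k₂' • e = k₂ := SJ_inv f e k₂ hD.ne'
  have hk' : det3 k₁' k₂' (v - a) ≠ 0 := by
    have h1 := SJ_det (b := b) hf k₁' k₂' 0
    rw [SJ_mv0, ← he, e1, e2, SJ_half, det3_smul] at h1
    intro h0
    rw [h0, mul_zero] at h1
    exact mul_ne_zero (by norm_num) hk h1
  have h2 := (move_a hP h (p := 1 / 4) (q := 1 / 2) (k₁ := k₁') (k₂ := k₂') (by norm_num)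
    (by norm_num) (by norm_num) hk' hf hf').2 (hG (1 / 4) (1 / 2) k₁' k₂' (by norm_num)
      (by norm_num) (by norm_num) hk')
  rw [← he, e1, e2] at h2
  exact h2

end H97G
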