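import Pool.Agent.Lib.H97G.SE
import Pool.Agent.Lib.H97G.SI

/-!
# H97G, chunk SK: the side `[v, b]`

As SJ, for the other side. `m = lin a b (1 / 2)`, `lin m b p = lin a b ((1 + p) / 2)`.
`half_b`: `dec mids m b (l ++ [a]) p q k₁ k₂ r` is `m :: P :: (m' ++ Q :: b :: (l ++ [a]))`, a rotation of
`a :: m :: P :: (m' ++ Q :: b :: l)`, with `m` in `openSegment a P`: `sub_ins`, `sub_del`.
`touch_b`: given `p, q, k₁, k₂` with `det3 k₁ k₂ (b - v) ≠ 0`; `dec_family` with `a s := mv a v b s`, `b`, `p`, `q` constant, the rest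
`l ++ [a]` constant (the polygon `mv a v b s :: b :: (l ++ [a])` is a rotation of `a :: mv a v b s :: b :: l`: `mv_simple`,
`simpleC_rot`), `k_i s = k_i + dt f k_i • (v - mv a v b s)`, `f` from `functional_b`: with `e = v - mv a v b s`,
`b - mv a v b s = (b - v) + dt f (b - v) • e`, `det3_trans`, and `1 + dt f e = dt f (b - mv a v b s)
= (1 - s) / 2 * dt f (b - a) + s > 0`. At `s = 0` use `half_b` and `Gd` for `[a, b]` at `(1 + p) / 2`, `(1 + q) / 2`.
-/

namespace H97G

open H46K

theorem SK_lin (a b : P3) (p : ℝ) : lin (lin a b (1 / 2)) b p = lin a b ((1 + p) / 2) := by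
  unfold lin
  ext <;> simp <;> ring

theorem SK_open (a b : P3) {p : ℝ} (hp : 0 < p) :
    lin a b (1 / 2) ∈ openSegment ℝ a (lin a b ((1 + p) / 2)) := by
  rw [openSegment_eq_image']
  refine ⟨1 / (1 + p), ⟨by positivity, ?_⟩, ?_⟩
  · rw [div_lt_one (by linarith)]
    linarith
  · have h1 : (1 + p) ≠ 0 := by linarith
    have h2 : lin a b ((1 + p) / 2) - a = ((1 + p) / 2) • (b - a) := by
      unfold lin
      rw [add_sub_cancel_left]
    change a + (1 / (1 + p)) • (lin a b ((1 + p) / 2) - a) = lin a b (1 / 2)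
    rw [h2, smul_smul]
    unfold lin
    congr 2
    field_simp

theorem half_b {mids : List P3} {a b : P3} {l : List P3} {p q : ℝ} {k₁ k₂ : P3} (hp : 0 < p)
    (hpq : p < q) (hq : q < 1) (hab : a ≠ b)
    (h : GdAt mids a b l ((1 + p) / 2) ((1 + q) / 2) k₁ k₂) :
    GdAt mids (lin a b (1 / 2)) b (l ++ [a]) p q k₁ k₂ := by
  obtain ⟨r0, h0, h1⟩ := h
  refine ⟨r0, h0, fun r hr hr' => ?_⟩
  have h2 := h1 r hr hr'
  unfold dec at h2 ⊢
  rw [SK_lin, SK_lin]
  have h3 := sub_ins (SK_open a b hp) h2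
  refine Unknot.rot _ _ ?_ h3
  refine ⟨1, ?_⟩
  simp

theorem SK_dt_add (f x y : P3) : dt f (x + y) = dt f x + dt f y := by
  unfold dt
  simp
  ring

theorem SK_dt_smul (f x : P3) (t : ℝ) : dt f (t • x) = t * dt f x := by
  unfold dt
  simp
  ring

theorem SK_mv0 (a v b : P3) : mv a v b 0 = lin a b (1 / 2) := by
  unfold mv
  simp

theorem SK_mv1 (a v b : P3) : mv a v b 1 = v := by
  unfold mv
  simp

theorem SK_cont (a v b : P3) : Continuous (mv a v b) := by
  unfold mv
  fun_prop

theorem touch_b {mids : List P3} (hP : Pat mids) {a v b : P3} {l : List P3}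
    (h : Tri a v b l) (hG : Gd mids a b l) : Gd mids v b (l ++ [a]) := by
  intro p q k₁ k₂ hp hpq hq hk
  obtain ⟨f, hf1, hf2⟩ := functional_b h
  have hdet : ∀ s, 0 ≤ s → s ≤ 1 →
      det3 (k₁ + dt f k₁ • (v - mv a v b s)) (k₂ + dt f k₂ • (v - mv a v b s))
        (b - mv a v b s) ≠ 0 := by
    intro s h0 h1
    have e1 : b - mv a v b s = (b - v) + dt f (b - v) • (v - mv a v b s) := by
      rw [hf1, one_smul]
      abel
    have e2 : 1 + dt f (v - mv a v b s) = (1 - s) / 2 * dt f (b - a) + s := by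
      have e3 : (b - v) + (v - mv a v b s) = ((1 - s) / 2) • (b - a) + s • (b - v) := by
        unfold mv lin
        ext <;> simp <;> ring
      have e4 := congrArg (dt f) e3
      rw [SK_dt_add, SK_dt_add, SK_dt_smul, SK_dt_smul, hf1, mul_one] at e4
      exact e4
    rw [e1, det3_trans, e2]
    apply mul_ne_zero _ hk
    have h2 : 0 < (1 - s) / 2 * dt f (b - a) + s := by
      rcases lt_or_eq_of_le h1 with h1 | h1
      · have : 0 < (1 - s) / 2 * dt f (b - a) := mul_pos (by linarith) hf2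
        linarith
      · rw [h1]
        norm_num
    exact h2.ne'
  have hc := SK_cont a v b
  have hfam := dec_family hP (mv a v b) (fun _ => b) ((l ++ [a]).map fun x _ => x)
    (fun _ => p) (fun _ => q) (fun s => k₁ + dt f k₁ • (v - mv a v b s))
    (fun s => k₂ + dt f k₂ • (v - mv a v b s)) hc continuous_const
    (by
      intro g hg
      rw [List.mem_map] at hg
      obtain ⟨x, -, rfl⟩ := hg
      exact continuous_const) continuous_const continuous_const (by fun_prop) (by fun_prop)
    (by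
      intro s h0 h1
      have h2 := IB_rot1 _ _ _ (mv_simple h s h0 h1)
      simpa [List.map_map, Function.comp_def] using h2)
    (fun s _ _ => ⟨hp, hpq, hq⟩) hdet
  have hl : ∀ s : ℝ, (((l ++ [a]).map fun x (_ : ℝ) => x).map fun g => g s) = l ++ [a] := by
    intro s
    simp [List.map_map, Function.comp_def]
  rw [hl, hl, SK_mv1, SK_mv0, sub_self, smul_zero, smul_zero, add_zero, add_zero] at hfam
  rw [← hfam]
  have hab : a ≠ b := ((simpleC_two a b [] l).1 h.simple).2.2.1
  refine half_b hp hpq hq hab (hG _ _ _ _ (by linarith) (by linarith) (by linarith) ?_)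
  have h2 := hdet 0 le_rfl zero_le_one
  rw [SK_mv0] at h2
  intro h3
  apply h2
  have e5 : b - lin a b (1 / 2) = (1 / 2 : ℝ) • (b - a) := by
    unfold lin
    ext <;> simp <;> ring
  rw [e5, det3_smul, h3, mul_zero]

end H97G
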