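import Mathlib

/-!
# H97G, chunk SL: sides of a closed polygon (lists up to rotation)

`rot_split`: `l ~r x :: y :: m` means `x :: y :: m = l.rotate n`, i.e. (`n ≤ l.length`) `l = A ++ B`, `x :: y :: m = B ++ A`.
`sides_del` (`l = a :: b :: l'`): `B ++ A = x :: y :: m`, `a :: b :: l' = A ++ B`. If `A = []`: `(x, y, m) = (a, b, l')`. If `A = [a]`: `B = b :: l'`:
if `l' = []`: `x = b`, `y = a`, `m = []`, `X = Y = []`; else `x = b`, `l' = y :: Y'`, `m = Y' ++ [a]`, `X = []`, `Y = Y' ++ [a]`. If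
`A = a :: b :: A'`: `l' = A' ++ B`; if `B = []` the rotation is trivial (as `A = []`); if `B = [x]`: `y = a`, `m = b :: A'`,
`X = b :: A'`, `Y = []`; if `B = x :: y :: B'`: `m = B' ++ a :: b :: A'`, `Y = B' ++ [a]`, `X = b :: A'`.
`sides_ins`: in the same way (`A = []`, `[a]`, `[a, v]`, `a :: v :: b :: A'`), or from `sides_del` for
`a :: v :: (b :: l)`: `v :: ((b :: l) ++ [a]) = X ++ x :: y :: Y`; if `X = []`: `(x, y) = (v, b)`, `Y = l ++ [a]`; if
`X = v :: X'`: `b :: (l ++ [a]) = X' ++ x :: y :: Y`, `m = Y ++ v :: X'`.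
-/

namespace H97G

private theorem sl_split {α : Type*} {l m : List α} (h : l ~r m) :
    ∃ A B, l = A ++ B ∧ m = B ++ A := by
  obtain ⟨n, hn⟩ := h
  refine ⟨l.take (n % l.length), l.drop (n % l.length), (List.take_append_drop _ _).symm, ?_⟩
  rw [← hn, List.rotate_eq_drop_append_take_mod]

theorem sides_del {α : Type*} {a b x y : α} {l m : List α} (h : (a :: b :: l) ~r (x :: y :: m)) :
    (x = a ∧ y = b ∧ m = l) ∨ ∃ X Y, b :: (l ++ [a]) = X ++ x :: y :: Y ∧ m = Y ++ X := by
  obtain ⟨A, B, h1, h2⟩ := sl_split h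
  rcases A with _ | ⟨a', _ | ⟨b', A'⟩⟩
  · left
    simp only [List.nil_append, List.append_nil] at h1 h2
    rw [← h1] at h2
    simp only [List.cons.injEq] at h2
    exact h2
  · right
    simp only [List.cons_append, List.nil_append, List.cons.injEq] at h1
    obtain ⟨rfl, rfl⟩ := h1
    exact ⟨[], m, by simpa using h2.symm, by simp⟩
  · simp only [List.cons_append, List.cons.injEq] at h1
    obtain ⟨rfl, rfl, rfl⟩ := h1
    rcases B with _ | ⟨x', _ | ⟨y', B'⟩⟩
    · left
      simp only [List.nil_append, List.cons.injEq] at h2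
      simpa using h2
    · right
      simp only [List.cons_append, List.nil_append, List.cons.injEq] at h2
      obtain ⟨rfl, rfl, rfl⟩ := h2
      exact ⟨b :: A', [], by simp, by simp⟩
    · right
      simp only [List.cons_append, List.cons.injEq] at h2
      obtain ⟨rfl, rfl, rfl⟩ := h2
      exact ⟨b :: A', B' ++ [a], by simp, by simp⟩

theorem sides_ins {α : Type*} {a v b x y : α} {l m : List α}
    (h : (a :: v :: b :: l) ~r (x :: y :: m)) :
    (x = a ∧ y = v ∧ m = b :: l) ∨ (x = v ∧ y = b ∧ m = l ++ [a]) ∨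
      ∃ X Y, b :: (l ++ [a]) = X ++ x :: y :: Y ∧ m = Y ++ v :: X := by
  rcases sides_del h with h | ⟨X, Y, h1, h2⟩
  · exact Or.inl h
  · right
    rcases X with _ | ⟨v', X'⟩
    · left
      simp only [List.cons_append, List.nil_append, List.cons.injEq] at h1
      obtain ⟨rfl, rfl, rfl⟩ := h1
      exact ⟨rfl, rfl, by simpa using h2⟩
    · right
      simp only [List.cons_append, List.cons.injEq] at h1
      obtain ⟨rfl, h1⟩ := h1
      exact ⟨X', Y, h1, h2⟩

/-- sides of the polygon `a :: b :: l` -/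
theorem side_rot {α : Type*} {a b x y : α} {l X Y : List α}
    (h : b :: (l ++ [a]) = X ++ x :: y :: Y) : (a :: b :: l) ~r (x :: y :: (Y ++ X)) := by
  have h1 : (a :: b :: l) ~r ((b :: l) ++ [a]) := (List.isRotated_concat a (b :: l)).symm
  have h2 : (X ++ x :: y :: Y) ~r ((x :: y :: Y) ++ X) := List.isRotated_append
  have h3 : (b :: l) ++ [a] = X ++ x :: y :: Y := by simpa using h
  rw [h3] at h1
  exact h1.trans h2

/-- sides of the polygon `a :: v :: b :: l` -/
theorem side_rot_ins {α : Type*} {a v b x y : α} {l X Y : List α}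
    (h : b :: (l ++ [a]) = X ++ x :: y :: Y) :
    (a :: v :: b :: l) ~r (x :: y :: (Y ++ v :: X)) := by
  apply side_rot (X := v :: X)
  simp [h]

end H97G
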