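import Pool.Agent.Lib.H97G.SG
import Pool.Agent.Lib.H97G.SH
import Pool.Agent.Lib.H97G.SJ
import Pool.Agent.Lib.H97G.SK
import Pool.Agent.Lib.H97G.SL

/-!
# H97G, module S: all sides of a trivial knot are good (assembly)
-/

namespace H97G

open H46K

theorem all_good {mids : List P3} (hP : Pat mids) {l : List P3} (hl : Unknot l) :
    ∀ (x y : P3) (m : List P3), l ~r (x :: y :: m) → Gd mids x y m := by
  induction hl with
  | tri a b c h =>
    intro x y m hr
    rcases sides_del hr with ⟨rfl, rfl, rfl⟩ | ⟨X, Y, hXY, rfl⟩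
    · exact gd_tri hP _ _ _ h
    · have hperm : ∀ (a b c : P3), AffineIndependent ℝ ![a, b, c] →
          AffineIndependent ℝ ![b, c, a] := by
        intro a b c h
        have h1 := h.comp_embedding (⟨![1, 2, 0], by decide⟩ : Fin 3 ↪ Fin 3)
        have e : (![a, b, c] ∘ (⟨![1, 2, 0], by decide⟩ : Fin 3 ↪ Fin 3)) = ![b, c, a] := by
          funext i
          fin_cases i <;> rfl
        rwa [e] at h1
      rcases X with _ | ⟨u, _ | ⟨u', X⟩⟩
      · simp only [List.cons_append, List.nil_append, List.cons.injEq] at hXY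
        obtain ⟨rfl, rfl, rfl⟩ := hXY
        exact gd_tri hP _ _ _ (hperm _ _ _ h)
      · simp only [List.cons_append, List.nil_append, List.cons.injEq] at hXY
        obtain ⟨rfl, rfl, rfl, rfl⟩ := hXY
        exact gd_tri hP _ _ _ (hperm _ _ _ (hperm _ _ _ h))
      · exfalso
        have h1 := congrArg List.length hXY
        simp at h1
        omega
  | rot l l' h hl ih =>
    intro x y m hr
    exact ih x y m (h.trans hr)
  | ins a v b l hav hvb hs ht hl ih =>
    intro x y m hr
    have hT : Tri a v b l := ⟨hav, hvb, hs, ht, unknot_simpleC hl⟩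
    rcases sides_ins hr with ⟨rfl, rfl, rfl⟩ | ⟨rfl, rfl, rfl⟩ | ⟨X, Y, hXY, rfl⟩
    · exact touch_a_ins hP hT (ih _ _ _ (List.IsRotated.refl _))
    · exact touch_b hP hT (ih _ _ _ (List.IsRotated.refl _))
    · exact unt_ins hP hT hXY (ih _ _ _ (side_rot hXY))
  | del a v b l hav hvb hs ht hl ih =>
    intro x y m hr
    have hl' : Unknot (a :: b :: l) := Unknot.del a v b l hav hvb hs ht hl
    have hT : Tri a v b l := ⟨hav, hvb, hs, ht, unknot_simpleC hl'⟩
    rcases sides_del hr with ⟨rfl, rfl, rfl⟩ | ⟨X, Y, hXY, rfl⟩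
    · exact touch_a_del hP hT (ih _ _ _ (List.IsRotated.refl _))
    · exact unt_del hP hT hXY (ih _ _ _ (side_rot_ins hXY))

end H97G
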