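import Pool.Agent.Lib.H97G.V0

/-!
# H97G, chunk VA: convex sets, interior and boundary points

`last_point`: `m = p + s (q - p)`, `s = sSup {s ∈ [0, 1] | p + s (q - p) ∈ T}` (closed, contains a neighbourhood of `0`, not `1`); if `m` were
an interior point, larger `s` would do; convexity: the points of `T` on `[p, q]` are exactly `[p, m]`.
`ib`: `openSegment x m ⊆ interior T` (`Convex.openSegment_interior_self_subset_interior`); a common point `w ≠ x` of `[x, m]` and
`[x, m']`: then `m` is in `[x, m']` or `m'` is in `[x, m]` (same ray); as `m ≠ m'`, `m, m' ≠ x`, one of them is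
in an open segment, so an interior point.
`ray`: `x = α m + β p + γ b` on `[b, r]`, `x ≠ b`: `x' = (α m + β p) / (α + β) ∈ [p, m]`, `x ∈ [b, x']`; `x'` and `r` are on the same ray
from `b`; `r ∈ [b, x'] ⊆ T` is excluded, so `x' ∈ [b, r] ∩ [p, m]`.
-/

namespace H97G

open H46K

theorem last_point {T : Set P3} (hc : Convex ℝ T) (hT : IsClosed T) {p q : P3}
    (hp : p ∈ interior T) (hq : q ∉ T) :
    ∃ m ∈ openSegment ℝ p q, m ∈ T ∧ m ∉ interior T ∧ segment ℝ m q ∩ T ⊆ {m} := by
  set g : ℝ → P3 := fun s => AffineMap.lineMap p q s with hg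
  have hgc : Continuous g := AffineMap.lineMap_continuous
  have g0 : g 0 = p := AffineMap.lineMap_apply_zero p q
  have g1 : g 1 = q := AffineMap.lineMap_apply_one p q
  set S : Set ℝ := Set.Icc 0 1 ∩ g ⁻¹' T with hS
  have hSc : IsCompact S := isCompact_Icc.inter_right (hT.preimage hgc)
  have hSne : S.Nonempty := ⟨0, ⟨le_refl _, zero_le_one⟩, by
    rw [Set.mem_preimage, g0]
    exact interior_subset hp⟩
  have hs0 : sSup S ∈ S := hSc.sSup_mem hSne
  set s0 := sSup S with hs0d
  have hle : ∀ s ∈ S, s ≤ s0 := fun s hs => le_csSup hSc.bddAbove hs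
  have hs01 : s0 < 1 := by
    rcases lt_or_eq_of_le hs0.1.2 with h | h
    · exact h
    · exfalso
      have := hs0.2
      rw [Set.mem_preimage, h, g1] at this
      exact hq this
  have hmi : g s0 ∉ interior T := by
    intro hmi
    have hopen : IsOpen (g ⁻¹' interior T) := isOpen_interior.preimage hgc
    obtain ⟨ε, hε, hball⟩ := Metric.isOpen_iff.1 hopen s0 hmi
    set s1 := min (s0 + ε / 2) 1 with hs1
    have h1 : s0 < s1 := lt_min (by linarith) hs01
    have h2 : s1 ∈ Metric.ball s0 ε := by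
      rw [Metric.mem_ball, Real.dist_eq, abs_of_pos (by linarith)]
      have : s1 ≤ s0 + ε / 2 := min_le_left _ _
      linarith
    have h3' : g s1 ∈ interior T := hball h2
    have h3'' : g s1 ∈ T := interior_subset h3'
    have h3 : s1 ∈ S := ⟨⟨hs0.1.1.trans h1.le, min_le_right _ _⟩, h3''⟩
    exact absurd (hle s1 h3) (not_le.2 h1)
  have hs00 : 0 < s0 := by
    rcases lt_or_eq_of_le hs0.1.1 with h | h
    · exact h
    · exfalso
      apply hmi
      rw [← h, g0]
      exact hp
  refine ⟨g s0, ?_, hs0.2, hmi, ?_⟩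
  · rw [openSegment_eq_image_lineMap]
    exact ⟨s0, ⟨hs00, hs01⟩, rfl⟩
  · rintro x ⟨hx, hxT⟩
    rw [segment_eq_image_lineMap] at hx
    obtain ⟨t, ht, rfl⟩ := hx
    have e : AffineMap.lineMap (g s0) q t = g (s0 + t * (1 - s0)) := by
      simp only [hg, AffineMap.lineMap_apply_module]
      module
    have ht0 := ht.1
    have ht1 := ht.2
    have h4 : s0 + t * (1 - s0) ∈ S := by
      refine ⟨⟨by nlinarith, by nlinarith⟩, ?_⟩
      rw [Set.mem_preimage, ← e]
      exact hxT
    have h5 := hle _ h4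
    have h6 : t = 0 := by
      by_contra hne
      have : 0 < t := lt_of_le_of_ne ht0 (Ne.symm hne)
      nlinarith
    rw [h6]
    simp

/-- two points of a ray -/
theorem same_ray {x w a b : P3} (hw : w ≠ x) (h1 : w ∈ segment ℝ x a) (h2 : w ∈ segment ℝ x b) :
    a ∈ segment ℝ x b ∨ b ∈ segment ℝ x a := by
  rw [segment_eq_image_lineMap] at h1 h2
  obtain ⟨s, hs, hsw⟩ := h1
  obtain ⟨t, ht, htw⟩ := h2
  rw [AffineMap.lineMap_apply_module] at hsw htw
  have hs0 : s ≠ 0 := by
    rintro rfl
    apply hw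
    rw [← hsw]
    simp
  have ht0 : t ≠ 0 := by
    rintro rfl
    apply hw
    rw [← htw]
    simp
  have hsp : 0 < s := lt_of_le_of_ne hs.1 (Ne.symm hs0)
  have htp : 0 < t := lt_of_le_of_ne ht.1 (Ne.symm ht0)
  have e0 : s • a = t • b + (s - t) • x := by
    have : (1 - s) • x + s • a = (1 - t) • x + t • b := by rw [hsw, htw]
    have e1 : s • a = ((1 - s) • x + s • a) - (1 - s) • x := by module
    rw [e1, this]
    module
  rcases le_total t s with h | h
  · left
    rw [segment_eq_image_lineMap]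
    refine ⟨t / s, ⟨div_nonneg htp.le hsp.le, div_le_one_of_le₀ h hsp.le⟩, ?_⟩
    rw [AffineMap.lineMap_apply_module]
    have e2 : a = s⁻¹ • (s • a) := by rw [inv_smul_smul₀ hs0]
    rw [e2, e0, smul_add, smul_smul, smul_smul]
    have e3 : (1 - t / s) = s⁻¹ * (s - t) := by
      field_simp
    have e4 : t / s = s⁻¹ * t := by
      field_simp
    rw [e3, e4]
    module
  · right
    rw [segment_eq_image_lineMap]
    refine ⟨s / t, ⟨div_nonneg hsp.le htp.le, div_le_one_of_le₀ h htp.le⟩, ?_⟩
    rw [AffineMap.lineMap_apply_module]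
    have e5 : t • b = s • a - (s - t) • x := by
      rw [e0]
      module
    have e2 : b = t⁻¹ • (t • b) := by rw [inv_smul_smul₀ ht0]
    rw [e2, e5, smul_sub, smul_smul, smul_smul]
    have e3 : (1 - s / t) = t⁻¹ * (t - s) := by
      field_simp
    have e4 : s / t = t⁻¹ * s := by
      field_simp
    rw [e3, e4]
    module

/-- a boundary point on a segment between an interior point and a boundary point -/
theorem bd_mem {T : Set P3} (hc : Convex ℝ T) {x m m' : P3} (hx : x ∈ interior T) (hm : m ∈ T)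
    (hmi' : m' ∉ interior T) (h : m' ∈ segment ℝ x m) : m' = m := by
  rw [← insert_endpoints_openSegment] at h
  rcases h with h | h | h
  · exact absurd (h ▸ hx) hmi'
  · exact h
  · exact absurd (hc.openSegment_interior_self_subset_interior hx hm h) hmi'

theorem ib {T : Set P3} (hc : Convex ℝ T) {x m m' : P3} (hx : x ∈ interior T) (hm : m ∈ T)
    (hm' : m' ∈ T) (hmi : m ∉ interior T) (hmi' : m' ∉ interior T) (hne : m ≠ m') :
    segment ℝ x m ∩ segment ℝ x m' ⊆ {x} := by
  rintro w ⟨h1, h2⟩
  rw [Set.mem_singleton_iff]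
  by_contra hw
  rcases same_ray hw h1 h2 with h | h
  · exact hne (bd_mem hc hx hm' hmi h)
  · exact hne (bd_mem hc hx hm hmi' h).symm

theorem ray {T : Set P3} (hc : Convex ℝ T) {p b m r : P3} (hb : b ∈ T) (hp : p ∈ T) (hm : m ∈ T)
    (hr : r ∉ T) (hd : Disjoint (segment ℝ p m) (segment ℝ b r)) :
    convexHull ℝ {b, p, m} ∩ segment ℝ b r ⊆ {b} := by
  rintro x ⟨h1, h2⟩
  rw [Set.mem_singleton_iff]
  by_contra hx
  rw [convexHull_insert ⟨p, by simp⟩, convexHull_pair, mem_convexJoin] at h1
  obtain ⟨b', hb', x', hx', hxx⟩ := h1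
  rw [Set.mem_singleton_iff] at hb'
  subst hb'
  rcases same_ray hx hxx h2 with h | h
  · exact Set.disjoint_left.1 hd hx' h
  · exact hr (hc.segment_subset hb (hc.segment_subset hp hm hx') h)

end H97G
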