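import Pool.Agent.Lib.H97G.VA

/-!
# H97G, chunk VB: existence of the tube

Let `S = segment (f.pt u) b`. The compact set `F` = (`arcSet (rs f u y)`, `y ≠ v` adjacent to `u`), `arcSet (M ++ [f.pt v])`,
(`arcSet (f.arc x y)`, `x, y ≠ u` adjacent), (`{f.pt w}`, `w ≠ u`); a finite union of compact sets (`arcSet_compact`). It is disjoint
from `S`: (1) `arc u v` and `arc u y` meet only in `f.pt u` (`f.disj`), which is not in `arcSet (rs f u y)` (simple arc);
(2) `IsSimple (p :: b :: (M ++ [f.pt v]))`: `[p, b]` meets `arcSet (b :: ..)` only in `b`, which is not in `arcSet (M ++ [f.pt v])`;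
so `f.pt v` is not in `S`; (3) by `f.disj` a common point of `arc x y` and `arc u v` is `f.pt v`; (4) `f.vert`.
`Disjoint.exists_cthickenings` gives `δ > 0`; `T = cthickening δ S` (convex: `Convex.cthickening`; closed; `S ⊆ interior T`).
`m y` by `last_point` (`nx f u y ∈ arcSet (rs f u y)` is not in `T`).
-/

namespace H97G

open H46K

variable {V : Type*} {G : SimpleGraph V}

theorem VB_seg_compact (a b : P3) : IsCompact (segment ℝ a b) := by
  rw [segment_eq_image_lineMap]
  exact isCompact_Icc.image AffineMap.lineMap_continuous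

theorem VB_compact (l : List P3) : IsCompact (arcSet l) := by
  induction l with
  | nil => exact isCompact_empty
  | cons a l ih =>
    cases l with
    | nil => exact isCompact_singleton
    | cons b l => exact (VB_seg_compact a b).union ih

theorem VB_head (a : P3) (l : List P3) : a ∈ arcSet (a :: l) := by
  cases l with
  | nil => exact Set.mem_singleton _
  | cons b l => exact Or.inl (left_mem_segment ℝ a b)

theorem VB_not {a b : P3} {l : List P3} (h : IsSimple (a :: b :: l)) : a ∉ arcSet (b :: l) :=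
  fun ha => h.1 (h.2.1 ⟨left_mem_segment ℝ a b, ha⟩)

theorem VB_cons (M : List P3) (z : P3) : ∃ r l, M ++ [z] = r :: l := by
  cases M with
  | nil => exact ⟨z, [], rfl⟩
  | cons a l => exact ⟨a, l ++ [z], rfl⟩

theorem VB_last (M : List P3) (z : P3) : z ∈ arcSet (M ++ [z]) :=
  mem_arcSet (List.mem_append_right _ (List.mem_singleton.2 rfl))

theorem exists_tube [Finite V] (f : SpatialGraph G) (u v : V) (huv : G.Adj u v) (b : P3)
    (M : List P3) (hb : f.mid u v = b :: M) : ∃ T m, Tube f u v b M T m := by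
  classical
  have harc : f.arc u v = f.pt u :: b :: (M ++ [f.pt v]) := by
    unfold SpatialGraph.arc
    rw [hb]
    rfl
  have hsim : IsSimple (f.pt u :: b :: (M ++ [f.pt v])) := by
    rw [← harc]
    exact f.simple u v huv
  set S : Set P3 := segment ℝ (f.pt u) b with hS
  have hSarc : S ⊆ arcSet (f.arc u v) := by
    rw [harc]
    exact fun x hx => Or.inl hx
  set F1 : Set P3 := ⋃ y ∈ {y : V | G.Adj u y ∧ y ≠ v}, arcSet (rs f u y) with hF1
  set F2 : Set P3 := arcSet (M ++ [f.pt v]) with hF2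
  set F3 : Set P3 := ⋃ p ∈ {p : V × V | G.Adj p.1 p.2 ∧ p.1 ≠ u ∧ p.2 ≠ u}, arcSet (f.arc p.1 p.2)
    with hF3
  set F4 : Set P3 := ⋃ w ∈ {w : V | w ≠ u}, {f.pt w} with hF4
  set Fs : Set P3 := (F1 ∪ F2) ∪ (F3 ∪ F4) with hFs
  have hFc : IsCompact Fs := by
    refine ((Set.Finite.isCompact_biUnion (Set.toFinite _) fun y _ => VB_compact _).union
      (VB_compact _)).union ((Set.Finite.isCompact_biUnion (Set.toFinite _) fun p _ =>
        VB_compact _).union (Set.Finite.isCompact_biUnion (Set.toFinite _) fun w _ =>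
          isCompact_singleton))
  have hS2 : Disjoint S F2 := by
    rw [Set.disjoint_left]
    intro x hx hx2
    have h1 := hsim.2.1
    have h2 : x = b := by
      refine h1 ⟨hx, ?_⟩
      obtain ⟨r, l, hr⟩ := VB_cons M (f.pt v)
      rw [hF2, hr] at hx2
      rw [hr]
      exact Or.inr hx2
    rw [h2] at hx2
    have h3 := hsim.2.2
    obtain ⟨r, l, hr⟩ := VB_cons M (f.pt v)
    rw [hF2, hr] at hx2
    rw [hr] at h3
    exact VB_not h3 hx2
  have hvS : f.pt v ∉ S := fun h => Set.disjoint_left.1 hS2 h (VB_last M (f.pt v))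
  have hS1 : ∀ y, G.Adj u y → y ≠ v → Disjoint S (arcSet (rs f u y)) := by
    intro y hy hyv
    rw [Set.disjoint_left]
    intro x hx hx2
    obtain ⟨l, hl⟩ := rs_eq f u y
    have h2 : x ∈ arcSet (f.arc u y) := by
      have : f.arc u y = f.pt u :: rs f u y := rfl
      rw [this, hl]
      rw [hl] at hx2
      exact Or.inr hx2
    have hne : s(u, v) ≠ s(u, y) := by
      intro h
      rw [Sym2.eq_iff] at h
      rcases h with ⟨-, h⟩ | ⟨h, h'⟩
      · exact hyv h.symm
      · exact G.ne_of_adj huv h'.symm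
    obtain ⟨w, hw1, hw2, hw⟩ := f.disj u v u y huv hy hne x ⟨hSarc hx, h2⟩
    have hxu : x = f.pt u := by
      rcases hw1 with rfl | rfl
      · exact hw
      · rcases hw2 with h | h
        · exact absurd h.symm (G.ne_of_adj huv)
        · exact absurd h.symm hyv
    have h3 : IsSimple (f.pt u :: rs f u y) := f.simple u y hy
    rw [hl] at h3 hx2
    rw [hxu] at hx2
    exact VB_not h3 hx2
  have hS3 : ∀ x y, G.Adj x y → x ≠ u → y ≠ u → Disjoint S (arcSet (f.arc x y)) := by
    intro x y hxy hxu hyu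
    rw [Set.disjoint_left]
    intro z hz hz2
    have hne : s(u, v) ≠ s(x, y) := by
      intro h
      rw [Sym2.eq_iff] at h
      rcases h with ⟨h, -⟩ | ⟨h, -⟩
      · exact hxu h.symm
      · exact hyu h.symm
    obtain ⟨w, hw1, hw2, hw⟩ := f.disj u v x y huv hxy hne z ⟨hSarc hz, hz2⟩
    have hwv : w = v := by
      rcases hw1 with h | h
      · exfalso
        subst h
        rcases hw2 with h | h
        · exact hxu h.symm
        · exact hyu h.symm
      · exact h
    apply hvS
    rw [← hwv, ← hw]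
    exact hz
  have hS4 : ∀ w, w ≠ u → f.pt w ∉ S := by
    intro w hw h
    rcases f.vert u v w huv (hSarc h) with h1 | h1
    · exact hw h1
    · rw [h1] at h
      exact hvS h
  have hdisj : Disjoint S Fs := by
    rw [hFs, Set.disjoint_union_right, Set.disjoint_union_right, Set.disjoint_union_right]
    refine ⟨⟨?_, hS2⟩, ?_, ?_⟩
    · rw [hF1, Set.disjoint_iUnion₂_right]
      exact fun y hy => hS1 y hy.1 hy.2
    · rw [hF3, Set.disjoint_iUnion₂_right]
      exact fun p hp => hS3 p.1 p.2 hp.1 hp.2.1 hp.2.2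
    · rw [hF4, Set.disjoint_iUnion₂_right]
      exact fun w hw => Set.disjoint_singleton_right.2 (hS4 w hw)
  obtain ⟨δ, hδ, hdT⟩ := hdisj.exists_cthickenings (VB_seg_compact _ _) hFc.isClosed
  set T : Set P3 := Metric.cthickening δ S with hTd
  have hTF : Disjoint Fs T := (hdT.mono_right (Metric.self_subset_cthickening _)).symm
  have hin : S ⊆ interior T :=
    (Metric.self_subset_thickening hδ S).trans
      (interior_maximal (Metric.thickening_subset_cthickening δ S) Metric.isOpen_thickening)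
  have hcv : Convex ℝ T := (convex_segment (f.pt u) b).cthickening δ
  have hcl : IsClosed T := Metric.isClosed_cthickening
  have hp : f.pt u ∈ interior T := hin (left_mem_segment ℝ _ _)
  have hbi : b ∈ interior T := hin (right_mem_segment ℝ _ _)
  have hT1 : ∀ y, G.Adj u y → y ≠ v → Disjoint (arcSet (rs f u y)) T := fun y hy hyv =>
    hTF.mono_left fun x hx => Or.inl (Or.inl (Set.mem_iUnion₂.2 ⟨y, ⟨hy, hyv⟩, hx⟩))
  have hnx : ∀ y, G.Adj u y → y ≠ v → nx f u y ∉ T := by
    intro y hy hyv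
    apply Set.disjoint_left.1 (hT1 y hy hyv)
    obtain ⟨l, hl⟩ := rs_eq f u y
    rw [hl]
    exact VB_head _ _
  have hlast : ∀ y, ∃ m : P3, G.Adj u y → y ≠ v → m ∈ openSegment ℝ (f.pt u) (nx f u y) ∧ m ∈ T ∧
      m ∉ interior T ∧ segment ℝ m (nx f u y) ∩ T ⊆ {m} := by
    intro y
    by_cases h : G.Adj u y ∧ y ≠ v
    · obtain ⟨m, h1, h2, h3, h4⟩ := last_point hcv hcl hp (hnx y h.1 h.2)
      exact ⟨m, fun _ _ => ⟨h1, h2, h3, h4⟩⟩
    · exact ⟨b, fun h1 h2 => absurd ⟨h1, h2⟩ h⟩
  choose m hm using hlast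
  refine ⟨T, m, ⟨hcv, hcl, hp, hbi, fun y hy hyv => (hm y hy hyv).1,
    fun y hy hyv => (hm y hy hyv).2.1, fun y hy hyv => (hm y hy hyv).2.2.1,
    fun y hy hyv => (hm y hy hyv).2.2.2, hT1, ?_, ?_, ?_⟩⟩
  · exact hTF.mono_left fun x hx => Or.inl (Or.inr hx)
  · exact fun x y hxy hxu hyu =>
      hTF.mono_left fun z hz => Or.inr (Or.inl (Set.mem_iUnion₂.2 ⟨(x, y), ⟨hxy, hxu, hyu⟩, hz⟩))
  · exact fun w hw => Set.disjoint_left.1 hTF
      (Or.inr (Or.inr (Set.mem_iUnion₂.2 ⟨w, hw, Set.mem_singleton _⟩)))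

end H97G
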