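import Pool.Agent.Lib.H97G.VA

/-!
# H97G, chunk VC: the new arcs are simple, elementary consequences of `Tube`

`arc_sub`: `arcSet (m y :: rs f u y)` is contained in `arcSet (f.arc u y)` and meets `T` only in `m y`.
`b_not`: `b` is not on an arc `x y` with `x, y ≠ u` (such arcs are disjoint from `T`).
`leg`: `[b, m y]` meets `arcSet (b :: (M ++ [f.pt v]))` only in `b`: let `r` be the head of `M ++ [f.pt v]` (`r ∉ T`), `m0` the last point of `T` on
`[b, r]` (`last_point`); `m0 ≠ m y` since the arcs `u v`, `u y` meet only in `f.pt u`, and `f.pt u` is not on `[b, r]`; `ib`.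
`two_legs`: `[b, m y]` and `[b, m y']`: `ib`; `m y ≠ m y'` since the arcs meet only in `f.pt u`, which is an interior
point of `T`.
`simple_new`: `IsSimple (b :: m y :: rs f u y)`; `simple_v`: a part of a simple arc.
-/

namespace H97G

open H46K

variable {V : Type*} {G : SimpleGraph V}

theorem VC_seg {p q m : P3} (h : m ∈ openSegment ℝ p q) : segment ℝ m q ⊆ segment ℝ p q :=
  (convex_segment p q).segment_subset (openSegment_subset_segment ℝ p q h) (right_mem_segment ℝ p q)

theorem VC_arc (f : SpatialGraph G) (u y : V) : f.arc u y = f.pt u :: rs f u y := rfl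

theorem VC_common (f : SpatialGraph G) {u v y : V} (huv : G.Adj u v) (hy : G.Adj u y)
    (hyv : y ≠ v) {x : P3} (h1 : x ∈ arcSet (f.arc u v)) (h2 : x ∈ arcSet (f.arc u y)) :
    x = f.pt u := by
  have hne : s(u, v) ≠ s(u, y) := by
    intro h
    rw [Sym2.eq_iff] at h
    rcases h with ⟨-, h⟩ | ⟨h, h'⟩
    · exact hyv h.symm
    · exact G.ne_of_adj huv h'.symm
  obtain ⟨w, hw1, hw2, hw⟩ := f.disj u v u y huv hy hne x ⟨h1, h2⟩
  rcases hw1 with rfl | rfl
  · exact hw
  · rcases hw2 with h | h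
    · exact absurd h.symm (G.ne_of_adj huv)
    · exact absurd h.symm hyv

theorem VC_m_arc {f : SpatialGraph G} {u v : V} {b : P3} {M : List P3} {T : Set P3} {m : V → P3}
    (hT : Tube f u v b M T m) {y : V} (hy : G.Adj u y) (hyv : y ≠ v) :
    m y ∈ arcSet (f.arc u y) := by
  obtain ⟨l, hl⟩ := rs_eq f u y
  rw [VC_arc, hl]
  exact Or.inl (openSegment_subset_segment ℝ _ _ (hT.m_mem y hy hyv))

theorem arc_sub {f : SpatialGraph G} {u v : V} {b : P3} {M : List P3} {T : Set P3} {m : V → P3}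
    (hT : Tube f u v b M T m) {y : V} (hy : G.Adj u y) (hyv : y ≠ v) :
    arcSet (m y :: rs f u y) ⊆ arcSet (f.arc u y) ∧ arcSet (m y :: rs f u y) ∩ T ⊆ {m y} := by
  have h1 := hT.tail y hy hyv
  obtain ⟨l, hl⟩ := rs_eq f u y
  rw [VC_arc]
  rw [hl] at h1 ⊢
  constructor
  · rintro x (hx | hx)
    · exact Or.inl (VC_seg (hT.m_mem y hy hyv) hx)
    · exact Or.inr hx
  · rintro x ⟨hx | hx, hxT⟩
    · exact hT.m_seg y hy hyv ⟨hx, hxT⟩
    · exact absurd hxT (Set.disjoint_left.1 h1 hx)

theorem seg_T {f : SpatialGraph G} {u v : V} {b : P3} {M : List P3} {T : Set P3} {m : V → P3}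
    (hT : Tube f u v b M T m) {y : V} (hy : G.Adj u y) (hyv : y ≠ v) :
    segment ℝ b (m y) ⊆ T :=
  hT.cvx.segment_subset (interior_subset hT.bin) (hT.m_T y hy hyv)

theorem m_ne {f : SpatialGraph G} {u v : V} {b : P3} {M : List P3} {T : Set P3} {m : V → P3}
    (hT : Tube f u v b M T m) {y y' : V} (hy : G.Adj u y) (hyv : y ≠ v) (hy' : G.Adj u y')
    (hyv' : y' ≠ v) (hne : y ≠ y') : m y ≠ m y' := by
  intro h
  have h1 := VC_m_arc hT hy hyv
  have h2 := VC_m_arc hT hy' hyv'
  rw [← h] at h2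
  have h3 := VC_common f hy hy' hne.symm h1 h2
  apply hT.m_int y hy hyv
  rw [h3]
  exact hT.pin

theorem two_legs {f : SpatialGraph G} {u v : V} {b : P3} {M : List P3} {T : Set P3} {m : V → P3}
    (hT : Tube f u v b M T m) {y y' : V} (hy : G.Adj u y) (hyv : y ≠ v) (hy' : G.Adj u y')
    (hyv' : y' ≠ v) (hne : y ≠ y') : segment ℝ b (m y) ∩ segment ℝ b (m y') ⊆ {b} :=
  ib hT.cvx hT.bin (hT.m_T y hy hyv) (hT.m_T y' hy' hyv') (hT.m_int y hy hyv)
    (hT.m_int y' hy' hyv') (m_ne hT hy hyv hy' hyv' hne)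

theorem VC_cons (M : List P3) (z : P3) : ∃ r l, M ++ [z] = r :: l := by
  cases M with
  | nil => exact ⟨z, [], rfl⟩
  | cons a l => exact ⟨a, l ++ [z], rfl⟩

theorem leg {f : SpatialGraph G} {u v : V} (huv : G.Adj u v) {b : P3} {M : List P3}
    (hb : f.mid u v = b :: M) {T : Set P3} {m : V → P3} (hT : Tube f u v b M T m) {y : V}
    (hy : G.Adj u y) (hyv : y ≠ v) :
    segment ℝ b (m y) ∩ arcSet (b :: (M ++ [f.pt v])) ⊆ {b} := by
  have h1 := hT.tailv
  have harc : f.arc u v = f.pt u :: b :: (M ++ [f.pt v]) := by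
    unfold SpatialGraph.arc
    rw [hb]
    rfl
  obtain ⟨r, l, hr⟩ := VC_cons M (f.pt v)
  rw [hr] at h1 harc ⊢
  rintro x ⟨hx, hx' | hx'⟩
  · have hxT := seg_T hT hy hyv hx
    have hrT : r ∉ T := by
      apply Set.disjoint_left.1 h1
      cases l with
      | nil => exact Set.mem_singleton _
      | cons c l => exact Or.inl (left_mem_segment ℝ r c)
    obtain ⟨m0, hm0, hm0T, hm0i, hm0s⟩ := last_point hT.cvx hT.cl hT.bin hrT
    have hne : m y ≠ m0 := by
      intro h
      have h2 : m0 ∈ arcSet (f.arc u v) := by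
        rw [harc]
        exact Or.inr (Or.inl (openSegment_subset_segment ℝ _ _ hm0))
      have h3 := VC_m_arc hT hy hyv
      rw [h] at h3
      have h4 := VC_common f huv hy hyv h2 h3
      apply hm0i
      rw [h4]
      exact hT.pin
    have hx2 : x ∈ segment ℝ b m0 := by
      have hm0' := hm0
      rw [openSegment_eq_image_lineMap] at hm0'
      obtain ⟨s, hs, hsm⟩ := hm0'
      rw [segment_eq_image_lineMap] at hx'
      obtain ⟨t, ht, htx⟩ := hx'
      rw [AffineMap.lineMap_apply_module] at hsm htx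
      rcases le_total t s with hts | hts
      · rw [segment_eq_image_lineMap]
        have hs0 : s ≠ 0 := hs.1.ne'
        refine ⟨t / s, ⟨div_nonneg ht.1 hs.1.le, div_le_one_of_le₀ hts hs.1.le⟩, ?_⟩
        rw [AffineMap.lineMap_apply_module, ← htx, ← hsm, smul_add, smul_smul, smul_smul]
        have e1 : t / s * s = t := by field_simp
        have e2 : t / s * (1 - s) = t / s - t := by field_simp
        rw [e1, e2]
        module
      · have hx3 : x ∈ segment ℝ m0 r := by
          rw [segment_eq_image_lineMap]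
          have hs1 : 0 < 1 - s := by linarith [hs.2]
          have hs1' : 1 - s ≠ 0 := hs1.ne'
          refine ⟨(t - s) / (1 - s), ⟨div_nonneg (by linarith) hs1.le,
            div_le_one_of_le₀ (by linarith [ht.2]) hs1.le⟩, ?_⟩
          rw [AffineMap.lineMap_apply_module, ← htx, ← hsm, smul_add, smul_smul, smul_smul]
          have e0 : 1 - (t - s) / (1 - s) = (1 - t) / (1 - s) := by
            field_simp
            ring
          have e1 : (1 - t) / (1 - s) * (1 - s) = 1 - t := by field_simp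
          have e2 : (1 - t) / (1 - s) * s + (t - s) / (1 - s) = t := by
            field_simp
            ring
          rw [e0, e1, add_assoc, ← add_smul, e2]
        have hx4 := hm0s ⟨hx3, hxT⟩
        rw [Set.mem_singleton_iff] at hx4
        rw [hx4]
        exact right_mem_segment ℝ b m0
    exact ib hT.cvx hT.bin (hT.m_T y hy hyv) hm0T (hT.m_int y hy hyv) hm0i hne ⟨hx, hx2⟩
  · exact absurd (seg_T hT hy hyv hx) (Set.disjoint_left.1 h1 hx')

theorem simple_new {f : SpatialGraph G} {u v : V} {b : P3} {M : List P3} {T : Set P3} {m : V → P3}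
    (hT : Tube f u v b M T m) {y : V} (hy : G.Adj u y) (hyv : y ≠ v) :
    IsSimple (b :: m y :: rs f u y) := by
  have h1 := (arc_sub hT hy hyv).2
  have h2 := hT.tail y hy hyv
  have h3 : IsSimple (f.pt u :: rs f u y) := f.simple u y hy
  refine ⟨?_, fun x hx => h1 ⟨hx.2, seg_T hT hy hyv hx.1⟩, ?_⟩
  · intro h
    apply hT.m_int y hy hyv
    rw [← h]
    exact hT.bin
  · obtain ⟨l, hl⟩ := rs_eq f u y
    rw [hl] at h2 h3 ⊢
    refine ⟨?_, fun x hx => h3.2.1 ⟨VC_seg (hT.m_mem y hy hyv) hx.1, hx.2⟩, h3.2.2⟩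
    intro h
    have h4 := hT.m_T y hy hyv
    rw [h] at h4
    refine Set.disjoint_left.1 h2 ?_ h4
    cases l with
    | nil => exact Set.mem_singleton _
    | cons c l => exact Or.inl (left_mem_segment ℝ _ c)

theorem simple_v {f : SpatialGraph G} {u v : V} (huv : G.Adj u v) {b : P3} {M : List P3}
    (hb : f.mid u v = b :: M) : IsSimple (b :: (M ++ [f.pt v])) ∧
      f.pt u ∉ arcSet (b :: (M ++ [f.pt v])) := by
  have h1 := f.simple u v huv
  rw [hb, List.cons_append] at h1
  refine ⟨h1.2.2, fun h => h1.1 ?_⟩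
  exact h1.2.1 ⟨left_mem_segment ℝ _ _, h⟩

end H97G
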