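import Pool.Agent.Lib.H97G.VC

/-!
# H97G, chunk VD: the new embedding

By definition `nmid x y` is the reverse of `nmid y x` for adjacent `x, y` (`f.mid_symm`). The new arc `u y` (`y ≠ v`) is
`b :: m y :: rs f u y`, the new arc `u v` is `b :: (M ++ [f.pt v])` (contained in the old arc `u v`), the other ones are
unchanged; for arcs ending in `u` use `arcSet_reverse`, `isSimple_reverse`.
`npt_inj`: `b ∈ T`, `f.pt w ∉ T`.
`new_disj` (for two arcs from `u`, an arc from `u` and an arc without `u`, two arcs without `u`):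
(1) both without `u`: old. (2) `u y`, `y ≠ v`, and `x x'` without `u`: `[b, m y] ⊆ T` is disjoint from `arc x x'`; the rest is in
the old arc `u y`: `f.disj`, the common end is not `u`. (3) `u v` and `x x'`: old, the common end is not `u`. (4) `u y` and `u y'`: `two_legs`;
`[b, m y]` and `arcSet (m y' :: rs f u y')`: a common point is in `T`, so `m y'`, which is not in `[b, m y]` (`bd_mem`, `m_ne`); the two old parts
meet only in `f.pt u`, which is in `T` and not `m y`. (5) `u y` and `u v`: `leg`; old parts: a common point is `f.pt u`, not in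
`arcSet (b :: (M ++ [f.pt v]))` (`simple_v`).
`new_vert`: `w ≠ u`: `f.pt w ∉ T`, so it is on the old part: `f.vert`; `w = u`: `b` is not on an arc without `u` (disjoint from `T`).
-/

namespace H97G

open H46K

variable {V : Type*} {G : SimpleGraph V}

theorem npt_inj {f : SpatialGraph G} {u v : V} {b : P3} {M : List P3} {T : Set P3} {m : V → P3}
    (hT : Tube f u v b M T m) : Function.Injective (npt f u b) := by
  intro x y hxy
  unfold npt at hxy
  have hbT : b ∈ T := interior_subset hT.bin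
  by_cases hx : x = u
  · by_cases hy : y = u
    · rw [hx, hy]
    · rw [if_pos hx, if_neg hy] at hxy
      exact absurd (hxy ▸ hbT) (hT.vtx y hy)
  · by_cases hy : y = u
    · rw [if_neg hx, if_pos hy] at hxy
      exact absurd (hxy ▸ hbT) (hT.vtx x hx)
    · rw [if_neg hx, if_neg hy] at hxy
      exact f.pt_inj hxy

theorem nmid_symm {f : SpatialGraph G} {u v : V} {M : List P3} {m : V → P3} (huv : G.Adj u v)
    (x y : V) (hxy : G.Adj x y) : nmid f u v M m y x = (nmid f u v M m x y).reverse := by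
  unfold nmid
  by_cases hx : x = u
  · have hy : y ≠ u := by
      rintro rfl
      rw [hx] at hxy
      exact G.irrefl hxy
    rw [if_neg hy, if_pos hx, if_pos hx]
    subst hx
    by_cases hyv : y = v
    · rw [if_pos hyv, if_pos hyv]
    · rw [if_neg hyv, if_neg hyv, f.mid_symm x y hxy, List.reverse_cons]
  · by_cases hy : y = u
    · rw [if_pos hy, if_neg hx, if_pos hy]
      subst hy
      by_cases hxv : x = v
      · rw [if_pos hxv, if_pos hxv, List.reverse_reverse]
      · rw [if_neg hxv, if_neg hxv, f.mid_symm x y hxy, List.reverse_append]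
        rfl
    · rw [if_neg hy, if_neg hx, if_neg hx, if_neg hy]
      exact f.mid_symm x y hxy

theorem VD_list_a (f : SpatialGraph G) {u : V} (v : V) (b : P3) (M : List P3) (m : V → P3)
    {x y : V} (hx : x ≠ u) (hy : y ≠ u) :
    npt f u b x :: (nmid f u v M m x y ++ [npt f u b y]) = f.arc x y := by
  unfold npt nmid SpatialGraph.arc
  rw [if_neg hx, if_neg hy, if_neg hx, if_neg hy]

theorem VD_list_b (f : SpatialGraph G) {u v : V} (b : P3) (M : List P3) (m : V → P3)
    (hvu : v ≠ u) :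
    npt f u b u :: (nmid f u v M m u v ++ [npt f u b v]) = b :: (M ++ [f.pt v]) := by
  simp [npt, nmid, hvu]

theorem VD_list_c (f : SpatialGraph G) {u v : V} (b : P3) (M : List P3) (m : V → P3) {y : V}
    (hyu : y ≠ u) (hyv : y ≠ v) :
    npt f u b u :: (nmid f u v M m u y ++ [npt f u b y]) = b :: m y :: rs f u y := by
  simp [npt, nmid, rs, hyu, hyv]

theorem VD_list_rev {f : SpatialGraph G} {u v : V} (b : P3) {M : List P3} {m : V → P3}
    (huv : G.Adj u v) {x y : V} (hxy : G.Adj x y) :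
    npt f u b y :: (nmid f u v M m y x ++ [npt f u b x]) =
      (npt f u b x :: (nmid f u v M m x y ++ [npt f u b y])).reverse := by
  rw [nmid_symm huv x y hxy]
  simp

theorem VD_arc_b {f : SpatialGraph G} {u v : V} {b : P3} {M : List P3}
    (hb : f.mid u v = b :: M) : arcSet (b :: (M ++ [f.pt v])) ⊆ arcSet (f.arc u v) := by
  unfold SpatialGraph.arc
  rw [hb]
  intro x hx
  exact Or.inr hx

theorem new_simple {f : SpatialGraph G} {u v : V} (huv : G.Adj u v) {b : P3} {M : List P3}
    (hb : f.mid u v = b :: M) {T : Set P3} {m : V → P3} (hT : Tube f u v b M T m) (x y : V)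
    (hxy : G.Adj x y) : IsSimple (npt f u b x :: (nmid f u v M m x y ++ [npt f u b y])) := by
  have key : ∀ y : V, G.Adj u y →
      IsSimple (npt f u b u :: (nmid f u v M m u y ++ [npt f u b y])) := by
    intro y hy
    have hyu : y ≠ u := fun h => G.irrefl (h ▸ hy)
    by_cases hyv : y = v
    · subst hyv
      rw [VD_list_b f b M m hyu]
      exact (simple_v huv hb).1
    · rw [VD_list_c f b M m hyu hyv]
      exact simple_new hT hy hyv
  by_cases hx : x = u
  · subst hx
    exact key y hxy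
  · by_cases hy : y = u
    · subst hy
      rw [VD_list_rev b huv hxy.symm, isSimple_reverse]
      exact key x hxy.symm
    · rw [VD_list_a f v b M m hx hy]
      exact f.simple x y hxy

/-- a pair of adjacent vertices in canonical order -/
theorem VD_canon {f : SpatialGraph G} {u v : V} (huv : G.Adj u v) (b : P3) {M : List P3}
    (m : V → P3) (x y : V) (hxy : G.Adj x y) : ∃ x' y', G.Adj x' y' ∧ s(x', y') = s(x, y) ∧
      (∀ w, (w = x' ∨ w = y') ↔ (w = x ∨ w = y)) ∧
      arcSet (npt f u b x' :: (nmid f u v M m x' y' ++ [npt f u b y'])) =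
        arcSet (npt f u b x :: (nmid f u v M m x y ++ [npt f u b y])) ∧
      ((x' ≠ u ∧ y' ≠ u) ∨ (x' = u ∧ y' ≠ u)) := by
  by_cases hx : x = u
  · refine ⟨x, y, hxy, rfl, fun w => Iff.rfl, rfl, Or.inr ⟨hx, ?_⟩⟩
    rintro rfl
    rw [hx] at hxy
    exact G.irrefl hxy
  · by_cases hy : y = u
    · refine ⟨y, x, hxy.symm, Sym2.eq_swap, fun w => or_comm, ?_, Or.inr ⟨hy, hx⟩⟩
      rw [VD_list_rev b huv hxy, arcSet_reverse]
    · exact ⟨x, y, hxy, rfl, fun w => Iff.rfl, rfl, Or.inl ⟨hx, hy⟩⟩

theorem VD_npt_ne (f : SpatialGraph G) {u : V} (b : P3) {w : V} (hw : w ≠ u) :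
    npt f u b w = f.pt w := by
  unfold npt
  rw [if_neg hw]

theorem VD_npt_u (f : SpatialGraph G) (u : V) (b : P3) : npt f u b u = b := by
  unfold npt
  rw [if_pos rfl]

/-- an arc without `u` and an arc from `u` -/
theorem VD_ab {f : SpatialGraph G} {u v : V} (huv : G.Adj u v) {b : P3} {M : List P3}
    (hb : f.mid u v = b :: M) {T : Set P3} {m : V → P3} (hT : Tube f u v b M T m) (x y y' : V)
    (hxy : G.Adj x y) (hx : x ≠ u) (hy : y ≠ u) (hy' : G.Adj u y') (hyu' : y' ≠ u) (z : P3)
    (hz : z ∈ arcSet (npt f u b x :: (nmid f u v M m x y ++ [npt f u b y])))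
    (hz' : z ∈ arcSet (npt f u b u :: (nmid f u v M m u y' ++ [npt f u b y']))) :
    ∃ w, (w = x ∨ w = y) ∧ (w = u ∨ w = y') ∧ z = npt f u b w := by
  rw [VD_list_a f v b M m hx hy] at hz
  have hne : s(x, y) ≠ s(u, y') := by
    intro h
    have hu : u ∈ s(x, y) := by
      rw [h]
      exact Sym2.mem_mk_left u y'
    rcases Sym2.mem_iff.1 hu with h | h
    · exact hx h.symm
    · exact hy h.symm
  have old : z ∈ arcSet (f.arc u y') →
      ∃ w, (w = x ∨ w = y) ∧ (w = u ∨ w = y') ∧ z = npt f u b w := by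
    intro h
    obtain ⟨w, h1, h2, h3⟩ := f.disj x y u y' hxy hy' hne z ⟨hz, h⟩
    refine ⟨w, h1, h2, ?_⟩
    rw [VD_npt_ne f b, h3]
    rcases h1 with h1 | h1
    · rw [h1]
      exact hx
    · rw [h1]
      exact hy
  by_cases hyv : y' = v
  · subst hyv
    rw [VD_list_b f b M m hyu'] at hz'
    exact old (VD_arc_b hb hz')
  · rw [VD_list_c f b M m hyu' hyv] at hz'
    rcases hz' with hz' | hz'
    · exact absurd (seg_T hT hy' hyv hz') (Set.disjoint_left.1 (hT.oth x y hxy hx hy) hz)
    · exact old ((arc_sub hT hy' hyv).1 hz')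

/-- the arc `u v` and another arc from `u` -/
theorem VD_bc {f : SpatialGraph G} {u v : V} (huv : G.Adj u v) {b : P3} {M : List P3}
    (hb : f.mid u v = b :: M) {T : Set P3} {m : V → P3} (hT : Tube f u v b M T m) (y : V)
    (hy : G.Adj u y) (hyu : y ≠ u) (hyv : y ≠ v) (z : P3)
    (hz : z ∈ arcSet (b :: (M ++ [f.pt v])))
    (hz' : z ∈ arcSet (b :: m y :: rs f u y)) : z = b := by
  rcases hz' with hz' | hz'
  · exact leg huv hb hT hy hyv ⟨hz', hz⟩
  · exfalso
    have h1 := (arc_sub hT hy hyv).1 hz'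
    have h2 := VD_arc_b hb hz
    have hne : s(u, v) ≠ s(u, y) := by
      intro h
      rcases Sym2.eq_iff.1 h with ⟨_, h⟩ | ⟨h, _⟩
      · exact hyv h.symm
      · exact hyu h.symm
    obtain ⟨w, k1, k2, k3⟩ := f.disj u v u y huv hy hne z ⟨h2, h1⟩
    have hw : w = u := by
      rcases k1 with k1 | k1
      · exact k1
      · rcases k2 with k2 | k2
        · exact k2
        · exact absurd (k2.symm.trans k1) hyv
    rw [k3, hw] at hz
    exact (simple_v huv hb).2 hz

/-- two arcs from `u` different from `u v` -/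
theorem VD_cc {f : SpatialGraph G} {u v : V} {b : P3} {M : List P3} {T : Set P3} {m : V → P3}
    (hT : Tube f u v b M T m) (y y' : V)
    (hy : G.Adj u y) (hyu : y ≠ u) (hyv : y ≠ v) (hy' : G.Adj u y') (hyu' : y' ≠ u)
    (hyv' : y' ≠ v) (hne : y ≠ y') (z : P3)
    (hz : z ∈ arcSet (b :: m y :: rs f u y))
    (hz' : z ∈ arcSet (b :: m y' :: rs f u y')) : z = b := by
  have mix : ∀ y y' : V, G.Adj u y → y ≠ v → G.Adj u y' → y' ≠ v → y ≠ y' →
      z ∈ segment ℝ b (m y) → z ∈ arcSet (m y' :: rs f u y') → False := by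
    intro y y' hy hyv hy' hyv' hne h1 h2
    have h3 : z = m y' := (arc_sub hT hy' hyv').2 ⟨h2, seg_T hT hy hyv h1⟩
    rw [h3] at h1
    have h4 := bd_mem hT.cvx hT.bin (hT.m_T y hy hyv) (hT.m_int y' hy' hyv') h1
    exact m_ne hT hy' hyv' hy hyv hne.symm h4
  rcases hz with hz | hz <;> rcases hz' with hz' | hz'
  · exact two_legs hT hy hyv hy' hyv' hne ⟨hz, hz'⟩
  · exact (mix y y' hy hyv hy' hyv' hne hz hz').elim
  · exact (mix y' y hy' hyv' hy hyv hne.symm hz' hz).elim
  · exfalso
    have h1 := (arc_sub hT hy hyv).1 hz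
    have h2 := (arc_sub hT hy' hyv').1 hz'
    have hne' : s(u, y) ≠ s(u, y') := by
      intro h
      rcases Sym2.eq_iff.1 h with ⟨_, h⟩ | ⟨h, _⟩
      · exact hne h
      · exact hyu' h.symm
    obtain ⟨w, k1, k2, k3⟩ := f.disj u y u y' hy hy' hne' z ⟨h1, h2⟩
    have hw : w = u := by
      rcases k1 with k1 | k1
      · exact k1
      · rcases k2 with k2 | k2
        · exact k2
        · exact absurd (k1.symm.trans k2) hne
    rw [hw] at k3
    have h3 : z ∈ T := by
      rw [k3]
      exact interior_subset hT.pin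
    have h4 : z = m y := (arc_sub hT hy hyv).2 ⟨hz, h3⟩
    apply hT.m_int y hy hyv
    rw [← h4, k3]
    exact hT.pin

theorem new_disj {f : SpatialGraph G} {u v : V} (huv : G.Adj u v) {b : P3} {M : List P3}
    (hb : f.mid u v = b :: M) {T : Set P3} {m : V → P3} (hT : Tube f u v b M T m) (x y x' y' : V)
    (hxy : G.Adj x y) (hxy' : G.Adj x' y') (hne : s(x, y) ≠ s(x', y'))
    (z : P3) (hz : z ∈ arcSet (npt f u b x :: (nmid f u v M m x y ++ [npt f u b y])) ∩
      arcSet (npt f u b x' :: (nmid f u v M m x' y' ++ [npt f u b y']))) :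
    ∃ w, (w = x ∨ w = y) ∧ (w = x' ∨ w = y') ∧ z = npt f u b w := by
  obtain ⟨p, q, a1, a2, a3, a4, a5⟩ := VD_canon (f := f) (M := M) huv b m x y hxy
  obtain ⟨p', q', b1, b2, b3, b4, b5⟩ := VD_canon (f := f) (M := M) huv b m x' y' hxy'
  obtain ⟨hz, hz'⟩ := hz
  rw [← a4] at hz
  rw [← b4] at hz'
  rw [← a2, ← b2] at hne
  suffices h : ∃ w, (w = p ∨ w = q) ∧ (w = p' ∨ w = q') ∧ z = npt f u b w by
    obtain ⟨w, h1, h2, h3⟩ := h
    exact ⟨w, (a3 w).1 h1, (b3 w).1 h2, h3⟩
  rcases a5 with ⟨hp, hq⟩ | ⟨hp, hq⟩ <;> rcases b5 with ⟨hp', hq'⟩ | ⟨hp', hq'⟩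
  · rw [VD_list_a f v b M m hp hq] at hz
    rw [VD_list_a f v b M m hp' hq'] at hz'
    obtain ⟨w, h1, h2, h3⟩ := f.disj p q p' q' a1 b1 hne z ⟨hz, hz'⟩
    refine ⟨w, h1, h2, ?_⟩
    rw [VD_npt_ne f b, h3]
    rcases h1 with h1 | h1
    · rw [h1]
      exact hp
    · rw [h1]
      exact hq
  · subst hp'
    exact VD_ab huv hb hT p q q' a1 hp hq b1 hq' z hz hz'
  · subst hp
    obtain ⟨w, h1, h2, h3⟩ := VD_ab huv hb hT p' q' q b1 hp' hq' a1 hq z hz' hz
    exact ⟨w, h2, h1, h3⟩
  · subst hp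
    subst hp'
    refine ⟨_, Or.inl rfl, Or.inl rfl, ?_⟩
    rw [VD_npt_u]
    have hqq : q ≠ q' := by
      rintro rfl
      exact hne rfl
    by_cases hqv : q = v
    · have hqv' : q' ≠ v := by
        intro h
        exact hqq (hqv.trans h.symm)
      subst hqv
      rw [VD_list_b f b M m hq] at hz
      rw [VD_list_c f b M m hq' hqv'] at hz'
      exact VD_bc huv hb hT q' b1 hq' hqv' z hz hz'
    · by_cases hqv' : q' = v
      · subst hqv'
        rw [VD_list_b f b M m hq'] at hz'
        rw [VD_list_c f b M m hq hqv] at hz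
        exact VD_bc huv hb hT q a1 hq hqv z hz' hz
      · rw [VD_list_c f b M m hq hqv] at hz
        rw [VD_list_c f b M m hq' hqv'] at hz'
        exact VD_cc hT q q' a1 hq hqv b1 hq' hqv' hqq z hz hz'

theorem new_vert {f : SpatialGraph G} {u v : V} (huv : G.Adj u v) {b : P3} {M : List P3}
    (hb : f.mid u v = b :: M) {T : Set P3} {m : V → P3} (hT : Tube f u v b M T m) (x y w : V)
    (hxy : G.Adj x y)
    (hz : npt f u b w ∈ arcSet (npt f u b x :: (nmid f u v M m x y ++ [npt f u b y]))) :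
    w = x ∨ w = y := by
  obtain ⟨p, q, a1, a2, a3, a4, a5⟩ := VD_canon (f := f) (M := M) huv b m x y hxy
  rw [← a4] at hz
  rw [← a3 w]
  have hbT : b ∈ T := interior_subset hT.bin
  rcases a5 with ⟨hp, hq⟩ | ⟨hp, hq⟩
  · rw [VD_list_a f v b M m hp hq] at hz
    by_cases hw : w = u
    · rw [hw, VD_npt_u] at hz
      exact absurd hbT (Set.disjoint_left.1 (hT.oth p q a1 hp hq) hz)
    · rw [VD_npt_ne f b hw] at hz
      exact f.vert p q w a1 hz
  · subst hp
    by_cases hw : w = p
    · exact Or.inl hw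
    · rw [VD_npt_ne f b hw] at hz
      by_cases hqv : q = v
      · subst hqv
        rw [VD_list_b f b M m hq] at hz
        exact f.vert p q w a1 (VD_arc_b hb hz)
      · rw [VD_list_c f b M m hq hqv] at hz
        rcases hz with hz | hz
        · exact absurd (seg_T hT a1 hqv hz) (hT.vtx w hw)
        · exact f.vert p q w a1 ((arc_sub hT a1 hqv).1 hz)

/-- the new embedding -/
noncomputable def nemb {f : SpatialGraph G} {u v : V} (huv : G.Adj u v) {b : P3} {M : List P3}
    (hb : f.mid u v = b :: M) {T : Set P3} {m : V → P3} (hT : Tube f u v b M T m) :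
    SpatialGraph G where
  pt := npt f u b
  mid := nmid f u v M m
  pt_inj := npt_inj hT
  mid_symm := fun x y hxy => nmid_symm huv x y hxy
  simple := fun x y hxy => new_simple huv hb hT x y hxy
  disj := fun x y x' y' hxy hxy' hne z hz => new_disj huv hb hT x y x' y' hxy hxy' hne z hz
  vert := fun x y w hxy hz => new_vert huv hb hT x y w hxy hz

end H97G
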