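import Pool.Agent.Lib.H97G.VD
import Pool.Agent.Lib.H97G.WA

/-!
# H97G, chunk VE: the part of a cycle outside of the tube

`R = f.mid u y ++ (f.poly q ++ (f.pt y' :: f.mid y' u))`: `arcSet R` is contained in the union of `arcSet (rs f u y)`, the arcs of `q` (`mem_poly`)
and `arcSet (f.pt y' :: f.mid y' u)` = (reversed) `arcSet (rs f u y')`; cut the list at `f.pt y` (the head of `f.poly q ++ [f.pt y']`) and at
`f.pt y'` with `arcSet_append`. All are disjoint from `T`. For `y' = v`: the last part is `arcSet (f.pt v :: M.reverse)` =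
`arcSet (M ++ [f.pt v])`.
Head of `R` is `nx f u y`, last element of `R` is `nx f u y'`.
-/

namespace H97G

open H46K

variable {V : Type*} {G : SimpleGraph V}

theorem VE_head (f : SpatialGraph G) {y y' : V} (q : G.Walk y y') (L : List P3) :
    ∃ l, f.poly q ++ (f.pt y' :: L) = f.pt y :: l := by
  cases q with
  | nil => exact ⟨L, rfl⟩
  | cons h p => exact ⟨_, rfl⟩

theorem VE_arc (f : SpatialGraph G) {u y y' : V} (q : G.Walk y y') (L : List P3) :
    arcSet (f.mid u y ++ (f.poly q ++ (f.pt y' :: L))) = arcSet (rs f u y) ∪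
      (arcSet (f.poly q ++ [f.pt y']) ∪ arcSet (f.pt y' :: L)) := by
  obtain ⟨l, hl⟩ := VE_head f q L
  rw [← arcSet_append (f.poly q) (f.pt y') L, hl, arcSet_append]
  rfl

theorem VE_poly {f : SpatialGraph G} {u v : V} {b : P3} {M : List P3} {T : Set P3} {m : V → P3}
    (hT : Tube f u v b M T m) {y y' : V} (q : G.Walk y y') (hq : u ∉ q.support) :
    Disjoint (arcSet (f.poly q ++ [f.pt y'])) T := by
  rw [Set.disjoint_left]
  intro x hx hxT
  rcases mem_poly f q x hx with rfl | ⟨a, c, hac, he, hxa⟩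
  · refine hT.vtx y' ?_ hxT
    rintro rfl
    exact hq q.end_mem_support
  · refine Set.disjoint_left.mp (hT.oth a c hac ?_ ?_) hxa hxT
    · rintro rfl
      exact hq (q.fst_mem_support_of_mem_edges he)
    · rintro rfl
      exact hq (q.snd_mem_support_of_mem_edges he)

theorem arc_R {f : SpatialGraph G} {u v : V} {b : P3} {M : List P3} {T : Set P3} {m : V → P3}
    (hT : Tube f u v b M T m) {y y' : V} (hy : G.Adj u y) (hyv : y ≠ v) (hy' : G.Adj y' u)
    (hyv' : y' ≠ v) (q : G.Walk y y') (hq : u ∉ q.support) :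
    Disjoint (arcSet (f.mid u y ++ (f.poly q ++ (f.pt y' :: f.mid y' u)))) T := by
  rw [VE_arc, Set.disjoint_union_left, Set.disjoint_union_left]
  refine ⟨hT.tail y hy hyv, VE_poly hT q hq, ?_⟩
  have h1 : f.pt y' :: f.mid y' u = (rs f u y').reverse := by
    rw [rs, List.reverse_append, f.mid_symm u y' hy'.symm]
    rfl
  rw [h1, arcSet_reverse]
  exact hT.tail y' hy'.symm hyv'

theorem arc_Rv {f : SpatialGraph G} {u v : V} {b : P3} {M : List P3} {T : Set P3} {m : V → P3}
    (hT : Tube f u v b M T m) {y : V} (hy : G.Adj u y) (hyv : y ≠ v)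
    (q : G.Walk y v) (hq : u ∉ q.support) :
    Disjoint (arcSet (f.mid u y ++ (f.poly q ++ (f.pt v :: M.reverse)))) T := by
  rw [VE_arc, Set.disjoint_union_left, Set.disjoint_union_left]
  refine ⟨hT.tail y hy hyv, VE_poly hT q hq, ?_⟩
  have h1 : f.pt v :: M.reverse = (M ++ [f.pt v]).reverse := by
    rw [List.reverse_append]
    rfl
  rw [h1, arcSet_reverse]
  exact hT.tailv

theorem R_head (f : SpatialGraph G) {u y y' : V} (q : G.Walk y y') (L : List P3) :
    ∃ l, f.mid u y ++ (f.poly q ++ (f.pt y' :: L)) = nx f u y :: l := by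
  obtain ⟨l, hl⟩ := VE_head f q L
  rw [hl]
  unfold nx
  cases h : f.mid u y with
  | nil => exact ⟨l, rfl⟩
  | cons a t => exact ⟨_, rfl⟩

theorem R_last (f : SpatialGraph G) {u y' : V} (hy' : G.Adj y' u) (L : List P3) :
    ∃ l, L ++ (f.pt y' :: f.mid y' u) = l ++ [nx f u y'] := by
  rw [f.mid_symm u y' hy'.symm]
  unfold nx
  cases h : f.mid u y' with
  | nil => exact ⟨L, rfl⟩
  | cons a t =>
    refine ⟨L ++ (f.pt y' :: t.reverse), ?_⟩
    simp

end H97G
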